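import Mathlib

/-!
# An elementary Kloosterman bound in characteristic two
-/

namespace Pool.Agent.V11145.KloostermanTwo

open Finset

/-- a non-trivial additive character with values `1, -1` -/
structure IsSign {F : Type*} [Field F] (χ : F → ℤ) : Prop where
  add : ∀ x y, χ (x + y) = χ x * χ y
  pm : ∀ x, χ x = 1 ∨ χ x = -1
  ne : ∃ x, χ x = -1

variable {F : Type*} [Field F] [Fintype F] [DecidableEq F] {χ : F → ℤ}

omit [Fintype F] [DecidableEq F] in
lemma IsSign.zero (h : IsSign χ) : χ 0 = 1 := by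
  have h1 := h.add 0 0
  rw [add_zero] at h1
  rcases h.pm 0 with h2 | h2
  · exact h2
  · rw [h2] at h1; norm_num at h1

omit [DecidableEq F] in
lemma IsSign.sum_mul (h : IsSign χ) {x : F} (hx : x ≠ 0) : ∑ a : F, χ (a * x) = 0 := by
  obtain ⟨z, hz⟩ := h.ne
  have h1 : ∑ a : F, χ (a * x) = ∑ a : F, χ ((a + z / x) * x) :=
    (Equiv.sum_comp (Equiv.addRight (z / x)) (fun a => χ (a * x))).symm
  have h2 : ∀ a : F, χ ((a + z / x) * x) = - χ (a * x) := by
    intro a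
    rw [add_mul, div_mul_cancel₀ _ hx, h.add, hz]
    ring
  simp only [h2, Finset.sum_neg_distrib] at h1
  linarith

omit [DecidableEq F] in
lemma IsSign.sum_mul_zero (h : IsSign χ) : ∑ a : F, χ (a * 0) = Fintype.card F := by
  simp [h.zero]

/-- Kloosterman sum -/
def S (χ : F → ℤ) (a b : F) : ℤ := ∑ t : Fˣ, χ (a * t + b * (t⁻¹ : Fˣ))

lemma S_scale (χ : F → ℤ) (a b : F) (c : Fˣ) : S χ (a * c) (b * (c⁻¹ : Fˣ)) = S χ a b := by
  unfold S
  rw [← Equiv.sum_comp (Equiv.mulLeft c) (fun t : Fˣ => χ (a * t + b * (t⁻¹ : Fˣ)))]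
  apply Finset.sum_congr rfl
  intro t _
  congr 1
  simp only [Equiv.coe_mulLeft, mul_inv_rev, Units.val_mul]
  ring

/-- The index set of the fourth moment. -/
def quad (F : Type*) [Field F] [Fintype F] [DecidableEq F] : Finset (Fin 4 → Fˣ) :=
  univ.filter (fun p => (∑ i, (p i : F)) = 0 ∧ (∑ i, (((p i)⁻¹ : Fˣ) : F)) = 0)

omit [Fintype F] [DecidableEq F] in
lemma prod_char (h : IsSign χ) (f : Fin 4 → F) : ∏ i, χ (f i) = χ (∑ i, f i) := by
  simp only [Fin.prod_univ_four, Fin.sum_univ_four, h.add]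

lemma fourth_moment (h : IsSign χ) :
    ∑ a : F, ∑ b : F, (S χ a b) ^ 4 = (Fintype.card F : ℤ) ^ 2 * (quad F).card := by
  have h1 : ∀ a b : F, (S χ a b) ^ 4 = ∑ p : Fin 4 → Fˣ,
      χ (a * ∑ i, (p i : F)) * χ (b * ∑ i, (((p i)⁻¹ : Fˣ) : F)) := by
    intro a b
    unfold S
    rw [Fintype.sum_pow]
    apply Finset.sum_congr rfl
    intro p _
    rw [prod_char h, Finset.sum_add_distrib, h.add, Finset.mul_sum, Finset.mul_sum]
  simp only [h1]
  have h2 : ∑ a : F, ∑ b : F, ∑ p : Fin 4 → Fˣ,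
      χ (a * ∑ i, (p i : F)) * χ (b * ∑ i, (((p i)⁻¹ : Fˣ) : F))
      = ∑ p : Fin 4 → Fˣ, (∑ a : F, χ (a * ∑ i, (p i : F))) *
        (∑ b : F, χ (b * ∑ i, (((p i)⁻¹ : Fˣ) : F))) := by
    calc _ = ∑ a : F, ∑ p : Fin 4 → Fˣ, ∑ b : F,
          χ (a * ∑ i, (p i : F)) * χ (b * ∑ i, (((p i)⁻¹ : Fˣ) : F)) :=
            Finset.sum_congr rfl (fun a _ => Finset.sum_comm)
      _ = ∑ p : Fin 4 → Fˣ, ∑ a : F, ∑ b : F,
          χ (a * ∑ i, (p i : F)) * χ (b * ∑ i, (((p i)⁻¹ : Fˣ) : F)) := Finset.sum_comm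
      _ = _ := by
          apply Finset.sum_congr rfl
          intro p _
          rw [Finset.sum_mul_sum]
  rw [h2]
  have h3 : ∀ x : F, ∑ a : F, χ (a * x) = if x = 0 then (Fintype.card F : ℤ) else 0 := by
    intro x
    split_ifs with hx
    · rw [hx]; exact h.sum_mul_zero
    · exact h.sum_mul hx
  simp only [h3]
  have h4 : ∀ p : Fin 4 → Fˣ, (if (∑ i, (p i : F)) = 0 then (Fintype.card F : ℤ) else 0) *
      (if (∑ i, (((p i)⁻¹ : Fˣ) : F)) = 0 then (Fintype.card F : ℤ) else 0)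
      = if ((∑ i, (p i : F)) = 0 ∧ (∑ i, (((p i)⁻¹ : Fˣ) : F)) = 0) then
        (Fintype.card F : ℤ) ^ 2 else 0 := by
    intro p
    by_cases ha : (∑ i, (p i : F)) = 0 <;> by_cases hb : (∑ i, (((p i)⁻¹ : Fˣ) : F)) = 0 <;>
      simp [ha, hb, sq]
  simp only [h4]
  rw [← Finset.sum_filter, Finset.sum_const, nsmul_eq_mul, mul_comm]
  rfl

lemma quad_sub [CharP F 2] (p : Fin 4 → Fˣ) (hp : p ∈ quad F) :
    (p 0 = p 1 ∧ p 2 = p 3) ∨ (p 0 = p 2 ∧ p 1 = p 3) ∨ (p 0 = p 3 ∧ p 1 = p 2) := by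
  unfold quad at hp
  rw [Finset.mem_filter] at hp
  obtain ⟨_, h1, h2⟩ := hp
  rw [Fin.sum_univ_four] at h1 h2
  simp only [Units.val_inv_eq_inv_val] at h2
  have two : (2:F) = 0 := CharTwo.two_eq_zero
  have n0 : (p 0 : F) ≠ 0 := (p 0).ne_zero
  have n1 : (p 1 : F) ≠ 0 := (p 1).ne_zero
  have n2 : (p 2 : F) ≠ 0 := (p 2).ne_zero
  have n3 : (p 3 : F) ≠ 0 := (p 3).ne_zero
  have key : ∀ x y : Fˣ, (x : F) + y = 0 → x = y := by
    intro x y hxy
    apply Units.ext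
    exact CharTwo.add_eq_zero.1 hxy
  by_cases hs : (p 0 : F) + p 1 = 0
  · left
    refine ⟨key _ _ hs, key _ _ ?_⟩
    rw [hs, zero_add] at h1
    exact h1
  · right
    have h3 : (p 1 : F) * p 2 * p 3 + p 0 * p 2 * p 3 + p 0 * p 1 * p 3 + p 0 * p 1 * p 2 = 0 := by
      field_simp at h2
      linear_combination h2
    -- (p0+p1) (p2 p3 + p0 p1) = 0
    have h4 : ((p 0 : F) + p 1) * (p 2 * p 3 + p 0 * p 1) = 0 := by
      have e : (p 2 : F) + p 3 = p 0 + p 1 := by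
        linear_combination h1 - two * (p 0 + p 1 : F)
      linear_combination h3 + (p 0 * p 1 : F) * (-e)
    have h5 : (p 2 * p 3 + p 0 * p 1 : F) = 0 := (mul_eq_zero.1 h4).resolve_left hs
    have h6 : ((p 0 : F) + p 2) * (p 0 + p 3) = 0 := by
      linear_combination h5 + (p 0 : F) * h1 - two * (p 0 * p 1 : F)
    rcases mul_eq_zero.1 h6 with h7 | h7
    · left
      refine ⟨key _ _ h7, key _ _ ?_⟩
      linear_combination h1 - h7
    · right
      refine ⟨key _ _ h7, key _ _ ?_⟩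
      linear_combination h1 - h7

lemma quad_card [CharP F 2] : (quad F).card ≤ 3 * (Fintype.card Fˣ) ^ 2 := by
  let g1 : Fˣ × Fˣ → (Fin 4 → Fˣ) := fun x => ![x.1, x.1, x.2, x.2]
  let g2 : Fˣ × Fˣ → (Fin 4 → Fˣ) := fun x => ![x.1, x.2, x.1, x.2]
  let g3 : Fˣ × Fˣ → (Fin 4 → Fˣ) := fun x => ![x.1, x.2, x.2, x.1]
  have hsub : quad F ⊆ (univ.image g1 ∪ univ.image g2) ∪ univ.image g3 := by
    intro p hp
    rw [Finset.mem_union, Finset.mem_union, Finset.mem_image, Finset.mem_image, Finset.mem_image]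
    rcases quad_sub p hp with ⟨h1, h2⟩ | ⟨h1, h2⟩ | ⟨h1, h2⟩
    · left; left
      refine ⟨(p 0, p 2), Finset.mem_univ _, ?_⟩
      funext i
      fin_cases i <;> simp [g1, h1, h2]
    · left; right
      refine ⟨(p 0, p 1), Finset.mem_univ _, ?_⟩
      funext i
      fin_cases i <;> simp [g2, h1, h2]
    · right
      refine ⟨(p 0, p 1), Finset.mem_univ _, ?_⟩
      funext i
      fin_cases i <;> simp [g3, h1, h2]
  have hc : ∀ g : Fˣ × Fˣ → (Fin 4 → Fˣ), (univ.image g).card ≤ (Fintype.card Fˣ) ^ 2 := by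
    intro g
    refine Finset.card_image_le.trans ?_
    rw [Finset.card_univ, Fintype.card_prod, sq]
  refine (Finset.card_le_card hsub).trans ?_
  refine (Finset.card_union_le _ _).trans ?_
  have := Finset.card_union_le (univ.image g1) (univ.image g2)
  have h1 := hc g1
  have h2 := hc g2
  have h3 := hc g3
  omega

/-- The elementary bound `S(a,b)^4 <= 3 q^3` for `a ≠ 0`. -/
theorem S_bound [CharP F 2] (h : IsSign χ) {a : F} (ha : a ≠ 0) (b : F) :
    (S χ a b) ^ 4 ≤ 3 * (Fintype.card F : ℤ) ^ 3 := by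
  have hle : ∑ c : Fˣ, (S χ (a * c) (b * (c⁻¹ : Fˣ))) ^ 4 ≤ ∑ x : F, ∑ y : F, (S χ x y) ^ 4 := by
    have h1 : ∑ x : F, ∑ y : F, (S χ x y) ^ 4 = ∑ z : F × F, (S χ z.1 z.2) ^ 4 :=
      (Fintype.sum_prod_type' (fun x y => (S χ x y) ^ 4)).symm
    rw [h1]
    let g : Fˣ ↪ F × F := ⟨fun c => (a * c, b * (c⁻¹ : Fˣ)), by
      intro c c' hcc
      simp only [Prod.mk.injEq] at hcc
      exact Units.ext (mul_left_cancel₀ ha hcc.1)⟩
    have h2 : ∑ c : Fˣ, (S χ (a * c) (b * (c⁻¹ : Fˣ))) ^ 4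
        = ∑ z ∈ univ.map g, (S χ z.1 z.2) ^ 4 := by
      rw [Finset.sum_map]
      rfl
    rw [h2]
    apply Finset.sum_le_sum_of_subset_of_nonneg (Finset.subset_univ _)
    intro z _ _
    positivity
  simp only [S_scale] at hle
  rw [Finset.sum_const, Finset.card_univ, nsmul_eq_mul, fourth_moment h] at hle
  have hq := quad_card (F := F)
  have hu : Fintype.card Fˣ + 1 = Fintype.card F := by
    rw [Fintype.card_units]
    have := Fintype.card_pos (α := F)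
    omega
  have hupos : 0 < Fintype.card Fˣ := Fintype.card_pos
  have hq' : ((quad F).card : ℤ) ≤ 3 * (Fintype.card Fˣ : ℤ) ^ 2 := by exact_mod_cast hq
  have hupos' : (0:ℤ) < (Fintype.card Fˣ : ℤ) := by exact_mod_cast hupos
  have hu' : (Fintype.card Fˣ : ℤ) ≤ (Fintype.card F : ℤ) := by
    have : Fintype.card Fˣ ≤ Fintype.card F := by omega
    exact_mod_cast this
  have h5 : (Fintype.card Fˣ : ℤ) * (S χ a b) ^ 4
      ≤ (Fintype.card Fˣ : ℤ) * (3 * (Fintype.card F : ℤ) ^ 2 * (Fintype.card Fˣ : ℤ)) := by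
    refine hle.trans ?_
    have := mul_le_mul_of_nonneg_left hq' (by positivity : (0:ℤ) ≤ (Fintype.card F : ℤ) ^ 2)
    refine this.trans (le_of_eq ?_)
    ring
  have h6 := le_of_mul_le_mul_left h5 hupos'
  refine h6.trans ?_
  have := mul_le_mul_of_nonneg_left hu' (by positivity : (0:ℤ) ≤ 3 * (Fintype.card F : ℤ) ^ 2)
  refine this.trans (le_of_eq ?_)
  ring

end Pool.Agent.V11145.KloostermanTwo
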