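import Mathlib

/-!
# A small set meeting many families of disjoint pairs (first moment method)
-/

namespace Pool.Agent.V11145.RandomCore

open Finset

variable {V : Type} [Fintype V] [DecidableEq V]

/-- splitting a colouring along an injection -/
noncomputable def splitEquiv {L : ℕ} (e : Fin L × Fin 2 → V) (he : Function.Injective e) :
    (V → Fin 8) ≃ (Fin L → Fin 2 → Fin 8) × ((Set.range e)ᶜ.Elem → Fin 8) :=
  haveI : DecidablePred (· ∈ Set.range e) := Classical.decPred _
  ((Equiv.arrowCongr (((Equiv.ofInjective e he).sumCongr (Equiv.refl _)).trans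
    (Equiv.Set.sumCompl (Set.range e))).symm (Equiv.refl (Fin 8))).trans
    (Equiv.sumArrowEquivProdArrow _ _ _)).trans
    (Equiv.prodCongr (Equiv.curry _ _ _) (Equiv.refl _))

omit [Fintype V] [DecidableEq V] in
lemma splitEquiv_fst {L : ℕ} (e : Fin L × Fin 2 → V) (he : Function.Injective e) (c : V → Fin 8)
    (i : Fin L) (s : Fin 2) : (splitEquiv e he c).1 i s = c (e (i, s)) := by
  simp [splitEquiv, Equiv.arrowCongr]

lemma card_pair (j : Fin 8) :
    ((univ : Finset (Fin 2 → Fin 8)).filter (fun g => ¬ (g 0 = j ∧ g 1 = j))).card = 63 := by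
  revert j
  decide +kernel

lemma count_bad {L : ℕ} (e : Fin L × Fin 2 → V) (he : Function.Injective e) (j : Fin 8) :
    ((univ : Finset (V → Fin 8)).filter
      (fun c => ∀ i, ¬ (c (e (i, 0)) = j ∧ c (e (i, 1)) = j))).card * 64 ^ L
      = 63 ^ L * 8 ^ (Fintype.card V) := by
  classical
  have h1 : ((univ : Finset (V → Fin 8)).filter
      (fun c => ∀ i, ¬ (c (e (i, 0)) = j ∧ c (e (i, 1)) = j))).card
      = ((Fintype.piFinset (fun _ : Fin L => (univ : Finset (Fin 2 → Fin 8)).filter
          (fun g => ¬ (g 0 = j ∧ g 1 = j)))) ×ˢ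
        (univ : Finset ((Set.range e)ᶜ.Elem → Fin 8))).card := by
    apply Finset.card_equiv (splitEquiv e he)
    intro c
    rw [Finset.mem_filter, Finset.mem_product, Fintype.mem_piFinset]
    simp only [Finset.mem_univ, true_and, and_true, Finset.mem_filter, splitEquiv_fst]
  have h2 := card_pair j
  have h3 : Fintype.card V = L * 2 + Fintype.card ((Set.range e)ᶜ.Elem) := by
    have : Fintype.card V = Fintype.card ((Fin L × Fin 2) ⊕ ((Set.range e)ᶜ.Elem)) := by
      apply Fintype.card_congr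
      exact (((Equiv.ofInjective e he).sumCongr (Equiv.refl _)).trans
        (Equiv.Set.sumCompl (Set.range e))).symm
    rw [this, Fintype.card_sum, Fintype.card_prod, Fintype.card_fin, Fintype.card_fin]
  rw [h1, Finset.card_product, Fintype.card_piFinset]
  simp only [h2, Finset.prod_const, Finset.card_univ, Fintype.card_fin, Fintype.card_fun]
  rw [h3, pow_add, pow_mul]
  have h4 : ((8:ℕ) ^ L) ^ 2 = 64 ^ L := by
    rw [← pow_mul, mul_comm, pow_mul]
    norm_num
  rw [h4]
  ring

/-- The random core. -/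
theorem exists_core {R : Type} [Fintype R] {L : ℕ} (e : R → Fin L × Fin 2 → V)
    (he : ∀ r, Function.Injective (e r))
    (hlt : Fintype.card R * 8 * 63 ^ L < 64 ^ L) :
    ∃ W : Finset V, 8 * W.card ≤ Fintype.card V ∧
      ∀ r, ∃ i, e r (i, 0) ∈ W ∧ e r (i, 1) ∈ W := by
  classical
  let Bad : R × Fin 8 → Finset (V → Fin 8) := fun z => univ.filter
      (fun c => ∀ i, ¬ (c (e z.1 (i, 0)) = z.2 ∧ c (e z.1 (i, 1)) = z.2))
  have hsum : (∑ z : R × Fin 8, (Bad z).card) * 64 ^ L
      = Fintype.card R * 8 * 63 ^ L * 8 ^ (Fintype.card V) := by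
    rw [Finset.sum_mul]
    have : ∀ z ∈ (univ : Finset (R × Fin 8)), (Bad z).card * 64 ^ L
        = 63 ^ L * 8 ^ (Fintype.card V) := fun z _ => count_bad (e z.1) (he z.1) z.2
    rw [Finset.sum_congr rfl this, Finset.sum_const, Finset.card_univ, Fintype.card_prod,
      Fintype.card_fin, smul_eq_mul]
    ring
  have hsum2 : (∑ z : R × Fin 8, (Bad z).card) * 64 ^ L < 8 ^ (Fintype.card V) * 64 ^ L := by
    rw [hsum, mul_comm (8 ^ (Fintype.card V)) (64 ^ L)]
    exact Nat.mul_lt_mul_of_pos_right hlt (by positivity)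
  have hsum3 : ∑ z : R × Fin 8, (Bad z).card < 8 ^ (Fintype.card V) :=
    Nat.lt_of_mul_lt_mul_right hsum2
  have hun : ((univ : Finset (R × Fin 8)).biUnion Bad).card
      < (univ : Finset (V → Fin 8)).card := by
    refine lt_of_le_of_lt Finset.card_biUnion_le (lt_of_lt_of_eq hsum3 ?_)
    rw [Finset.card_univ, Fintype.card_fun, Fintype.card_fin]
  obtain ⟨c, _, hc⟩ := Finset.exists_mem_notMem_of_card_lt_card hun
  have hc' : ∀ r j, ∃ i, c (e r (i, 0)) = j ∧ c (e r (i, 1)) = j := by
    intro r j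
    by_contra hcon
    push Not at hcon
    apply hc
    rw [Finset.mem_biUnion]
    refine ⟨(r, j), Finset.mem_univ _, ?_⟩
    rw [Finset.mem_filter]
    refine ⟨Finset.mem_univ _, ?_⟩
    rintro i ⟨h1, h2⟩
    exact hcon i h1 h2
  -- a small colour class
  have hclasses : ∑ j : Fin 8, ((univ : Finset V).filter (fun v => c v = j)).card
      = Fintype.card V := by
    rw [← Finset.card_univ (α := V)]
    exact (Finset.card_eq_sum_card_fiberwise (f := c) (t := univ)
      (fun _ _ => Finset.mem_coe.2 (Finset.mem_univ _))).symm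
  obtain ⟨j, hj⟩ : ∃ j : Fin 8, 8 * ((univ : Finset V).filter (fun v => c v = j)).card
      ≤ Fintype.card V := by
    by_contra hcon
    push Not at hcon
    have h1 : ∑ j : Fin 8, Fintype.card V
        < ∑ j : Fin 8, 8 * ((univ : Finset V).filter (fun v => c v = j)).card :=
      Finset.sum_lt_sum_of_nonempty Finset.univ_nonempty (fun j _ => hcon j)
    rw [← Finset.mul_sum, hclasses, Finset.sum_const, Finset.card_univ, Fintype.card_fin,
      smul_eq_mul] at h1
    exact lt_irrefl _ h1
  refine ⟨(univ : Finset V).filter (fun v => c v = j), hj, ?_⟩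
  intro r
  obtain ⟨i, h1, h2⟩ := hc' r j
  exact ⟨i, Finset.mem_filter.2 ⟨Finset.mem_univ _, h1⟩, Finset.mem_filter.2
    ⟨Finset.mem_univ _, h2⟩⟩

end Pool.Agent.V11145.RandomCore
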