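import Mathlib
import Pool.Agent.V11145.KloostermanTwo

/-!
# A triangle-free, C4-free graph with many paths of length three
-/

namespace Pool.Agent.V11145.TraceGraph

open Finset Pool.Agent.V11145.KloostermanTwo

variable {F : Type} [Field F] [Fintype F] [DecidableEq F] (χ : F → ℤ)

/-- The vertices: pairs `(a, b)` with `a ≠ 0` and `χ (1/a) = -1`. -/
abbrev Vert : Type := {p : F × F // p.1 ≠ 0 ∧ χ (p.1)⁻¹ = -1}

/-- adjacency `b + d = a c` -/
def adj (u v : Vert χ) : Prop := u.1.2 + v.1.2 = u.1.1 * v.1.1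

instance : DecidableRel (adj χ) := fun u v => by unfold adj; infer_instance

omit [Fintype F] [DecidableEq F] in
lemma adj_symm {u v : Vert χ} (h : adj χ u v) : adj χ v u := by
  unfold adj at *
  rw [add_comm, h, mul_comm]

omit [Fintype F] [DecidableEq F] in
lemma adj_irrefl [CharP F 2] (u : Vert χ) : ¬ adj χ u u := by
  intro h
  unfold adj at h
  rw [CharTwo.add_self_eq_zero] at h
  exact u.2.1 (mul_self_eq_zero.1 h.symm)

variable {χ}

omit [Fintype F] [DecidableEq F] in
lemma no_triangle [CharP F 2] (h : IsSign χ) (u v w : Vert χ) (h1 : adj χ u v) (h2 : adj χ v w)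
    (h3 : adj χ w u) : False := by
  obtain ⟨⟨a, b⟩, ha, hχa⟩ := u
  obtain ⟨⟨c, d⟩, hc, hχc⟩ := v
  obtain ⟨⟨e, f⟩, he, hχe⟩ := w
  simp only [adj] at *
  have two : (2:F) = 0 := CharTwo.two_eq_zero
  have hsum : a * c + c * e + e * a = 0 := by
    linear_combination (b + d + f) * two - h1 - h2 - h3
  have hinv : a⁻¹ + c⁻¹ + e⁻¹ = 0 := by
    field_simp
    linear_combination hsum
  have h4 : χ (a⁻¹ + c⁻¹ + e⁻¹) = -1 := by
    rw [h.add, h.add, hχa, hχc, hχe]
    norm_num
  rw [hinv, h.zero] at h4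
  norm_num at h4

omit [Fintype F] [DecidableEq F] in
lemma unique_common [CharP F 2] {u v : Vert χ} (huv : u ≠ v) {x y : Vert χ} (h1 : adj χ u x)
    (h2 : adj χ v x) (h3 : adj χ u y) (h4 : adj χ v y) : x = y := by
  obtain ⟨⟨a, b⟩, ha, hχa⟩ := u
  obtain ⟨⟨c, d⟩, hc, hχc⟩ := v
  obtain ⟨⟨e, f⟩, he, hχe⟩ := x
  obtain ⟨⟨e', f'⟩, he', hχe'⟩ := y
  simp only [adj] at *
  have hac : a ≠ c := by
    intro hac
    apply huv
    apply Subtype.ext
    simp only [Prod.mk.injEq]
    refine ⟨hac, ?_⟩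
    rw [hac] at h1
    have := h1.trans h2.symm
    exact add_right_cancel this
  have e1 : (a - c) * (e - e') = 0 := by
    linear_combination (-1 : F) * h1 + h2 + h3 - h4
  have e2 : e = e' := by
    rcases mul_eq_zero.1 e1 with h | h
    · exact absurd (sub_eq_zero.1 h) hac
    · exact sub_eq_zero.1 h
  have e3 : f = f' := by
    rw [e2] at h1
    exact add_left_cancel (h1.trans h3.symm)
  apply Subtype.ext
  simp only [Prod.mk.injEq]
  exact ⟨e2, e3⟩

/-- the solution set describing the paths of length three from `(a,b)` to `(c,d)`; `h = b + d` -/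
def Sol (χ : F → ℤ) (a c h : F) : Finset (F × F) :=
  univ.filter (fun z => 1 + c * z.1 + a * z.2 + h * z.1 * z.2 = 0 ∧ χ z.1 = -1 ∧ χ z.2 = -1)

omit [Fintype F] [DecidableEq F] in
lemma one_sub_mul (h : IsSign χ) (x y : F) :
    (1 - χ x) * (1 - χ y) = if (χ x = -1 ∧ χ y = -1) then 4 else 0 := by
  rcases h.pm x with hx | hx <;> rcases h.pm y with hy | hy <;> simp [hx, hy]

/-- case `h ≠ 0` -/
lemma sol_card_ne [CharP F 2] (hχ : IsSign χ) {a c h : F} (hh : h ≠ 0) (hK : h + a * c ≠ 0) :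
    (Fintype.card F : ℤ) - 3 - |S χ (h⁻¹) ((h + a * c) * h⁻¹)| ≤ 4 * ((Sol χ a c h).card : ℤ) := by
  set K := h + a * c with hKdef
  let X : Fˣ → F := fun v => (v + a) * h⁻¹
  let Y : Fˣ → F := fun v => (K * (v⁻¹ : Fˣ) + c) * h⁻¹
  let T : Finset Fˣ := univ.filter (fun v => χ (X v) = -1 ∧ χ (Y v) = -1)
  have two : (2:F) = 0 := CharTwo.two_eq_zero
  have hT : T.card ≤ (Sol χ a c h).card := by
    apply Finset.card_le_card_of_injOn (fun v => (X v, Y v))
    · intro v hv
      have hv' := (Finset.mem_filter.1 hv).2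
      simp only [Sol, Finset.coe_filter, Finset.mem_univ, true_and, Set.mem_ofPred_eq]
      refine ⟨?_, hv'⟩
      have hv0 : (v : F) ≠ 0 := v.ne_zero
      simp only [X, Y, Units.val_inv_eq_inv_val]
      field_simp
      rw [hKdef]
      linear_combination (h * v + a * h + a * c * v + a ^ 2 * c + a * c * v + c * v ^ 2) * two
    · intro v _ v' _ hvv
      simp only [Prod.mk.injEq] at hvv
      have h1 : (v : F) + a = v' + a := mul_right_cancel₀ (inv_ne_zero hh) hvv.1
      exact Units.ext (add_right_cancel h1)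
  have hsum : ∑ v : Fˣ, (1 - χ (X v)) * (1 - χ (Y v)) = 4 * (T.card : ℤ) := by
    simp only [one_sub_mul hχ]
    rw [← Finset.sum_filter, Finset.sum_const, nsmul_eq_mul, mul_comm]
  have hexp : ∑ v : Fˣ, (1 - χ (X v)) * (1 - χ (Y v))
      = (Fintype.card Fˣ : ℤ) - ∑ v : Fˣ, χ (X v) - ∑ v : Fˣ, χ (Y v)
        + ∑ v : Fˣ, χ (X v) * χ (Y v) := by
    have : ∀ v : Fˣ, (1 - χ (X v)) * (1 - χ (Y v)) = 1 - χ (X v) - χ (Y v) + χ (X v) * χ (Y v) := by
      intro v; ring
    simp only [this, Finset.sum_add_distrib, Finset.sum_sub_distrib]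
    simp
  -- the linear sums
  have hunits : ∀ g : F, g ≠ 0 → ∑ v : Fˣ, χ ((v : F) * g) = -1 := by
    intro g hg
    have h1 := hχ.sum_mul hg
    have h2 : ∑ a : F, χ (a * g) = χ (0 * g) + ∑ v : Fˣ, χ ((v : F) * g) := by
      rw [← Finset.add_sum_erase _ _ (Finset.mem_univ (0 : F))]
      congr 1
      symm
      apply Finset.sum_bij (fun (v : Fˣ) _ => (v : F))
      · intro v _
        rw [Finset.mem_erase]
        exact ⟨v.ne_zero, Finset.mem_univ _⟩
      · intro v _ w _ hvw
        exact Units.ext hvw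
      · intro b hb
        rw [Finset.mem_erase] at hb
        exact ⟨Units.mk0 b hb.1, Finset.mem_univ _, rfl⟩
      · intro v _
        rfl
    rw [zero_mul, hχ.zero] at h2
    linarith
  have hX : ∑ v : Fˣ, χ (X v) = - χ (a * h⁻¹) := by
    have : ∀ v : Fˣ, χ (X v) = χ (a * h⁻¹) * χ ((v : F) * h⁻¹) := by
      intro v
      simp only [X]
      rw [add_mul, hχ.add, mul_comm]
    simp only [this]
    rw [← Finset.mul_sum, hunits _ (inv_ne_zero hh)]
    ring
  have hY : ∑ v : Fˣ, χ (Y v) = - χ (c * h⁻¹) := by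
    have : ∀ v : Fˣ, χ (Y v) = χ (c * h⁻¹) * χ (((v⁻¹ : Fˣ) : F) * (K * h⁻¹)) := by
      intro v
      simp only [Y]
      rw [← hχ.add]
      congr 1
      ring
    simp only [this]
    have hinv : ∑ v : Fˣ, χ (((v⁻¹ : Fˣ) : F) * (K * h⁻¹)) = ∑ v : Fˣ, χ ((v : F) * (K * h⁻¹)) :=
      Equiv.sum_comp (Equiv.inv Fˣ) (fun v : Fˣ => χ ((v : F) * (K * h⁻¹)))
    rw [← Finset.mul_sum, hinv, hunits _ (mul_ne_zero hK (inv_ne_zero hh))]
    ring
  have hXY : ∑ v : Fˣ, χ (X v) * χ (Y v)
      = χ ((a + c) * h⁻¹) * S χ (h⁻¹) (K * h⁻¹) := by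
    unfold S
    rw [Finset.mul_sum]
    apply Finset.sum_congr rfl
    intro v _
    rw [← hχ.add, ← hχ.add]
    congr 1
    simp only [X, Y]
    ring
  have hcardu : (Fintype.card Fˣ : ℤ) = (Fintype.card F : ℤ) - 1 := by
    have h1 := Fintype.card_units (α := F)
    have h2 := Fintype.card_pos (α := F)
    omega
  rw [hexp, hX, hY, hXY, hcardu] at hsum
  have hpm1 : -1 ≤ χ (a * h⁻¹) := by rcases hχ.pm (a * h⁻¹) with h | h <;> rw [h] <;> norm_num
  have hpm2 : -1 ≤ χ (c * h⁻¹) := by rcases hχ.pm (c * h⁻¹) with h | h <;> rw [h] <;> norm_num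
  have hpm3 : -|S χ (h⁻¹) (K * h⁻¹)| ≤ χ ((a + c) * h⁻¹) * S χ (h⁻¹) (K * h⁻¹) := by
    rcases hχ.pm ((a + c) * h⁻¹) with h | h <;> rw [h]
    · rw [one_mul]; exact neg_abs_le _
    · rw [neg_one_mul]; exact neg_le_neg (le_abs_self _)
  have hTZ : (T.card : ℤ) ≤ ((Sol χ a c h).card : ℤ) := by exact_mod_cast hT
  linarith

/-- case `h = 0` -/
lemma sol_card_zero [CharP F 2] (hχ : IsSign χ) {a c : F} (ha : a ≠ 0) (hc : c ≠ 0)
    (hχa : χ a⁻¹ = -1) (hac : a ≠ c) :
    (Fintype.card F : ℤ) ≤ 4 * ((Sol χ a c 0).card : ℤ) := by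
  let Y : F → F := fun X => (1 + c * X) * a⁻¹
  let T : Finset F := univ.filter (fun X => χ X = -1 ∧ χ (Y X) = -1)
  have two : (2:F) = 0 := CharTwo.two_eq_zero
  have hT : T.card ≤ (Sol χ a c 0).card := by
    apply Finset.card_le_card_of_injOn (fun X => (X, Y X))
    · intro v hv
      have hv' := (Finset.mem_filter.1 hv).2
      simp only [Sol, Finset.coe_filter, Finset.mem_univ, true_and, Set.mem_ofPred_eq]
      refine ⟨?_, hv'⟩
      simp only [Y]
      field_simp
      linear_combination (1 + c * v) * a * two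
    · intro v _ v' _ hvv
      simp only [Prod.mk.injEq] at hvv
      exact hvv.1
  have hsum : ∑ v : F, (1 - χ v) * (1 - χ (Y v)) = 4 * (T.card : ℤ) := by
    simp only [one_sub_mul hχ]
    rw [← Finset.sum_filter, Finset.sum_const, nsmul_eq_mul, mul_comm]
  have hYv : ∀ v : F, χ (Y v) = - χ (v * (c * a⁻¹)) := by
    intro v
    have : Y v = a⁻¹ + v * (c * a⁻¹) := by simp only [Y]; ring
    rw [this, hχ.add, hχa]
    ring
  have hexp : ∑ v : F, (1 - χ v) * (1 - χ (Y v))
      = (Fintype.card F : ℤ) - ∑ v : F, χ (v * 1) + ∑ v : F, χ (v * (c * a⁻¹))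
        - ∑ v : F, χ (v * (1 + c * a⁻¹)) := by
    have : ∀ v : F, (1 - χ v) * (1 - χ (Y v)) = 1 - χ (v * 1) + χ (v * (c * a⁻¹))
        - χ (v * (1 + c * a⁻¹)) := by
      intro v
      have e : v * (1 + c * a⁻¹) = v + v * (c * a⁻¹) := by ring
      rw [hYv, mul_one, e, hχ.add]
      ring
    simp only [this, Finset.sum_add_distrib, Finset.sum_sub_distrib]
    simp
  have h1 : 1 + c * a⁻¹ ≠ 0 := by
    intro h
    apply hac
    have h2 : a + c = 0 := by
      have := congrArg (fun z => z * a) h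
      simp only [add_mul, one_mul, zero_mul] at this
      rw [mul_assoc, inv_mul_cancel₀ ha, mul_one] at this
      exact this
    exact CharTwo.add_eq_zero.1 h2
  rw [hexp, hχ.sum_mul (one_ne_zero), hχ.sum_mul h1,
    hχ.sum_mul (mul_ne_zero hc (inv_ne_zero ha))] at hsum
  have hTZ : (T.card : ℤ) ≤ ((Sol χ a c 0).card : ℤ) := by exact_mod_cast hT
  linarith

/-- the number of solutions is at least `q/8` when `q >= 128` -/
lemma sol_large [CharP F 2] (hχ : IsSign χ) (hq : 128 ≤ Fintype.card F) {a c h : F} (ha : a ≠ 0)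
    (hc : c ≠ 0) (hχa : χ a⁻¹ = -1) (hK : h + a * c ≠ 0) (hne : h = 0 → a ≠ c) :
    Fintype.card F ≤ 8 * (Sol χ a c h).card := by
  have hqZ : (128 : ℤ) ≤ (Fintype.card F : ℤ) := by exact_mod_cast hq
  by_cases hh : h = 0
  · have h1 := sol_card_zero hχ ha hc hχa (hne hh)
    rw [hh]
    have h2 : (Fintype.card F : ℤ) ≤ 8 * ((Sol χ a c 0).card : ℤ) := by linarith
    exact_mod_cast h2
  · have h1 := sol_card_ne hχ hh hK
    have h2 := S_bound hχ (inv_ne_zero hh) ((h + a * c) * h⁻¹)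
    set s := |S χ (h⁻¹) ((h + a * c) * h⁻¹)| with hs
    have hs4 : s ^ 4 ≤ 3 * (Fintype.card F : ℤ) ^ 3 := by
      rw [hs, ← abs_pow, abs_of_nonneg (by positivity)]
      exact h2
    have hs0 : 0 ≤ s := abs_nonneg _
    set q : ℤ := (Fintype.card F : ℤ) with hqdef
    have hsq : 2 * s ≤ q - 6 := by
      by_contra hcon
      push Not at hcon
      have h3 : q - 5 ≤ 2 * s := by omega
      have h4 : (q - 5) ^ 4 ≤ (2 * s) ^ 4 := pow_le_pow_left₀ (by linarith) h3 4
      have h5 : (2 * s) ^ 4 = 16 * s ^ 4 := by ring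
      have h6 : (q - 5) ^ 4 ≤ 48 * q ^ 3 := by linarith
      have h7 : 48 * q ^ 3 < (q - 5) ^ 4 := by
        obtain ⟨t, ht, hqt⟩ : ∃ t : ℤ, 0 ≤ t ∧ q = t + 128 := ⟨q - 128, by linarith, by ring⟩
        rw [hqt]
        nlinarith [mul_nonneg ht ht, mul_nonneg (mul_nonneg ht ht) ht,
          mul_nonneg (mul_nonneg ht ht) (mul_nonneg ht ht)]
      linarith
    have h8 : q ≤ 8 * ((Sol χ a c h).card : ℤ) := by linarith
    rw [hqdef] at h8
    exact_mod_cast h8

/-- every solution gives a path of length three; all the interior vertices are different -/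
lemma paths [CharP F 2] (hχ : IsSign χ) (hq : 128 ≤ Fintype.card F) {u v : Vert χ} (huv : u ≠ v)
    (hnadj : ¬ adj χ u v) (L : ℕ) (hL : 8 * L ≤ Fintype.card F) :
    ∃ e : Fin L × Fin 2 → Vert χ, Function.Injective e ∧
      ∀ i, adj χ u (e (i, 0)) ∧ adj χ (e (i, 0)) (e (i, 1)) ∧ adj χ (e (i, 1)) v := by
  obtain ⟨⟨a, b⟩, ha, hχa⟩ := u
  obtain ⟨⟨c, d⟩, hc, hχc⟩ := v
  have two : (2:F) = 0 := CharTwo.two_eq_zero
  set h : F := b + d with hh
  have hK : h + a * c ≠ 0 := by
    intro hK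
    apply hnadj
    simp only [adj]
    exact CharTwo.add_eq_zero.1 hK
  have hne : h = 0 → a ≠ c := by
    intro h0 hac
    apply huv
    apply Subtype.ext
    simp only [Prod.mk.injEq]
    exact ⟨hac, CharTwo.add_eq_zero.1 h0⟩
  have hcard : Fintype.card F ≤ 8 * (Sol χ a c h).card := sol_large hχ hq ha hc hχa hK hne
  have hLc : L ≤ (Sol χ a c h).card := by omega
  obtain ⟨T, hT, hTc⟩ := Finset.exists_subset_card_eq hLc
  let en : Fin L ≃ T := (Finset.equivFinOfCardEq hTc).symm
  have hmem : ∀ i : Fin L, 1 + c * (en i).1.1 + a * (en i).1.2 + h * (en i).1.1 * (en i).1.2 = 0 ∧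
      χ (en i).1.1 = -1 ∧ χ (en i).1.2 = -1 := by
    intro i
    have := hT (en i).2
    unfold Sol at this
    exact (Finset.mem_filter.1 this).2
  have hnz : ∀ x : F, χ x = -1 → x ≠ 0 := by
    rintro x hx rfl
    rw [hχ.zero] at hx
    norm_num at hx
  let ex : Fin L → Vert χ := fun i => ⟨((en i).1.1⁻¹, b + a * (en i).1.1⁻¹),
    inv_ne_zero (hnz _ (hmem i).2.1), by rw [inv_inv]; exact (hmem i).2.1⟩
  let ey : Fin L → Vert χ := fun i => ⟨((en i).1.2⁻¹, d + c * (en i).1.2⁻¹),
    inv_ne_zero (hnz _ (hmem i).2.2), by rw [inv_inv]; exact (hmem i).2.2⟩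
  have hux : ∀ i, adj χ ⟨(a, b), ha, hχa⟩ (ex i) := by
    intro i
    simp only [adj, ex]
    linear_combination b * two
  have hyv : ∀ i, adj χ (ey i) ⟨(c, d), hc, hχc⟩ := by
    intro i
    simp only [adj, ey]
    linear_combination d * two
  have hxy : ∀ i, adj χ (ex i) (ey i) := by
    intro i
    simp only [adj, ex, ey]
    have hX := hnz _ (hmem i).2.1
    have hY := hnz _ (hmem i).2.2
    have hi := (hmem i).1
    rw [hh] at hi
    field_simp
    linear_combination hi - two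
  have hxinj : Function.Injective ex := by
    intro i j hij
    simp only [ex, Subtype.mk.injEq, Prod.mk.injEq] at hij
    have hX : (en i).1.1 = (en j).1.1 := inv_injective hij.1
    have hi := (hmem i).1
    have hj := (hmem j).1
    rw [← hX] at hj
    have h1 : (a + h * (en i).1.1) * ((en i).1.2 - (en j).1.2) = 0 := by
      linear_combination hi - hj
    have h2 : a + h * (en i).1.1 ≠ 0 := by
      intro h0
      have h3 : 1 + c * (en i).1.1 = 0 := by
        linear_combination hi - (en i).1.2 * h0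
      apply hK
      have hX0 := hnz _ (hmem i).2.1
      have h4 : (h + a * c) * (en i).1.1 = 0 := by
        linear_combination h0 + a * h3 - a * two
      exact (mul_eq_zero.1 h4).resolve_right hX0
    have h5 : (en i).1.2 = (en j).1.2 := sub_eq_zero.1 ((mul_eq_zero.1 h1).resolve_left h2)
    apply en.injective
    apply Subtype.ext
    exact Prod.ext hX h5
  have hyinj : Function.Injective ey := by
    intro i j hij
    simp only [ey, Subtype.mk.injEq, Prod.mk.injEq] at hij
    have hY : (en i).1.2 = (en j).1.2 := inv_injective hij.1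
    have hi := (hmem i).1
    have hj := (hmem j).1
    rw [← hY] at hj
    have h1 : (c + h * (en i).1.2) * ((en i).1.1 - (en j).1.1) = 0 := by
      linear_combination hi - hj
    have h2 : c + h * (en i).1.2 ≠ 0 := by
      intro h0
      have h3 : 1 + a * (en i).1.2 = 0 := by
        linear_combination hi - (en i).1.1 * h0
      apply hK
      have hX0 := hnz _ (hmem i).2.2
      have h4 : (h + a * c) * (en i).1.2 = 0 := by
        linear_combination h0 + c * h3 - c * two
      exact (mul_eq_zero.1 h4).resolve_right hX0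
    have h5 : (en i).1.1 = (en j).1.1 := sub_eq_zero.1 ((mul_eq_zero.1 h1).resolve_left h2)
    apply en.injective
    apply Subtype.ext
    exact Prod.ext h5 hY
  have hdiff : ∀ i j, ex i ≠ ey j := by
    intro i j hij
    -- then `ex i` is adjacent to `v`, so `ex i, ey i, v` is a triangle
    have h1 : adj χ (ex i) ⟨(c, d), hc, hχc⟩ := by rw [hij]; exact hyv j
    exact no_triangle hχ _ _ _ (hxy i) (hyv i) (adj_symm χ h1)
  refine ⟨fun z => if z.2 = 0 then ex z.1 else ey z.1, ?_, ?_⟩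
  · rintro ⟨i, s⟩ ⟨j, t⟩ hij
    fin_cases s <;> fin_cases t
    · simp only [Fin.zero_eta, Fin.isValue, if_true] at hij
      rw [hxinj hij]
    · simp at hij
      exact absurd hij (hdiff i j)
    · simp at hij
      exact absurd hij.symm (hdiff j i)
    · simp at hij
      rw [hyinj hij]
  · intro i
    simp only [Fin.isValue, if_true, one_ne_zero, if_false]
    exact ⟨hux i, hxy i, hyv i⟩

end Pool.Agent.V11145.TraceGraph
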