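import Pool.Agent.V11145.TruncI

/-! The main congruence. -/

namespace Pool.Agent.V11145.Trunc

set_option linter.unusedSectionVars false

open Finset

variable {p : ℕ} [hpf : Fact p.Prime]

theorem main (hp : 5 ≤ p) (hp3 : 3 ≤ p) (a x y : ℤ_[p]) (r : ℕ) (hr : r < p) (hre : Even r)
    (hdv : (p : ℤ_[p]) ∣ a - r) (hx : 2 * x = -a) (hy : 2 * y = a + 1) :
    ∃ z : ℤ_[p], S (hZ p) (wZ p) p a - (-1)^((p+1)/2) * (gam hp3 x)^2 * (gam hp3 y)^2 = (p : ℤ_[p])^3 * z := by
  obtain ⟨n, hn⟩ : ∃ n, 2*n+1 = p := by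
    rcases hpf.out.eq_two_or_odd' with h | h
    · omega
    · obtain ⟨n, hn⟩ := h; exact ⟨n, hn.symm⟩
  obtain ⟨m, hm⟩ := hre
  obtain ⟨t, ht⟩ := hdv
  have hhZ := hZ_spec (p := p) hp3
  have hpn : (p : ℤ_[p]) = 2*(n : ℤ_[p]) + 1 := by
    have : ((2*n+1 : ℕ) : ℤ_[p]) = (p : ℤ_[p]) := by rw [hn]
    rw [← this]; push_cast; ring
  have hr' : (r : ℤ_[p]) = 2 * (m : ℤ_[p]) := by rw [hm]; push_cast; ring
  set u : ℤ_[p] := -(hZ p * t) with hu
  set v : ℤ_[p] := -hZ p - u with hv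
  have h2 : (2 : ℤ_[p]) ≠ 0 := by
    intro h; rw [h, zero_mul] at hhZ; exact zero_ne_one hhZ
  have htu : t = -2*u := by rw [hu]; linear_combination (-t) * hhZ
  have hxu : x = -(m : ℤ_[p]) + (p : ℤ_[p]) * u := by
    apply mul_left_cancel₀ h2
    rw [hx]
    rw [hr'] at ht
    rw [htu] at ht
    linear_combination -ht
  have hyv : y = (n : ℤ_[p]) + 1 + (p : ℤ_[p]) * v + (m : ℤ_[p]) := by
    apply mul_left_cancel₀ h2
    rw [hy, hv]
    rw [hr', htu] at ht
    linear_combination ht + (p : ℤ_[p]) * hhZ + hpn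
  set U : ℕ := u.appr 3 + p^3 with hU
  set V : ℕ := v.appr 3 with hV
  have hUc : PadicInt.toZModPow 3 u = (U : ZMod (p^3)) := by
    rw [toZModPow_appr, hU, Nat.cast_add, ZMod.natCast_self, add_zero]
  have hVc : PadicInt.toZModPow 3 v = (V : ZMod (p^3)) := by
    rw [toZModPow_appr]
  have hU1 : 1 ≤ U := by
    have := Nat.pow_pos (n := 3) hpf.out.pos
    omega
  have hUV : p^2 ∣ 2*U+2*V+1 := by
    have h3 : ((2*U+2*V+1 : ℕ) : ZMod (p^3)) = 0 := by
      have h4 : 2*u+2*v+1 = 0 := by rw [hv]; linear_combination -hhZ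
      have := congrArg (PadicInt.toZModPow (p := p) 3) h4
      rw [map_add, map_add, map_mul, map_mul, map_one, map_zero, map_ofNat, hUc, hVc] at this
      push_cast; exact this
    rw [ZMod.natCast_eq_zero_iff] at h3
    exact dvd_trans (pow_dvd_pow p (by norm_num)) h3
  have hmn : m ≤ n := by omega
  have key := main_A (datA (p := p) hp3) hp n hn (S_p_val hp n hn) U V hU1 hUV m hmn
  have hpU : p ≤ p*U := Nat.le_mul_of_pos_right p hU1
  have gx : PadicInt.toZModPow 3 (gam hp3 x) = ((g p (p*U-m) : ℤ) : ZMod (p^3)) := by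
    apply gam_mod'
    rw [hxu, Nat.cast_sub (by omega), map_add, map_neg, map_mul, map_natCast, map_natCast, hUc]
    push_cast; ring
  have gy : PadicInt.toZModPow 3 (gam hp3 y) = ((g p (n+1+p*V+m) : ℤ) : ZMod (p^3)) := by
    apply gam_mod'
    rw [hyv, map_add, map_add, map_add, map_mul, map_natCast, map_natCast, map_natCast, map_one, hVc]
    push_cast; ring
  have ga : PadicInt.toZModPow 3 a = 2*(m : ZMod (p^3)) + (p : ZMod (p^3)) * (-2*U) := by
    have : a = 2*(m : ℤ_[p]) + (p : ℤ_[p]) * (-2 * u) := by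
      rw [hr', htu] at ht; linear_combination ht
    rw [this, map_add, map_mul, map_mul, map_mul, map_neg, map_ofNat, map_natCast, map_natCast, hUc]
  have hhalf : (p+1)/2 = n+1 := by omega
  have hfin : PadicInt.toZModPow 3 (S (hZ p) (wZ p) p a - (-1)^((p+1)/2) * (gam hp3 x)^2 * (gam hp3 y)^2) = 0 := by
    rw [map_sub, map_mul, map_mul, map_pow, map_pow, map_pow, map_neg, map_one, gx, gy, S_red, ga, hhalf, key, sub_self]
  rw [← RingHom.mem_ker, PadicInt.ker_toZModPow, Ideal.mem_span_singleton] at hfin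
  obtain ⟨z, hz⟩ := hfin
  exact ⟨z, hz⟩

end Pool.Agent.V11145.Trunc
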