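import Mathlib

/-!
Small transversals of uniform set families (the Chvatal and McDiarmid bound), with a short
self-contained proof, used for domination in uniform hypergraphs.
-/

namespace Pool.Agent.V11145.DomTrans

open Finset

variable {V : Type*} [DecidableEq V]

/-- The number of members of `F` containing `v`. -/
def deg (F : Finset (Finset V)) (v : V) : ℕ := (F.filter (fun e => v ∈ e)).card

/-- The union of the family `F`. -/
def verts (F : Finset (Finset V)) : Finset V := F.biUnion id

/-- `T` meets every member of `F`. -/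
def Hits (F : Finset (Finset V)) (T : Finset V) : Prop := ∀ e ∈ F, ∃ v ∈ e, v ∈ T

lemma mem_verts {F : Finset (Finset V)} {v : V} : v ∈ verts F ↔ ∃ e ∈ F, v ∈ e := by
  simp [verts]

lemma deg_pos {F : Finset (Finset V)} {v : V} (h : v ∈ verts F) : 1 ≤ deg F v := by
  obtain ⟨e, he, hv⟩ := mem_verts.1 h
  exact Finset.card_pos.2 ⟨e, by simp [he, hv]⟩

lemma verts_of_deg {F : Finset (Finset V)} {v : V} (h : 1 ≤ deg F v) : v ∈ verts F := by
  obtain ⟨e, he⟩ := Finset.card_pos.1 h
  rw [Finset.mem_filter] at he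
  exact mem_verts.2 ⟨e, he.1, he.2⟩

/-- a vertex of degree two lies in no other edges than two given ones -/
lemma two_edges {F : Finset (Finset V)} {y : V} (hy : deg F y = 2) {e g : Finset V}
    (he : e ∈ F) (hg : g ∈ F) (hye : y ∈ e) (hyg : y ∈ g) (hne : e ≠ g) :
    ∀ d ∈ F, y ∈ d → d = e ∨ d = g := by
  intro d hd hyd
  by_contra hcon
  push Not at hcon
  have hsub : ({e, g, d} : Finset (Finset V)) ⊆ F.filter (fun e => y ∈ e) := by
    intro t ht
    simp only [Finset.mem_insert, Finset.mem_singleton] at ht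
    rcases ht with rfl | rfl | rfl
    · simp [he, hye]
    · simp [hg, hyg]
    · simp [hd, hyd]
  have hc : ({e, g, d} : Finset (Finset V)).card = 3 := by
    rw [Finset.card_eq_three]
    exact ⟨e, g, d, hne, fun h => hcon.1 h.symm, fun h => hcon.2 h.symm, rfl⟩
  have := Finset.card_le_card hsub
  unfold deg at hy
  omega

/-- the reduction step: put `v` into the transversal -/
lemma step (q : ℕ) (F : Finset (Finset V)) (v : V) (I : Finset V) (hI : I ⊆ verts F)
    (hI2 : ∀ u ∈ I, ∀ e ∈ F, u ∈ e → v ∈ e) (h : 3 * q / 2 ≤ I.card + q / 2 * deg F v)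
    (T' : Finset V) (hT' : Hits (F.filter (fun e => v ∉ e)) T')
    (hb : 3 * q / 2 * T'.card ≤ (verts (F.filter (fun e => v ∉ e))).card
      + q / 2 * (F.filter (fun e => v ∉ e)).card) :
    ∃ T, Hits F T ∧ 3 * q / 2 * T.card ≤ (verts F).card + q / 2 * F.card := by
  refine ⟨insert v T', ?_, ?_⟩
  · intro e he
    by_cases hv : v ∈ e
    · exact ⟨v, hv, Finset.mem_insert_self _ _⟩
    · obtain ⟨u, hu, huT⟩ := hT' e (by simp [he, hv])
      exact ⟨u, hu, Finset.mem_insert_of_mem huT⟩
  · have h1 : (insert v T').card ≤ T'.card + 1 := Finset.card_insert_le _ _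
    have h2 : (verts (F.filter (fun e => v ∉ e))).card + I.card ≤ (verts F).card := by
      rw [← Finset.card_union_of_disjoint]
      · apply Finset.card_le_card
        intro u hu
        rcases Finset.mem_union.1 hu with hu | hu
        · obtain ⟨e, he, hue⟩ := mem_verts.1 hu
          exact mem_verts.2 ⟨e, (Finset.mem_filter.1 he).1, hue⟩
        · exact hI hu
      · rw [Finset.disjoint_left]
        intro u hu hu'
        obtain ⟨e, he, hue⟩ := mem_verts.1 hu
        rw [Finset.mem_filter] at he
        exact he.2 (hI2 u hu' e he.1 hue)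
    have h3 : deg F v + (F.filter (fun e => v ∉ e)).card = F.card := by
      unfold deg
      exact Finset.card_filter_add_card_filter_not (fun e => v ∈ e)
    have h4 : q / 2 * F.card = q / 2 * deg F v + q / 2 * (F.filter (fun e => v ∉ e)).card := by
      rw [← h3]; ring
    have h5 : 3 * q / 2 * (insert v T').card ≤ 3 * q / 2 * (T'.card + 1) :=
      Nat.mul_le_mul_left _ h1
    have h6 : 3 * q / 2 * (T'.card + 1) = 3 * q / 2 * T'.card + 3 * q / 2 := by ring
    omega

/-- Every family of nonempty sets has a transversal with at most one element per set. -/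
lemma trivial_hit (F : Finset (Finset V)) (h : ∀ e ∈ F, e.Nonempty) :
    ∃ T, Hits F T ∧ T.card ≤ F.card := by
  refine ⟨F.attach.image (fun e => (h e.1 e.2).choose), ?_, ?_⟩
  · intro e he
    exact ⟨(h e he).choose, (h e he).choose_spec,
      Finset.mem_image.2 ⟨⟨e, he⟩, Finset.mem_attach _ _, rfl⟩⟩
  · exact Finset.card_image_le.trans (by simp)

/-- double counting -/
lemma sum_deg (F : Finset (Finset V)) (N : Finset V) :
    ∑ v ∈ N, deg F v = ∑ e ∈ F, (e ∩ N).card := by
  unfold deg
  simp_rw [Finset.card_filter]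
  rw [Finset.sum_comm]
  refine Finset.sum_congr rfl fun e _ => ?_
  rw [Finset.inter_comm, ← Finset.filter_mem_eq_inter, Finset.card_filter]

/-- `X` is a set of vertices of degree two, no two on a common edge. -/
def Ind (F : Finset (Finset V)) (X : Finset V) : Prop :=
  (∀ x ∈ X, deg F x = 2) ∧ ∀ x ∈ X, ∀ x' ∈ X, ∀ e ∈ F, x ∈ e → x' ∈ e → x = x'

lemma caseC (q : ℕ) (hq : 1 ≤ q) (F : Finset (Finset V)) (hu : ∀ e ∈ F, e.card = q)
    (hd : ∀ v, deg F v ≤ 2)
    (hint : ∀ e ∈ F, ∀ f ∈ F, e ≠ f → 2 * (e ∩ f).card + 1 ≤ q) :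
    ∃ T, Hits F T ∧ 3 * q / 2 * T.card ≤ (verts F).card + q / 2 * F.card := by
  classical
  have hne : ((verts F).powerset.filter (Ind F)).Nonempty :=
    ⟨∅, by simp [Ind]⟩
  obtain ⟨X, hX, hmax⟩ := Finset.exists_max_image _ Finset.card hne
  rw [Finset.mem_filter] at hX
  obtain ⟨hXdeg, hXind⟩ := hX.2
  have hmax' : ∀ Y : Finset V, Ind F Y → Y.card ≤ X.card := by
    intro Y hY
    apply hmax
    rw [Finset.mem_filter, Finset.mem_powerset]
    refine ⟨fun y hy => ?_, hY⟩
    have := hY.1 y hy
    exact verts_of_deg (by omega)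
  -- covered and uncovered edges
  set Fc := F.filter (fun e => ∃ x ∈ X, x ∈ e) with hFc
  set Fu := F.filter (fun e => ¬ ∃ x ∈ X, x ∈ e) with hFu
  have hmemc : ∀ e, e ∈ Fc ↔ e ∈ F ∧ ∃ x ∈ X, x ∈ e := fun e => by rw [hFc, Finset.mem_filter]
  have hmemu : ∀ e, e ∈ Fu ↔ e ∈ F ∧ ¬ ∃ x ∈ X, x ∈ e := fun e => by rw [hFu, Finset.mem_filter]
  have hcu : Fc.card + Fu.card = F.card := by
    rw [hFc, hFu]; exact Finset.card_filter_add_card_filter_not _
  have hdegcu : ∀ v, deg F v = deg Fc v + deg Fu v := by
    intro v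
    unfold deg
    have h1 : (F.filter (fun e => v ∈ e)).filter (fun e => ∃ x ∈ X, x ∈ e)
        = Fc.filter (fun e => v ∈ e) := by rw [hFc, Finset.filter_comm]
    have h2 : (F.filter (fun e => v ∈ e)).filter (fun e => ¬ ∃ x ∈ X, x ∈ e)
        = Fu.filter (fun e => v ∈ e) := by rw [hFu, Finset.filter_comm]
    rw [← h1, ← h2]
    exact (Finset.card_filter_add_card_filter_not _).symm
  have hFc2 : Fc.card = 2 * X.card := by
    have h1 : Fc = X.biUnion (fun x => F.filter (fun e => x ∈ e)) := by
      ext e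
      rw [hmemc, Finset.mem_biUnion]
      constructor
      · rintro ⟨he, x, hx, hxe⟩
        exact ⟨x, hx, by simp [he, hxe]⟩
      · rintro ⟨x, hx, hxe⟩
        rw [Finset.mem_filter] at hxe
        exact ⟨hxe.1, x, hx, hxe.2⟩
    rw [h1, Finset.card_biUnion]
    · have : ∀ x ∈ X, (F.filter (fun e => x ∈ e)).card = 2 := fun x hx => hXdeg x hx
      rw [Finset.sum_congr rfl this, Finset.sum_const, smul_eq_mul, mul_comm]
    · intro x hx x' hx' hne
      show Disjoint (F.filter (fun e => x ∈ e)) (F.filter (fun e => x' ∈ e))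
      rw [Finset.disjoint_left]
      intro e he he'
      rw [Finset.mem_filter] at he he'
      exact hne (hXind x hx x' hx' e he.1 he.2 he'.2)
  -- the transversal
  obtain ⟨Tu, hTu, hTuc⟩ := trivial_hit Fu (fun e he => by
    rw [← Finset.card_pos, hu e ((hmemu e).1 he).1]; omega)
  refine ⟨X ∪ Tu, ?_, ?_⟩
  · intro e he
    by_cases hc : ∃ x ∈ X, x ∈ e
    · obtain ⟨x, hx, hxe⟩ := hc
      exact ⟨x, hxe, Finset.mem_union_left _ hx⟩
    · obtain ⟨v, hv, hvT⟩ := hTu e ((hmemu e).2 ⟨he, hc⟩)
      exact ⟨v, hv, Finset.mem_union_right _ hvT⟩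
  have hTcard : (X ∪ Tu).card ≤ X.card + Fu.card :=
    (Finset.card_union_le _ _).trans (by omega)
  -- vertices of degree two
  set N2 := (verts F).filter (fun v => deg F v = 2) with hN2
  have hN : (verts F).card + N2.card = q * F.card := by
    have h1 : ∑ v ∈ verts F, deg F v = q * F.card := by
      rw [sum_deg]
      have : ∀ e ∈ F, (e ∩ verts F).card = q := by
        intro e he
        have : e ∩ verts F = e := by
          rw [Finset.inter_eq_left]
          intro v hv
          exact mem_verts.2 ⟨e, he, hv⟩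
        rw [this, hu e he]
      rw [Finset.sum_congr rfl this, Finset.sum_const, smul_eq_mul, mul_comm]
    have h2 : ∑ v ∈ verts F, deg F v = ∑ v ∈ verts F, (1 + if deg F v = 2 then 1 else 0) := by
      refine Finset.sum_congr rfl fun v hv => ?_
      have h3 := deg_pos hv
      have h4 := hd v
      split_ifs with h5
      · omega
      · omega
    rw [← h1, h2, Finset.sum_add_distrib, Finset.sum_const, smul_eq_mul, mul_one, hN2,
      Finset.card_filter]
  -- every vertex of degree two has at most one uncovered edge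
  have hu1 : ∀ y ∈ N2, deg Fu y ≤ 1 := by
    intro y hy
    by_contra hcon
    have hy2 : deg F y = 2 := (Finset.mem_filter.1 hy).2
    have hcy : deg Fc y = 0 := by
      have := hdegcu y
      omega
    have hnc : ∀ e ∈ F, y ∈ e → ¬ ∃ x ∈ X, x ∈ e := by
      intro e he hye hcov
      have : e ∈ Fc.filter (fun e => y ∈ e) := by
        rw [Finset.mem_filter]; exact ⟨(hmemc e).2 ⟨he, hcov⟩, hye⟩
      unfold deg at hcy
      rw [Finset.card_eq_zero] at hcy
      rw [hcy] at this
      simp at this
    have hyX : y ∉ X := by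
      intro hyX
      have h1 : 1 ≤ deg F y := by omega
      obtain ⟨e, he, hye⟩ := mem_verts.1 (verts_of_deg h1)
      exact hnc e he hye ⟨y, hyX, hye⟩
    have hI : Ind F (insert y X) := by
      refine ⟨?_, ?_⟩
      · intro x hx
        rcases Finset.mem_insert.1 hx with rfl | hx
        · exact hy2
        · exact hXdeg x hx
      · intro x hx x' hx' e he hxe hxe'
        rcases Finset.mem_insert.1 hx with h | h <;> rcases Finset.mem_insert.1 hx' with h' | h'
        · rw [h, h']
        · exact absurd ⟨x', h', hxe'⟩ (hnc e he (h ▸ hxe))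
        · exact absurd ⟨x, h, hxe⟩ (hnc e he (h' ▸ hxe'))
        · exact hXind x h x' h' e he hxe hxe'
    have := hmax' _ hI
    rw [Finset.card_insert_of_notMem hyX] at this
    omega
  -- vertices of degree two with an uncovered edge
  set S := N2.filter (fun y => 1 ≤ deg Fu y) with hS
  have hSu : ∀ y ∈ S, ∃ g ∈ F, y ∈ g ∧ ¬ ∃ x ∈ X, x ∈ g := by
    intro y hy
    obtain ⟨g, hg, hyg⟩ := mem_verts.1 (verts_of_deg (Finset.mem_filter.1 hy).2)
    exact ⟨g, ((hmemu g).1 hg).1, hyg, ((hmemu g).1 hg).2⟩
  have hSdeg : ∀ y ∈ S, deg F y = 2 := by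
    intro y hy
    exact (Finset.mem_filter.1 (Finset.mem_filter.1 hy).1).2
  have hSX : ∀ y ∈ S, y ∉ X := by
    intro y hy hyX
    obtain ⟨g, _, hyg, hgu⟩ := hSu y hy
    exact hgu ⟨y, hyX, hyg⟩
  have hScov : ∀ y ∈ S, ∃ x ∈ X, ∃ e ∈ F, x ∈ e ∧ y ∈ e := by
    intro y hy
    have h1 := hSdeg y hy
    have h2 := hu1 y (Finset.mem_filter.1 hy).1
    have h3 := hdegcu y
    obtain ⟨e, he, hye⟩ := mem_verts.1 (verts_of_deg (show 1 ≤ deg Fc y by omega))
    obtain ⟨heF, x, hx, hxe⟩ := (hmemc e).1 he
    exact ⟨x, hx, e, heF, hxe, hye⟩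
  -- main local estimate
  have hloc : ∀ x ∈ X, (S.filter (fun y => ∃ e ∈ F, x ∈ e ∧ y ∈ e)).card ≤ q - 1 := by
    intro x hx
    obtain ⟨e, f, hef, hEx⟩ := Finset.card_eq_two.1 (show (F.filter (fun e => x ∈ e)).card = 2
      from hXdeg x hx)
    have he : e ∈ F ∧ x ∈ e := by
      have : e ∈ F.filter (fun e => x ∈ e) := by rw [hEx]; simp
      rwa [Finset.mem_filter] at this
    have hf : f ∈ F ∧ x ∈ f := by
      have : f ∈ F.filter (fun e => x ∈ e) := by rw [hEx]; simp
      rwa [Finset.mem_filter] at this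
    have hsub : S.filter (fun y => ∃ e ∈ F, x ∈ e ∧ y ∈ e)
        ⊆ S.filter (fun y => y ∈ e) ∪ S.filter (fun y => y ∈ f) := by
      intro y hy
      rw [Finset.mem_filter] at hy
      obtain ⟨hyS, d, hd', hxd, hyd⟩ := hy
      have : d ∈ F.filter (fun e => x ∈ e) := by rw [Finset.mem_filter]; exact ⟨hd', hxd⟩
      rw [hEx, Finset.mem_insert, Finset.mem_singleton] at this
      rcases this with rfl | rfl
      · exact Finset.mem_union_left _ (by rw [Finset.mem_filter]; exact ⟨hyS, hyd⟩)
      · exact Finset.mem_union_right _ (by rw [Finset.mem_filter]; exact ⟨hyS, hyd⟩)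
    have hcov : ∀ d, d ∈ F → x ∈ d → ∀ g, (¬ ∃ x ∈ X, x ∈ g) → d ≠ g := by
      intro d _ hxd g hg hdg
      exact hg ⟨x, hx, hdg ▸ hxd⟩
    have hone : ∀ d : Finset V, d ∈ F → x ∈ d → (S.filter (fun y => y ∈ d)).card ≤ q - 1 := by
      intro d hd' hxd
      have : S.filter (fun y => y ∈ d) ⊆ d.erase x := by
        intro y hy
        rw [Finset.mem_filter] at hy
        rw [Finset.mem_erase]
        exact ⟨fun h => hSX y hy.1 (h ▸ hx), hy.2⟩
      refine (Finset.card_le_card this).trans ?_
      rw [Finset.card_erase_of_mem hxd, hu d hd']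
    -- exchange argument
    have hkey : ∀ y ∈ S, y ∈ e → ∀ z ∈ S, z ∈ f → ∀ g ∈ F, y ∈ g → (¬ ∃ x ∈ X, x ∈ g) →
        ∀ h ∈ F, z ∈ h → (¬ ∃ x ∈ X, x ∈ h) → g = h := by
      intro y hy hye z hz hzf g hg hyg hgu h hh hzh hhu
      by_contra hgh
      have heg : e ≠ g := hcov e he.1 he.2 g hgu
      have hfh : f ≠ h := hcov f hf.1 hf.2 h hhu
      have heh : e ≠ h := hcov e he.1 he.2 h hhu
      have hfg : f ≠ g := hcov f hf.1 hf.2 g hgu
      have hEy := two_edges (hSdeg y hy) he.1 hg hye hyg heg
      have hEz := two_edges (hSdeg z hz) hf.1 hh hzf hzh hfh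
      have hyz : y ≠ z := by
        intro hyz
        rcases hEy f hf.1 (hyz ▸ hzf) with h1 | h1
        · exact hef h1.symm
        · exact hfg h1
      have hI : Ind F (insert y (insert z (X.erase x))) := by
        have hyX : ∀ b ∈ X.erase x, ∀ d ∈ F, y ∈ d → b ∈ d → False := by
          intro b hb d hd' hyd hbd
          rw [Finset.mem_erase] at hb
          rcases hEy d hd' hyd with h1 | h1
          · exact hb.1 (hXind b hb.2 x hx d hd' hbd (h1 ▸ he.2))
          · exact hgu ⟨b, hb.2, h1 ▸ hbd⟩
        have hzX : ∀ b ∈ X.erase x, ∀ d ∈ F, z ∈ d → b ∈ d → False := by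
          intro b hb d hd' hzd hbd
          rw [Finset.mem_erase] at hb
          rcases hEz d hd' hzd with h1 | h1
          · exact hb.1 (hXind b hb.2 x hx d hd' hbd (h1 ▸ hf.2))
          · exact hhu ⟨b, hb.2, h1 ▸ hbd⟩
        have hyz' : ∀ d ∈ F, y ∈ d → z ∈ d → False := by
          intro d hd' hyd hzd
          rcases hEy d hd' hyd with h1 | h1 <;> rcases hEz d hd' hzd with h2 | h2
          · exact hef (h1.symm.trans h2)
          · exact heh (h1.symm.trans h2)
          · exact hfg (h2.symm.trans h1)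
          · exact hgh (h1.symm.trans h2)
        refine ⟨?_, ?_⟩
        · intro a ha
          rcases Finset.mem_insert.1 ha with rfl | ha
          · exact hSdeg _ hy
          rcases Finset.mem_insert.1 ha with rfl | ha
          · exact hSdeg _ hz
          · exact hXdeg a (Finset.mem_of_mem_erase ha)
        · intro a ha b hb d hd' had hbd
          rcases Finset.mem_insert.1 ha with h1 | ha
          · rcases Finset.mem_insert.1 hb with h2 | hb
            · rw [h1, h2]
            rcases Finset.mem_insert.1 hb with h2 | hb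
            · exact (hyz' d hd' (h1 ▸ had) (h2 ▸ hbd)).elim
            · exact (hyX b hb d hd' (h1 ▸ had) hbd).elim
          rcases Finset.mem_insert.1 ha with h1 | ha
          · rcases Finset.mem_insert.1 hb with h2 | hb
            · exact (hyz' d hd' (h2 ▸ hbd) (h1 ▸ had)).elim
            rcases Finset.mem_insert.1 hb with h2 | hb
            · rw [h1, h2]
            · exact (hzX b hb d hd' (h1 ▸ had) hbd).elim
          · rcases Finset.mem_insert.1 hb with h2 | hb
            · exact (hyX a ha d hd' (h2 ▸ hbd) had).elim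
            rcases Finset.mem_insert.1 hb with h2 | hb
            · exact (hzX a ha d hd' (h2 ▸ hbd) had).elim
            · exact hXind a (Finset.mem_of_mem_erase ha) b (Finset.mem_of_mem_erase hb) d hd'
                had hbd
      have hc := hmax' _ hI
      have hzn : z ∉ X.erase x := fun h => hSX z hz (Finset.mem_of_mem_erase h)
      have hyn : y ∉ insert z (X.erase x) := by
        rw [Finset.mem_insert]
        rintro (h1 | h1)
        · exact hyz h1
        · exact hSX y hy (Finset.mem_of_mem_erase h1)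
      rw [Finset.card_insert_of_notMem hyn, Finset.card_insert_of_notMem hzn,
        Finset.card_erase_of_mem hx] at hc
      have : 1 ≤ X.card := Finset.card_pos.2 ⟨x, hx⟩
      omega
    have hcard := (Finset.card_le_card hsub).trans (Finset.card_union_le _ _)
    rcases (S.filter (fun y => y ∈ f)).eq_empty_or_nonempty with hSf | ⟨z0, hz0⟩
    · rw [hSf, Finset.card_empty] at hcard
      have := hone e he.1 he.2
      omega
    rcases (S.filter (fun y => y ∈ e)).eq_empty_or_nonempty with hSe | ⟨y0, hy0⟩
    · rw [hSe, Finset.card_empty] at hcard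
      have := hone f hf.1 hf.2
      omega
    rw [Finset.mem_filter] at hz0 hy0
    obtain ⟨g0, hg0, hyg0, hgu0⟩ := hSu y0 hy0.1
    have hSf' : S.filter (fun y => y ∈ f) ⊆ f ∩ g0 := by
      intro z hz
      rw [Finset.mem_filter] at hz
      obtain ⟨h, hh, hzh, hhu⟩ := hSu z hz.1
      have := hkey y0 hy0.1 hy0.2 z hz.1 hz.2 g0 hg0 hyg0 hgu0 h hh hzh hhu
      rw [Finset.mem_inter]
      exact ⟨hz.2, this ▸ hzh⟩
    have hSe' : S.filter (fun y => y ∈ e) ⊆ e ∩ g0 := by
      intro y hy
      rw [Finset.mem_filter] at hy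
      obtain ⟨g, hg, hyg, hgu⟩ := hSu y hy.1
      obtain ⟨h, hh, hzh, hhu⟩ := hSu z0 hz0.1
      have h1 := hkey y0 hy0.1 hy0.2 z0 hz0.1 hz0.2 g0 hg0 hyg0 hgu0 h hh hzh hhu
      have h2 := hkey y hy.1 hy.2 z0 hz0.1 hz0.2 g hg hyg hgu h hh hzh hhu
      rw [Finset.mem_inter]
      exact ⟨hy.2, by rw [h1, ← h2]; exact hyg⟩
    have h1 := Finset.card_le_card hSf'
    have h2 := Finset.card_le_card hSe'
    have h3 := hint e he.1 g0 hg0 (hcov e he.1 he.2 g0 hgu0)
    have h4 := hint f hf.1 g0 hg0 (hcov f hf.1 hf.2 g0 hgu0)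
    omega
  have hScard : S.card ≤ (q - 1) * X.card := by
    have h1 : S ⊆ X.biUnion (fun x => S.filter (fun y => ∃ e ∈ F, x ∈ e ∧ y ∈ e)) := by
      intro y hy
      obtain ⟨x, hx, e, he, hxe, hye⟩ := hScov y hy
      rw [Finset.mem_biUnion]
      exact ⟨x, hx, by rw [Finset.mem_filter]; exact ⟨hy, e, he, hxe, hye⟩⟩
    refine (Finset.card_le_card h1).trans (Finset.card_biUnion_le.trans ?_)
    refine (Finset.sum_le_sum hloc).trans ?_
    rw [Finset.sum_const, smul_eq_mul, mul_comm]
  have hN2c : 2 * N2.card ≤ (3 * q - 1) * X.card := by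
    have h1 : ∑ y ∈ N2, deg F y = 2 * N2.card := by
      have : ∀ y ∈ N2, deg F y = 2 := fun y hy => (Finset.mem_filter.1 hy).2
      rw [Finset.sum_congr rfl this, Finset.sum_const, smul_eq_mul, mul_comm]
    have h2 : ∑ y ∈ N2, deg F y = ∑ y ∈ N2, deg Fc y + ∑ y ∈ N2, deg Fu y := by
      rw [← Finset.sum_add_distrib]
      exact Finset.sum_congr rfl fun y _ => hdegcu y
    have h3 : ∑ y ∈ N2, deg Fc y ≤ q * (2 * X.card) := by
      rw [sum_deg, ← hFc2]
      refine (Finset.sum_le_sum (g := fun _ => q) fun e he => ?_).trans ?_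
      · refine (Finset.card_le_card Finset.inter_subset_left).trans ?_
        rw [hu e ((hmemc e).1 he).1]
      · rw [Finset.sum_const, smul_eq_mul, mul_comm]
    have h4 : ∑ y ∈ N2, deg Fu y ≤ S.card := by
      rw [hS, Finset.card_filter]
      refine Finset.sum_le_sum fun y hy => ?_
      have := hu1 y hy
      split_ifs with h5
      · exact this
      · omega
    obtain ⟨p, rfl⟩ : ∃ p, q = p + 1 := ⟨q - 1, by omega⟩
    have h5 : (3 * (p + 1) - 1) * X.card = (p + 1) * (2 * X.card) + (p + 1 - 1) * X.card := by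
      have : 3 * (p + 1) - 1 = 3 * p + 2 := by omega
      rw [this, Nat.add_sub_cancel]
      ring
    rw [h5]
    omega
  -- final arithmetic
  have hq2 : 3 * q / 2 = q + q / 2 := by omega
  have hfin : N2.card ≤ (q + q / 2) * X.card := by
    have h1 : 2 * N2.card ≤ 2 * ((q + q / 2) * X.card) := by
      refine hN2c.trans ?_
      rw [← mul_assoc]
      exact Nat.mul_le_mul_right _ (by omega)
    omega
  have hgoal : (q + q / 2) * (X.card + Fu.card) ≤ (verts F).card + q / 2 * F.card := by
    have h1 : F.card = 2 * X.card + Fu.card := by omega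
    have h2 : (verts F).card + N2.card = q * (2 * X.card + Fu.card) := by rw [← h1]; exact hN
    have h3 : (q + q / 2) * (X.card + Fu.card) + (q + q / 2) * X.card
        = q * (2 * X.card + Fu.card) + q / 2 * (2 * X.card + Fu.card) := by ring
    rw [h1]
    omega
  rw [hq2]
  exact (Nat.mul_le_mul_left _ hTcard).trans hgoal

/-- **Chvatal and McDiarmid.**  Every finite family of `q`-sets (`q ≥ 1`) with `m` members whose
union has `n` elements has a transversal of size at most `(n + ⌊q/2⌋ m)/⌊3q/2⌋`. -/
theorem chvatal_mcdiarmid (q : ℕ) (hq : 1 ≤ q) :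
    ∀ (m : ℕ) (F : Finset (Finset V)), F.card = m → (∀ e ∈ F, e.card = q) →
    ∃ T, Hits F T ∧ 3 * q / 2 * T.card ≤ (verts F).card + q / 2 * F.card := by
  intro m
  induction m using Nat.strong_induction_on with
  | _ m ih =>
    intro F hF hu
    have hrec : ∀ v, 1 ≤ deg F v → ∃ T', Hits (F.filter (fun e => v ∉ e)) T' ∧
        3 * q / 2 * T'.card ≤ (verts (F.filter (fun e => v ∉ e))).card
          + q / 2 * (F.filter (fun e => v ∉ e)).card := by
      intro v hv
      have h3 : deg F v + (F.filter (fun e => v ∉ e)).card = F.card := by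
        unfold deg
        exact Finset.card_filter_add_card_filter_not (fun e => v ∈ e)
      exact ih _ (by omega) _ rfl (fun e he => hu e (Finset.mem_filter.1 he).1)
    by_cases hA : ∃ v, 3 ≤ deg F v
    · obtain ⟨v, hv⟩ := hA
      obtain ⟨T', hT', hb⟩ := hrec v (by omega)
      refine step q F v {v} ?_ ?_ ?_ T' hT' hb
      · intro u hu'
        rw [Finset.mem_singleton] at hu'
        exact hu' ▸ verts_of_deg (by omega)
      · intro u hu' e _ hue
        rw [Finset.mem_singleton] at hu'
        exact hu' ▸ hue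
      · rw [Finset.card_singleton]
        have : q / 2 * 3 ≤ q / 2 * deg F v := Nat.mul_le_mul_left _ hv
        omega
    · push Not at hA
      have hd : ∀ v, deg F v ≤ 2 := fun v => by have := hA v; omega
      by_cases hB : ∃ e ∈ F, ∃ f ∈ F, e ≠ f ∧ q ≤ 2 * (e ∩ f).card
      · obtain ⟨e, he, f, hf, hef, hc⟩ := hB
        have hpos : 0 < (e ∩ f).card := by omega
        obtain ⟨v, hv⟩ := Finset.card_pos.1 hpos
        rw [Finset.mem_inter] at hv
        have hdegv : ∀ u ∈ e ∩ f, deg F u = 2 := by
          intro u hu'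
          rw [Finset.mem_inter] at hu'
          have h1 : ({e, f} : Finset (Finset V)) ⊆ F.filter (fun e => u ∈ e) := by
            intro t ht
            simp only [Finset.mem_insert, Finset.mem_singleton] at ht
            rcases ht with rfl | rfl
            · simp [he, hu'.1]
            · simp [hf, hu'.2]
          have h2 := Finset.card_le_card h1
          rw [Finset.card_pair hef] at h2
          have h3 := hd u
          unfold deg at h3 ⊢
          omega
        obtain ⟨T', hT', hb⟩ := hrec v (by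
          have := hdegv v (by rw [Finset.mem_inter]; exact hv)
          omega)
        refine step q F v (e ∩ f) ?_ ?_ ?_ T' hT' hb
        · intro u hu'
          exact verts_of_deg (by have := hdegv u hu'; omega)
        · intro u hu' d hd' hud
          have h1 := hdegv u hu'
          rw [Finset.mem_inter] at hu'
          rcases two_edges h1 he hf hu'.1 hu'.2 hef d hd' hud with rfl | rfl
          · exact hv.1
          · exact hv.2
        · rw [hdegv v (by rw [Finset.mem_inter]; exact hv)]
          have hj : q = 2 * (q / 2) ∨ q = 2 * (q / 2) + 1 := by omega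
          have hi : 3 * q / 2 = q + q / 2 := by omega
          rw [hi]
          rcases hj with hj | hj <;> omega
      · push Not at hB
        exact caseC q hq F hu hd (fun e he f hf hne => by
          have := hB e he f hf hne
          omega)

end Pool.Agent.V11145.DomTrans
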