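import Mathlib
import Pool.Agent.V11145.DomTrans

/-!
From transversals of `(k-1)`-uniform families to dominating sets of `k`-uniform hypergraphs.
-/

namespace Pool.Agent.V11145.DomRed

open Finset Pool.Agent.V11145.DomTrans

variable {V : Type*} [DecidableEq V] [Fintype V]

/-- Every cover of the vertex set contains a minimal cover, in which each set has a private
vertex. -/
lemma minimal_cover (E : Finset (Finset V)) (hE : ∀ v : V, ∃ e ∈ E, v ∈ e) :
    ∃ F ⊆ E, (∀ v : V, ∃ e ∈ F, v ∈ e) ∧ ∀ e ∈ F, ∃ p ∈ e, ∀ f ∈ F, p ∈ f → f = e := by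
  classical
  have hne : (E.powerset.filter (fun F => ∀ v : V, ∃ e ∈ F, v ∈ e)).Nonempty :=
    ⟨E, by rw [Finset.mem_filter]; exact ⟨Finset.mem_powerset_self E, hE⟩⟩
  obtain ⟨F, hF, hmin⟩ := Finset.exists_min_image _ Finset.card hne
  rw [Finset.mem_filter, Finset.mem_powerset] at hF
  refine ⟨F, hF.1, hF.2, ?_⟩
  intro e he
  by_contra hcon
  push Not at hcon
  have hcov : ∀ v : V, ∃ f ∈ F.erase e, v ∈ f := by
    intro v
    obtain ⟨f, hf, hvf⟩ := hF.2 v
    by_cases hfe : f = e
    · obtain ⟨g, hg, hvg, hge⟩ := hcon v (hfe ▸ hvf)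
      exact ⟨g, Finset.mem_erase.2 ⟨hge, hg⟩, hvg⟩
    · exact ⟨f, Finset.mem_erase.2 ⟨hfe, hf⟩, hvf⟩
  have h1 := hmin (F.erase e) (by
    rw [Finset.mem_filter, Finset.mem_powerset]
    exact ⟨(Finset.erase_subset _ _).trans hF.1, hcov⟩)
  rw [Finset.card_erase_of_mem he] at h1
  have : 1 ≤ F.card := Finset.card_pos.2 ⟨e, he⟩
  omega

/-- **Domination from transversals.**  If every family of `q`-sets has a transversal `T` with
`N |T| ≤ a n + c m`, where `c ≥ a`, then every `(q+1)`-uniform hypergraph without isolated vertices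
has a set `T` meeting a cover of the vertices by edges, with `N |T| ≤ a n + (c - a) m`. -/
theorem dominating_of_transversal' (q N a c : ℕ) (hc : a ≤ c)
    (hT : ∀ F : Finset (Finset V), (∀ e ∈ F, e.card = q) →
      ∃ T, Hits F T ∧ N * T.card ≤ a * (verts F).card + c * F.card)
    (E : Finset (Finset V)) (hk : ∀ e ∈ E, e.card = q + 1) (hE : ∀ v : V, ∃ e ∈ E, v ∈ e) :
    ∃ T : Finset V, (∀ v, ∃ e ∈ E, v ∈ e ∧ ∃ u ∈ e, u ∈ T) ∧
      N * T.card ≤ a * Fintype.card V + (c - a) * E.card := by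
  classical
  obtain ⟨F, hFE, hcov, hpriv⟩ := minimal_cover E hE
  have hex : ∀ e : Finset V, ∃ p : Option V, ∀ he : e ∈ F, ∃ p', p = some p' ∧ p' ∈ e ∧
      ∀ f ∈ F, p' ∈ f → f = e := by
    intro e
    by_cases he : e ∈ F
    · obtain ⟨p, hp, hp2⟩ := hpriv e he
      exact ⟨some p, fun _ => ⟨p, rfl, hp, hp2⟩⟩
    · exact ⟨none, fun h => absurd h he⟩
  choose P hP using hex
  -- the shrunken sets
  let sh : Finset V → Finset V := fun e => e.filter (fun v => P e ≠ some v)
  have hsh : ∀ e ∈ F, ∃ p ∈ e, sh e = e.erase p ∧ P e = some p ∧ ∀ f ∈ F, p ∈ f → f = e := by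
    intro e he
    obtain ⟨p, hp1, hp2, hp3⟩ := hP e he
    refine ⟨p, hp2, ?_, hp1, hp3⟩
    ext v
    simp only [sh, Finset.mem_filter, Finset.mem_erase, hp1, Option.some_inj, ne_eq]
    constructor
    · rintro ⟨h1, h2⟩; exact ⟨fun h => h2 h.symm, h1⟩
    · rintro ⟨h1, h2⟩; exact ⟨h2, fun h => h1 h.symm⟩
  obtain ⟨T, hTh, hTc⟩ := hT (F.image sh) (by
    intro g hg
    obtain ⟨e, he, rfl⟩ := Finset.mem_image.1 hg
    obtain ⟨p, hp, hsh', _, _⟩ := hsh e he
    rw [hsh', Finset.card_erase_of_mem hp, hk e (hFE he)]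
    omega)
  refine ⟨T, ?_, ?_⟩
  · intro v
    obtain ⟨e, he, hve⟩ := hcov v
    obtain ⟨u, hu, huT⟩ := hTh (sh e) (Finset.mem_image_of_mem _ he)
    exact ⟨e, hFE he, hve, u, (Finset.mem_filter.1 hu).1, huT⟩
  · -- counting
    have h1 : (F.image sh).card ≤ F.card := Finset.card_image_le
    have h2 : (verts (F.image sh)).card + F.card ≤ Fintype.card V := by
      -- private vertices
      let pr : Finset V := Finset.univ.filter (fun v => ∃ e ∈ F, P e = some v)
      have hpr : F.card ≤ pr.card := by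
        have : F.card = (F.image P).card := by
          rw [Finset.card_image_of_injOn]
          intro e he f hf hef
          obtain ⟨p, hp, _, hPe, hp3⟩ := hsh e he
          obtain ⟨p', hp', _, hPf, hp3'⟩ := hsh f hf
          have hpp : p = p' := by
            have : some p = some p' := by rw [← hPe, ← hPf]; exact hef
            exact Option.some_inj.1 this
          exact (hp3 f hf (hpp ▸ hp')).symm
        rw [this]
        have h3 : F.image P ⊆ pr.image some := by
          intro o ho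
          obtain ⟨e, he, rfl⟩ := Finset.mem_image.1 ho
          obtain ⟨p, hp, _, hPe, hp3⟩ := hsh e he
          rw [hPe]
          refine Finset.mem_image_of_mem _ ?_
          simp only [pr, Finset.mem_filter, Finset.mem_univ, true_and]
          exact ⟨e, he, hPe⟩
        exact (Finset.card_le_card h3).trans Finset.card_image_le
      have hdisj : Disjoint (verts (F.image sh)) pr := by
        rw [Finset.disjoint_left]
        intro v hv hv'
        simp only [pr, Finset.mem_filter, Finset.mem_univ, true_and] at hv'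
        obtain ⟨e, he, hPe⟩ := hv'
        obtain ⟨g, hg, hvg⟩ := mem_verts.1 hv
        obtain ⟨f, hf, rfl⟩ := Finset.mem_image.1 hg
        have hvf := Finset.mem_filter.1 hvg
        obtain ⟨p, hp, _, hPe', hp3⟩ := hsh e he
        have hpv : p = v := by
          rw [hPe] at hPe'
          exact (Option.some_inj.1 hPe').symm
        have hfe := hp3 f hf (hpv ▸ hvf.1)
        exact hvf.2 (by rw [hfe, hPe])
      have h4 := Finset.card_union_of_disjoint hdisj
      have h5 : (verts (F.image sh) ∪ pr).card ≤ Fintype.card V := Finset.card_le_univ _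
      omega
    have h3 : F.card ≤ E.card := Finset.card_le_card hFE
    obtain ⟨d, rfl⟩ : ∃ d, c = a + d := ⟨c - a, by omega⟩
    have h4 : (a + d) * (F.image sh).card ≤ (a + d) * F.card := Nat.mul_le_mul_left _ h1
    have h5 : (a + d) * F.card = d * F.card + a * F.card := by ring
    have h6 : d * F.card ≤ d * E.card := Nat.mul_le_mul_left _ h3
    have h7 : a * (verts (F.image sh)).card + a * F.card ≤ a * Fintype.card V := by
      rw [← Nat.mul_add]; exact Nat.mul_le_mul_left _ h2
    rw [Nat.add_sub_cancel_left]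
    omega

/-- The case `a = 1`. -/
theorem dominating_of_transversal (q N c : ℕ) (hc : 1 ≤ c)
    (hT : ∀ F : Finset (Finset V), (∀ e ∈ F, e.card = q) →
      ∃ T, Hits F T ∧ N * T.card ≤ (verts F).card + c * F.card)
    (E : Finset (Finset V)) (hk : ∀ e ∈ E, e.card = q + 1) (hE : ∀ v : V, ∃ e ∈ E, v ∈ e) :
    ∃ T : Finset V, (∀ v, ∃ e ∈ E, v ∈ e ∧ ∃ u ∈ e, u ∈ T) ∧
      N * T.card ≤ Fintype.card V + (c - 1) * E.card := by
  have h := dominating_of_transversal' q N 1 c hc (fun F hF => by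
    obtain ⟨T, h1, h2⟩ := hT F hF
    exact ⟨T, h1, by rw [one_mul]; exact h2⟩) E hk hE
  rw [one_mul] at h
  exact h

/-- For `k = q + 1 ≥ 3`: a dominating set with `⌊3(k-1)/2⌋ |T| ≤ n + ⌊(k-3)/2⌋ m`. -/
theorem domination_bound (q : ℕ) (hq : 2 ≤ q) (E : Finset (Finset V))
    (hk : ∀ e ∈ E, e.card = q + 1) (hE : ∀ v : V, ∃ e ∈ E, v ∈ e) :
    ∃ T : Finset V, (∀ v, ∃ e ∈ E, v ∈ e ∧ ∃ u ∈ e, u ∈ T) ∧
      3 * q / 2 * T.card ≤ Fintype.card V + (q / 2 - 1) * E.card :=
  dominating_of_transversal q (3 * q / 2) (q / 2) (by omega)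
    (fun F hF => chvatal_mcdiarmid q (by omega) F.card F rfl hF) E hk hE

end Pool.Agent.V11145.DomRed
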