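import Mathlib
import Pool.Agent.V11145.DomTrans

/-!
Strongly independent sets of vertices in uniform families of small maximum degree.
-/

namespace Pool.Agent.V11145.LC

open Finset Pool.Agent.V11145.DomTrans

variable {V : Type*} [DecidableEq V]

/-- `X` is a set of vertices of degree `d` of the family `F`, no two on a common edge. -/
def IndK (d : ℕ) (F : Finset (Finset V)) (X : Finset V) : Prop :=
  (∀ x ∈ X, deg F x = d) ∧ ∀ x ∈ X, ∀ x' ∈ X, ∀ e ∈ F, x ∈ e → x' ∈ e → x = x'

/-- the members of `F` meeting `X` -/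
def cov (F : Finset (Finset V)) (X : Finset V) : Finset (Finset V) :=
  F.filter (fun e => ∃ x ∈ X, x ∈ e)

/-- the members of `F` avoiding `X` -/
def rest (F : Finset (Finset V)) (X : Finset V) : Finset (Finset V) :=
  F.filter (fun e => ¬ ∃ x ∈ X, x ∈ e)

lemma mem_cov {F : Finset (Finset V)} {X e : Finset V} :
    e ∈ cov F X ↔ e ∈ F ∧ ∃ x ∈ X, x ∈ e := Finset.mem_filter

lemma mem_rest {F : Finset (Finset V)} {X e : Finset V} :
    e ∈ rest F X ↔ e ∈ F ∧ ¬ ∃ x ∈ X, x ∈ e := Finset.mem_filter

lemma cov_add_rest (F : Finset (Finset V)) (X : Finset V) :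
    (cov F X).card + (rest F X).card = F.card :=
  Finset.card_filter_add_card_filter_not _

lemma deg_add (F : Finset (Finset V)) (X : Finset V) (v : V) :
    deg F v = deg (cov F X) v + deg (rest F X) v := by
  unfold deg
  have h1 : (F.filter (fun e => v ∈ e)).filter (fun e => ∃ x ∈ X, x ∈ e)
      = (cov F X).filter (fun e => v ∈ e) := by unfold cov; rw [Finset.filter_comm]
  have h2 : (F.filter (fun e => v ∈ e)).filter (fun e => ¬ ∃ x ∈ X, x ∈ e)
      = (rest F X).filter (fun e => v ∈ e) := by unfold rest; rw [Finset.filter_comm]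
  rw [← h1, ← h2]
  exact (Finset.card_filter_add_card_filter_not _).symm

lemma cov_eq (F : Finset (Finset V)) (X : Finset V) :
    cov F X = X.biUnion (fun x => F.filter (fun e => x ∈ e)) := by
  ext e
  rw [mem_cov, Finset.mem_biUnion]
  constructor
  · rintro ⟨he, x, hx, hxe⟩
    exact ⟨x, hx, by simp [he, hxe]⟩
  · rintro ⟨x, hx, hxe⟩
    rw [Finset.mem_filter] at hxe
    exact ⟨hxe.1, x, hx, hxe.2⟩

lemma stars_disjoint {d : ℕ} {F : Finset (Finset V)} {X : Finset V} (h : IndK d F X) :
    (X : Set V).PairwiseDisjoint (fun x => F.filter (fun e => x ∈ e)) := by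
  intro x hx x' hx' hne
  show Disjoint (F.filter (fun e => x ∈ e)) (F.filter (fun e => x' ∈ e))
  rw [Finset.disjoint_left]
  intro e he he'
  rw [Finset.mem_filter] at he he'
  exact hne (h.2 x hx x' hx' e he.1 he.2 he'.2)

lemma card_cov {d : ℕ} {F : Finset (Finset V)} {X : Finset V} (h : IndK d F X) :
    (cov F X).card = d * X.card := by
  rw [cov_eq, Finset.card_biUnion (stars_disjoint h)]
  have : ∀ x ∈ X, (F.filter (fun e => x ∈ e)).card = d := fun x hx => h.1 x hx
  rw [Finset.sum_congr rfl this, Finset.sum_const, smul_eq_mul, mul_comm]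

/-- a transversal built from a strongly independent set -/
lemma hit_of_ind {F : Finset (Finset V)} (hne : ∀ e ∈ F, e.Nonempty) {Y : Finset V}
    (h : IndK 2 F Y) : ∃ T, Hits F T ∧ T.card + Y.card ≤ F.card := by
  obtain ⟨Tu, hTu, hTuc⟩ := trivial_hit (rest F Y) (fun e he => hne e (mem_rest.1 he).1)
  refine ⟨Y ∪ Tu, ?_, ?_⟩
  · intro e he
    by_cases hc : ∃ x ∈ Y, x ∈ e
    · obtain ⟨x, hx, hxe⟩ := hc
      exact ⟨x, hxe, Finset.mem_union_left _ hx⟩
    · obtain ⟨v, hv, hvT⟩ := hTu e (mem_rest.2 ⟨he, hc⟩)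
      exact ⟨v, hv, Finset.mem_union_right _ hvT⟩
  · have h1 := Finset.card_union_le Y Tu
    have h2 := cov_add_rest F Y
    have h3 := card_cov h
    omega

/-- the vertices of degree two -/
def N2 (F : Finset (Finset V)) : Finset V := (verts F).filter (fun v => deg F v = 2)

lemma mem_N2 {F : Finset (Finset V)} {v : V} : v ∈ N2 F ↔ deg F v = 2 := by
  unfold N2
  rw [Finset.mem_filter]
  constructor
  · exact fun h => h.2
  · exact fun h => ⟨verts_of_deg (by omega), h⟩

/-- a vertex with two given edges has degree at least two -/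
lemma two_le_deg {F : Finset (Finset V)} {e f : Finset V} (he : e ∈ F) (hf : f ∈ F)
    (hne : e ≠ f) {v : V} (hve : v ∈ e) (hvf : v ∈ f) : 2 ≤ deg F v := by
  have h1 : ({e, f} : Finset (Finset V)) ⊆ F.filter (fun e => v ∈ e) := by
    intro t ht
    simp only [Finset.mem_insert, Finset.mem_singleton] at ht
    rcases ht with rfl | rfl
    · simp [he, hve]
    · simp [hf, hvf]
  have h2 := Finset.card_le_card h1
  rw [Finset.card_pair hne] at h2
  exact h2

/-- a vertex with three given edges has degree at least three -/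
lemma three_le_deg {F : Finset (Finset V)} {e f g : Finset V} (he : e ∈ F) (hf : f ∈ F)
    (hg : g ∈ F) (hef : e ≠ f) (heg : e ≠ g) (hfg : f ≠ g) {v : V} (hve : v ∈ e) (hvf : v ∈ f)
    (hvg : v ∈ g) : 3 ≤ deg F v := by
  have h1 : ({e, f, g} : Finset (Finset V)) ⊆ F.filter (fun e => v ∈ e) := by
    intro t ht
    simp only [Finset.mem_insert, Finset.mem_singleton] at ht
    rcases ht with rfl | rfl | rfl
    · simp [he, hve]
    · simp [hf, hvf]
    · simp [hg, hvg]
  have h2 := Finset.card_le_card h1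
  have hc : ({e, f, g} : Finset (Finset V)).card = 3 := by
    rw [Finset.card_eq_three]
    exact ⟨e, f, g, hef, heg, hfg, rfl⟩
  rw [hc] at h2
  exact h2

/-- a vertex of degree three lies in no other edges than three given ones -/
lemma three_edges {F : Finset (Finset V)} {y : V} (hy : deg F y ≤ 3) {e f g : Finset V}
    (he : e ∈ F) (hf : f ∈ F) (hg : g ∈ F) (hef : e ≠ f) (heg : e ≠ g) (hfg : f ≠ g)
    (hye : y ∈ e) (hyf : y ∈ f) (hyg : y ∈ g) :
    ∀ d ∈ F, y ∈ d → d = e ∨ d = f ∨ d = g := by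
  intro d hd hyd
  by_contra hcon
  push Not at hcon
  have hsub : ({e, f, g, d} : Finset (Finset V)) ⊆ F.filter (fun e => y ∈ e) := by
    intro t ht
    simp only [Finset.mem_insert, Finset.mem_singleton] at ht
    rcases ht with rfl | rfl | rfl | rfl
    · simp [he, hye]
    · simp [hf, hyf]
    · simp [hg, hyg]
    · simp [hd, hyd]
  have hc : ({e, f, g, d} : Finset (Finset V)).card = 4 := by
    rw [Finset.card_insert_of_notMem, Finset.card_insert_of_notMem, Finset.card_pair]
    · exact fun h => hcon.2.2 h.symm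
    · simp only [Finset.mem_insert, Finset.mem_singleton]
      rintro (h | h)
      · exact hfg h
      · exact hcon.2.1 h.symm
    · simp only [Finset.mem_insert, Finset.mem_singleton]
      rintro (h | h | h)
      · exact hef h
      · exact heg h
      · exact hcon.1 h.symm
  have := Finset.card_le_card hsub
  unfold deg at hy
  omega

/-- Maximum strongly independent sets in families of maximum degree two. -/
lemma exists_ind (q : ℕ) (hq : 1 ≤ q) (F : Finset (Finset V)) (hu : ∀ e ∈ F, e.card = q)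
    (hd : ∀ v, deg F v ≤ 2)
    (hint : ∀ e ∈ F, ∀ f ∈ F, ∀ g ∈ F, e ≠ f → e ≠ g → f ≠ g → (∃ v, v ∈ e ∧ v ∈ f) →
      (e ∩ g).card + (f ∩ g).card ≤ q - 1) :
    ∃ X, IndK 2 F X ∧ 2 * (N2 F).card ≤ (3 * q - 1) * X.card := by
  classical
  have hne : ((verts F).powerset.filter (IndK 2 F)).Nonempty :=
    ⟨∅, by simp [IndK]⟩
  obtain ⟨X, hX, hmax⟩ := Finset.exists_max_image _ Finset.card hne
  rw [Finset.mem_filter] at hX
  have hXI : IndK 2 F X := hX.2
  obtain ⟨hXdeg, hXind⟩ := hX.2
  have hmax' : ∀ Y : Finset V, IndK 2 F Y → Y.card ≤ X.card := by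
    intro Y hY
    apply hmax
    rw [Finset.mem_filter, Finset.mem_powerset]
    refine ⟨fun y hy => ?_, hY⟩
    have := hY.1 y hy
    exact verts_of_deg (by omega)
  refine ⟨X, hXI, ?_⟩
  have hFc2 := card_cov hXI
  have hdegcu := deg_add F X
  -- every vertex of degree two has at most one uncovered edge
  have hu1 : ∀ y ∈ N2 F, deg (rest F X) y ≤ 1 := by
    intro y hy
    by_contra hcon
    have hy2 : deg F y = 2 := mem_N2.1 hy
    have hcy : deg (cov F X) y = 0 := by
      have := hdegcu y
      omega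
    have hnc : ∀ e ∈ F, y ∈ e → ¬ ∃ x ∈ X, x ∈ e := by
      intro e he hye hcov
      have : e ∈ (cov F X).filter (fun e => y ∈ e) := by
        rw [Finset.mem_filter]; exact ⟨mem_cov.2 ⟨he, hcov⟩, hye⟩
      unfold deg at hcy
      rw [Finset.card_eq_zero] at hcy
      rw [hcy] at this
      simp at this
    have hyX : y ∉ X := by
      intro hyX
      have h1 : 1 ≤ deg F y := by omega
      obtain ⟨e, he, hye⟩ := mem_verts.1 (verts_of_deg h1)
      exact hnc e he hye ⟨y, hyX, hye⟩
    have hI : IndK 2 F (insert y X) := by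
      refine ⟨?_, ?_⟩
      · intro x hx
        rcases Finset.mem_insert.1 hx with rfl | hx
        · exact hy2
        · exact hXdeg x hx
      · intro x hx x' hx' e he hxe hxe'
        rcases Finset.mem_insert.1 hx with h | h <;> rcases Finset.mem_insert.1 hx' with h' | h'
        · rw [h, h']
        · exact absurd ⟨x', h', hxe'⟩ (hnc e he (h ▸ hxe))
        · exact absurd ⟨x, h, hxe⟩ (hnc e he (h' ▸ hxe'))
        · exact hXind x h x' h' e he hxe hxe'
    have := hmax' _ hI
    rw [Finset.card_insert_of_notMem hyX] at this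
    omega
  -- vertices of degree two with an uncovered edge
  set S := (N2 F).filter (fun y => 1 ≤ deg (rest F X) y) with hS
  have hSu : ∀ y ∈ S, ∃ g ∈ F, y ∈ g ∧ ¬ ∃ x ∈ X, x ∈ g := by
    intro y hy
    obtain ⟨g, hg, hyg⟩ := mem_verts.1 (verts_of_deg (Finset.mem_filter.1 hy).2)
    exact ⟨g, (mem_rest.1 hg).1, hyg, (mem_rest.1 hg).2⟩
  have hSdeg : ∀ y ∈ S, deg F y = 2 := by
    intro y hy
    exact mem_N2.1 (Finset.mem_filter.1 hy).1
  have hSX : ∀ y ∈ S, y ∉ X := by
    intro y hy hyX
    obtain ⟨g, _, hyg, hgu⟩ := hSu y hy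
    exact hgu ⟨y, hyX, hyg⟩
  have hScov : ∀ y ∈ S, ∃ x ∈ X, ∃ e ∈ F, x ∈ e ∧ y ∈ e := by
    intro y hy
    have h1 := hSdeg y hy
    have h2 := hu1 y (Finset.mem_filter.1 hy).1
    have h3 := hdegcu y
    obtain ⟨e, he, hye⟩ := mem_verts.1 (verts_of_deg (show 1 ≤ deg (cov F X) y by omega))
    obtain ⟨heF, x, hx, hxe⟩ := mem_cov.1 he
    exact ⟨x, hx, e, heF, hxe, hye⟩
  -- main local estimate
  have hloc : ∀ x ∈ X, (S.filter (fun y => ∃ e ∈ F, x ∈ e ∧ y ∈ e)).card ≤ q - 1 := by
    intro x hx
    obtain ⟨e, f, hef, hEx⟩ := Finset.card_eq_two.1 (show (F.filter (fun e => x ∈ e)).card = 2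
      from hXdeg x hx)
    have he : e ∈ F ∧ x ∈ e := by
      have : e ∈ F.filter (fun e => x ∈ e) := by rw [hEx]; simp
      rwa [Finset.mem_filter] at this
    have hf : f ∈ F ∧ x ∈ f := by
      have : f ∈ F.filter (fun e => x ∈ e) := by rw [hEx]; simp
      rwa [Finset.mem_filter] at this
    have hsub : S.filter (fun y => ∃ e ∈ F, x ∈ e ∧ y ∈ e)
        ⊆ S.filter (fun y => y ∈ e) ∪ S.filter (fun y => y ∈ f) := by
      intro y hy
      rw [Finset.mem_filter] at hy
      obtain ⟨hyS, d, hd', hxd, hyd⟩ := hy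
      have : d ∈ F.filter (fun e => x ∈ e) := by rw [Finset.mem_filter]; exact ⟨hd', hxd⟩
      rw [hEx, Finset.mem_insert, Finset.mem_singleton] at this
      rcases this with rfl | rfl
      · exact Finset.mem_union_left _ (by rw [Finset.mem_filter]; exact ⟨hyS, hyd⟩)
      · exact Finset.mem_union_right _ (by rw [Finset.mem_filter]; exact ⟨hyS, hyd⟩)
    have hcov : ∀ d, d ∈ F → x ∈ d → ∀ g, (¬ ∃ x ∈ X, x ∈ g) → d ≠ g := by
      intro d _ hxd g hg hdg
      exact hg ⟨x, hx, hdg ▸ hxd⟩
    have hone : ∀ d : Finset V, d ∈ F → x ∈ d → (S.filter (fun y => y ∈ d)).card ≤ q - 1 := by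
      intro d hd' hxd
      have : S.filter (fun y => y ∈ d) ⊆ d.erase x := by
        intro y hy
        rw [Finset.mem_filter] at hy
        rw [Finset.mem_erase]
        exact ⟨fun h => hSX y hy.1 (h ▸ hx), hy.2⟩
      refine (Finset.card_le_card this).trans ?_
      rw [Finset.card_erase_of_mem hxd, hu d hd']
    -- exchange argument
    have hkey : ∀ y ∈ S, y ∈ e → ∀ z ∈ S, z ∈ f → ∀ g ∈ F, y ∈ g → (¬ ∃ x ∈ X, x ∈ g) →
        ∀ h ∈ F, z ∈ h → (¬ ∃ x ∈ X, x ∈ h) → g = h := by
      intro y hy hye z hz hzf g hg hyg hgu h hh hzh hhu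
      by_contra hgh
      have heg : e ≠ g := hcov e he.1 he.2 g hgu
      have hfh : f ≠ h := hcov f hf.1 hf.2 h hhu
      have heh : e ≠ h := hcov e he.1 he.2 h hhu
      have hfg : f ≠ g := hcov f hf.1 hf.2 g hgu
      have hEy := two_edges (hSdeg y hy) he.1 hg hye hyg heg
      have hEz := two_edges (hSdeg z hz) hf.1 hh hzf hzh hfh
      have hyz : y ≠ z := by
        intro hyz
        rcases hEy f hf.1 (hyz ▸ hzf) with h1 | h1
        · exact hef h1.symm
        · exact hfg h1
      have hI : IndK 2 F (insert y (insert z (X.erase x))) := by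
        have hyX : ∀ b ∈ X.erase x, ∀ d ∈ F, y ∈ d → b ∈ d → False := by
          intro b hb d hd' hyd hbd
          rw [Finset.mem_erase] at hb
          rcases hEy d hd' hyd with h1 | h1
          · exact hb.1 (hXind b hb.2 x hx d hd' hbd (h1 ▸ he.2))
          · exact hgu ⟨b, hb.2, h1 ▸ hbd⟩
        have hzX : ∀ b ∈ X.erase x, ∀ d ∈ F, z ∈ d → b ∈ d → False := by
          intro b hb d hd' hzd hbd
          rw [Finset.mem_erase] at hb
          rcases hEz d hd' hzd with h1 | h1
          · exact hb.1 (hXind b hb.2 x hx d hd' hbd (h1 ▸ hf.2))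
          · exact hhu ⟨b, hb.2, h1 ▸ hbd⟩
        have hyz' : ∀ d ∈ F, y ∈ d → z ∈ d → False := by
          intro d hd' hyd hzd
          rcases hEy d hd' hyd with h1 | h1 <;> rcases hEz d hd' hzd with h2 | h2
          · exact hef (h1.symm.trans h2)
          · exact heh (h1.symm.trans h2)
          · exact hfg (h2.symm.trans h1)
          · exact hgh (h1.symm.trans h2)
        refine ⟨?_, ?_⟩
        · intro a ha
          rcases Finset.mem_insert.1 ha with rfl | ha
          · exact hSdeg _ hy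
          rcases Finset.mem_insert.1 ha with rfl | ha
          · exact hSdeg _ hz
          · exact hXdeg a (Finset.mem_of_mem_erase ha)
        · intro a ha b hb d hd' had hbd
          rcases Finset.mem_insert.1 ha with h1 | ha
          · rcases Finset.mem_insert.1 hb with h2 | hb
            · rw [h1, h2]
            rcases Finset.mem_insert.1 hb with h2 | hb
            · exact (hyz' d hd' (h1 ▸ had) (h2 ▸ hbd)).elim
            · exact (hyX b hb d hd' (h1 ▸ had) hbd).elim
          rcases Finset.mem_insert.1 ha with h1 | ha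
          · rcases Finset.mem_insert.1 hb with h2 | hb
            · exact (hyz' d hd' (h2 ▸ hbd) (h1 ▸ had)).elim
            rcases Finset.mem_insert.1 hb with h2 | hb
            · rw [h1, h2]
            · exact (hzX b hb d hd' (h1 ▸ had) hbd).elim
          · rcases Finset.mem_insert.1 hb with h2 | hb
            · exact (hyX a ha d hd' (h2 ▸ hbd) had).elim
            rcases Finset.mem_insert.1 hb with h2 | hb
            · exact (hzX a ha d hd' (h2 ▸ hbd) had).elim
            · exact hXind a (Finset.mem_of_mem_erase ha) b (Finset.mem_of_mem_erase hb) d hd'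
                had hbd
      have hc := hmax' _ hI
      have hzn : z ∉ X.erase x := fun h => hSX z hz (Finset.mem_of_mem_erase h)
      have hyn : y ∉ insert z (X.erase x) := by
        rw [Finset.mem_insert]
        rintro (h1 | h1)
        · exact hyz h1
        · exact hSX y hy (Finset.mem_of_mem_erase h1)
      rw [Finset.card_insert_of_notMem hyn, Finset.card_insert_of_notMem hzn,
        Finset.card_erase_of_mem hx] at hc
      have : 1 ≤ X.card := Finset.card_pos.2 ⟨x, hx⟩
      omega
    have hcard := (Finset.card_le_card hsub).trans (Finset.card_union_le _ _)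
    rcases (S.filter (fun y => y ∈ f)).eq_empty_or_nonempty with hSf | ⟨z0, hz0⟩
    · rw [hSf, Finset.card_empty] at hcard
      have := hone e he.1 he.2
      omega
    rcases (S.filter (fun y => y ∈ e)).eq_empty_or_nonempty with hSe | ⟨y0, hy0⟩
    · rw [hSe, Finset.card_empty] at hcard
      have := hone f hf.1 hf.2
      omega
    rw [Finset.mem_filter] at hz0 hy0
    obtain ⟨g0, hg0, hyg0, hgu0⟩ := hSu y0 hy0.1
    have hSf' : S.filter (fun y => y ∈ f) ⊆ f ∩ g0 := by
      intro z hz
      rw [Finset.mem_filter] at hz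
      obtain ⟨h, hh, hzh, hhu⟩ := hSu z hz.1
      have := hkey y0 hy0.1 hy0.2 z hz.1 hz.2 g0 hg0 hyg0 hgu0 h hh hzh hhu
      rw [Finset.mem_inter]
      exact ⟨hz.2, this ▸ hzh⟩
    have hSe' : S.filter (fun y => y ∈ e) ⊆ e ∩ g0 := by
      intro y hy
      rw [Finset.mem_filter] at hy
      obtain ⟨g, hg, hyg, hgu⟩ := hSu y hy.1
      obtain ⟨h, hh, hzh, hhu⟩ := hSu z0 hz0.1
      have h1 := hkey y0 hy0.1 hy0.2 z0 hz0.1 hz0.2 g0 hg0 hyg0 hgu0 h hh hzh hhu
      have h2 := hkey y hy.1 hy.2 z0 hz0.1 hz0.2 g hg hyg hgu h hh hzh hhu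
      rw [Finset.mem_inter]
      exact ⟨hy.2, by rw [h1, ← h2]; exact hyg⟩
    have h1 := Finset.card_le_card hSf'
    have h2 := Finset.card_le_card hSe'
    have h3 := hint e he.1 f hf.1 g0 hg0 hef (hcov e he.1 he.2 g0 hgu0)
      (hcov f hf.1 hf.2 g0 hgu0) ⟨x, he.2, hf.2⟩
    omega
  have hScard : S.card ≤ (q - 1) * X.card := by
    have h1 : S ⊆ X.biUnion (fun x => S.filter (fun y => ∃ e ∈ F, x ∈ e ∧ y ∈ e)) := by
      intro y hy
      obtain ⟨x, hx, e, he, hxe, hye⟩ := hScov y hy
      rw [Finset.mem_biUnion]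
      exact ⟨x, hx, by rw [Finset.mem_filter]; exact ⟨hy, e, he, hxe, hye⟩⟩
    refine (Finset.card_le_card h1).trans (Finset.card_biUnion_le.trans ?_)
    refine (Finset.sum_le_sum hloc).trans ?_
    rw [Finset.sum_const, smul_eq_mul, mul_comm]
  have h1 : ∑ y ∈ N2 F, deg F y = 2 * (N2 F).card := by
    have : ∀ y ∈ N2 F, deg F y = 2 := fun y hy => mem_N2.1 hy
    rw [Finset.sum_congr rfl this, Finset.sum_const, smul_eq_mul, mul_comm]
  have h2 : ∑ y ∈ N2 F, deg F y = ∑ y ∈ N2 F, deg (cov F X) y + ∑ y ∈ N2 F, deg (rest F X) y := by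
    rw [← Finset.sum_add_distrib]
    exact Finset.sum_congr rfl fun y _ => hdegcu y
  have h3 : ∑ y ∈ N2 F, deg (cov F X) y ≤ q * (2 * X.card) := by
    rw [sum_deg, ← hFc2]
    refine (Finset.sum_le_sum (g := fun _ => q) fun e he => ?_).trans ?_
    · refine (Finset.card_le_card Finset.inter_subset_left).trans ?_
      rw [hu e (mem_cov.1 he).1]
    · rw [Finset.sum_const, smul_eq_mul, mul_comm]
  have h4 : ∑ y ∈ N2 F, deg (rest F X) y ≤ S.card := by
    rw [hS, Finset.card_filter]
    refine Finset.sum_le_sum fun y hy => ?_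
    have := hu1 y hy
    split_ifs with h5
    · exact this
    · omega
  obtain ⟨p, rfl⟩ : ∃ p, q = p + 1 := ⟨q - 1, by omega⟩
  have h5 : (3 * (p + 1) - 1) * X.card = (p + 1) * (2 * X.card) + (p + 1 - 1) * X.card := by
    have : 3 * (p + 1) - 1 = 3 * p + 2 := by omega
    rw [this, Nat.add_sub_cancel]
    ring
  rw [h5]
  omega

end Pool.Agent.V11145.LC
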