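import Mathlib
import Pool.Agent.V11145.LaiChangA

/-!
Strongly independent sets in 4-uniform families of maximum degree two.
-/

namespace Pool.Agent.V11145.LC

open Finset Pool.Agent.V11145.DomTrans

variable {V : Type*} [DecidableEq V]

/-- three sets pairwise sharing exactly two elements -/
def IsD (e f g : Finset V) : Prop :=
  e ≠ f ∧ e ≠ g ∧ f ≠ g ∧ (e ∩ f).card = 2 ∧ (e ∩ g).card = 2 ∧ (f ∩ g).card = 2

instance decIsD (e f g : Finset V) : Decidable (IsD e f g) := by
  unfold IsD; infer_instance

lemma IsD.swap {e f g : Finset V} (h : IsD e f g) : IsD e g f :=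
  ⟨h.2.1, h.1, h.2.2.1.symm, h.2.2.2.2.1, h.2.2.2.1, by rw [Finset.inter_comm]; exact h.2.2.2.2.2⟩

lemma IsD.rot {e f g : Finset V} (h : IsD e f g) : IsD f g e :=
  ⟨h.2.2.1, h.1.symm, h.2.1.symm, h.2.2.2.2.2, by rw [Finset.inter_comm]; exact h.2.2.2.1,
    by rw [Finset.inter_comm]; exact h.2.2.2.2.1⟩

/-- vertices covered by triples of edges pairwise sharing two vertices -/
def U (F : Finset (Finset V)) : Finset V :=
  (verts F).filter (fun v => ∃ e ∈ F, ∃ f ∈ F, ∃ g ∈ F, IsD e f g ∧ v ∈ e)

lemma mem_U {F : Finset (Finset V)} {v : V} :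
    v ∈ U F ↔ ∃ e ∈ F, ∃ f ∈ F, ∃ g ∈ F, IsD e f g ∧ v ∈ e := by
  unfold U
  rw [Finset.mem_filter]
  constructor
  · exact fun h => h.2
  · intro h
    refine ⟨?_, h⟩
    obtain ⟨e, he, _, _, _, _, _, hv⟩ := h
    exact mem_verts.2 ⟨e, he, hv⟩

lemma U_mono {F1 F : Finset (Finset V)} (h : F1 ⊆ F) : U F1 ⊆ U F := by
  intro v hv
  obtain ⟨e, he, f, hf, g, hg, hD, hve⟩ := mem_U.1 hv
  exact mem_U.2 ⟨e, h he, f, h hf, g, h hg, hD, hve⟩

lemma deg_mono {F1 F : Finset (Finset V)} (h : F1 ⊆ F) (v : V) : deg F1 v ≤ deg F v :=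
  Finset.card_le_card (Finset.filter_subset_filter _ h)

lemma deg_sdiff {R F : Finset (Finset V)} (h : R ⊆ F) (v : V) :
    deg F v = deg R v + deg (F \ R) v := by
  unfold deg
  rw [← Finset.card_union_of_disjoint, ← Finset.filter_union, Finset.union_sdiff_of_subset h]
  rw [Finset.disjoint_left]
  intro e he he'
  rw [Finset.mem_filter] at he he'
  exact (Finset.mem_sdiff.1 he'.1).2 he.1

/-- In a family of maximum degree two, a vertex of an edge of a `D`-triple lies in exactly one
of the other two edges. -/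
lemma D1 {F : Finset (Finset V)} (hu : ∀ e ∈ F, e.card = 4) (hd : ∀ v, deg F v ≤ 2)
    {e f g : Finset V} (he : e ∈ F) (hf : f ∈ F) (hg : g ∈ F) (hD : IsD e f g) {v : V}
    (hv : v ∈ e) : (v ∈ f ∧ v ∉ g) ∨ (v ∈ g ∧ v ∉ f) := by
  obtain ⟨hef, heg, hfg, c1, c2, c3⟩ := hD
  have hdisj : Disjoint (e ∩ f) (e ∩ g) := by
    rw [Finset.disjoint_left]
    intro w hw hw'
    rw [Finset.mem_inter] at hw hw'
    have := three_le_deg he hf hg hef heg hfg hw.1 hw.2 hw'.2
    have := hd w
    omega
  have hcard : ((e ∩ f) ∪ (e ∩ g)).card = 4 := by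
    rw [Finset.card_union_of_disjoint hdisj, c1, c2]
  have hsub : (e ∩ f) ∪ (e ∩ g) ⊆ e :=
    Finset.union_subset Finset.inter_subset_left Finset.inter_subset_left
  have heq : (e ∩ f) ∪ (e ∩ g) = e :=
    Finset.eq_of_subset_of_card_le hsub (by rw [hcard, hu e he])
  rw [← heq, Finset.mem_union, Finset.mem_inter, Finset.mem_inter] at hv
  have hnot : ¬ (v ∈ e ∧ v ∈ f ∧ v ∈ g) := by
    rintro ⟨h1, h2, h3⟩
    have := three_le_deg he hf hg hef heg hfg h1 h2 h3
    have := hd v
    omega
  rcases hv with ⟨h1, h2⟩ | ⟨h1, h2⟩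
  · left; exact ⟨h2, fun h3 => hnot ⟨h1, h2, h3⟩⟩
  · right; exact ⟨h2, fun h3 => hnot ⟨h1, h3, h2⟩⟩

lemma U_deg {F : Finset (Finset V)} (hu : ∀ e ∈ F, e.card = 4) (hd : ∀ v, deg F v ≤ 2)
    {v : V} (hv : v ∈ U F) : deg F v = 2 := by
  obtain ⟨e, he, f, hf, g, hg, hD, hve⟩ := mem_U.1 hv
  have h2 := hd v
  rcases D1 hu hd he hf hg hD hve with ⟨h, _⟩ | ⟨h, _⟩
  · have := two_le_deg he hf hD.1 hve h; omega
  · have := two_le_deg he hg hD.2.1 hve h; omega

/-- combining strongly independent sets -/
lemma combine {F R : Finset (Finset V)} (hR : R ⊆ F) (hd : ∀ v, deg F v ≤ 2) {Y Z : Finset V}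
    (hY : IndK 2 (F \ R) Y) (hZ : IndK 2 R Z) :
    IndK 2 F (Y ∪ Z) ∧ (Y ∪ Z).card = Y.card + Z.card := by
  have hYd : ∀ y ∈ Y, deg F y = 2 ∧ deg R y = 0 := by
    intro y hy
    have h1 := hY.1 y hy
    have h2 := deg_sdiff hR y
    have h3 := hd y
    omega
  have hZd : ∀ z ∈ Z, deg F z = 2 ∧ deg (F \ R) z = 0 := by
    intro z hz
    have h1 := hZ.1 z hz
    have h2 := deg_sdiff hR z
    have h3 := hd z
    omega
  have hcross : ∀ y ∈ Y, ∀ z ∈ Z, ∀ e ∈ F, y ∈ e → z ∈ e → False := by
    intro y hy z hz e he hye hze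
    by_cases heR : e ∈ R
    · have : 1 ≤ deg R y := deg_pos (mem_verts.2 ⟨e, heR, hye⟩)
      have := (hYd y hy).2
      omega
    · have : 1 ≤ deg (F \ R) z :=
        deg_pos (mem_verts.2 ⟨e, Finset.mem_sdiff.2 ⟨he, heR⟩, hze⟩)
      have := (hZd z hz).2
      omega
  refine ⟨⟨?_, ?_⟩, ?_⟩
  · intro x hx
    rcases Finset.mem_union.1 hx with hx | hx
    · exact (hYd x hx).1
    · exact (hZd x hx).1
  · intro x hx x' hx' e he hxe hxe'
    rcases Finset.mem_union.1 hx with h | h <;> rcases Finset.mem_union.1 hx' with h' | h'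
    · by_cases heR : e ∈ R
      · have : 1 ≤ deg R x := deg_pos (mem_verts.2 ⟨e, heR, hxe⟩)
        have := (hYd x h).2
        omega
      · exact hY.2 x h x' h' e (Finset.mem_sdiff.2 ⟨he, heR⟩) hxe hxe'
    · exact (hcross x h x' h' e he hxe hxe').elim
    · exact (hcross x' h' x h e he hxe' hxe).elim
    · by_cases heR : e ∈ R
      · exact hZ.2 x h x' h' e heR hxe hxe'
      · have : 1 ≤ deg (F \ R) x :=
          deg_pos (mem_verts.2 ⟨e, Finset.mem_sdiff.2 ⟨he, heR⟩, hxe⟩)
        have := (hZd x h).2
        omega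
  · apply Finset.card_union_of_disjoint
    rw [Finset.disjoint_left]
    intro x hx hx'
    have h1 := (hYd x hx).1
    obtain ⟨e, he, hxe⟩ := mem_verts.1 (verts_of_deg (show 1 ≤ deg F x by omega))
    exact hcross x hx x hx' e he hxe hxe

lemma N2_le (F R : Finset (Finset V)) (hR : R ⊆ F) :
    (N2 F).card ≤ (N2 (F \ R)).card + (verts R ∩ N2 F).card := by
  have : N2 F ⊆ N2 (F \ R) ∪ (verts R ∩ N2 F) := by
    intro v hv
    by_cases h : v ∈ verts R
    · exact Finset.mem_union_right _ (Finset.mem_inter.2 ⟨h, hv⟩)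
    · apply Finset.mem_union_left
      rw [mem_N2] at hv ⊢
      have h1 := deg_sdiff hR v
      have h2 : deg R v = 0 := by
        by_contra hne
        exact h (verts_of_deg (by omega))
      omega
  exact (Finset.card_le_card this).trans (Finset.card_union_le _ _)

lemma reduce {F R : Finset (Finset V)} {Z : Finset V} (hR : R ⊆ F) (hd : ∀ v, deg F v ≤ 2)
    (hZ : IndK 2 R Z)
    (hrec : ∃ Y, IndK 2 (F \ R) Y ∧ 13 * (N2 (F \ R)).card ≤ 72 * Y.card + (U (F \ R)).card)
    (hk : 13 * (verts R ∩ N2 F).card + (U (F \ R)).card ≤ 72 * Z.card + (U F).card) :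
    ∃ Y, IndK 2 F Y ∧ 13 * (N2 F).card ≤ 72 * Y.card + (U F).card := by
  obtain ⟨Y, hY, hYc⟩ := hrec
  obtain ⟨h1, h2⟩ := combine hR hd hY hZ
  refine ⟨Y ∪ Z, h1, ?_⟩
  have h3 := N2_le F R hR
  rw [h2]
  omega

/-- a singleton as strongly independent set -/
lemma ind_single {F R : Finset (Finset V)} (hR : R ⊆ F) (hd : ∀ v, deg F v ≤ 2)
    {e f : Finset V} (he : e ∈ R) (hf : f ∈ R) (hef : e ≠ f) {y : V} (hye : y ∈ e) (hyf : y ∈ f) :
    IndK 2 R {y} := by
  refine ⟨?_, ?_⟩
  · intro x hx
    rw [Finset.mem_singleton] at hx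
    subst hx
    have h1 := two_le_deg he hf hef hye hyf
    have h2 := deg_mono hR x
    have h3 := hd x
    omega
  · intro x hx x' hx' _ _ _ _
    rw [Finset.mem_singleton] at hx hx'
    rw [hx, hx']

lemma other_edge {F : Finset (Finset V)} {a : V} (ha : deg F a = 2) (e : Finset V) :
    ∃ h ∈ F, a ∈ h ∧ h ≠ e := by
  by_contra hcon
  push Not at hcon
  have : F.filter (fun e => a ∈ e) ⊆ {e} := by
    intro h hh
    rw [Finset.mem_filter] at hh
    rw [Finset.mem_singleton]
    exact hcon h hh.1 hh.2
  have := Finset.card_le_card this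
  unfold deg at ha
  rw [Finset.card_singleton] at this
  omega

lemma verts_pair (e f : Finset V) : verts {e, f} = e ∪ f := by
  ext v; simp [verts]

/-- The matching bound for 4-uniform families of maximum degree two. -/
theorem matching_four : ∀ (m : ℕ) (F : Finset (Finset V)), F.card = m →
    (∀ e ∈ F, e.card = 4) → (∀ v, deg F v ≤ 2) →
    ∃ Y, IndK 2 F Y ∧ 13 * (N2 F).card ≤ 72 * Y.card + (U F).card := by
  classical
  intro m
  induction m using Nat.strong_induction_on with
  | _ m ih =>
    intro F hF hu hd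
    have hrec : ∀ R : Finset (Finset V), R ⊆ F → R.Nonempty →
        ∃ Y, IndK 2 (F \ R) Y ∧
          13 * (N2 (F \ R)).card ≤ 72 * Y.card + (U (F \ R)).card := by
      intro R hR hRne
      have h1 : (F \ R).card < F.card :=
        Finset.card_lt_card (Finset.sdiff_ssubset hR hRne)
      refine ih _ (by omega) _ rfl (fun e he => hu e (Finset.mem_sdiff.1 he).1) (fun v => ?_)
      exact (deg_mono Finset.sdiff_subset v).trans (hd v)
    have hUle : ∀ R : Finset (Finset V), (U (F \ R)).card ≤ (U F).card :=
      fun R => Finset.card_le_card (U_mono Finset.sdiff_subset)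
    -- case (a)
    by_cases hA : ∃ e ∈ F, ∃ f ∈ F, e ≠ f ∧ 3 ≤ (e ∩ f).card
    · obtain ⟨e, he, f, hf, hef, hc⟩ := hA
      obtain ⟨y, hy⟩ := Finset.card_pos.1 (show 0 < (e ∩ f).card by omega)
      rw [Finset.mem_inter] at hy
      have hR : ({e, f} : Finset (Finset V)) ⊆ F := by
        intro t ht
        simp only [Finset.mem_insert, Finset.mem_singleton] at ht
        rcases ht with rfl | rfl <;> assumption
      refine reduce (Z := {y}) hR hd
        (ind_single hR hd (by simp) (by simp) hef hy.1 hy.2) (hrec _ hR ⟨e, by simp⟩) ?_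
      have h1 : (verts {e, f} ∩ N2 F).card ≤ (e ∪ f).card := by
        rw [verts_pair]
        exact Finset.card_le_card Finset.inter_subset_left
      have h2 := Finset.card_union_add_card_inter e f
      rw [hu e he, hu f hf] at h2
      have h3 := hUle {e, f}
      rw [Finset.card_singleton]
      omega
    -- case (c)
    by_cases hC : ∃ e ∈ F, ∃ f ∈ F, e ≠ f ∧ (e ∩ f).card = 2 ∧ ∃ v ∈ e ∪ f, deg F v ≠ 2
    · obtain ⟨e, he, f, hf, hef, hc, v, hv, hv2⟩ := hC
      obtain ⟨y, hy⟩ := Finset.card_pos.1 (show 0 < (e ∩ f).card by omega)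
      rw [Finset.mem_inter] at hy
      have hR : ({e, f} : Finset (Finset V)) ⊆ F := by
        intro t ht
        simp only [Finset.mem_insert, Finset.mem_singleton] at ht
        rcases ht with rfl | rfl <;> assumption
      refine reduce (Z := {y}) hR hd
        (ind_single hR hd (by simp) (by simp) hef hy.1 hy.2) (hrec _ hR ⟨e, by simp⟩) ?_
      have h1 : (verts {e, f} ∩ N2 F).card ≤ ((e ∪ f).erase v).card := by
        rw [verts_pair]
        apply Finset.card_le_card
        intro w hw
        rw [Finset.mem_inter] at hw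
        rw [Finset.mem_erase]
        refine ⟨?_, hw.1⟩
        intro hwv
        exact hv2 (hwv ▸ mem_N2.1 hw.2)
      have h2 := Finset.card_union_add_card_inter e f
      rw [hu e he, hu f hf] at h2
      rw [Finset.card_erase_of_mem hv] at h1
      have h3 := hUle {e, f}
      rw [Finset.card_singleton]
      omega
    -- case (D)
    by_cases hE : ∃ e ∈ F, ∃ f ∈ F, ∃ g ∈ F, IsD e f g
    · obtain ⟨e, he, f, hf, g, hg, hD⟩ := hE
      obtain ⟨y, hy⟩ := Finset.card_pos.1 (show 0 < (e ∩ f).card by rw [hD.2.2.2.1]; norm_num)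
      rw [Finset.mem_inter] at hy
      have hR : ({e, f, g} : Finset (Finset V)) ⊆ F := by
        intro t ht
        simp only [Finset.mem_insert, Finset.mem_singleton] at ht
        rcases ht with rfl | rfl | rfl <;> assumption
      refine reduce (Z := {y}) hR hd
        (ind_single hR hd (by simp) (by simp) hD.1 hy.1 hy.2) (hrec _ hR ⟨e, by simp⟩) ?_
      have hgsub : g ⊆ e ∪ f := by
        intro v hv
        rcases D1 hu hd hg he hf hD.rot.rot hv with ⟨h, _⟩ | ⟨h, _⟩
        · exact Finset.mem_union_left _ h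
        · exact Finset.mem_union_right _ h
      have h1 : (verts {e, f, g} ∩ N2 F).card ≤ (e ∪ f).card := by
        apply Finset.card_le_card
        intro w hw
        rw [Finset.mem_inter] at hw
        obtain ⟨d, hd', hwd⟩ := mem_verts.1 hw.1
        simp only [Finset.mem_insert, Finset.mem_singleton] at hd'
        rcases hd' with rfl | rfl | rfl
        · exact Finset.mem_union_left _ hwd
        · exact Finset.mem_union_right _ hwd
        · exact hgsub hwd
      have h2 := Finset.card_union_add_card_inter e f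
      rw [hu e he, hu f hf, hD.2.2.2.1] at h2
      have h3 : e ∪ f ⊆ U F := by
        intro v hv
        rcases Finset.mem_union.1 hv with h | h
        · exact mem_U.2 ⟨e, he, f, hf, g, hg, hD, h⟩
        · exact mem_U.2 ⟨f, hf, g, hg, e, he, hD.rot, h⟩
      have h4 : U (F \ {e, f, g}) ⊆ U F \ (e ∪ f) := by
        intro v hv
        rw [Finset.mem_sdiff]
        refine ⟨U_mono Finset.sdiff_subset hv, ?_⟩
        intro hvef
        obtain ⟨d, hd', _, _, _, _, _, hvd⟩ := mem_U.1 hv
        rw [Finset.mem_sdiff] at hd'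
        simp only [Finset.mem_insert, Finset.mem_singleton, not_or] at hd'
        obtain ⟨hdF, hde, hdf, hdg⟩ := hd'
        have hdv := hd v
        -- v lies in two of e, f, g
        rcases Finset.mem_union.1 hvef with h | h
        · rcases D1 hu hd he hf hg hD h with ⟨h', _⟩ | ⟨h', _⟩
          · have := three_le_deg he hf hdF hD.1 (Ne.symm hde) (Ne.symm hdf) h h' hvd
            omega
          · have := three_le_deg he hg hdF hD.2.1 (Ne.symm hde) (Ne.symm hdg) h h' hvd
            omega
        · rcases D1 hu hd hf hg he hD.rot h with ⟨h', _⟩ | ⟨h', _⟩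
          · have := three_le_deg hf hg hdF hD.2.2.1 (Ne.symm hdf) (Ne.symm hdg) h h' hvd
            omega
          · have := three_le_deg hf he hdF hD.1.symm (Ne.symm hdf) (Ne.symm hde) h h' hvd
            omega
      have h5 := Finset.card_le_card h4
      rw [Finset.card_sdiff_of_subset h3] at h5
      have h6 := Finset.card_le_card h3
      rw [Finset.card_singleton]
      omega
    -- case (b)
    by_cases hB : ∃ e ∈ F, ∃ f ∈ F, ∃ g ∈ F, e ≠ f ∧ e ≠ g ∧ f ≠ g ∧ (e ∩ g).card = 2 ∧
        (f ∩ g).card = 2 ∧ (e ∩ f).card = 1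
    · obtain ⟨e, he, f, hf, g, hg, hef, heg, hfg, c1, c2, c3⟩ := hB
      have ha : ∃ a ∈ e, a ∉ f ∧ a ∉ g := by
        by_contra hcon
        push Not at hcon
        have : e ⊆ (e ∩ f) ∪ (e ∩ g) := by
          intro a ha
          by_cases haf : a ∈ f
          · exact Finset.mem_union_left _ (Finset.mem_inter.2 ⟨ha, haf⟩)
          · exact Finset.mem_union_right _ (Finset.mem_inter.2 ⟨ha, hcon a ha haf⟩)
        have h1 := (Finset.card_le_card this).trans (Finset.card_union_le _ _)
        rw [hu e he, c1, c3] at h1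
        omega
      obtain ⟨a, hae, haf, hag⟩ := ha
      have hda : deg F a = 2 := by
        by_contra hne
        exact hC ⟨e, he, g, hg, heg, c1, a, Finset.mem_union_left _ hae, hne⟩
      obtain ⟨h, hh, hah, hhe⟩ := other_edge hda e
      have hhf : h ≠ f := fun hc => haf (hc ▸ hah)
      have hhg : h ≠ g := fun hc => hag (hc ▸ hah)
      obtain ⟨w, hw⟩ := Finset.card_pos.1 (show 0 < (f ∩ g).card by omega)
      rw [Finset.mem_inter] at hw
      have hwe : w ∉ e := by
        intro hwe
        have := three_le_deg he hf hg hef heg hfg hwe hw.1 hw.2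
        have := hd w
        omega
      have hwh : w ∉ h := by
        intro hwh
        have := three_le_deg hh hf hg hhf hhg hfg hwh hw.1 hw.2
        have := hd w
        omega
      have haw : a ≠ w := fun hc => haf (hc ▸ hw.1)
      have hR : ({e, f, g, h} : Finset (Finset V)) ⊆ F := by
        intro t ht
        simp only [Finset.mem_insert, Finset.mem_singleton] at ht
        rcases ht with rfl | rfl | rfl | rfl <;> assumption
      have hZ : IndK 2 ({e, f, g, h} : Finset (Finset V)) {a, w} := by
        refine ⟨?_, ?_⟩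
        · intro x hx
          simp only [Finset.mem_insert, Finset.mem_singleton] at hx
          rcases hx with rfl | rfl
          · have h1 := two_le_deg (F := ({e, f, g, h} : Finset (Finset V))) (by simp) (by simp)
              (Ne.symm hhe) hae hah
            have h2 := deg_mono hR x
            omega
          · have h1 := two_le_deg (F := ({e, f, g, h} : Finset (Finset V))) (by simp) (by simp)
              hfg hw.1 hw.2
            have h2 := deg_mono hR x
            have h3 := hd x
            omega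
        · have hno : ∀ d ∈ ({e, f, g, h} : Finset (Finset V)), a ∈ d → w ∈ d → False := by
            intro d hd' had hwd
            simp only [Finset.mem_insert, Finset.mem_singleton] at hd'
            rcases hd' with rfl | rfl | rfl | rfl
            · exact hwe hwd
            · exact haf had
            · exact hag had
            · exact hwh hwd
          intro x hx x' hx' d hd' hxd hxd'
          simp only [Finset.mem_insert, Finset.mem_singleton] at hx hx'
          rcases hx with rfl | rfl <;> rcases hx' with rfl | rfl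
          · rfl
          · exact (hno d hd' hxd hxd').elim
          · exact (hno d hd' hxd' hxd).elim
          · rfl
      refine reduce (Z := {a, w}) hR hd hZ (hrec _ hR ⟨e, by simp⟩) ?_
      have h1 : (verts {e, f, g, h} ∩ N2 F).card ≤ ((e ∪ g) ∪ ((f \ (e ∪ g)) ∪ (h \ e))).card := by
        apply Finset.card_le_card
        intro v hv
        rw [Finset.mem_inter] at hv
        obtain ⟨d, hd', hvd⟩ := mem_verts.1 hv.1
        simp only [Finset.mem_insert, Finset.mem_singleton] at hd'
        simp only [Finset.mem_union, Finset.mem_sdiff]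
        rcases hd' with rfl | rfl | rfl | rfl
        · left; left; exact hvd
        · by_cases h1 : v ∈ e
          · left; left; exact h1
          by_cases h2 : v ∈ g
          · left; right; exact h2
          right; left
          exact ⟨hvd, fun h3 => h3.elim h1 h2⟩
        · left; right; exact hvd
        · by_cases h1 : v ∈ e
          · left; left; exact h1
          · right; right; exact ⟨hvd, h1⟩
      have h2 : (e ∪ g).card = 6 := by
        have := Finset.card_union_add_card_inter e g
        rw [hu e he, hu g hg, c1] at this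
        omega
      have h3 : (f \ (e ∪ g)).card ≤ 1 := by
        have h4 : (f ∩ (e ∪ g)).card = 3 := by
          rw [Finset.inter_union_distrib_left, Finset.card_union_of_disjoint]
          · rw [Finset.inter_comm f e, c3, c2]
          · rw [Finset.disjoint_left]
            intro v hv hv'
            rw [Finset.mem_inter] at hv hv'
            have := three_le_deg he hf hg hef heg hfg hv.2 hv.1 hv'.2
            have := hd v
            omega
        have h5 := Finset.card_inter_add_card_sdiff f (e ∪ g)
        rw [h4, hu f hf] at h5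
        omega
      have h4 : (h \ e).card ≤ 3 := by
        have h5 := Finset.card_inter_add_card_sdiff h e
        have h6 : 1 ≤ (h ∩ e).card := Finset.card_pos.2 ⟨a, Finset.mem_inter.2 ⟨hah, hae⟩⟩
        rw [hu h hh] at h5
        omega
      have h5 := Finset.card_union_le (e ∪ g) ((f \ (e ∪ g)) ∪ (h \ e))
      have h6 := Finset.card_union_le (f \ (e ∪ g)) (h \ e)
      have h7 := hUle {e, f, g, h}
      have h8 : ({a, w} : Finset V).card = 2 := Finset.card_pair haw
      rw [h8]
      omega
    -- direct case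
    push Not at hA hB hE
    obtain ⟨Y, hY, hYc⟩ := exists_ind 4 (by norm_num) F hu hd (by
      intro e he f hf g hg hef heg hfg hv
      by_contra hcon
      have h1 := hA e he g hg heg
      have h2 := hA f hf g hg hfg
      have h3 := hA e he f hf hef
      obtain ⟨v, hve, hvf⟩ := hv
      have h4 : 1 ≤ (e ∩ f).card := Finset.card_pos.2 ⟨v, Finset.mem_inter.2 ⟨hve, hvf⟩⟩
      have h5 : (e ∩ g).card = 2 := by omega
      have h6 : (f ∩ g).card = 2 := by omega
      have h7 : (e ∩ f).card = 1 ∨ (e ∩ f).card = 2 := by omega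
      rcases h7 with h7 | h7
      · exact hB e he f hf g hg hef heg hfg h5 h6 h7
      · exact hE e he f hf g hg ⟨hef, heg, hfg, h7, h5, h6⟩)
    refine ⟨Y, hY, ?_⟩
    omega

end Pool.Agent.V11145.LC
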