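import Mathlib
import Pool.Agent.V11145.LaiChangB

/-!
The Lai-Chang inequality: a family of `m` four-element sets with union of size `n` has a
transversal of size at most `2(n + m)/9`.
-/

namespace Pool.Agent.V11145.LC

open Finset Pool.Agent.V11145.DomTrans

variable {V : Type*} [DecidableEq V]

lemma IndK.subset {d : ℕ} {H : Finset (Finset V)} {X Y : Finset V} (h : IndK d H X)
    (hYX : Y ⊆ X) : IndK d H Y :=
  ⟨fun x hx => h.1 x (hYX hx), fun x hx x' hx' => h.2 x (hYX hx) x' (hYX hx')⟩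

lemma insert_ind {H : Finset (Finset V)} {Y : Finset V} {v : V} (hY : IndK 3 H Y)
    (hv : deg H v = 3) (hno : ∀ e ∈ H, v ∈ e → ¬ ∃ x ∈ Y, x ∈ e) :
    IndK 3 H (insert v Y) ∧ v ∉ Y := by
  refine ⟨⟨?_, ?_⟩, ?_⟩
  · intro x hx
    rcases Finset.mem_insert.1 hx with rfl | hx
    · exact hv
    · exact hY.1 x hx
  · intro x hx x' hx' e he hxe hxe'
    rcases Finset.mem_insert.1 hx with h | h <;> rcases Finset.mem_insert.1 hx' with h' | h'
    · rw [h, h']
    · exact absurd ⟨x', h', hxe'⟩ (hno e he (h ▸ hxe))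
    · exact absurd ⟨x, h, hxe⟩ (hno e he (h' ▸ hxe'))
    · exact hY.2 x h x' h' e he hxe hxe'
  · intro hvY
    obtain ⟨e, he, hve⟩ := mem_verts.1 (verts_of_deg (show 1 ≤ deg H v by omega))
    exact hno e he hve ⟨v, hvY, hve⟩

lemma rest_deg {H : Finset (Finset V)} (hd : ∀ v, deg H v ≤ 3) {Y : Finset V}
    (hY : IndK 3 H Y) (hmax : ∀ Z, IndK 3 H Z → Z.card ≤ Y.card) (v : V) :
    deg (rest H Y) v ≤ 2 := by
  by_contra hcon
  have h1 := deg_add H Y v
  have h2 := hd v
  have hno : ∀ e ∈ H, v ∈ e → ¬ ∃ x ∈ Y, x ∈ e := by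
    intro e he hve hc
    have : 1 ≤ deg (cov H Y) v := deg_pos (mem_verts.2 ⟨e, mem_cov.2 ⟨he, hc⟩, hve⟩)
    omega
  obtain ⟨h3, h4⟩ := insert_ind hY (show deg H v = 3 by omega) hno
  have := hmax _ h3
  rw [Finset.card_insert_of_notMem h4] at this
  omega

/-- The structure around a star touching a saturated triple. -/
lemma struct {H : Finset (Finset V)} (hu : ∀ e ∈ H, e.card = 4) (hd : ∀ v, deg H v ≤ 3)
    (hR1 : ∀ v w, deg H v = 3 → (∀ e ∈ H, v ∈ e → w ∈ e) → w = v)
    {X : Finset V} (hX : IndK 3 H X) (hmax : ∀ Z, IndK 3 H Z → Z.card ≤ X.card)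
    (hmin : ∀ Z, IndK 3 H Z → Z.card = X.card → (U (rest H X)).card ≤ (U (rest H Z)).card)
    {x : V} (hx : x ∈ X) {e1 : Finset V} (he1 : e1 ∈ H) (hxe1 : x ∈ e1) {u : V} (hue1 : u ∈ e1)
    (huU : u ∈ U (rest H X)) :
    ∃ e2 ∈ H, ∃ e3 ∈ H, e2 ≠ e3 ∧ x ∈ e2 ∧ x ∈ e3 ∧ ∃ x', x' ≠ x ∧ x' ∈ e2 ∧ x' ∈ e3 ∧
      deg (rest H X) x' = 0 := by
  classical
  have hFd := rest_deg hd hX hmax
  have hFu : ∀ e ∈ rest H X, e.card = 4 := fun e he => hu e (mem_rest.1 he).1
  -- the three edges at x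
  have hdx : (H.filter (fun e => x ∈ e)).card = 3 := hX.1 x hx
  have hmem1 : e1 ∈ H.filter (fun e => x ∈ e) := by rw [Finset.mem_filter]; exact ⟨he1, hxe1⟩
  have hc2 : ((H.filter (fun e => x ∈ e)).erase e1).card = 2 := by
    rw [Finset.card_erase_of_mem hmem1, hdx]
  obtain ⟨e2, e3, h23, hE⟩ := Finset.card_eq_two.1 hc2
  have hm2 : e2 ∈ (H.filter (fun e => x ∈ e)).erase e1 := by rw [hE]; simp
  have hm3 : e3 ∈ (H.filter (fun e => x ∈ e)).erase e1 := by rw [hE]; simp
  rw [Finset.mem_erase, Finset.mem_filter] at hm2 hm3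
  obtain ⟨h21, he2, hxe2⟩ := hm2
  obtain ⟨h31, he3, hxe3⟩ := hm3
  have hEx : ∀ d ∈ H, x ∈ d → d = e1 ∨ d = e2 ∨ d = e3 :=
    three_edges (le_of_eq (hX.1 x hx)) he1 he2 he3 (Ne.symm h21) (Ne.symm h31) h23 hxe1 hxe2 hxe3
  refine ⟨e2, he2, e3, he3, h23, hxe2, hxe3, ?_⟩
  -- the triple at u
  obtain ⟨f1, hf1, f2, hf2, f3, hf3, hD, huf1, huf2⟩ : ∃ f1 ∈ rest H X, ∃ f2 ∈ rest H X,
      ∃ f3 ∈ rest H X, IsD f1 f2 f3 ∧ u ∈ f1 ∧ u ∈ f2 := by
    obtain ⟨a, ha, b, hb, c, hc, hD, hua⟩ := mem_U.1 huU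
    rcases D1 hFu hFd ha hb hc hD hua with ⟨h, _⟩ | ⟨h, _⟩
    · exact ⟨a, ha, b, hb, c, hc, hD, hua, h⟩
    · exact ⟨a, ha, c, hc, b, hb, hD.swap, hua, h⟩
  have hrestX : ∀ d ∈ rest H X, ∀ b ∈ X, b ∉ d := fun d hd' b hb hbd =>
    (mem_rest.1 hd').2 ⟨b, hb, hbd⟩
  have huX : u ∉ X := fun h => hrestX f1 hf1 u h huf1
  have he1f1 : e1 ≠ f1 := fun h => hrestX f1 hf1 x hx (h ▸ hxe1)
  have he1f2 : e1 ≠ f2 := fun h => hrestX f2 hf2 x hx (h ▸ hxe1)
  have hf1H := (mem_rest.1 hf1).1
  have hf2H := (mem_rest.1 hf2).1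
  have hdu : deg H u = 3 := by
    have h1 := three_le_deg he1 hf1H hf2H he1f1 he1f2 hD.1 hue1 huf1 huf2
    have h2 := hd u
    omega
  have hEu := three_edges (le_of_eq hdu) he1 hf1H hf2H he1f1 he1f2 hD.1 hue1 huf1 huf2
  have hXe : IndK 3 H (X.erase x) := hX.subset (Finset.erase_subset _ _)
  have hXx : ∀ b ∈ X.erase x, ∀ d ∈ H, x ∈ d → b ∉ d := by
    intro b hb d hd' hxd hbd
    rw [Finset.mem_erase] at hb
    exact hb.1 (hX.2 b hb.2 x hx d hd' hbd hxd)
  have hno : ∀ d ∈ H, u ∈ d → ¬ ∃ b ∈ X.erase x, b ∈ d := by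
    rintro d hd' hud ⟨b, hb, hbd⟩
    rcases hEu d hd' hud with h | h | h
    · exact hXx b hb d hd' (h ▸ hxe1) hbd
    · exact hrestX f1 hf1 b (Finset.mem_of_mem_erase hb) (h ▸ hbd)
    · exact hrestX f2 hf2 b (Finset.mem_of_mem_erase hb) (h ▸ hbd)
  obtain ⟨hX'I, hunX⟩ := insert_ind hXe hdu hno
  have hX1 : 1 ≤ X.card := Finset.card_pos.2 ⟨x, hx⟩
  have hX'c : (insert u (X.erase x)).card = X.card := by
    rw [Finset.card_insert_of_notMem hunX, Finset.card_erase_of_mem hx]
    omega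
  have hX'max : ∀ Z, IndK 3 H Z → Z.card ≤ (insert u (X.erase x)).card := by
    rw [hX'c]; exact hmax
  have hF'd := rest_deg hd hX'I hX'max
  have hF'u : ∀ e ∈ rest H (insert u (X.erase x)), e.card = 4 :=
    fun e he => hu e (mem_rest.1 he).1
  have hminU := hmin _ hX'I hX'c
  have hF'no : ∀ d ∈ rest H (insert u (X.erase x)), u ∉ d ∧ ∀ b ∈ X.erase x, b ∉ d := by
    intro d hd'
    have := (mem_rest.1 hd').2
    refine ⟨fun h => this ⟨u, Finset.mem_insert_self _ _, h⟩, fun b hb h =>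
      this ⟨b, Finset.mem_insert_of_mem hb, h⟩⟩
  -- a triple of the new rest through x forces |e2 ∩ e3| = 2
  have hsub : ∀ a ∈ rest H (insert u (X.erase x)), ∀ b ∈ rest H (insert u (X.erase x)),
      ∀ c ∈ rest H (insert u (X.erase x)), IsD a b c → x ∈ a → (e2 ∩ e3).card = 2 := by
    intro a ha b hb c hc hDabc hxa
    have hcase : ∀ d ∈ rest H (insert u (X.erase x)), x ∈ d → d = e2 ∨ d = e3 := by
      intro d hd' hxd
      rcases hEx d (mem_rest.1 hd').1 hxd with h | h | h
      · exact absurd (h ▸ hue1) (hF'no d hd').1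
      · exact Or.inl h
      · exact Or.inr h
    have hfin : ∀ b ∈ rest H (insert u (X.erase x)), x ∈ b → a ≠ b → (a ∩ b).card = 2 →
        (e2 ∩ e3).card = 2 := by
      intro b hb hxb hab hcard
      rcases hcase a ha hxa with h | h <;> rcases hcase b hb hxb with h' | h'
      · exact absurd (h.trans h'.symm) hab
      · rw [← h, ← h']; exact hcard
      · rw [← h, ← h', Finset.inter_comm]; exact hcard
      · exact absurd (h.trans h'.symm) hab
    rcases D1 hF'u hF'd ha hb hc hDabc hxa with ⟨h, _⟩ | ⟨h, _⟩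
    · exact hfin b hb h hDabc.1 hDabc.2.2.2.1
    · exact hfin c hc h hDabc.2.1 hDabc.2.2.2.2.1
  have h23c : (e2 ∩ e3).card = 2 := by
    by_contra hne
    have hin : ∀ a ∈ rest H (insert u (X.erase x)), x ∉ a → a ∈ rest H X := by
      intro a ha hxa
      rw [mem_rest]
      refine ⟨(mem_rest.1 ha).1, ?_⟩
      rintro ⟨b, hb, hba⟩
      by_cases hbx : b = x
      · exact hxa (hbx ▸ hba)
      · exact (hF'no a ha).2 b (Finset.mem_erase.2 ⟨hbx, hb⟩) hba
    have hUsub : U (rest H (insert u (X.erase x))) ⊆ (U (rest H X)).erase u := by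
      intro v hv
      obtain ⟨a, ha, b, hb, c, hc, hDabc, hva⟩ := mem_U.1 hv
      have hxa : x ∉ a := fun h => hne (hsub a ha b hb c hc hDabc h)
      have hxb : x ∉ b := fun h => hne (hsub b hb c hc a ha hDabc.rot h)
      have hxc : x ∉ c := fun h => hne (hsub c hc a ha b hb hDabc.rot.rot h)
      rw [Finset.mem_erase]
      refine ⟨fun h => (hF'no a ha).1 (h ▸ hva), ?_⟩
      exact mem_U.2 ⟨a, hin a ha hxa, b, hin b hb hxb, c, hin c hc hxc, hDabc, hva⟩
    have h1 := Finset.card_le_card hUsub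
    rw [Finset.card_erase_of_mem huU] at h1
    have h2 : 1 ≤ (U (rest H X)).card := Finset.card_pos.2 ⟨u, huU⟩
    omega
  -- the second common vertex
  obtain ⟨x', hx', hx'x⟩ := Finset.exists_mem_ne (show 1 < (e2 ∩ e3).card by omega) x
  rw [Finset.mem_inter] at hx'
  refine ⟨x', hx'x, hx'.1, hx'.2, ?_⟩
  have hx'e1 : x' ∉ e1 := by
    intro h
    apply hx'x
    apply hR1 x x' (hX.1 x hx)
    intro d hd' hxd
    rcases hEx d hd' hxd with h' | h' | h'
    · exact h' ▸ h
    · exact h' ▸ hx'.1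
    · exact h' ▸ hx'.2
  by_contra hne
  obtain ⟨k, hk, hx'k⟩ := mem_verts.1 (verts_of_deg (show 1 ≤ deg (rest H X) x' by omega))
  have hkH := (mem_rest.1 hk).1
  have he2k : e2 ≠ k := fun h => hrestX k hk x hx (h ▸ hxe2)
  have he3k : e3 ≠ k := fun h => hrestX k hk x hx (h ▸ hxe3)
  have hdx' : deg H x' = 3 := by
    have h1 := three_le_deg he2 he3 hkH h23 he2k he3k hx'.1 hx'.2 hx'k
    have h2 := hd x'
    omega
  have hEx' := three_edges (le_of_eq hdx') he2 he3 hkH h23 he2k he3k hx'.1 hx'.2 hx'k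
  have hno' : ∀ d ∈ H, x' ∈ d → ¬ ∃ b ∈ X.erase x, b ∈ d := by
    rintro d hd' hx'd ⟨b, hb, hbd⟩
    rcases hEx' d hd' hx'd with h | h | h
    · exact hXx b hb d hd' (h ▸ hxe2) hbd
    · exact hXx b hb d hd' (h ▸ hxe3) hbd
    · exact hrestX k hk b (Finset.mem_of_mem_erase hb) (h ▸ hbd)
  obtain ⟨hZ0, hx'n⟩ := insert_ind hXe hdx' hno'
  -- x' is not in f1 or f2
  have hnotf : ∀ f f' f'', f ∈ rest H X → f' ∈ rest H X → f'' ∈ rest H X → IsD f f' f'' →
      x' ∉ f := by
    intro f f' f'' hf hf' hf'' hDf hx'f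
    have h1 : 2 ≤ deg (rest H X) x' := by
      rcases D1 hFu hFd hf hf' hf'' hDf hx'f with ⟨h, _⟩ | ⟨h, _⟩
      · exact two_le_deg hf hf' hDf.1 hx'f h
      · exact two_le_deg hf hf'' hDf.2.1 hx'f h
    have h2 : 2 ≤ deg (cov H X) x' :=
      two_le_deg (mem_cov.2 ⟨he2, x, hx, hxe2⟩) (mem_cov.2 ⟨he3, x, hx, hxe3⟩) h23 hx'.1 hx'.2
    have h3 := deg_add H X x'
    have h4 := hd x'
    omega
  have hno'' : ∀ d ∈ H, u ∈ d → ¬ ∃ b ∈ insert x' (X.erase x), b ∈ d := by
    rintro d hd' hud ⟨b, hb, hbd⟩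
    rcases Finset.mem_insert.1 hb with hb | hb
    · subst hb
      rcases hEu d hd' hud with h | h | h
      · exact hx'e1 (h ▸ hbd)
      · exact hnotf f1 f2 f3 hf1 hf2 hf3 hD (h ▸ hbd)
      · exact hnotf f2 f3 f1 hf2 hf3 hf1 hD.rot (h ▸ hbd)
    · exact hno d hd' hud ⟨b, hb, hbd⟩
  obtain ⟨hZ1, hun⟩ := insert_ind hZ0 hdu hno''
  have := hmax _ hZ1
  rw [Finset.card_insert_of_notMem hun, Finset.card_insert_of_notMem hx'n,
    Finset.card_erase_of_mem hx] at this
  omega

lemma main_case {H : Finset (Finset V)} (hu : ∀ e ∈ H, e.card = 4) (hd : ∀ v, deg H v ≤ 3)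
    (hR1 : ∀ v w, deg H v = 3 → (∀ e ∈ H, v ∈ e → w ∈ e) → w = v) :
    ∃ T, Hits H T ∧ 9 * T.card ≤ 2 * ((verts H).card + H.card) := by
  classical
  -- choose X
  have hne : ((verts H).powerset.filter (IndK 3 H)).Nonempty := ⟨∅, by simp [IndK]⟩
  obtain ⟨X0, hX0, hmax0⟩ := Finset.exists_max_image _ Finset.card hne
  have hne' : (((verts H).powerset.filter (IndK 3 H)).filter
      (fun X => X.card = X0.card)).Nonempty :=
    ⟨X0, by rw [Finset.mem_filter]; exact ⟨hX0, rfl⟩⟩
  obtain ⟨X, hXm, hmin0⟩ := Finset.exists_min_image _ (fun X => (U (rest H X)).card) hne'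
  rw [Finset.mem_filter, Finset.mem_filter] at hXm
  have hX : IndK 3 H X := hXm.1.2
  have hpow : ∀ Z, IndK 3 H Z → Z ∈ (verts H).powerset.filter (IndK 3 H) := by
    intro Z hZ
    rw [Finset.mem_filter, Finset.mem_powerset]
    refine ⟨fun y hy => ?_, hZ⟩
    have := hZ.1 y hy
    exact verts_of_deg (by omega)
  have hmax : ∀ Z, IndK 3 H Z → Z.card ≤ X.card := by
    intro Z hZ
    rw [hXm.2]
    exact hmax0 Z (hpow Z hZ)
  have hmin : ∀ Z, IndK 3 H Z → Z.card = X.card →
      (U (rest H X)).card ≤ (U (rest H Z)).card := by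
    intro Z hZ hc
    apply hmin0
    rw [Finset.mem_filter]
    exact ⟨hpow Z hZ, hc.trans hXm.2⟩
  have hFd := rest_deg hd hX hmax
  have hFu : ∀ e ∈ rest H X, e.card = 4 := fun e he => hu e (mem_rest.1 he).1
  obtain ⟨Y, hY, hYc⟩ := matching_four _ (rest H X) rfl hFu hFd
  obtain ⟨T, hT, hTc⟩ := hit_of_ind (fun e he => by
    rw [← Finset.card_pos, hFu e he]; norm_num) hY
  refine ⟨X ∪ T, ?_, ?_⟩
  · intro e he
    by_cases hc : ∃ x ∈ X, x ∈ e
    · obtain ⟨x, hx, hxe⟩ := hc
      exact ⟨x, hxe, Finset.mem_union_left _ hx⟩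
    · obtain ⟨v, hv, hvT⟩ := hT e (mem_rest.2 ⟨he, hc⟩)
      exact ⟨v, hv, Finset.mem_union_right _ hvT⟩
  have hcov := card_cov hX
  have hcr := cov_add_rest H X
  have hda := deg_add H X
  have hU2 : ∀ v ∈ U (rest H X), deg (rest H X) v = 2 := fun v hv => U_deg hFu hFd hv
  have hXF : ∀ x ∈ X, deg (rest H X) x = 0 := by
    intro x hx
    by_contra hcon
    obtain ⟨k, hk, hxk⟩ := mem_verts.1 (verts_of_deg (show 1 ≤ deg (rest H X) x by omega))
    exact (mem_rest.1 hk).2 ⟨x, hx, hxk⟩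
  have hXN : X ⊆ verts H := by
    intro x hx
    have := hX.1 x hx
    exact verts_of_deg (by omega)
  have hFN : verts (rest H X) ⊆ verts H := by
    intro v hv
    obtain ⟨e, he, hve⟩ := mem_verts.1 hv
    exact mem_verts.2 ⟨e, (mem_rest.1 he).1, hve⟩
  -- charges
  let ch : V → ℕ := fun v => if deg (rest H X) v = 0 then 16 else if v ∈ U (rest H X) then 0 else 3
  have hlow : ∀ x ∈ X, 24 ≤ ∑ e ∈ H.filter (fun e => x ∈ e), ∑ v ∈ e \ X, ch v := by
    intro x hx
    have heX : ∀ e ∈ H, x ∈ e → (e \ X).card = 3 := by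
      intro e he hxe
      have : e \ X = e.erase x := by
        ext v
        rw [Finset.mem_sdiff, Finset.mem_erase]
        constructor
        · rintro ⟨h1, h2⟩; exact ⟨fun h => h2 (h ▸ hx), h1⟩
        · rintro ⟨h1, h2⟩
          exact ⟨h2, fun h => h1 (hX.2 v h x hx e he h2 hxe)⟩
      rw [this, Finset.card_erase_of_mem hxe, hu e he]
    by_cases hin : ∃ e ∈ H, x ∈ e ∧ ∃ u ∈ e, u ∈ U (rest H X)
    · obtain ⟨e1, he1, hxe1, u, hue1, huU⟩ := hin
      obtain ⟨e2, he2, e3, he3, h23, hxe2, hxe3, x', hx'x, hx'2, hx'3, hx'0⟩ :=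
        struct hu hd hR1 hX hmax hmin hx he1 hxe1 hue1 huU
      have hx'X : x' ∉ X := fun h => hx'x (hX.2 x' h x hx e2 he2 hx'2 hxe2)
      have hch : ch x' = 16 := by simp only [ch, hx'0, if_true]
      have h1 : ∑ e ∈ ({e2, e3} : Finset (Finset V)), ∑ v ∈ e \ X, ch v
          ≤ ∑ e ∈ H.filter (fun e => x ∈ e), ∑ v ∈ e \ X, ch v := by
        apply Finset.sum_le_sum_of_subset
        intro t ht
        simp only [Finset.mem_insert, Finset.mem_singleton] at ht
        rw [Finset.mem_filter]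
        rcases ht with rfl | rfl
        · exact ⟨he2, hxe2⟩
        · exact ⟨he3, hxe3⟩
      rw [Finset.sum_pair h23] at h1
      have h2 : 16 ≤ ∑ v ∈ e2 \ X, ch v := by
        rw [← hch]
        exact Finset.single_le_sum (fun _ _ => Nat.zero_le _) (Finset.mem_sdiff.2 ⟨hx'2, hx'X⟩)
      have h3 : 16 ≤ ∑ v ∈ e3 \ X, ch v := by
        rw [← hch]
        exact Finset.single_le_sum (fun _ _ => Nat.zero_le _) (Finset.mem_sdiff.2 ⟨hx'3, hx'X⟩)
      omega
    · push Not at hin
      have h1 : ∀ e ∈ H.filter (fun e => x ∈ e), 9 ≤ ∑ v ∈ e \ X, ch v := by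
        intro e he
        rw [Finset.mem_filter] at he
        have h2 : ∑ v ∈ e \ X, 3 ≤ ∑ v ∈ e \ X, ch v := by
          apply Finset.sum_le_sum
          intro v hv
          have := hin e he.1 he.2 v (Finset.mem_sdiff.1 hv).1
          simp only [ch]
          split_ifs
          · norm_num
          · norm_num
        rw [Finset.sum_const, heX e he.1 he.2] at h2
        simpa using h2
      have h2 : ∑ e ∈ H.filter (fun e => x ∈ e), 9
          ≤ ∑ e ∈ H.filter (fun e => x ∈ e), ∑ v ∈ e \ X, ch v := Finset.sum_le_sum h1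
      have h3 : (H.filter (fun e => x ∈ e)).card = 3 := hX.1 x hx
      rw [Finset.sum_const, h3] at h2
      simp only [smul_eq_mul] at h2
      omega
  have hswap : ∑ x ∈ X, ∑ e ∈ H.filter (fun e => x ∈ e), ∑ v ∈ e \ X, ch v
      = ∑ v ∈ verts H \ X, deg (cov H X) v * ch v := by
    rw [← Finset.sum_biUnion (stars_disjoint hX), ← cov_eq]
    have h1 : ∀ e ∈ cov H X, ∑ v ∈ e \ X, ch v
        = ∑ v ∈ verts H \ X, if v ∈ e then ch v else 0 := by
      intro e he
      rw [← Finset.sum_filter]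
      refine Finset.sum_congr ?_ fun _ _ => rfl
      ext v
      rw [Finset.mem_filter, Finset.mem_sdiff, Finset.mem_sdiff]
      constructor
      · rintro ⟨h1, h2⟩
        exact ⟨⟨mem_verts.2 ⟨e, (mem_cov.1 he).1, h1⟩, h2⟩, h1⟩
      · rintro ⟨⟨_, h2⟩, h1⟩
        exact ⟨h1, h2⟩
    rw [Finset.sum_congr rfl h1, Finset.sum_comm]
    refine Finset.sum_congr rfl fun v _ => ?_
    rw [← Finset.sum_filter, Finset.sum_const, smul_eq_mul]
    rfl
  -- indicators
  let i0 : V → ℕ := fun v => if deg (rest H X) v = 0 then 1 else 0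
  let i1 : V → ℕ := fun v => if deg (rest H X) v = 1 then 1 else 0
  let i2 : V → ℕ := fun v => if deg (rest H X) v = 2 ∧ v ∉ U (rest H X) then 1 else 0
  let i3 : V → ℕ := fun v => if v ∈ U (rest H X) then 1 else 0
  have hup : ∑ v ∈ verts H \ X, deg (cov H X) v * ch v
      ≤ ∑ v ∈ verts H \ X, (48 * i0 v + 6 * i1 v + 3 * i2 v) := by
    apply Finset.sum_le_sum
    intro v _
    have h1 := hda v
    have h2 := hd v
    have h3 := hFd v
    by_cases hvU : v ∈ U (rest H X)
    · have h4 := hU2 v hvU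
      simp only [ch, hvU, h4]
      simp
    · have h5 : deg (rest H X) v = 0 ∨ deg (rest H X) v = 1 ∨ deg (rest H X) v = 2 := by omega
      rcases h5 with h5 | h5 | h5
      · simp only [ch, i0, i1, i2, h5]
        simp
        omega
      · simp only [ch, i0, i1, i2, h5, hvU]
        simp
        omega
      · simp only [ch, i0, i1, i2, h5, hvU]
        simp
        omega
  have hsum : 24 * X.card ≤ 48 * ∑ v ∈ verts H \ X, i0 v + 6 * ∑ v ∈ verts H \ X, i1 v
      + 3 * ∑ v ∈ verts H \ X, i2 v := by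
    have h1 : ∑ x ∈ X, 24 ≤ ∑ x ∈ X, ∑ e ∈ H.filter (fun e => x ∈ e), ∑ v ∈ e \ X, ch v :=
      Finset.sum_le_sum hlow
    rw [hswap, Finset.sum_const, smul_eq_mul, mul_comm] at h1
    have h2 := h1.trans hup
    rw [Finset.sum_add_distrib, Finset.sum_add_distrib, ← Finset.mul_sum, ← Finset.mul_sum,
      ← Finset.mul_sum] at h2
    exact h2
  have hcount : (verts H \ X).card = ∑ v ∈ verts H \ X, i0 v + ∑ v ∈ verts H \ X, i1 v
      + ∑ v ∈ verts H \ X, i2 v + ∑ v ∈ verts H \ X, i3 v := by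
    rw [← Finset.sum_add_distrib, ← Finset.sum_add_distrib, ← Finset.sum_add_distrib,
      Finset.card_eq_sum_ones]
    refine Finset.sum_congr rfl fun v _ => ?_
    have h3 := hFd v
    by_cases hvU : v ∈ U (rest H X)
    · have h4 := hU2 v hvU
      simp [i0, i1, i2, i3, hvU, h4]
    · have h5 : deg (rest H X) v = 0 ∨ deg (rest H X) v = 1 ∨ deg (rest H X) v = 2 := by omega
      rcases h5 with h5 | h5 | h5 <;> simp [i0, i1, i2, i3, hvU, h5]
  have hdegs : 4 * (rest H X).card = ∑ v ∈ verts H \ X, i1 v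
      + 2 * ∑ v ∈ verts H \ X, i2 v + 2 * ∑ v ∈ verts H \ X, i3 v := by
    have h1 : ∑ v ∈ verts H, deg (rest H X) v = 4 * (rest H X).card := by
      rw [sum_deg]
      have : ∀ e ∈ rest H X, (e ∩ verts H).card = 4 := by
        intro e he
        have h2 : e ∩ verts H = e := by
          rw [Finset.inter_eq_left]
          intro v hv
          exact mem_verts.2 ⟨e, (mem_rest.1 he).1, hv⟩
        rw [h2, hFu e he]
      rw [Finset.sum_congr rfl this, Finset.sum_const, smul_eq_mul, mul_comm]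
    have h2 : ∑ v ∈ verts H, deg (rest H X) v = ∑ v ∈ verts H \ X, deg (rest H X) v := by
      rw [← Finset.sum_sdiff hXN, Finset.sum_eq_zero (s := X) hXF, add_zero]
    rw [← h1, h2, Finset.mul_sum, Finset.mul_sum, ← Finset.sum_add_distrib,
      ← Finset.sum_add_distrib]
    refine Finset.sum_congr rfl fun v _ => ?_
    have h3 := hFd v
    by_cases hvU : v ∈ U (rest H X)
    · have h4 := hU2 v hvU
      simp [i1, i2, i3, hvU, h4]
    · have h5 : deg (rest H X) v = 0 ∨ deg (rest H X) v = 1 ∨ deg (rest H X) v = 2 := by omega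
      rcases h5 with h5 | h5 | h5 <;> simp [i1, i2, i3, hvU, h5]
  have hUc : (U (rest H X)).card = ∑ v ∈ verts H \ X, i3 v := by
    have : U (rest H X) = (verts H \ X).filter (fun v => v ∈ U (rest H X)) := by
      ext v
      rw [Finset.mem_filter, Finset.mem_sdiff]
      constructor
      · intro h
        have h1 := hU2 v h
        refine ⟨⟨hFN (verts_of_deg (by omega)), ?_⟩, h⟩
        intro hvX
        have := hXF v hvX
        omega
      · exact fun h => h.2
    rw [this, Finset.card_filter]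
  have hN2c : (N2 (rest H X)).card = ∑ v ∈ verts H \ X, i2 v + ∑ v ∈ verts H \ X, i3 v := by
    have : N2 (rest H X) = (verts H \ X).filter (fun v => deg (rest H X) v = 2) := by
      ext v
      rw [mem_N2, Finset.mem_filter, Finset.mem_sdiff]
      constructor
      · intro h
        refine ⟨⟨hFN (verts_of_deg (by omega)), ?_⟩, h⟩
        intro hvX
        have := hXF v hvX
        omega
      · exact fun h => h.2
    rw [this, Finset.card_filter, ← Finset.sum_add_distrib]
    refine Finset.sum_congr rfl fun v _ => ?_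
    by_cases hvU : v ∈ U (rest H X)
    · have h4 := hU2 v hvU
      simp [i2, i3, hvU, h4]
    · by_cases h5 : deg (rest H X) v = 2 <;> simp [i2, i3, hvU, h5]
  have hNc : (verts H).card = X.card + (verts H \ X).card := by
    rw [Finset.card_sdiff_of_subset hXN]
    have := Finset.card_le_card hXN
    omega
  have hTX := Finset.card_union_le X T
  rw [hUc, hN2c] at hYc
  omega

/-- **Lai and Chang.**  Every finite family of `m` four-element sets whose union has `n` elements
has a transversal `T` with `9 |T| ≤ 2 (n + m)`. -/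
theorem lai_chang : ∀ (m : ℕ) (H : Finset (Finset V)), H.card = m → (∀ e ∈ H, e.card = 4) →
    ∃ T, Hits H T ∧ 9 * T.card ≤ 2 * ((verts H).card + H.card) := by
  intro m
  induction m using Nat.strong_induction_on with
  | _ m ih =>
    intro H hH hu
    -- removing a vertex
    have hstep : ∀ (v : V) (I : Finset V), I ⊆ verts H →
        (∀ w ∈ I, ∀ e ∈ H, w ∈ e → v ∈ e) → 1 ≤ deg H v → 9 ≤ 2 * (I.card + deg H v) →
        ∃ T, Hits H T ∧ 9 * T.card ≤ 2 * ((verts H).card + H.card) := by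
      intro v I hI hI2 hv h9
      have h3 : deg H v + (H.filter (fun e => v ∉ e)).card = H.card := by
        unfold deg
        exact Finset.card_filter_add_card_filter_not (fun e => v ∈ e)
      obtain ⟨T', hT', hb⟩ := ih (H.filter (fun e => v ∉ e)).card (by omega)
        (H.filter (fun e => v ∉ e)) rfl (fun e he => hu e (Finset.mem_filter.1 he).1)
      refine ⟨insert v T', ?_, ?_⟩
      · intro e he
        by_cases hve : v ∈ e
        · exact ⟨v, hve, Finset.mem_insert_self _ _⟩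
        · obtain ⟨w, hw, hwT⟩ := hT' e (by simp [he, hve])
          exact ⟨w, hw, Finset.mem_insert_of_mem hwT⟩
      · have h1 : (insert v T').card ≤ T'.card + 1 := Finset.card_insert_le _ _
        have h2 : (verts (H.filter (fun e => v ∉ e))).card + I.card ≤ (verts H).card := by
          rw [← Finset.card_union_of_disjoint]
          · apply Finset.card_le_card
            intro w hw
            rcases Finset.mem_union.1 hw with hw | hw
            · obtain ⟨e, he, hwe⟩ := mem_verts.1 hw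
              exact mem_verts.2 ⟨e, (Finset.mem_filter.1 he).1, hwe⟩
            · exact hI hw
          · rw [Finset.disjoint_left]
            intro w hw hw'
            obtain ⟨e, he, hwe⟩ := mem_verts.1 hw
            rw [Finset.mem_filter] at he
            exact he.2 (hI2 w hw' e he.1 hwe)
        omega
    by_cases hA : ∃ v, 4 ≤ deg H v
    · obtain ⟨v, hv⟩ := hA
      refine hstep v {v} ?_ ?_ (by omega) (by rw [Finset.card_singleton]; omega)
      · intro w hw
        rw [Finset.mem_singleton] at hw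
        exact hw ▸ verts_of_deg (by omega)
      · intro w hw e _ hwe
        rw [Finset.mem_singleton] at hw
        exact hw ▸ hwe
    push Not at hA
    have hd : ∀ v, deg H v ≤ 3 := fun v => by have := hA v; omega
    by_cases hB : ∃ v w, deg H v = 3 ∧ (∀ e ∈ H, v ∈ e → w ∈ e) ∧ w ≠ v
    · obtain ⟨v, w, hv, hvw, hne⟩ := hB
      have hsub : H.filter (fun e => v ∈ e) ⊆ H.filter (fun e => w ∈ e) := by
        intro e he
        rw [Finset.mem_filter] at he ⊢
        exact ⟨he.1, hvw e he.1 he.2⟩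
      have heq : H.filter (fun e => v ∈ e) = H.filter (fun e => w ∈ e) := by
        apply Finset.eq_of_subset_of_card_le hsub
        have h1 := hd w
        unfold deg at h1 hv
        omega
      refine hstep v {v, w} ?_ ?_ (by omega) ?_
      · intro t ht
        simp only [Finset.mem_insert, Finset.mem_singleton] at ht
        rcases ht with rfl | rfl
        · exact verts_of_deg (by omega)
        · have : deg H t = 3 := by unfold deg; rw [← heq]; exact hv
          exact verts_of_deg (by omega)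
      · intro t ht e he hte
        simp only [Finset.mem_insert, Finset.mem_singleton] at ht
        rcases ht with rfl | rfl
        · exact hte
        · have : e ∈ H.filter (fun e => v ∈ e) := by
            rw [heq, Finset.mem_filter]; exact ⟨he, hte⟩
          exact (Finset.mem_filter.1 this).2
      · rw [Finset.card_pair hne.symm]
        omega
    push Not at hB
    exact main_case hu hd (fun v w hv h => by
      by_contra hne
      exact hne (hB v w hv h))

end Pool.Agent.V11145.LC
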