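import Mathlib

/-!
# Ramsey numbers of a triangle versus a complete multipartite graph

For every complete multipartite graph `G` with `k` vertices and `m` edges, every triangle-free
graph on at least `k + m` vertices has `G` in its complement.
-/

namespace Pool.Agent.V11145.TriangleMultipartite

open Finset

/-! ## The numerical part -/

/-- lower bound for powers of `(B-1)/(B+1)` -/
lemma pow_lower (B : ℝ) (hB : 1 ≤ B) (n : ℕ) :
    (B - (n + 2)) / (B + (n + 2)) + 2 * (n + 1) * (n + 2) / ((B + 1) * (B + (n + 1)) * (B + (n + 2)))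
      + (B - 1) / (B + 1) * (2 * n * (n + 1) / ((B + 1) * (B + n) * (B + (n + 1))))
      ≤ ((B - 1) / (B + 1)) ^ (n + 2) := by
  induction n with
  | zero =>
    have h1 : (0:ℝ) < B + 1 := by linarith
    have h2 : (0:ℝ) < B + 2 := by linarith
    have h0 : (0:ℝ) < B := by linarith
    apply le_of_eq
    simp
    field_simp
    ring
  | succ n ih =>
    have hz : (0:ℝ) ≤ (B - 1) / (B + 1) := div_nonneg (by linarith) (by linarith)
    have hn : (0:ℝ) ≤ (n:ℝ) := Nat.cast_nonneg n
    have h1 : (0:ℝ) < B + 1 := by linarith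
    have h2 : (0:ℝ) < B + (n + 1) := by linarith
    have h3 : (0:ℝ) < B + (n + 2) := by linarith
    have h4 : (0:ℝ) < B + (n + 3) := by linarith
    have h0 : (0:ℝ) < B + n := by linarith
    have ht : (0:ℝ) ≤ (B - 1) / (B + 1) * ((B - 1) / (B + 1) *
        (2 * n * (n + 1) / ((B + 1) * (B + n) * (B + (n + 1))))) := by positivity
    have key := mul_le_mul_of_nonneg_left ih hz
    rw [pow_succ']
    refine le_trans ?_ key
    push_cast
    have e1 : (B - 1) / (B + 1) * ((B - (n + 2)) / (B + (n + 2)))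
        = (B - (n + 3)) / (B + (n + 3)) + 2 * (n + 2) * (n + 3) /
          ((B + 1) * (B + (n + 2)) * (B + (n + 3))) := by
      field_simp
      ring
    have e2 : (B - ((n:ℝ) + 1 + 2)) = B - (n + 3) := by ring
    have e3 : (B + ((n:ℝ) + 1 + 2)) = B + (n + 3) := by ring
    have e4 : (B + ((n:ℝ) + 1 + 1)) = B + (n + 2) := by ring
    have e5 : ((n:ℝ) + 1 + 2) = n + 3 := by ring
    have e6 : ((n:ℝ) + 1 + 1) = n + 2 := by ring
    rw [e2, e3, e4, e5, e6]
    have e7 : (B - 1) / (B + 1) * ((B - (n + 2)) / (B + (n + 2)) +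
        2 * (n + 1) * (n + 2) / ((B + 1) * (B + (n + 1)) * (B + (n + 2)))
        + (B - 1) / (B + 1) * (2 * n * (n + 1) / ((B + 1) * (B + n) * (B + (n + 1)))))
        = (B - 1) / (B + 1) * ((B - (n + 2)) / (B + (n + 2))) +
          (B - 1) / (B + 1) * (2 * (n + 1) * (n + 2) / ((B + 1) * (B + (n + 1)) * (B + (n + 2))))
          + (B - 1) / (B + 1) * ((B - 1) / (B + 1) *
            (2 * n * (n + 1) / ((B + 1) * (B + n) * (B + (n + 1))))) := by ring
    rw [e7, e1]
    linarith

/-- The main numerical inequality. -/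
lemma main_ineq (p : ℕ) (hp : 1 ≤ p) (B : ℝ) (hB : (p : ℝ) + 2 ≤ B) :
    (B + p - 2) * ((B + 1) / 2 * (1 - ((B - 1) / (B + 1)) ^ p)) < p * (B - 1) + 1 := by
  obtain ⟨j, rfl⟩ : ∃ j, p = j + 1 := ⟨p - 1, by omega⟩
  rcases j with _ | _ | n
  · -- p = 1
    have h1 : (0:ℝ) < B + 1 := by
      have : ((0 + 1 : ℕ) : ℝ) = 1 := by norm_num
      rw [this] at hB
      linarith
    norm_num at hB ⊢
    have : (B + 1 - 2) * ((B + 1) / 2 * (1 - (B - 1) / (B + 1))) = B - 1 := by
      field_simp
      ring
    rw [this]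
    linarith
  · -- p = 2
    have h1 : (0:ℝ) < B + 1 := by
      have : ((0 + 1 + 1 : ℕ) : ℝ) = 2 := by norm_num
      rw [this] at hB
      linarith
    norm_num at hB ⊢
    have : B * ((B + 1) / 2 * (1 - ((B - 1) / (B + 1)) ^ 2)) = 2 * B ^ 2 / (B + 1) := by
      field_simp
      ring
    rw [this, div_lt_iff₀ h1]
    nlinarith
  · -- p = n + 3
    have hn : (0:ℝ) ≤ (n:ℝ) := Nat.cast_nonneg n
    obtain ⟨b, hb, rfl⟩ : ∃ b : ℝ, 0 ≤ b ∧ B = n + 5 + b := by
      refine ⟨B - (n + 5), ?_, by ring⟩
      push_cast at hB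
      linarith
    have key := pow_lower ((n:ℝ) + 5 + b) (by linarith) n
    set z : ℝ := ((n:ℝ) + 5 + b - 1) / ((n:ℝ) + 5 + b + 1) with hz
    have hzpos : 0 < z := by
      rw [hz]
      apply div_pos <;> linarith
    have hpow : z ^ (n + 1 + 1 + 1) = z * z ^ (n + 2) := by ring
    rw [hpow]
    have key2 := mul_le_mul_of_nonneg_left key hzpos.le
    have hcoef : (0:ℝ) < ((n:ℝ) + 5 + b + ((n + 1 + 1 + 1 : ℕ):ℝ) - 2) * (((n:ℝ) + 5 + b + 1) / 2) := by
      push_cast
      have h1 : (0:ℝ) < (n:ℝ) + 5 + b + (n + 1 + 1 + 1) - 2 := by linarith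
      have h2 : (0:ℝ) < ((n:ℝ) + 5 + b + 1) / 2 := by linarith
      exact mul_pos h1 h2
    have step : ((n:ℝ) + 5 + b + ((n + 1 + 1 + 1 : ℕ):ℝ) - 2) * (((n:ℝ) + 5 + b + 1) / 2 *
          (1 - z * z ^ (n + 2)))
        ≤ ((n:ℝ) + 5 + b + ((n + 1 + 1 + 1 : ℕ):ℝ) - 2) * (((n:ℝ) + 5 + b + 1) / 2 *
          (1 - z * (((n:ℝ) + 5 + b - (n + 2)) / ((n:ℝ) + 5 + b + (n + 2)) +
          2 * (n + 1) * (n + 2) / (((n:ℝ) + 5 + b + 1) * ((n:ℝ) + 5 + b + (n + 1)) *
            ((n:ℝ) + 5 + b + (n + 2)))
          + z * (2 * n * (n + 1) /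
            (((n:ℝ) + 5 + b + 1) * ((n:ℝ) + 5 + b + n) * ((n:ℝ) + 5 + b + (n + 1))))))) := by
      rw [← mul_assoc, ← mul_assoc]
      apply mul_le_mul_of_nonneg_left _ hcoef.le
      linarith
    refine lt_of_le_of_lt step ?_
    rw [hz]
    have d1 : (0:ℝ) < (n:ℝ) + 5 + b + 1 := by linarith
    have d2 : (0:ℝ) < (n:ℝ) + 5 + b + (n + 1) := by linarith
    have d3 : (0:ℝ) < (n:ℝ) + 5 + b + (n + 2) := by linarith
    have d4 : (0:ℝ) < (n:ℝ) + 5 + b + n := by linarith
    rw [← sub_pos]
    have e : (((n + 1 + 1 + 1 : ℕ):ℝ)) * ((n:ℝ) + 5 + b - 1) + 1 -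
        ((n:ℝ) + 5 + b + ((n + 1 + 1 + 1 : ℕ):ℝ) - 2) * (((n:ℝ) + 5 + b + 1) / 2 *
          (1 - ((n:ℝ) + 5 + b - 1) / ((n:ℝ) + 5 + b + 1) *
            (((n:ℝ) + 5 + b - (n + 2)) / ((n:ℝ) + 5 + b + (n + 2)) +
          2 * (n + 1) * (n + 2) / (((n:ℝ) + 5 + b + 1) * ((n:ℝ) + 5 + b + (n + 1)) *
            ((n:ℝ) + 5 + b + (n + 2)))
          + ((n:ℝ) + 5 + b - 1) / ((n:ℝ) + 5 + b + 1) * (2 * n * (n + 1) /
            (((n:ℝ) + 5 + b + 1) * ((n:ℝ) + 5 + b + n) * ((n:ℝ) + 5 + b + (n + 1)))))))
        = (n^4 + 7*n^3 + 11*n^2 + 20*n + 60 + 2*n^3*b + 9*n^2*b + 20*n*b + 52*b + 13*b^2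
            + 3*n*b^2 + n^2*b^2 + b^3) / (((n:ℝ) + 5 + b + 1)^2 * ((n:ℝ) + 5 + b + n)) := by
      push_cast
      field_simp
      ring
    rw [e]
    positivity

/-- the auxiliary product `c_i = prod_{l<i} (N-k-l)/(N-1-l)` -/
noncomputable def cs (N k : ℝ) : ℕ → ℝ
  | 0 => 1
  | i + 1 => cs N k i * ((N - k - i) / (N - 1 - i))

lemma cs_nonneg (N k : ℝ) (hk : 1 ≤ k) (p : ℕ) (hp : k + p ≤ N) :
    ∀ i ≤ p, 0 ≤ cs N k i := by
  intro i
  induction i with
  | zero => intro _; simp [cs]
  | succ i ih =>
    intro hi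
    have hi' : ((i:ℝ) + 1) ≤ p := by exact_mod_cast hi
    have := ih (by omega)
    unfold cs
    apply mul_nonneg this
    apply div_nonneg <;> linarith

lemma cs_sum (N k : ℝ) (hk : 1 ≤ k) (p : ℕ) (hp : k + p ≤ N) :
    ∀ i ≤ p, (N - i) * cs N k i = N - k * ∑ l ∈ Finset.range i, cs N k l := by
  intro i
  induction i with
  | zero => intro _; simp [cs]
  | succ i ih =>
    intro hi
    have hi' : ((i:ℝ) + 1) ≤ p := by exact_mod_cast hi
    have h := ih (by omega)
    rw [Finset.sum_range_succ]
    have hne : N - 1 - i ≠ 0 := by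
      have : 0 < N - 1 - i := by linarith
      exact this.ne'
    have e : (N - ((i + 1 : ℕ) : ℝ)) * cs N k (i + 1) = cs N k i * (N - k - i) := by
      rw [cs]
      push_cast
      field_simp
      ring
    rw [e]
    linarith

lemma cs_le (N k B : ℝ) (p : ℕ) (hp1 : 1 ≤ p) (hp : k + p ≤ N) (hk1 : 1 ≤ k)
    (hB : B = k - p + 2) (hB1 : 1 ≤ B) (hN : 2 * N ≤ k * B) :
    ∀ i ≤ p, cs N k i ≤ ((B - 1) / (B + 1)) ^ i := by
  intro i
  induction i with
  | zero => intro _; simp [cs]
  | succ i ih =>
    intro hi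
    have hi' : ((i:ℝ) + 1) ≤ p := by exact_mod_cast hi
    have h := ih (by omega)
    have h0 := cs_nonneg N k hk1 p hp i (by omega)
    have hp1' : (1:ℝ) ≤ p := by exact_mod_cast hp1
    rw [cs, pow_succ]
    have hi0 : (0:ℝ) ≤ (i:ℝ) := Nat.cast_nonneg i
    apply mul_le_mul h _ _ (pow_nonneg _ i)
    · rw [div_le_div_iff₀ (by linarith) (by linarith)]
      nlinarith
    · apply div_nonneg <;> linarith
    · apply div_nonneg <;> linarith

lemma geom (z : ℝ) (B : ℝ) (hB : 0 < B + 1) (hz : z = (B - 1) / (B + 1)) (p : ℕ) :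
    ∑ l ∈ Finset.range p, z ^ l = (B + 1) / 2 * (1 - z ^ p) := by
  induction p with
  | zero => simp
  | succ p ih =>
    rw [Finset.sum_range_succ, ih, pow_succ]
    have : (B + 1) * z = B - 1 := by rw [hz]; field_simp
    have h2 : (B + 1) * (z ^ p * z) = z ^ p * (B - 1) := by rw [← this]; ring
    have : (B + 1) / 2 * (1 - z ^ p * z) = (B + 1) / 2 - ((B + 1) * (z ^ p * z)) / 2 := by ring
    rw [this, h2]
    ring

/-- After removing `p` greedily chosen closed neighbourhoods, enough vertices are left. -/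
lemma numeric (N k p : ℕ) (hp1 : 1 ≤ p) (hk : 2 * p ≤ k) (hp : k + p ≤ N)
    (hN : 2 * N ≤ k * (k - p + 2)) :
    (N : ℝ) - (p * (k - p + 1) + 1) < (N - p) * cs N k p := by
  have hk1 : (1:ℝ) ≤ k := by exact_mod_cast (by omega : 1 ≤ k)
  have hkp : ((k - p : ℕ) : ℝ) = (k:ℝ) - p := by
    rw [Nat.cast_sub (by omega)]
  have hp' : (k:ℝ) + p ≤ N := by exact_mod_cast hp
  have hk' : 2 * (p:ℝ) ≤ k := by exact_mod_cast hk
  have hN' : 2 * (N:ℝ) ≤ k * ((k:ℝ) - p + 2) := by
    have : ((2 * N : ℕ) : ℝ) ≤ ((k * (k - p + 2) : ℕ) : ℝ) := by exact_mod_cast hN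
    push_cast at this
    rw [hkp] at this
    exact this
  have hp1' : (1:ℝ) ≤ p := by exact_mod_cast hp1
  rw [cs_sum N k hk1 p hp' p le_rfl]
  set B : ℝ := (k:ℝ) - p + 2 with hB
  have hsum : ∑ l ∈ Finset.range p, cs N k l ≤ ∑ l ∈ Finset.range p, ((B - 1) / (B + 1)) ^ l := by
    apply Finset.sum_le_sum
    intro i hi
    rw [Finset.mem_range] at hi
    exact cs_le N k B p hp1 hp' hk1 rfl (by linarith) hN' i hi.le
  rw [geom _ B (by linarith) rfl p] at hsum
  have hmain := main_ineq p hp1 B (by linarith)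
  have e : B + p - 2 = k := by rw [hB]; ring
  rw [e] at hmain
  have e2 : (p:ℝ) * (B - 1) + 1 = p * (k - p + 1) + 1 := by rw [hB]; ring
  rw [e2] at hmain
  have := mul_le_mul_of_nonneg_left hsum (by linarith : (0:ℝ) ≤ k)
  linarith

/-! ## The greedy selection -/

variable {V : Type*} [DecidableEq V] (H : SimpleGraph V) [DecidableRel H.Adj]

/-- the vertices of `U` outside the closed neighbourhood of `P` -/
def rest (U P : Finset V) : Finset V := U.filter (fun u => u ∉ P ∧ ∀ x ∈ P, ¬ H.Adj x u)

lemma greedy (U : Finset V) (k p : ℕ) (hk : 1 ≤ k) (hp : k + p ≤ U.card)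
    (hdeg : ∀ v ∈ U, (U.filter (fun w => H.Adj v w)).card + 1 ≤ k) :
    ∀ i ≤ p, ∃ P ⊆ U, P.card = i ∧
      (((U.card : ℝ) - i) * cs U.card k i) ≤ ((rest H U P).card : ℝ) := by
  intro i
  induction i with
  | zero =>
    intro _
    refine ⟨∅, by simp, by simp, ?_⟩
    simp [cs, rest]
  | succ i ih =>
    intro hi
    obtain ⟨P, hPU, hPc, hP⟩ := ih (by omega)
    have hUP : (U \ P).card = U.card - i := by
      rw [Finset.card_sdiff_of_subset hPU, hPc]
    -- double counting
    let lost : V → Finset V := fun v => (rest H U P).filter (fun u => u = v ∨ H.Adj v u)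
    have hdc : ∑ v ∈ U \ P, (lost v).card ≤ (rest H U P).card * k := by
      have h1 : ∑ v ∈ U \ P, (lost v).card
          = ∑ u ∈ rest H U P, ((U \ P).filter (fun v => u = v ∨ H.Adj v u)).card := by
        simp only [lost, Finset.card_filter]
        rw [Finset.sum_comm]
      rw [h1]
      refine (Finset.sum_le_card_nsmul _ _ k ?_).trans ?_
      · intro u hu
        have huU : u ∈ U := (Finset.mem_filter.1 hu).1
        have hsub : (U \ P).filter (fun v => u = v ∨ H.Adj v u) ⊆
            insert u (U.filter (fun w => H.Adj u w)) := by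
          intro v hv
          rw [Finset.mem_filter, Finset.mem_sdiff] at hv
          rw [Finset.mem_insert, Finset.mem_filter]
          rcases hv.2 with h | h
          · left; exact h.symm
          · right; exact ⟨hv.1.1, h.symm⟩
        exact (Finset.card_le_card hsub).trans ((Finset.card_insert_le _ _).trans (hdeg u huU))
      · simp
    have hne : (U \ P).Nonempty := by
      rw [← Finset.card_pos, hUP]; omega
    obtain ⟨v, hv, hvle⟩ : ∃ v ∈ U \ P, (U.card - i) * (lost v).card ≤ (rest H U P).card * k := by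
      by_contra hcon
      push Not at hcon
      have h2 : ∑ v ∈ U \ P, (rest H U P).card * k < ∑ v ∈ U \ P, (U.card - i) * (lost v).card :=
        Finset.sum_lt_sum_of_nonempty hne hcon
      rw [Finset.sum_const, hUP, smul_eq_mul, ← Finset.mul_sum] at h2
      have h3 : 0 < U.card - i := by omega
      have := Nat.lt_of_mul_lt_mul_left h2
      omega
    rw [Finset.mem_sdiff] at hv
    refine ⟨insert v P, ?_, ?_, ?_⟩
    · intro x hx
      rcases Finset.mem_insert.1 hx with rfl | hx
      · exact hv.1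
      · exact hPU hx
    · rw [Finset.card_insert_of_notMem hv.2, hPc]
    · have hrest : rest H U (insert v P) = (rest H U P) \ (lost v) := by
        ext u
        simp only [rest, lost, Finset.mem_sdiff, Finset.mem_filter, Finset.mem_insert]
        constructor
        · rintro ⟨h1, h2, h3⟩
          refine ⟨⟨h1, fun h => h2 (Or.inr h), fun x hx => h3 x (Or.inr hx)⟩, ?_⟩
          rintro ⟨_, h | h⟩
          · exact h2 (Or.inl h)
          · exact h3 v (Or.inl rfl) h
        · rintro ⟨⟨h1, h2, h3⟩, h4⟩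
          refine ⟨h1, ?_, ?_⟩
          · rintro (h | h)
            · exact h4 ⟨⟨h1, h2, h3⟩, Or.inl h⟩
            · exact h2 h
          · rintro x (rfl | hx)
            · exact fun h => h4 ⟨⟨h1, h2, h3⟩, Or.inr h⟩
            · exact h3 x hx
      have hcard : (rest H U (insert v P)).card + (lost v).card = (rest H U P).card := by
        rw [hrest]
        exact Finset.card_sdiff_add_card_eq_card (Finset.filter_subset _ _)
      have hi' : ((i:ℝ) + 1) ≤ p := by exact_mod_cast hi
      have hpr : (k:ℝ) + p ≤ U.card := by exact_mod_cast hp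
      have hk1 : (1:ℝ) ≤ k := by exact_mod_cast hk
      have hcr : ((rest H U (insert v P)).card : ℝ) + (lost v).card = (rest H U P).card := by
        exact_mod_cast hcard
      have hvr : ((U.card : ℝ) - i) * (lost v).card ≤ (rest H U P).card * k := by
        have hcast : (((U.card - i : ℕ)) : ℝ) = (U.card : ℝ) - i := by
          rw [Nat.cast_sub (by omega)]
        rw [← hcast]
        exact_mod_cast hvle
      have hpos : (0:ℝ) < (U.card : ℝ) - i := by linarith
      have hA : ((U.card : ℝ) - i - k) * (rest H U P).card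
          ≤ ((U.card : ℝ) - i) * (rest H U (insert v P)).card := by
        have : ((rest H U (insert v P)).card : ℝ) = (rest H U P).card - (lost v).card := by
          linarith
        rw [this]
        nlinarith
      have hB : ((U.card : ℝ) - i - k) * (((U.card : ℝ) - i) * cs U.card k i)
          ≤ ((U.card : ℝ) - i - k) * (rest H U P).card :=
        mul_le_mul_of_nonneg_left hP (by linarith)
      have hC : ((U.card : ℝ) - i) * ((U.card : ℝ) - i - k) * cs U.card k i
          ≤ ((U.card : ℝ) - i) * (rest H U (insert v P)).card := by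
        have : ((U.card : ℝ) - i) * ((U.card : ℝ) - i - k) * cs U.card k i
          = ((U.card : ℝ) - i - k) * (((U.card : ℝ) - i) * cs U.card k i) := by ring
        rw [this]
        exact hB.trans hA
      have hD : ((U.card : ℝ) - i - k) * cs U.card k i ≤ (rest H U (insert v P)).card := by
        rw [mul_assoc] at hC
        exact le_of_mul_le_mul_left hC hpos
      refine le_trans (le_of_eq ?_) hD
      have hne2 : (U.card : ℝ) - 1 - i ≠ 0 := by
        have : (0:ℝ) < (U.card : ℝ) - 1 - i := by linarith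
        exact this.ne'
      rw [cs]
      push_cast
      field_simp
      ring

/-! ## The embedding -/

variable {W : Type*} [DecidableEq W] (G : SimpleGraph W) [DecidableRel G.Adj]

/-- twice the number of edges of `G` inside `A` -/
def dd (A : Finset W) : ℕ := ∑ a ∈ A, (A.filter (fun b => G.Adj a b)).card

omit [DecidableRel H.Adj] [DecidableEq V] in
lemma exists_map {A : Finset W} {U : Finset V} [Nonempty V] (h : A.card ≤ U.card) :
    ∃ f : W → V, (∀ a ∈ A, f a ∈ U) ∧ Set.InjOn f (A : Set W) := by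
  obtain ⟨U', hU', hc⟩ := Finset.exists_subset_card_eq h
  have e : A ≃ U' := Finset.equivOfCardEq hc.symm
  refine ⟨fun a => if ha : a ∈ A then (e ⟨a, ha⟩ : V) else Classical.arbitrary V, ?_, ?_⟩
  · intro a ha
    simp only [ha, dif_pos]
    exact hU' (e ⟨a, ha⟩).2
  · intro a ha b hb hab
    have ha' : a ∈ A := ha
    have hb' : b ∈ A := hb
    simp only [ha', hb', dif_pos] at hab
    have := e.injective (Subtype.ext hab)
    exact congrArg Subtype.val this

theorem embed [Nonempty V] (hH : H.CliqueFree 3)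
    (hG : ∀ a b c, ¬ G.Adj a b → ¬ G.Adj b c → ¬ G.Adj a c) :
    ∀ (n : ℕ) (A : Finset W) (m : ℕ) (U : Finset V), A.card = n → dd G A = 2 * m →
      A.card + m ≤ U.card →
      ∃ f : W → V, (∀ a ∈ A, f a ∈ U) ∧ Set.InjOn f (A : Set W) ∧
        ∀ a ∈ A, ∀ b ∈ A, G.Adj a b → ¬ H.Adj (f a) (f b) := by
  intro n
  induction n using Nat.strong_induction_on with
  | _ n ih =>
    intro A m U hAn hm hU
    rcases A.eq_empty_or_nonempty with rfl | hne
    · obtain ⟨f, h1, h2⟩ := exists_map (A := (∅ : Finset W)) (U := U) (by simp)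
      exact ⟨f, h1, h2, by simp⟩
    -- the smallest class
    let cls : W → Finset W := fun a => A.filter (fun b => ¬ G.Adj a b)
    obtain ⟨w0, hw0, hmin⟩ := Finset.exists_min_image A (fun a => (cls a).card) hne
    set P0 := cls w0 with hP0
    set A' := A \ P0 with hA'
    have hP0A : P0 ⊆ A := Finset.filter_subset _ _
    have hw0P : w0 ∈ P0 := by
      rw [hP0, Finset.mem_filter]
      exact ⟨hw0, G.irrefl⟩
    have hp1 : 1 ≤ P0.card := Finset.card_pos.2 ⟨w0, hw0P⟩
    have hcard : A'.card + P0.card = A.card := Finset.card_sdiff_add_card_eq_card hP0A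
    have hPP : ∀ a ∈ P0, ∀ b ∈ P0, ¬ G.Adj a b := by
      intro a ha b hb
      have h1 := (Finset.mem_filter.1 ha).2
      have h2 := (Finset.mem_filter.1 hb).2
      exact hG a w0 b (fun h => h1 h.symm) h2
    have hPA : ∀ a ∈ P0, ∀ b ∈ A', G.Adj a b := by
      intro a ha b hb
      by_contra hcon
      rw [hA', Finset.mem_sdiff] at hb
      apply hb.2
      rw [hP0, Finset.mem_filter]
      exact ⟨hb.1, hG w0 a b (Finset.mem_filter.1 ha).2 hcon⟩
    rcases A'.eq_empty_or_nonempty with hA'e | hA'ne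
    · have hAP : A = P0 := by
        apply Finset.Subset.antisymm _ hP0A
        rw [← Finset.sdiff_eq_empty_iff_subset]
        exact hA'e
      obtain ⟨f, h1, h2⟩ := exists_map (A := A) (U := U) (by omega)
      refine ⟨f, h1, h2, ?_⟩
      intro a ha b hb hab
      rw [hAP] at ha hb
      exact absurd hab (hPP a ha b hb)
    -- degree count
    have hdd : dd G A = dd G A' + 2 * (P0.card * A'.card) := by
      have h1 : dd G A = ∑ a ∈ A', (A.filter (fun b => G.Adj a b)).card +
          ∑ a ∈ P0, (A.filter (fun b => G.Adj a b)).card := by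
        unfold dd
        rw [← Finset.sum_sdiff hP0A]
      have h2 : ∑ a ∈ P0, (A.filter (fun b => G.Adj a b)).card = P0.card * A'.card := by
        rw [Finset.sum_const_nat]
        intro a ha
        congr 1
        ext b
        rw [Finset.mem_filter, hA', Finset.mem_sdiff]
        constructor
        · rintro ⟨hb, hab⟩
          exact ⟨hb, fun hbP => hPP a ha b hbP hab⟩
        · rintro ⟨hb, hbP⟩
          exact ⟨hb, hPA a ha b (by rw [hA', Finset.mem_sdiff]; exact ⟨hb, hbP⟩)⟩
      have h3 : ∑ a ∈ A', (A.filter (fun b => G.Adj a b)).card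
          = dd G A' + A'.card * P0.card := by
        have : ∀ a ∈ A', (A.filter (fun b => G.Adj a b)).card
            = (A'.filter (fun b => G.Adj a b)).card + P0.card := by
          intro a ha
          have e : A.filter (fun b => G.Adj a b) = (A'.filter (fun b => G.Adj a b)) ∪ P0 := by
            ext b
            rw [Finset.mem_union, Finset.mem_filter, Finset.mem_filter, hA', Finset.mem_sdiff]
            constructor
            · rintro ⟨hb, hab⟩
              by_cases hbP : b ∈ P0
              · right; exact hbP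
              · left; exact ⟨⟨hb, hbP⟩, hab⟩
            · rintro (⟨⟨hb, _⟩, hab⟩ | hb)
              · exact ⟨hb, hab⟩
              · exact ⟨hP0A hb, (hPA b hb a ha).symm⟩
          rw [e, Finset.card_union_of_disjoint]
          rw [Finset.disjoint_left]
          intro b hb hbP
          have := (Finset.mem_filter.1 hb).1
          rw [hA', Finset.mem_sdiff] at this
          exact this.2 hbP
        rw [Finset.sum_congr rfl this, Finset.sum_add_distrib, Finset.sum_const, smul_eq_mul]
        rfl
      rw [h1, h2, h3]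
      ring
    have hddle : dd G A ≤ A.card * (A.card - P0.card) := by
      unfold dd
      refine (Finset.sum_le_card_nsmul _ _ (A.card - P0.card) ?_).trans (by simp)
      intro a ha
      have h1 : (A.filter (fun b => G.Adj a b)).card + (cls a).card = A.card :=
        Finset.card_filter_add_card_filter_not _
      have h2 : P0.card ≤ (cls a).card := hmin a ha
      omega
    have hpA' : P0.card ≤ A'.card := by
      obtain ⟨a, ha⟩ := hA'ne
      have haA : a ∈ A := by
        rw [hA', Finset.mem_sdiff] at ha; exact ha.1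
      refine (hmin a haA).trans (Finset.card_le_card ?_)
      intro b hb
      have hb2 := Finset.mem_filter.1 hb
      rw [hA', Finset.mem_sdiff]
      refine ⟨hb2.1, fun hbP => ?_⟩
      exact hb2.2 (hPA b hbP a ha).symm
    obtain ⟨m', hm'⟩ : ∃ m', m = m' + P0.card * A'.card := by
      refine ⟨m - P0.card * A'.card, ?_⟩
      omega
    have hdd' : dd G A' = 2 * m' := by omega
    -- restrict to exactly `A.card + m` vertices
    obtain ⟨U', hU'U, hU'c⟩ := Finset.exists_subset_card_eq hU
    by_cases hdeg : ∃ v ∈ U', A.card ≤ (U'.filter (fun w => H.Adj v w)).card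
    · obtain ⟨v, hv, hvd⟩ := hdeg
      obtain ⟨f, h1, h2⟩ := exists_map (A := A) (U := U'.filter (fun w => H.Adj v w)) hvd
      refine ⟨f, fun a ha => hU'U (Finset.mem_filter.1 (h1 a ha)).1, h2, ?_⟩
      intro a ha b hb _ hab
      have ha1 := (Finset.mem_filter.1 (h1 a ha)).2
      have hb1 := (Finset.mem_filter.1 (h1 b hb)).2
      exact hH {v, f a, f b} (SimpleGraph.is3Clique_iff.2 ⟨v, f a, f b, ha1, hb1, hab, rfl⟩)
    push Not at hdeg
    set p := P0.card with hp
    set k := A.card with hk
    have hk2p : 2 * p ≤ k := by omega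
    have hmul : p * p ≤ p * A'.card := Nat.mul_le_mul_left _ hpA'
    have hpp : p ≤ p * p := Nat.le_mul_of_pos_left _ hp1
    have hkpN : k + p ≤ U'.card := by rw [hU'c]; omega
    have hA'k : A'.card = k - p := by omega
    have hN2 : 2 * U'.card ≤ k * (k - p + 2) := by
      rw [hU'c]
      have : 2 * m ≤ k * (k - p) := by rw [← hm]; exact hddle
      nlinarith
    obtain ⟨P, hPU, hPc, hPr⟩ := greedy H U' k p (by omega) hkpN
      (fun v hv => hdeg v hv) p le_rfl
    have hnum := numeric U'.card k p hp1 hk2p hkpN hN2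
    have hlt := lt_of_lt_of_le hnum hPr
    have hrest : A'.card + m' ≤ (rest H U' P).card := by
      have hkp : ((k - p : ℕ) : ℝ) = (k:ℝ) - p := by
        rw [Nat.cast_sub (by omega)]
      have e1 : ((U'.card : ℕ) : ℝ) = (k:ℝ) + m' + p * (k - p) := by
        rw [hU'c, hm', hA'k]
        push_cast
        rw [hkp]
        ring
      have e2 : (((A'.card + m' : ℕ)) : ℝ) < ((rest H U' P).card : ℝ) + 1 := by
        rw [hA'k]
        push_cast
        rw [hkp]
        rw [e1] at hlt
        linarith
      have e3 : A'.card + m' < (rest H U' P).card + 1 := by exact_mod_cast e2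
      omega
    obtain ⟨f, hf1, hf2, hf3⟩ := ih A'.card (by omega) A' m' (rest H U' P) rfl hdd' hrest
    obtain ⟨g, hg1, hg2⟩ := exists_map (A := P0) (U := P) (by omega)
    refine ⟨fun a => if a ∈ P0 then g a else f a, ?_, ?_, ?_⟩
    · intro a ha
      by_cases haP : a ∈ P0
      · simp only [haP, if_true]
        exact hU'U (hPU (hg1 a haP))
      · simp only [haP, if_false]
        have : a ∈ A' := by rw [hA', Finset.mem_sdiff]; exact ⟨ha, haP⟩
        exact hU'U (Finset.mem_filter.1 (hf1 a this)).1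
    · intro a ha b hb hab
      have ha' : a ∈ A := ha
      have hb' : b ∈ A := hb
      by_cases haP : a ∈ P0 <;> by_cases hbP : b ∈ P0
      · simp only [haP, hbP, if_true] at hab
        exact hg2 haP hbP hab
      · simp only [haP, hbP, if_true, if_false] at hab
        have hbA : b ∈ A' := by rw [hA', Finset.mem_sdiff]; exact ⟨hb', hbP⟩
        have h1 := (Finset.mem_filter.1 (hf1 b hbA)).2.1
        rw [← hab] at h1
        exact absurd (hg1 a haP) h1
      · simp only [haP, hbP, if_true, if_false] at hab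
        have haA : a ∈ A' := by rw [hA', Finset.mem_sdiff]; exact ⟨ha', haP⟩
        have h1 := (Finset.mem_filter.1 (hf1 a haA)).2.1
        rw [hab] at h1
        exact absurd (hg1 b hbP) h1
      · simp only [haP, hbP, if_false] at hab
        have haA : a ∈ A' := by rw [hA', Finset.mem_sdiff]; exact ⟨ha', haP⟩
        have hbA : b ∈ A' := by rw [hA', Finset.mem_sdiff]; exact ⟨hb', hbP⟩
        exact hf2 haA hbA hab
    · intro a ha b hb hab
      by_cases haP : a ∈ P0 <;> by_cases hbP : b ∈ P0
      · exact absurd hab (hPP a haP b hbP)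
      · simp only [haP, hbP, if_true, if_false]
        have hbA : b ∈ A' := by rw [hA', Finset.mem_sdiff]; exact ⟨hb, hbP⟩
        exact (Finset.mem_filter.1 (hf1 b hbA)).2.2 (g a) (hg1 a haP)
      · simp only [haP, hbP, if_true, if_false]
        have haA : a ∈ A' := by rw [hA', Finset.mem_sdiff]; exact ⟨ha, haP⟩
        exact fun h => (Finset.mem_filter.1 (hf1 a haA)).2.2 (g b) (hg1 b hbP) h.symm
      · simp only [haP, hbP, if_false]
        have haA : a ∈ A' := by rw [hA', Finset.mem_sdiff]; exact ⟨ha, haP⟩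
        have hbA : b ∈ A' := by rw [hA', Finset.mem_sdiff]; exact ⟨hb, hbP⟩
        exact hf3 a haA b hbA hab

/-- Sidorenko's inequality for all complete multipartite graphs: if `G` is complete multipartite
with `k` vertices and `m` edges, then the complement of every triangle-free graph on at least
`k + m` vertices contains `G`. -/
theorem sidorenko_multipartite {V W : Type*} [Fintype V] [Fintype W] (G : SimpleGraph W)
    (hG : G.IsCompleteMultipartite) (H : SimpleGraph V) (hH : H.CliqueFree 3)
    (hcard : Fintype.card W + G.edgeSet.ncard ≤ Fintype.card V) : G.IsContained Hᶜ := by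
  classical
  rcases isEmpty_or_nonempty W with hW | hW
  · refine ⟨⟨⟨fun w => (hW.false w).elim, ?_⟩, ?_⟩⟩
    · intro a; exact (hW.false a).elim
    · intro a; exact (hW.false a).elim
  have hVne : Nonempty V := by
    rw [← Fintype.card_pos_iff]
    have := Fintype.card_pos_iff.2 hW
    omega
  have hdd : dd G (Finset.univ : Finset W) = 2 * G.edgeSet.ncard := by
    have h1 : G.edgeSet.ncard = G.edgeFinset.card := by
      rw [← SimpleGraph.coe_edgeFinset, Set.ncard_coe_finset]
    rw [h1, ← G.sum_degrees_eq_twice_card_edges]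
    unfold dd
    apply Finset.sum_congr rfl
    intro a _
    rw [← SimpleGraph.card_neighborFinset_eq_degree]
    congr 1
    ext b
    simp
  obtain ⟨f, _, hf2, hf3⟩ := embed H G hH (fun a b c h1 h2 => hG.trans a b c h1 h2)
    (Finset.univ : Finset W).card Finset.univ G.edgeSet.ncard
    (Finset.univ : Finset V) rfl hdd (by simpa using hcard)
  have hinj : Function.Injective f := by
    intro a b hab
    exact hf2 (by simp) (by simp) hab
  refine ⟨⟨⟨f, ?_⟩, hinj⟩⟩
  intro a b hab
  rw [SimpleGraph.compl_adj]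
  exact ⟨fun h => hab.ne (hinj h), hf3 a (Finset.mem_univ a) b (Finset.mem_univ b) hab⟩

end Pool.Agent.V11145.TriangleMultipartite
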