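import Mathlib

/-! Maximum dispersal of profiles of orders. -/

namespace Pool.Agent.V11145.Disp

open Finset

variable {X : Type*} [Fintype X] [DecidableEq X]

/-- symmetric-difference distance of two relations -/
def delta (r s : Finset (X × X)) : ℕ := (symmDiff r s).card

/-- total distance of a profile to `s` -/
def Delta {v : ℕ} (π : Fin v → Finset (X × X)) (s : Finset (X × X)) : ℕ :=
  ∑ i, delta (π i) s

/-- strict partial orders -/
def IsPO (r : Finset (X × X)) : Prop :=
  (∀ a, (a, a) ∉ r) ∧ ∀ a b c, (a, b) ∈ r → (b, c) ∈ r → (a, c) ∈ r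

/-- (strict) linear orders -/
def IsLin (r : Finset (X × X)) : Prop :=
  IsPO r ∧ ∀ a b, a ≠ b → (a, b) ∈ r ∨ (b, a) ∈ r

/-- the maximum over profiles of the minimum over `s ∈ R` of the total distance -/
noncomputable def F (R : Set (Finset (X × X))) (v : ℕ) : ℕ :=
  sSup {m | ∃ π : Fin v → Finset (X × X), (∀ i, π i ∈ R) ∧ ∀ s ∈ R, m ≤ Delta π s}

/-- sign of a pair -/
def sg (r : Finset (X × X)) (x y : X) : ℤ :=
  (if (x, y) ∈ r then 1 else 0) - (if (y, x) ∈ r then 1 else 0)

omit [Fintype X] in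
theorem sg_swap (r : Finset (X × X)) (x y : X) : sg r y x = - sg r x y := by
  unfold sg; ring

omit [Fintype X] in
theorem sg_val {r : Finset (X × X)} (hr : IsPO r) (x y : X) :
    sg r x y = 1 ∨ sg r x y = 0 ∨ sg r x y = -1 := by
  unfold sg
  by_cases h1 : (x, y) ∈ r <;> by_cases h2 : (y, x) ∈ r <;> simp [h1, h2]

omit [Fintype X] in
theorem sg_lin {r : Finset (X × X)} (hr : IsLin r) {x y : X} (hxy : x ≠ y) :
    sg r x y = 1 ∨ sg r x y = -1 := by
  have hno : ¬ ((x, y) ∈ r ∧ (y, x) ∈ r) := fun h => hr.1.1 x (hr.1.2 x y x h.1 h.2)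
  unfold sg
  rcases hr.2 x y hxy with h | h
  · have : (y, x) ∉ r := fun h' => hno ⟨h, h'⟩
    simp [h, this]
  · have : (x, y) ∉ r := fun h' => hno ⟨h', h⟩
    simp [h, this]

omit [Fintype X] in
theorem sg_diag (r : Finset (X × X)) (x : X) : sg r x x = 0 := by
  unfold sg; ring

/-- `2 δ` as a sum over ordered pairs -/
theorem two_delta {r s : Finset (X × X)} (hr : IsPO r) (hs : IsPO s) :
    2 * (delta r s : ℤ) = ∑ x, ∑ y, |sg r x y - sg s x y| := by
  classical
  have h1 : (delta r s : ℤ) = ∑ x, ∑ y, (if (x, y) ∈ symmDiff r s then (1 : ℤ) else 0) := by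
    unfold delta
    rw [← Fintype.sum_prod_type' (fun x y => if (x, y) ∈ symmDiff r s then (1 : ℤ) else 0)]
    rw [Finset.sum_boole]
    congr 1
    congr 1
    ext p
    simp
  have h2 : (delta r s : ℤ) = ∑ x, ∑ y, (if (y, x) ∈ symmDiff r s then (1 : ℤ) else 0) := by
    rw [h1, Finset.sum_comm]
  calc 2 * (delta r s : ℤ) = (delta r s : ℤ) + (delta r s : ℤ) := by ring
    _ = ∑ x, ∑ y, (if (x, y) ∈ symmDiff r s then (1 : ℤ) else 0) +
        ∑ x, ∑ y, (if (y, x) ∈ symmDiff r s then (1 : ℤ) else 0) := by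
          conv_lhs => rw [h1]
          rw [← h1]
          nth_rewrite 2 [h2]
          rw [h1]
    _ = ∑ x, ∑ y, |sg r x y - sg s x y| := by
          rw [← Finset.sum_add_distrib]
          refine Finset.sum_congr rfl fun x _ => ?_
          rw [← Finset.sum_add_distrib]
          refine Finset.sum_congr rfl fun y _ => ?_
          have hr' : ¬ ((x, y) ∈ r ∧ (y, x) ∈ r) := fun h => hr.1 x (hr.2 x y x h.1 h.2)
          have hs' : ¬ ((x, y) ∈ s ∧ (y, x) ∈ s) := fun h => hs.1 x (hs.2 x y x h.1 h.2)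
          simp only [mem_symmDiff]
          unfold sg
          by_cases a1 : (x, y) ∈ r <;> by_cases a2 : (y, x) ∈ r <;>
            by_cases a3 : (x, y) ∈ s <;> by_cases a4 : (y, x) ∈ s <;>
            simp_all

theorem abs_formula {t u : ℤ} (ht : t = 1 ∨ t = 0 ∨ t = -1) (hu : u = 1 ∨ u = 0 ∨ u = -1) :
    |t - u| = 1 - t * u - (1 - t ^ 2) * (1 - u ^ 2) := by
  rcases ht with rfl | rfl | rfl <;> rcases hu with rfl | rfl | rfl <;> norm_num

/-- sum over all ordered pairs of a constant off the diagonal -/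
theorem sum_offdiag (c : ℤ) :
    ∑ x : X, ∑ y : X, (if x = y then 0 else c) =
      (Fintype.card X : ℤ) * ((Fintype.card X : ℤ) - 1) * c := by
  have h : ∀ x : X, ∑ y : X, (if x = y then 0 else c) = ((Fintype.card X : ℤ) - 1) * c := by
    intro x
    have h1 : ∑ y : X, (if x = y then 0 else c) = ∑ y : X, (c - if x = y then c else 0) := by
      refine Finset.sum_congr rfl fun y _ => ?_
      split_ifs <;> ring
    rw [h1, Finset.sum_sub_distrib, Finset.sum_ite_eq, Finset.sum_const, card_univ]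
    simp
    ring
  rw [Finset.sum_congr rfl fun x _ => h x, Finset.sum_const, card_univ]
  simp
  ring

theorem choose_two_int (n : ℕ) : (n : ℤ) * ((n : ℤ) - 1) = 2 * (n.choose 2 : ℤ) := by
  have h := Nat.choose_two_right n
  have h2 : 2 ∣ n * (n - 1) := (Nat.even_mul_pred_self n).two_dvd
  have h3 : 2 * n.choose 2 = n * (n - 1) := by rw [h]; exact Nat.mul_div_cancel' h2
  rcases Nat.eq_zero_or_pos n with h0 | h0
  · subst h0; simp
  · have h4 : (2 * (n.choose 2 : ℤ)) = ((n * (n - 1) : ℕ) : ℤ) := by exact_mod_cast h3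
    rw [h4]
    push_cast [Nat.cast_sub h0]
    ring

/-! ### profiles -/

/-- there is a profile of length `v` all of whose totals are at least `m` -/
def Good (R : Set (Finset (X × X))) (v m : ℕ) : Prop :=
  ∃ π : Fin v → Finset (X × X), (∀ i, π i ∈ R) ∧ ∀ s ∈ R, m ≤ Delta π s

theorem good_add {R : Set (Finset (X × X))} {v w m k : ℕ} (h1 : Good R v m) (h2 : Good R w k) :
    Good R (v + w) (m + k) := by
  obtain ⟨π, hπ, hm⟩ := h1
  obtain ⟨ρ, hρ, hk⟩ := h2
  refine ⟨Fin.append π ρ, ?_, ?_⟩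
  · intro i
    refine Fin.addCases (fun j => ?_) (fun j => ?_) i
    · rw [Fin.append_left]; exact hπ j
    · rw [Fin.append_right]; exact hρ j
  · intro s hs
    have : Delta (Fin.append π ρ) s = Delta π s + Delta ρ s := by
      unfold Delta
      rw [Fin.sum_univ_add]
      simp [Fin.append_left, Fin.append_right]
    rw [this]
    exact Nat.add_le_add (hm s hs) (hk s hs)

theorem delta_le (r s : Finset (X × X)) : delta r s ≤ Fintype.card (X × X) := by
  unfold delta
  rw [← card_univ]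
  exact card_le_card (subset_univ _)

theorem bddAbove (R : Set (Finset (X × X))) (hR : R.Nonempty) (v : ℕ) :
    BddAbove {m | ∃ π : Fin v → Finset (X × X), (∀ i, π i ∈ R) ∧ ∀ s ∈ R, m ≤ Delta π s} := by
  obtain ⟨s, hs⟩ := hR
  refine ⟨v * Fintype.card (X × X), ?_⟩
  rintro m ⟨π, -, hm⟩
  refine (hm s hs).trans ?_
  unfold Delta
  calc ∑ i, delta (π i) s ≤ ∑ _i : Fin v, Fintype.card (X × X) :=
        sum_le_sum fun i _ => delta_le _ _
    _ = v * Fintype.card (X × X) := by simp

theorem le_F {R : Set (Finset (X × X))} (hR : R.Nonempty) {v m : ℕ} (h : Good R v m) :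
    m ≤ F R v := le_csSup (bddAbove R hR v) h

theorem F_good {R : Set (Finset (X × X))} (hR : R.Nonempty) (v : ℕ) : Good R v (F R v) := by
  obtain ⟨s, hs⟩ := hR
  have hne : {m | ∃ π : Fin v → Finset (X × X), (∀ i, π i ∈ R) ∧
      ∀ s ∈ R, m ≤ Delta π s}.Nonempty :=
    ⟨0, fun _ => s, fun _ => hs, fun _ _ => Nat.zero_le _⟩
  exact Nat.sSup_mem hne (bddAbove R ⟨s, hs⟩ v)

/-- linear orders exist, together with their reverse -/
theorem exists_lin : ∃ L L' : Finset (X × X), IsLin L ∧ IsLin L' ∧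
    ∀ x y, sg L' x y = - sg L x y := by
  classical
  let e := Fintype.equivFin X
  refine ⟨univ.filter fun p => e p.1 < e p.2, univ.filter fun p => e p.2 < e p.1, ?_, ?_, ?_⟩
  · refine ⟨⟨?_, ?_⟩, ?_⟩
    · intro a; simp
    · intro a b c h1 h2
      simp only [mem_filter, mem_univ, true_and] at *
      exact lt_trans h1 h2
    · intro a b hab
      simp only [mem_filter, mem_univ, true_and]
      exact lt_or_gt_of_ne fun h => hab (e.injective h)
  · refine ⟨⟨?_, ?_⟩, ?_⟩
    · intro a; simp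
    · intro a b c h1 h2
      simp only [mem_filter, mem_univ, true_and] at *
      exact lt_trans h2 h1
    · intro a b hab
      simp only [mem_filter, mem_univ, true_and]
      exact (lt_or_gt_of_ne fun h => hab (e.injective h)).symm
  · intro x y
    unfold sg
    simp only [mem_filter, mem_univ, true_and]
    ring

/-- a linear order and its reverse: the two distances add up to `2 * C(n,2)` -/
theorem pair_sum {L L' s : Finset (X × X)} (hL : IsLin L) (hL' : IsLin L')
    (hrev : ∀ x y, sg L' x y = - sg L x y) (hs : IsPO s) :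
    delta L s + delta L' s = 2 * (Fintype.card X).choose 2 := by
  have h1 := two_delta hL.1 hs
  have h2 := two_delta hL'.1 hs
  have h3 : ∑ x, ∑ y, |sg L x y - sg s x y| + ∑ x, ∑ y, |sg L' x y - sg s x y| =
      ∑ x : X, ∑ y : X, (if x = y then 0 else (2 : ℤ)) := by
    rw [← Finset.sum_add_distrib]
    refine Finset.sum_congr rfl fun x _ => ?_
    rw [← Finset.sum_add_distrib]
    refine Finset.sum_congr rfl fun y _ => ?_
    by_cases hxy : x = y
    · subst hxy; simp [sg_diag]
    · rw [if_neg hxy, hrev]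
      rcases sg_lin hL hxy with h | h <;> rcases sg_val hs x y with h' | h' | h' <;>
        rw [h, h'] <;> norm_num
  rw [sum_offdiag, choose_two_int] at h3
  have : (2 : ℤ) * ((delta L s + delta L' s : ℕ) : ℤ) =
      2 * ((2 * (Fintype.card X).choose 2 : ℕ) : ℤ) := by
    push_cast
    linarith
  exact_mod_cast mul_left_cancel₀ (by norm_num) this

theorem delta_comm (r s : Finset (X × X)) : delta r s = delta s r := by
  unfold delta; rw [symmDiff_comm]

theorem good_two {R : Set (Finset (X × X))} (hlin : ∀ r, IsLin r → r ∈ R)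
    (hpo : ∀ r ∈ R, IsPO r) : Good R 2 (2 * (Fintype.card X).choose 2) := by
  obtain ⟨L, L', hL, hL', hrev⟩ := exists_lin (X := X)
  refine ⟨![L, L'], ?_, ?_⟩
  · intro i
    fin_cases i
    · exact hlin _ hL
    · exact hlin _ hL'
  · intro s hs
    have : Delta ![L, L'] s = delta L s + delta L' s := by
      unfold Delta
      rw [Fin.sum_univ_two]
      rfl
    rw [this, pair_sum hL hL' hrev (hpo s hs)]

theorem good_zero {R : Set (Finset (X × X))} : Good R 0 0 :=
  ⟨fun i => i.elim0, fun i => i.elim0, fun _ _ => Nat.zero_le _⟩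

theorem good_one {R : Set (Finset (X × X))} (hlin : ∀ r, IsLin r → r ∈ R) : Good R 1 0 := by
  obtain ⟨L, L', hL, hL', hrev⟩ := exists_lin (X := X)
  exact ⟨fun _ => L, fun _ => hlin _ hL, fun _ _ => Nat.zero_le _⟩

theorem good_even {R : Set (Finset (X × X))} (hlin : ∀ r, IsLin r → r ∈ R)
    (hpo : ∀ r ∈ R, IsPO r) (p : ℕ) : Good R (2 * p) (2 * p * (Fintype.card X).choose 2) := by
  induction p with
  | zero => simpa using good_zero (R := R)
  | succ p ih =>
    have h := good_add ih (good_two hlin hpo)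
    have e1 : 2 * p + 2 = 2 * (p + 1) := by ring
    have e2 : 2 * p * (Fintype.card X).choose 2 + 2 * (Fintype.card X).choose 2 =
      2 * (p + 1) * (Fintype.card X).choose 2 := by ring
    rw [e1, e2] at h
    exact h

/-- upper bound `v * C(n,2)` -/
theorem upper_all {R : Set (Finset (X × X))} (hlin : ∀ r, IsLin r → r ∈ R)
    (hpo : ∀ r ∈ R, IsPO r) {v m : ℕ} (h : Good R v m) :
    m ≤ v * (Fintype.card X).choose 2 := by
  obtain ⟨π, hπ, hm⟩ := h
  obtain ⟨L, L', hL, hL', hrev⟩ := exists_lin (X := X)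
  have h1 := hm L (hlin _ hL)
  have h2 := hm L' (hlin _ hL')
  have h3 : Delta π L + Delta π L' = ∑ _i : Fin v, 2 * (Fintype.card X).choose 2 := by
    unfold Delta
    rw [← Finset.sum_add_distrib]
    refine Finset.sum_congr rfl fun i _ => ?_
    rw [delta_comm, delta_comm (π i) L']
    exact pair_sum hL hL' hrev (hpo _ (hπ i))
  rw [Finset.sum_const, card_univ, Fintype.card_fin, smul_eq_mul] at h3
  have : 2 * m ≤ 2 * (v * (Fintype.card X).choose 2) := by
    calc 2 * m ≤ Delta π L + Delta π L' := by omega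
      _ = 2 * (v * (Fintype.card X).choose 2) := by rw [h3]; ring
  omega

/-- pairwise sum of `v` signs, `v` odd -/
theorem signs_odd {v : ℕ} (hv : Odd v) (t : Fin v → ℤ)
    (ht : ∀ i, t i = 1 ∨ t i = 0 ∨ t i = -1) :
    ∑ i, ∑ j, |t i - t j| ≤ (v : ℤ) ^ 2 - 1 := by
  have h1 : ∑ i, ∑ j, |t i - t j| =
      (v : ℤ) ^ 2 - (∑ i, t i) ^ 2 - (∑ i, (1 - t i ^ 2)) ^ 2 := by
    have e1 : ∀ i j, |t i - t j| = 1 - t i * t j - (1 - t i ^ 2) * (1 - t j ^ 2) :=
      fun i j => abs_formula (ht i) (ht j)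
    simp_rw [e1, Finset.sum_sub_distrib, ← Finset.mul_sum, ← Finset.sum_mul]
    simp
    ring
  rw [h1]
  set A := ∑ i, t i with hA
  set C := ∑ i, (1 - t i ^ 2) with hC
  have h2 : A + C = (v : ℤ) - 2 * ∑ i, (if t i = -1 then 1 else 0) := by
    rw [hA, hC, ← Finset.sum_add_distrib, Finset.mul_sum]
    have : (v : ℤ) = ∑ _i : Fin v, (1 : ℤ) := by simp
    rw [this, ← Finset.sum_sub_distrib]
    refine Finset.sum_congr rfl fun i _ => ?_
    rcases ht i with h | h | h <;> rw [h] <;> norm_num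
  by_contra hcon
  push Not at hcon
  have h3 : A ^ 2 + C ^ 2 < 1 := by linarith
  have hA0 : A = 0 := by nlinarith [sq_nonneg A, sq_nonneg C]
  have hC0 : C = 0 := by nlinarith [sq_nonneg A, sq_nonneg C]
  rw [hA0, hC0] at h2
  obtain ⟨w, hw⟩ := hv
  have : (v : ℤ) = 2 * w + 1 := by exact_mod_cast hw
  omega

/-- upper bound for odd `v` -/
theorem upper_odd {R : Set (Finset (X × X))} (hpo : ∀ r ∈ R, IsPO r) {v m : ℕ} (hv : Odd v)
    (h : Good R v m) : v * m ≤ (v ^ 2 - 1) * (Fintype.card X).choose 2 := by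
  obtain ⟨π, hπ, hm⟩ := h
  have h1 : (v : ℤ) * m ≤ ∑ i, (Delta π (π i) : ℤ) := by
    calc (v : ℤ) * m = ∑ _i : Fin v, (m : ℤ) := by simp
      _ ≤ ∑ i, (Delta π (π i) : ℤ) :=
        Finset.sum_le_sum fun i _ => by exact_mod_cast hm _ (hπ i)
  have h2 : 2 * ∑ i, (Delta π (π i) : ℤ) =
      ∑ x, ∑ y, ∑ i, ∑ j, |sg (π j) x y - sg (π i) x y| := by
    have e1 : ∀ i, 2 * (Delta π (π i) : ℤ) =
        ∑ j, ∑ x, ∑ y, |sg (π j) x y - sg (π i) x y| := by
      intro i
      unfold Delta
      push_cast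
      rw [Finset.mul_sum]
      exact Finset.sum_congr rfl fun j _ => two_delta (hpo _ (hπ j)) (hpo _ (hπ i))
    rw [Finset.mul_sum, Finset.sum_congr rfl fun i _ => e1 i]
    calc ∑ i, ∑ j, ∑ x, ∑ y, |sg (π j) x y - sg (π i) x y|
        = ∑ i, ∑ x, ∑ j, ∑ y, |sg (π j) x y - sg (π i) x y| :=
          Finset.sum_congr rfl fun i _ => Finset.sum_comm
      _ = ∑ x, ∑ i, ∑ j, ∑ y, |sg (π j) x y - sg (π i) x y| := Finset.sum_comm
      _ = ∑ x, ∑ i, ∑ y, ∑ j, |sg (π j) x y - sg (π i) x y| :=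
          Finset.sum_congr rfl fun x _ => Finset.sum_congr rfl fun i _ => Finset.sum_comm
      _ = ∑ x, ∑ y, ∑ i, ∑ j, |sg (π j) x y - sg (π i) x y| :=
          Finset.sum_congr rfl fun x _ => Finset.sum_comm
  have h3 : ∑ x, ∑ y, ∑ i, ∑ j, |sg (π j) x y - sg (π i) x y| ≤
      ∑ x : X, ∑ y : X, (if x = y then 0 else ((v : ℤ) ^ 2 - 1)) := by
    refine Finset.sum_le_sum fun x _ => Finset.sum_le_sum fun y _ => ?_
    by_cases hxy : x = y
    · subst hxy; simp [sg_diag]
    · rw [if_neg hxy, Finset.sum_comm]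
      exact signs_odd hv (fun i => sg (π i) x y) fun i => sg_val (hpo _ (hπ i)) x y
  rw [sum_offdiag, choose_two_int] at h3
  have h4 : (v : ℤ) * m ≤ ((v : ℤ) ^ 2 - 1) * ((Fintype.card X).choose 2 : ℤ) := by linarith
  have hv1 : 1 ≤ v ^ 2 := Nat.one_le_pow _ _ hv.pos
  zify [hv1]
  exact h4

end Pool.Agent.V11145.Disp
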