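import Mathlib
import Pool.Agent.V11145.Disp

/-! Three voters: block recursion. -/

namespace Pool.Agent.V11145.Disp

open Finset

variable {X : Type*} [Fintype X] [DecidableEq X]

/-- the relation of a ranking function -/
def rel (f : X → ℕ) : Finset (X × X) := univ.filter fun p => f p.1 < f p.2

theorem rel_lin {f : X → ℕ} (hf : Function.Injective f) : IsLin (rel f) := by
  refine ⟨⟨?_, ?_⟩, ?_⟩
  · intro a; simp [rel]
  · intro a b c h1 h2
    simp only [rel, mem_filter, mem_univ, true_and] at *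
    exact lt_trans h1 h2
  · intro a b hab
    simp only [rel, mem_filter, mem_univ, true_and]
    exact lt_or_gt_of_ne fun h => hab (hf h)

theorem sg_rel (f : X → ℕ) (x y : X) :
    sg (rel f) x y = (if f x < f y then 1 else 0) - (if f y < f x then 1 else 0) := by
  unfold sg rel
  simp

/-- total margin of three rankings -/
def Mg (f : Fin 3 → X → ℕ) (x y : X) : ℤ := ∑ i, sg (rel (f i)) x y

/-- margin score of `s` on the block `B` -/
def Qs (f : Fin 3 → X → ℕ) (s : Finset (X × X)) (B : Finset X) : ℤ :=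
  ∑ x ∈ B, ∑ y ∈ B, Mg f x y * sg s x y

omit [Fintype X] in
/-- the triple inequality -/
theorem triple {s : Finset (X × X)} (hs : IsPO s) (x y z : X) :
    sg s x y + sg s y z + sg s z x ≤ 1 := by
  have a1 : ∀ a b, ¬ ((a, b) ∈ s ∧ (b, a) ∈ s) := fun a b h => hs.1 a (hs.2 a b a h.1 h.2)
  have b1 := hs.2 x y z
  have b2 := hs.2 y z x
  have b3 := hs.2 z x y
  have c1 := a1 x y
  have c2 := a1 y z
  have c3 := a1 z x
  unfold sg
  by_cases h1 : (x, y) ∈ s <;> by_cases h2 : (y, x) ∈ s <;>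
    by_cases h3 : (y, z) ∈ s <;> by_cases h4 : (z, y) ∈ s <;>
    by_cases h5 : (z, x) ∈ s <;> by_cases h6 : (x, z) ∈ s <;>
    simp_all

/-- sum of the signs of `s` from `A` to `B` -/
def Us (s : Finset (X × X)) (A B : Finset X) : ℤ := ∑ x ∈ A, ∑ y ∈ B, sg s x y

omit [Fintype X] in
theorem Us_swap (s : Finset (X × X)) (A B : Finset X) : Us s B A = - Us s A B := by
  unfold Us
  rw [Finset.sum_comm, ← Finset.sum_neg_distrib]
  refine Finset.sum_congr rfl fun x _ => ?_
  rw [← Finset.sum_neg_distrib]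
  exact Finset.sum_congr rfl fun y _ => sg_swap _ _ _

omit [Fintype X] in
theorem Us_le {s : Finset (X × X)} (hs : IsPO s) (A B : Finset X) :
    Us s A B ≤ (A.card : ℤ) * B.card := by
  unfold Us
  calc ∑ x ∈ A, ∑ y ∈ B, sg s x y ≤ ∑ x ∈ A, ∑ y ∈ B, (1 : ℤ) := by
        refine Finset.sum_le_sum fun x _ => Finset.sum_le_sum fun y _ => ?_
        rcases sg_val hs x y with h | h | h <;> rw [h] <;> norm_num
    _ = (A.card : ℤ) * B.card := by simp

omit [Fintype X] in
theorem Us_ge {s : Finset (X × X)} (hs : IsPO s) (A B : Finset X) :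
    - ((A.card : ℤ) * B.card) ≤ Us s A B := by
  have := Us_le hs B A
  rw [Us_swap] at this
  linarith [mul_comm (A.card : ℤ) (B.card : ℤ)]

omit [Fintype X] in
/-- the weighted triple inequality -/
theorem Us_triple {s : Finset (X × X)} (hs : IsPO s) (A B C : Finset X) :
    (C.card : ℤ) * Us s A B + (A.card : ℤ) * Us s B C + (B.card : ℤ) * Us s C A ≤
      (A.card : ℤ) * B.card * C.card := by
  have h : ∑ x ∈ A, ∑ y ∈ B, ∑ z ∈ C, (sg s x y + sg s y z + sg s z x) ≤
      ∑ x ∈ A, ∑ y ∈ B, ∑ z ∈ C, (1 : ℤ) :=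
    Finset.sum_le_sum fun x _ => Finset.sum_le_sum fun y _ =>
      Finset.sum_le_sum fun z _ => triple hs x y z
  have e1 : ∑ x ∈ A, ∑ y ∈ B, ∑ z ∈ C, sg s x y = (C.card : ℤ) * Us s A B := by
    unfold Us
    simp only [Finset.sum_const, nsmul_eq_mul, Finset.mul_sum]
  have e2 : ∑ x ∈ A, ∑ y ∈ B, ∑ z ∈ C, sg s y z = (A.card : ℤ) * Us s B C := by
    unfold Us
    simp only [Finset.sum_const, nsmul_eq_mul]
  have e3 : ∑ x ∈ A, ∑ y ∈ B, ∑ z ∈ C, sg s z x = (B.card : ℤ) * Us s C A := by
    unfold Us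
    rw [Finset.sum_comm]
    simp only [Finset.sum_const, nsmul_eq_mul]
    rw [Finset.sum_comm]
  have e4 : ∑ x ∈ A, ∑ y ∈ B, ∑ z ∈ C, (1 : ℤ) = (A.card : ℤ) * B.card * C.card := by
    simp only [Finset.sum_const, nsmul_eq_mul]
    ring
  rw [e4] at h
  simp only [Finset.sum_add_distrib] at h
  rw [e1, e2, e3] at h
  exact h

/-- combining three blocks -/
theorem combine (A B C : Finset X) (hAB : Disjoint A B) (hAC : Disjoint A C)
    (hBC : Disjoint B C) (fA fB fC : Fin 3 → X → ℕ)
    (iA : ∀ i, Set.InjOn (fA i) A) (iB : ∀ i, Set.InjOn (fB i) B)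
    (iC : ∀ i, Set.InjOn (fC i) C) :
    ∃ f : Fin 3 → X → ℕ, (∀ i, Set.InjOn (f i) (A ∪ B ∪ C : Finset X)) ∧
      ∀ s : Finset (X × X), Qs f s (A ∪ B ∪ C) = Qs fA s A + Qs fB s B + Qs fC s C +
        2 * (Us s A B + Us s B C + Us s C A) := by
  classical
  -- a common bound
  obtain ⟨N, hNA, hNB, hNC⟩ : ∃ N : ℕ, (∀ i x, fA i x < N) ∧ (∀ i x, fB i x < N) ∧
      (∀ i x, fC i x < N) := by
    refine ⟨1 + ∑ i, ∑ x, (fA i x + fB i x + fC i x), ?_, ?_, ?_⟩ <;>
    · intro i x
      have h1 : fA i x + fB i x + fC i x ≤ ∑ x, (fA i x + fB i x + fC i x) :=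
        Finset.single_le_sum (f := fun x => fA i x + fB i x + fC i x)
          (fun _ _ => Nat.zero_le _) (mem_univ x)
      have h2 : ∑ x, (fA i x + fB i x + fC i x) ≤ ∑ i, ∑ x, (fA i x + fB i x + fC i x) :=
        Finset.single_le_sum (f := fun i => ∑ x, (fA i x + fB i x + fC i x))
          (fun _ _ => Nat.zero_le _) (mem_univ i)
      omega
  -- ranks of the blocks for the three voters
  let rA : Fin 3 → ℕ := ![0, 2, 1]
  let rB : Fin 3 → ℕ := ![1, 0, 2]
  let rC : Fin 3 → ℕ := ![2, 1, 0]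
  let f : Fin 3 → X → ℕ := fun i x =>
    if x ∈ A then rA i * N + fA i x else if x ∈ B then rB i * N + fB i x
      else rC i * N + fC i x
  have fa : ∀ i, ∀ x ∈ A, f i x = rA i * N + fA i x := by
    intro i x hx; simp only [f]; rw [if_pos hx]
  have fb : ∀ i, ∀ x ∈ B, f i x = rB i * N + fB i x := by
    intro i x hx; simp only [f]
    rw [if_neg (fun h => (Finset.disjoint_left.mp hAB h) hx), if_pos hx]
  have fc : ∀ i, ∀ x ∈ C, f i x = rC i * N + fC i x := by
    intro i x hx; simp only [f]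
    rw [if_neg (fun h => (Finset.disjoint_left.mp hAC h) hx),
      if_neg (fun h => (Finset.disjoint_left.mp hBC h) hx)]
  have key : ∀ p q a b : ℕ, a < N → b < N → p ≠ q →
      ((if p * N + a < q * N + b then (1 : ℤ) else 0) -
        (if q * N + b < p * N + a then (1 : ℤ) else 0)) = if p < q then 1 else -1 := by
    intro p q a b ha hb hpq
    rcases lt_or_gt_of_ne hpq with h | h
    · have : p * N + a < q * N + b := by
        have : (p + 1) * N ≤ q * N := Nat.mul_le_mul_right _ h
        nlinarith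
      rw [if_pos this, if_neg (by omega), if_pos h]; norm_num
    · have : q * N + b < p * N + a := by
        have : (q + 1) * N ≤ p * N := Nat.mul_le_mul_right _ h
        nlinarith
      rw [if_neg (by omega), if_pos this, if_neg (by omega)]; norm_num
  have mAA : ∀ x ∈ A, ∀ y ∈ A, Mg f x y = Mg fA x y := by
    intro x hx y hy
    unfold Mg
    refine Finset.sum_congr rfl fun i _ => ?_
    rw [sg_rel, sg_rel, fa i x hx, fa i y hy]
    simp only [Nat.add_lt_add_iff_left]
  have mBB : ∀ x ∈ B, ∀ y ∈ B, Mg f x y = Mg fB x y := by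
    intro x hx y hy
    unfold Mg
    refine Finset.sum_congr rfl fun i _ => ?_
    rw [sg_rel, sg_rel, fb i x hx, fb i y hy]
    simp only [Nat.add_lt_add_iff_left]
  have mCC : ∀ x ∈ C, ∀ y ∈ C, Mg f x y = Mg fC x y := by
    intro x hx y hy
    unfold Mg
    refine Finset.sum_congr rfl fun i _ => ?_
    rw [sg_rel, sg_rel, fc i x hx, fc i y hy]
    simp only [Nat.add_lt_add_iff_left]
  have mAB : ∀ x ∈ A, ∀ y ∈ B, Mg f x y = 1 := by
    intro x hx y hy
    unfold Mg
    have : ∀ i, sg (rel (f i)) x y = if rA i < rB i then 1 else -1 := by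
      intro i
      rw [sg_rel, fa i x hx, fb i y hy]
      exact key _ _ _ _ (hNA i x) (hNB i y) (by fin_cases i <;> simp [rA, rB])
    rw [Finset.sum_congr rfl fun i _ => this i, Fin.sum_univ_three]
    simp [rA, rB]
  have mBC : ∀ x ∈ B, ∀ y ∈ C, Mg f x y = 1 := by
    intro x hx y hy
    unfold Mg
    have : ∀ i, sg (rel (f i)) x y = if rB i < rC i then 1 else -1 := by
      intro i
      rw [sg_rel, fb i x hx, fc i y hy]
      exact key _ _ _ _ (hNB i x) (hNC i y) (by fin_cases i <;> simp [rB, rC])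
    rw [Finset.sum_congr rfl fun i _ => this i, Fin.sum_univ_three]
    simp [rB, rC]
  have mCA : ∀ x ∈ C, ∀ y ∈ A, Mg f x y = 1 := by
    intro x hx y hy
    unfold Mg
    have : ∀ i, sg (rel (f i)) x y = if rC i < rA i then 1 else -1 := by
      intro i
      rw [sg_rel, fc i x hx, fa i y hy]
      exact key _ _ _ _ (hNC i x) (hNA i y) (by fin_cases i <;> simp [rC, rA])
    rw [Finset.sum_congr rfl fun i _ => this i, Fin.sum_univ_three]
    simp [rC, rA]
  have msw : ∀ x y, Mg f y x = - Mg f x y := by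
    intro x y
    unfold Mg
    rw [← Finset.sum_neg_distrib]
    exact Finset.sum_congr rfl fun i _ => sg_swap _ _ _
  refine ⟨f, ?_, ?_⟩
  · intro i x hx y hy hxy
    simp only [Finset.coe_union, Set.mem_union, Finset.mem_coe] at hx hy
    have neq : ∀ p q a b : ℕ, a < N → b < N → p ≠ q → p * N + a ≠ q * N + b := by
      intro p q a b ha hb hpq h
      have := key p q a b ha hb hpq
      rw [h] at this
      split_ifs at this <;> omega
    rcases hx with (hx | hx) | hx <;> rcases hy with (hy | hy) | hy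
    · rw [fa i x hx, fa i y hy] at hxy
      exact iA i hx hy (by omega)
    · rw [fa i x hx, fb i y hy] at hxy
      exact absurd hxy (neq _ _ _ _ (hNA i x) (hNB i y) (by fin_cases i <;> simp [rA, rB]))
    · rw [fa i x hx, fc i y hy] at hxy
      exact absurd hxy (neq _ _ _ _ (hNA i x) (hNC i y) (by fin_cases i <;> simp [rA, rC]))
    · rw [fb i x hx, fa i y hy] at hxy
      exact absurd hxy (neq _ _ _ _ (hNB i x) (hNA i y) (by fin_cases i <;> simp [rA, rB]))
    · rw [fb i x hx, fb i y hy] at hxy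
      exact iB i hx hy (by omega)
    · rw [fb i x hx, fc i y hy] at hxy
      exact absurd hxy (neq _ _ _ _ (hNB i x) (hNC i y) (by fin_cases i <;> simp [rB, rC]))
    · rw [fc i x hx, fa i y hy] at hxy
      exact absurd hxy (neq _ _ _ _ (hNC i x) (hNA i y) (by fin_cases i <;> simp [rA, rC]))
    · rw [fc i x hx, fb i y hy] at hxy
      exact absurd hxy (neq _ _ _ _ (hNC i x) (hNB i y) (by fin_cases i <;> simp [rB, rC]))
    · rw [fc i x hx, fc i y hy] at hxy
      exact iC i hx hy (by omega)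
  · intro s
    have dABC : Disjoint (A ∪ B) C := Finset.disjoint_union_left.mpr ⟨hAC, hBC⟩
    have blk : ∀ P Q : Finset X, ∀ c : ℤ, (∀ x ∈ P, ∀ y ∈ Q, Mg f x y = c) →
        ∑ x ∈ P, ∑ y ∈ Q, Mg f x y * sg s x y = c * Us s P Q := by
      intro P Q c h
      unfold Us
      rw [Finset.mul_sum]
      refine Finset.sum_congr rfl fun x hx => ?_
      rw [Finset.mul_sum]
      exact Finset.sum_congr rfl fun y hy => by rw [h x hx y hy]
    have dia : ∀ (P : Finset X) (g : Fin 3 → X → ℕ),
        (∀ x ∈ P, ∀ y ∈ P, Mg f x y = Mg g x y) →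
        ∑ x ∈ P, ∑ y ∈ P, Mg f x y * sg s x y = Qs g s P := by
      intro P g h
      unfold Qs
      refine Finset.sum_congr rfl fun x hx => ?_
      exact Finset.sum_congr rfl fun y hy => by rw [h x hx y hy]
    unfold Qs
    simp only [Finset.sum_union dABC, Finset.sum_union hAB, Finset.sum_add_distrib]
    rw [dia A fA mAA, dia B fB mBB, dia C fC mCC, blk A B 1 mAB, blk B C 1 mBC, blk C A 1 mCA,
      blk B A (-1) (fun x hx y hy => by rw [msw, mAB y hy x hx]),
      blk C B (-1) (fun x hx y hy => by rw [msw, mBC y hy x hx]),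
      blk A C (-1) (fun x hx y hy => by rw [msw, mCA y hy x hx]),
      Us_swap s A B, Us_swap s B C, Us_swap s C A]
    unfold Qs
    ring

end Pool.Agent.V11145.Disp
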