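import Mathlib
import Pool.Agent.V11145.Disp2

/-! Three voters: the recursion and its consequences. -/

namespace Pool.Agent.V11145.Disp

open Finset

variable {X : Type*} [Fintype X] [DecidableEq X]

omit [Fintype X] [DecidableEq X] in
theorem split_three [DecidableEq X] (B : Finset X) (a b c : ℕ) (h : B.card = a + b + c) :
    ∃ P Q S : Finset X, P ∪ Q ∪ S = B ∧ Disjoint P Q ∧ Disjoint P S ∧ Disjoint Q S ∧
      P.card = a ∧ Q.card = b ∧ S.card = c := by
  obtain ⟨P, hP, hPc⟩ := Finset.exists_subset_card_eq (s := B) (n := a) (by omega)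
  have h1 : (B \ P).card = b + c := by
    rw [Finset.card_sdiff_of_subset hP]; omega
  obtain ⟨Q, hQ, hQc⟩ := Finset.exists_subset_card_eq (s := B \ P) (n := b) (by omega)
  refine ⟨P, Q, (B \ P) \ Q, ?_, ?_, ?_, ?_, hPc, hQc, ?_⟩
  · ext x
    have h2 := @hP x
    have h3 := @hQ x
    simp only [mem_union, mem_sdiff] at *
    tauto
  · rw [Finset.disjoint_left]
    intro x hx hq
    exact (mem_sdiff.mp (hQ hq)).2 hx
  · rw [Finset.disjoint_left]
    intro x hx hq
    simp only [mem_sdiff] at hq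
    exact hq.1.2 hx
  · rw [Finset.disjoint_left]
    intro x hx hq
    simp only [mem_sdiff] at hq
    exact hq.2 hx
  · rw [Finset.card_sdiff_of_subset hQ]; omega

theorem main_rec (G : ℕ → ℕ) (h0 : ∀ m, 1 ≤ m → 3 * G m ≤ G (3 * m))
    (h1 : ∀ m, 1 ≤ m → G (m + 1) + 2 * G m + 4 * m ≤ G (3 * m + 1))
    (h2 : ∀ m, 2 * G (m + 1) + G m + 2 * (m + 1) ≤ G (3 * m + 2)) :
    ∀ n, ∀ B : Finset X, B.card = n → ∃ f : Fin 3 → X → ℕ,
      (∀ i, Set.InjOn (f i) B) ∧
      ∀ s : Finset (X × X), IsPO s → 3 * Qs f s B ≤ (n : ℤ) * ((n : ℤ) - 1) + 2 * (G n : ℤ) := by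
  intro n
  induction n using Nat.strong_induction_on with
  | _ n ih =>
  intro B hB
  rcases Nat.lt_or_ge n 2 with hn | hn
  · refine ⟨fun _ _ => 0, ?_, ?_⟩
    · intro i x hx y hy _
      have : B.card ≤ 1 := by omega
      exact Finset.card_le_one.mp this x hx y hy
    · intro s hs
      have : Qs (fun _ _ => 0) s B = 0 := by
        unfold Qs Mg
        refine Finset.sum_eq_zero fun x _ => Finset.sum_eq_zero fun y _ => ?_
        simp [sg_rel]
      rw [this]
      have h3 : (0 : ℤ) ≤ (n : ℤ) * ((n : ℤ) - 1) := by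
        interval_cases n <;> norm_num
      positivity
  · obtain ⟨m, hm⟩ : ∃ m, m = n / 3 := ⟨_, rfl⟩
    have hr : n = 3 * m ∨ n = 3 * m + 1 ∨ n = 3 * m + 2 := by omega
    rcases hr with hr | hr | hr
    · -- `n = 3m`
      have hm1 : 1 ≤ m := by omega
      obtain ⟨P, Q, S, hU, d1, d2, d3, c1, c2, c3⟩ := split_three B m m m (by omega)
      obtain ⟨fP, iP, qP⟩ := ih m (by omega) P c1
      obtain ⟨fQ, iQ, qQ⟩ := ih m (by omega) Q c2
      obtain ⟨fS, iS, qS⟩ := ih m (by omega) S c3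
      obtain ⟨f, hf, hq⟩ := combine P Q S d1 d2 d3 fP fQ fS iP iQ iS
      rw [hU] at hf hq
      refine ⟨f, hf, fun s hs => ?_⟩
      have e1 := qP s hs
      have e2 := qQ s hs
      have e3 := qS s hs
      have e4 := Us_triple hs P Q S
      rw [c1, c2, c3] at e4
      have hm0 : (0 : ℤ) < m := by exact_mod_cast hm1
      have e5 : Us s P Q + Us s Q S + Us s S P ≤ (m : ℤ) * m := by
        by_contra hcon
        push Not at hcon
        nlinarith
      have e6 : (3 * (G m : ℤ)) ≤ (G (3 * m) : ℤ) := by exact_mod_cast h0 m hm1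
      rw [hq s, hr]
      push_cast
      nlinarith
    · -- `n = 3m+1`
      have hm1 : 1 ≤ m := by omega
      obtain ⟨P, Q, S, hU, d1, d2, d3, c1, c2, c3⟩ := split_three B (m + 1) m m (by omega)
      obtain ⟨fP, iP, qP⟩ := ih (m + 1) (by omega) P c1
      obtain ⟨fQ, iQ, qQ⟩ := ih m (by omega) Q c2
      obtain ⟨fS, iS, qS⟩ := ih m (by omega) S c3
      obtain ⟨f, hf, hq⟩ := combine P Q S d1 d2 d3 fP fQ fS iP iQ iS
      rw [hU] at hf hq
      refine ⟨f, hf, fun s hs => ?_⟩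
      have e1 := qP s hs
      have e2 := qQ s hs
      have e3 := qS s hs
      have e4 := Us_triple hs P Q S
      have e4' := Us_ge hs Q S
      rw [c1, c2, c3] at e4
      rw [c2, c3] at e4'
      push_cast at e1 e4
      have hm0 : (0 : ℤ) < m := by exact_mod_cast hm1
      have e5 : Us s P Q + Us s Q S + Us s S P ≤ (m : ℤ) * m + 2 * m := by
        by_contra hcon
        push Not at hcon
        nlinarith
      have e6 : ((G (m + 1) : ℤ) + 2 * (G m : ℤ) + 4 * m) ≤ (G (3 * m + 1) : ℤ) := by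
        exact_mod_cast h1 m hm1
      rw [hq s, hr]
      push_cast
      nlinarith
    · -- `n = 3m+2`
      obtain ⟨P, Q, S, hU, d1, d2, d3, c1, c2, c3⟩ := split_three B (m + 1) (m + 1) m (by omega)
      obtain ⟨fP, iP, qP⟩ := ih (m + 1) (by omega) P c1
      obtain ⟨fQ, iQ, qQ⟩ := ih (m + 1) (by omega) Q c2
      obtain ⟨fS, iS, qS⟩ := ih m (by omega) S c3
      obtain ⟨f, hf, hq⟩ := combine P Q S d1 d2 d3 fP fQ fS iP iQ iS
      rw [hU] at hf hq
      refine ⟨f, hf, fun s hs => ?_⟩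
      have e1 := qP s hs
      have e2 := qQ s hs
      have e3 := qS s hs
      have e4 := Us_triple hs P Q S
      have e4' := Us_le hs P Q
      rw [c1, c2, c3] at e4
      rw [c1, c2] at e4'
      push_cast at e1 e2 e4 e4'
      have hm0 : (0 : ℤ) ≤ m := by positivity
      have e5 : Us s P Q + Us s Q S + Us s S P ≤ ((m : ℤ) + 1) * (m + 1) := by
        by_contra hcon
        push Not at hcon
        nlinarith
      have e6 : (2 * (G (m + 1) : ℤ) + (G m : ℤ) + 2 * (m + 1)) ≤ (G (3 * m + 2) : ℤ) := by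
        exact_mod_cast h2 m
      rw [hq s, hr]
      push_cast
      nlinarith

/-- the error function -/
noncomputable def Er (n : ℕ) : ℕ := by
  classical
  exact if ∃ k, n = 3 ^ k then 0 else 2 * n * Nat.clog 3 n

theorem Er_le (n : ℕ) : Er n ≤ 2 * n * Nat.clog 3 n := by
  unfold Er
  split_ifs
  · exact Nat.zero_le _
  · exact le_rfl

theorem Er_pow (k : ℕ) : Er (3 ^ k) = 0 := by
  unfold Er
  rw [if_pos ⟨k, rfl⟩]

theorem Er_ne {n : ℕ} (h : ∀ k, n ≠ 3 ^ k) : Er n = 2 * n * Nat.clog 3 n := by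
  unfold Er
  rw [if_neg]
  rintro ⟨k, hk⟩
  exact h k hk

theorem Er_0 (m : ℕ) (hm : 1 ≤ m) : 3 * Er m ≤ Er (3 * m) := by
  by_cases h : ∃ k, 3 * m = 3 ^ k
  · obtain ⟨k, hk⟩ := h
    have hk0 : k ≠ 0 := by
      rintro rfl
      rw [pow_zero] at hk
      omega
    obtain ⟨j, rfl⟩ := Nat.exists_eq_succ_of_ne_zero hk0
    have : m = 3 ^ j := by
      rw [Nat.succ_eq_add_one, pow_succ] at hk
      omega
    rw [this, Er_pow]
    simp
  · push Not at h
    rw [Er_ne h]
    have h1 := Er_le m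
    have h2 : Nat.clog 3 (3 * m) = Nat.clog 3 m + 1 := by
      rw [Nat.clog_of_two_le (by norm_num) (by omega)]
      congr 2
      omega
    rw [h2]
    nlinarith

theorem Er_1 (m : ℕ) (hm : 1 ≤ m) : Er (m + 1) + 2 * Er m + 4 * m ≤ Er (3 * m + 1) := by
  have h : ∀ k, 3 * m + 1 ≠ 3 ^ k := by
    intro k hk
    rcases Nat.eq_zero_or_pos k with h0 | h0
    · subst h0; simp at hk; omega
    · obtain ⟨j, rfl⟩ := Nat.exists_eq_succ_of_ne_zero h0.ne'
      rw [Nat.succ_eq_add_one, pow_succ] at hk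
      omega
  rw [Er_ne h]
  have h1 := Er_le m
  have h1' := Er_le (m + 1)
  have h2 : Nat.clog 3 (3 * m + 1) = Nat.clog 3 (m + 1) + 1 := by
    rw [Nat.clog_of_two_le (by norm_num) (by omega)]
    congr 2
    omega
  have h3 : Nat.clog 3 m ≤ Nat.clog 3 (m + 1) := Nat.clog_mono_right 3 (Nat.le_succ m)
  rw [h2]
  have h4 : 2 * m * Nat.clog 3 m ≤ 2 * m * Nat.clog 3 (m + 1) := Nat.mul_le_mul_left _ h3
  nlinarith

theorem Er_2 (m : ℕ) : 2 * Er (m + 1) + Er m + 2 * (m + 1) ≤ Er (3 * m + 2) := by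
  have h : ∀ k, 3 * m + 2 ≠ 3 ^ k := by
    intro k hk
    rcases Nat.eq_zero_or_pos k with h0 | h0
    · subst h0; simp at hk
    · obtain ⟨j, rfl⟩ := Nat.exists_eq_succ_of_ne_zero h0.ne'
      rw [Nat.succ_eq_add_one, pow_succ] at hk
      omega
  rw [Er_ne h]
  have h1 := Er_le m
  have h1' := Er_le (m + 1)
  have h2 : Nat.clog 3 (3 * m + 2) = Nat.clog 3 (m + 1) + 1 := by
    rw [Nat.clog_of_two_le (by norm_num) (by omega)]
    congr 2
    omega
  have h3 : Nat.clog 3 m ≤ Nat.clog 3 (m + 1) := Nat.clog_mono_right 3 (Nat.le_succ m)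
  rw [h2]
  have h4 : 2 * m * Nat.clog 3 m ≤ 2 * m * Nat.clog 3 (m + 1) := Nat.mul_le_mul_left _ h3
  nlinarith

/-- a profile of three linear orders -/
theorem good_three {R : Set (Finset (X × X))} (hlin : ∀ r, IsLin r → r ∈ R)
    (hpo : ∀ r ∈ R, IsPO r) :
    ∃ m, Good R 3 m ∧ 8 * (Fintype.card X).choose 2 ≤ 3 * m + Er (Fintype.card X) := by
  obtain ⟨f, hf, hq⟩ := main_rec (X := X) Er Er_0 Er_1 Er_2 (Fintype.card X) univ card_univ
  have hinj : ∀ i, Function.Injective (f i) := by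
    intro i
    have := hf i
    rw [Finset.coe_univ] at this
    exact Set.injOn_univ.mp this
  have hL : ∀ i, IsLin (rel (f i)) := fun i => rel_lin (hinj i)
  refine ⟨(8 * (Fintype.card X).choose 2 - Er (Fintype.card X) + 2) / 3,
    ⟨fun i => rel (f i), fun i => hlin _ (hL i), ?_⟩, by omega⟩
  intro s hs
  have hs' := hpo s hs
  have h1 : 2 * (Delta (fun i => rel (f i)) s : ℤ) =
      ∑ x : X, ∑ y : X, (if x = y then 0 else (3 : ℤ)) - Qs f s univ := by
    unfold Delta Qs
    push_cast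
    rw [Finset.mul_sum]
    rw [Finset.sum_congr rfl fun i _ => two_delta (hL i).1 hs', Finset.sum_comm,
      ← Finset.sum_sub_distrib]
    refine Finset.sum_congr rfl fun x _ => ?_
    rw [Finset.sum_comm, ← Finset.sum_sub_distrib]
    refine Finset.sum_congr rfl fun y _ => ?_
    by_cases hxy : x = y
    · subst hxy; simp [sg_diag]
    · rw [if_neg hxy]
      have : ∀ i, |sg (rel (f i)) x y - sg s x y| = 1 - sg (rel (f i)) x y * sg s x y := by
        intro i
        rcases sg_lin (hL i) hxy with h | h <;> rcases sg_val hs' x y with h' | h' | h' <;>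
          rw [h, h'] <;> norm_num
      rw [Finset.sum_congr rfl fun i _ => this i, Finset.sum_sub_distrib, ← Finset.sum_mul]
      unfold Mg
      simp
  rw [sum_offdiag, choose_two_int] at h1
  have h2 := hq s hs'
  rw [choose_two_int] at h2
  omega

/-- lower bound for odd `v ≥ 3` -/
theorem lower_odd {R : Set (Finset (X × X))} (hlin : ∀ r, IsLin r → r ∈ R)
    (hpo : ∀ r ∈ R, IsPO r) (p : ℕ) :
    (6 * p + 8) * (Fintype.card X).choose 2 ≤ 3 * F R (2 * p + 3) + Er (Fintype.card X) := by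
  obtain ⟨L, -, hL, -, -⟩ := exists_lin (X := X)
  obtain ⟨m, hm, hm2⟩ := good_three hlin hpo
  have h := le_F ⟨L, hlin _ hL⟩ (good_add (good_even hlin hpo p) hm)
  nlinarith

end Pool.Agent.V11145.Disp
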