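import Mathlib
import Pool.Agent.V11145.Disp3

/-! The four classes of orders, and the matching bound. -/

namespace Pool.Agent.V11145.Disp

open Finset

variable {X : Type*} [Fintype X] [DecidableEq X]

/-- incomparability -/
def Inc (r : Finset (X × X)) (a b : X) : Prop := (a, b) ∉ r ∧ (b, a) ∉ r

/-- weak orders -/
def IsWeak (r : Finset (X × X)) : Prop :=
  IsPO r ∧ ∀ a b c, Inc r a b → Inc r b c → Inc r a c

/-- interval orders -/
def IsInterval (r : Finset (X × X)) : Prop :=
  IsPO r ∧ ∀ a b c d, (a, b) ∈ r → (c, d) ∈ r → (a, d) ∈ r ∨ (c, b) ∈ r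

/-- semiorders -/
def IsSemi (r : Finset (X × X)) : Prop :=
  IsInterval r ∧ ∀ a b c d, (a, b) ∈ r → (b, c) ∈ r → (a, d) ∈ r ∨ (d, c) ∈ r

omit [Fintype X] [DecidableEq X] in
theorem weak_neg {r : Finset (X × X)} (hr : IsWeak r) {a b : X} (h : (a, b) ∈ r) (d : X) :
    (a, d) ∈ r ∨ (d, b) ∈ r := by
  by_contra hcon
  push Not at hcon
  have h1 : Inc r a d := ⟨hcon.1, fun h' => hcon.2 (hr.1.2 d a b h' h)⟩
  have h2 : Inc r d b := ⟨hcon.2, fun h' => hcon.1 (hr.1.2 a b d h h')⟩
  exact (hr.2 a d b h1 h2).1 h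

omit [Fintype X] [DecidableEq X] in
theorem weak_semi {r : Finset (X × X)} (hr : IsWeak r) : IsSemi r := by
  refine ⟨⟨hr.1, ?_⟩, ?_⟩
  · intro a b c d h1 h2
    rcases weak_neg hr h1 d with h | h
    · exact Or.inl h
    · exact Or.inr (hr.1.2 c d b h2 h)
  · intro a b c d h1 h2
    exact weak_neg hr (hr.1.2 a b c h1 h2) d

omit [Fintype X] [DecidableEq X] in
theorem lin_weak {r : Finset (X × X)} (hr : IsLin r) : IsWeak r := by
  have h : ∀ a b, Inc r a b → a = b := by
    intro a b h
    by_contra hab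
    rcases hr.2 a b hab with h' | h'
    · exact h.1 h'
    · exact h.2 h'
  refine ⟨hr.1, ?_⟩
  intro a b c h1 h2
  rw [h a b h1]
  exact h2

/-- the weak order with classes `c` and orientation `M` inside the classes -/
def Wk (M : X → X → ℤ) (c : X → ℕ) : Finset (X × X) := by
  classical
  exact univ.filter fun p => c p.1 < c p.2 ∨ (c p.1 = c p.2 ∧ 0 < M p.1 p.2)

omit [DecidableEq X] in
theorem mem_Wk (M : X → X → ℤ) (c : X → ℕ) (x y : X) :
    (x, y) ∈ Wk M c ↔ c x < c y ∨ (c x = c y ∧ 0 < M x y) := by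
  unfold Wk
  simp

omit [DecidableEq X] in
theorem Wk_weak {M : X → X → ℤ} (hM : ∀ x y, M y x = - M x y) {c : X → ℕ}
    (hc : ∀ x y z, c x = c y → c y = c z → x = y ∨ y = z ∨ x = z) : IsWeak (Wk M c) := by
  have hd : ∀ x, M x x = 0 := by
    intro x
    have := hM x x
    omega
  refine ⟨⟨?_, ?_⟩, ?_⟩
  · intro a h
    rw [mem_Wk] at h
    rcases h with h | h
    · exact lt_irrefl _ h
    · have := hd a
      omega
  · intro a b d h1 h2
    rw [mem_Wk] at *
    rcases h1 with h1 | h1 <;> rcases h2 with h2 | h2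
    · exact Or.inl (h1.trans h2)
    · exact Or.inl (h2.1 ▸ h1)
    · exact Or.inl (h1.1 ▸ h2)
    · exfalso
      rcases hc a b d h1.1 h2.1 with h | h | h
      · subst h; have := hd a; omega
      · subst h; have := hd b; omega
      · subst h
        have := hM a b
        omega
  · intro a b d h1 h2
    unfold Inc at *
    simp only [mem_Wk, not_or, not_and, not_lt] at *
    have e1 : c a = c b := by omega
    have e2 : c b = c d := by omega
    have m1 : M a b = 0 := by
      have := h1.1.2 e1
      have := h1.2.2 e1.symm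
      have := hM a b
      omega
    have m2 : M b d = 0 := by
      have := h2.1.2 e2
      have := h2.2.2 e2.symm
      have := hM b d
      omega
    have m3 : M a d = 0 := by
      rcases hc a b d e1 e2 with h | h | h
      · subst h; exact m2
      · subst h; exact m1
      · subst h; exact hd a
    have m4 : M d a = 0 := by rw [hM, m3]; rfl
    refine ⟨⟨by omega, fun _ => by omega⟩, ⟨by omega, fun _ => by omega⟩⟩

omit [Fintype X] in
theorem sg_of_iff {r : Finset (X × X)} {x y : X} {p q : Prop} [Decidable p] [Decidable q]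
    (h1 : (x, y) ∈ r ↔ p) (h2 : (y, x) ∈ r ↔ q) :
    sg r x y = (if p then 1 else 0) - (if q then 1 else 0) := by
  unfold sg
  by_cases hp : p <;> by_cases hq : q <;> simp_all

/-- one pair: the majority side (or a tie) costs at most `v - 1` when `v` is odd -/
theorem signs_one {v : ℕ} (hv : Odd v) (t : Fin v → ℤ)
    (ht : ∀ i, t i = 1 ∨ t i = 0 ∨ t i = -1) :
    ∑ i, |t i - ((if 0 < ∑ i, t i then 1 else 0) - (if 0 < - ∑ i, t i then 1 else 0))| ≤
      (v : ℤ) - 1 := by
  have hv' : (v : ℤ) = ∑ _i : Fin v, (1 : ℤ) := by simp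
  rcases lt_trichotomy (∑ i, t i) 0 with h | h | h
  · rw [if_neg (by omega), if_pos (by omega)]
    have : ∑ i, |t i - (0 - 1)| = (v : ℤ) + ∑ i, t i := by
      rw [hv', ← Finset.sum_add_distrib]
      refine Finset.sum_congr rfl fun i _ => ?_
      rcases ht i with h | h | h <;> rw [h] <;> norm_num
    rw [this]
    omega
  · rw [if_neg (by omega), if_neg (by omega)]
    have h1 : ∑ i, |t i - (0 - 0)| = ∑ i, t i + 2 * ∑ i, (if t i = -1 then 1 else 0) := by
      rw [Finset.mul_sum, ← Finset.sum_add_distrib]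
      refine Finset.sum_congr rfl fun i _ => ?_
      rcases ht i with h | h | h <;> rw [h] <;> norm_num
    have h2 : ∑ i, |t i - (0 - 0)| ≤ (v : ℤ) := by
      rw [hv']
      refine Finset.sum_le_sum fun i _ => ?_
      rcases ht i with h | h | h <;> rw [h] <;> norm_num
    obtain ⟨w, hw⟩ := hv
    rw [h1, h] at h2 ⊢
    push_cast [hw] at h2 ⊢
    omega
  · rw [if_pos (by omega), if_neg (by omega)]
    have : ∑ i, |t i - (1 - 0)| = (v : ℤ) - ∑ i, t i := by
      rw [hv', ← Finset.sum_sub_distrib]
      refine Finset.sum_congr rfl fun i _ => ?_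
      rcases ht i with h | h | h <;> rw [h] <;> norm_num
    rw [this]
    omega

/-- number of ordered pairs in a common block of a near-perfect pairing -/
theorem pair_count (e : X ≃ Fin (Fintype.card X)) :
    (2 * (Fintype.card X / 2 : ℕ) : ℤ) ≤
      ∑ x, ∑ y, (if x ≠ y ∧ ((e x : ℕ) / 2 = (e y : ℕ) / 2) then (1 : ℤ) else 0) := by
  classical
  have h1 : ∀ x, (if (e x : ℕ) < 2 * (Fintype.card X / 2) then (1 : ℤ) else 0) ≤
      ∑ y, (if x ≠ y ∧ ((e x : ℕ) / 2 = (e y : ℕ) / 2) then (1 : ℤ) else 0) := by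
    intro x
    have hnn : ∀ y ∈ (univ : Finset X),
        (0 : ℤ) ≤ (if x ≠ y ∧ ((e x : ℕ) / 2 = (e y : ℕ) / 2) then (1 : ℤ) else 0) := by
      intro y _
      split_ifs <;> norm_num
    split_ifs with hx
    · -- the partner
      obtain ⟨j, hj, hj2, hjx⟩ : ∃ j : ℕ, j < Fintype.card X ∧ (e x : ℕ) / 2 = j / 2 ∧
          j ≠ (e x : ℕ) := by
        rcases Nat.even_or_odd' (e x : ℕ) with ⟨k, hk | hk⟩
        · exact ⟨2 * k + 1, by omega, by omega, by omega⟩
        · exact ⟨2 * k, by omega, by omega, by omega⟩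
      have h2 := Finset.single_le_sum hnn (mem_univ (e.symm ⟨j, hj⟩))
      have h3 : x ≠ e.symm ⟨j, hj⟩ ∧ ((e x : ℕ) / 2 = (e (e.symm ⟨j, hj⟩) : ℕ) / 2) := by
        refine ⟨?_, ?_⟩
        · intro h
          apply hjx
          rw [h]
          simp
        · simpa using hj2
      rw [if_pos h3] at h2
      exact h2
    · exact Finset.sum_nonneg hnn
  refine le_trans ?_ (Finset.sum_le_sum fun x _ => h1 x)
  rw [Equiv.sum_comp e (fun j : Fin (Fintype.card X) =>
    if (j : ℕ) < 2 * (Fintype.card X / 2) then (1 : ℤ) else 0)]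
  rw [Fin.sum_univ_eq_sum_range (fun j => if j < 2 * (Fintype.card X / 2) then (1 : ℤ) else 0)]
  rw [Finset.sum_boole]
  have : (range (Fintype.card X)).filter (fun j => j < 2 * (Fintype.card X / 2)) =
      range (2 * (Fintype.card X / 2)) := by
    ext j
    simp only [mem_filter, mem_range]
    omega
  rw [this, card_range]
  push_cast
  exact le_rfl

/-- the matching bound for odd `v` -/
theorem upper_half {R : Set (Finset (X × X))} (hweak : ∀ r, IsWeak r → r ∈ R)
    (hpo : ∀ r ∈ R, IsPO r) {v m : ℕ} (hv : Odd v) (h : Good R v m) :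
    m + Fintype.card X / 2 ≤ v * (Fintype.card X).choose 2 := by
  classical
  obtain ⟨π, hπ, hm⟩ := h
  let e := Fintype.equivFin X
  let M : X → X → ℤ := fun x y => ∑ i, sg (π i) x y
  have hM : ∀ x y, M y x = - M x y := by
    intro x y
    simp only [M]
    rw [← Finset.sum_neg_distrib]
    exact Finset.sum_congr rfl fun i _ => sg_swap _ _ _
  let b : X → ℕ := fun x => (e x : ℕ) / 2
  let b' : X → ℕ := fun x => Fintype.card X - (e x : ℕ) / 2
  have hbb : ∀ x y, b' x = b' y ↔ b x = b y := by
    intro x y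
    have h1 := (e x).2
    have h2 := (e y).2
    simp only [b, b']
    omega
  have hbl : ∀ x y, b' x < b' y ↔ b y < b x := by
    intro x y
    have h1 := (e x).2
    have h2 := (e y).2
    simp only [b, b']
    omega
  have hc : ∀ x y z, b x = b y → b y = b z → x = y ∨ y = z ∨ x = z := by
    intro x y z h1 h2
    simp only [b] at h1 h2
    have : (e x : ℕ) = e y ∨ (e y : ℕ) = e z ∨ (e x : ℕ) = e z := by omega
    rcases this with h | h | h
    · exact Or.inl (e.injective (Fin.ext h))
    · exact Or.inr (Or.inl (e.injective (Fin.ext h)))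
    · exact Or.inr (Or.inr (e.injective (Fin.ext h)))
  have hc' : ∀ x y z, b' x = b' y → b' y = b' z → x = y ∨ y = z ∨ x = z :=
    fun x y z h1 h2 => hc x y z ((hbb _ _).mp h1) ((hbb _ _).mp h2)
  have w1 := Wk_weak hM hc
  have w2 := Wk_weak hM hc'
  have d1 := hm _ (hweak _ w1)
  have d2 := hm _ (hweak _ w2)
  have cost : ∀ s, IsPO s → 2 * (Delta π s : ℤ) =
      ∑ x, ∑ y, ∑ i, |sg (π i) x y - sg s x y| := by
    intro s hs
    unfold Delta
    push_cast
    rw [Finset.mul_sum, Finset.sum_congr rfl fun i _ => two_delta (hpo _ (hπ i)) hs,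
      Finset.sum_comm]
    exact Finset.sum_congr rfl fun x _ => Finset.sum_comm
  have c1 := cost _ w1.1
  have c2 := cost _ w2.1
  have hpt : ∀ x y, ∑ i, |sg (π i) x y - sg (Wk M b) x y| +
      ∑ i, |sg (π i) x y - sg (Wk M b') x y| ≤
      (if x = y then 0 else (2 * v : ℤ)) -
        2 * (if x ≠ y ∧ ((e x : ℕ) / 2 = (e y : ℕ) / 2) then (1 : ℤ) else 0) := by
    intro x y
    by_cases hxy : x = y
    · subst hxy
      simp [sg_diag]
    · rw [if_neg hxy]
      by_cases hb : b x = b y
      · have hb2 : (e x : ℕ) / 2 = (e y : ℕ) / 2 := hb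
        rw [if_pos ⟨hxy, hb2⟩]
        have s1 : sg (Wk M b) x y = (if 0 < ∑ i, sg (π i) x y then 1 else 0) -
            (if 0 < - ∑ i, sg (π i) x y then 1 else 0) := by
          refine sg_of_iff ?_ ?_
          · rw [mem_Wk]
            exact ⟨fun h => h.elim (fun h => absurd h (by omega)) fun h => h.2,
              fun h => Or.inr ⟨hb, h⟩⟩
          · rw [mem_Wk, hM x y]
            exact ⟨fun h => h.elim (fun h => absurd h (by omega)) fun h => h.2,
              fun h => Or.inr ⟨hb.symm, h⟩⟩
        have s2 : sg (Wk M b') x y = (if 0 < ∑ i, sg (π i) x y then 1 else 0) -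
            (if 0 < - ∑ i, sg (π i) x y then 1 else 0) := by
          have hb3 := (hbb x y).mpr hb
          refine sg_of_iff ?_ ?_
          · rw [mem_Wk]
            exact ⟨fun h => h.elim (fun h => absurd h (by omega)) fun h => h.2,
              fun h => Or.inr ⟨hb3, h⟩⟩
          · rw [mem_Wk, hM x y]
            exact ⟨fun h => h.elim (fun h => absurd h (by omega)) fun h => h.2,
              fun h => Or.inr ⟨hb3.symm, h⟩⟩
        rw [s1, s2]
        have := signs_one hv (fun i => sg (π i) x y) fun i => sg_val (hpo _ (hπ i)) x y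
        linarith
      · have hb2 : ¬ ((e x : ℕ) / 2 = (e y : ℕ) / 2) := hb
        rw [if_neg (fun h => hb2 h.2)]
        have hv' : (2 * v : ℤ) = ∑ _i : Fin v, (2 : ℤ) := by simp; ring
        rw [hv', ← Finset.sum_add_distrib, mul_zero, sub_zero]
        refine Finset.sum_le_sum fun i _ => ?_
        have hb3 : ¬ b' x = b' y := fun h => hb ((hbb x y).mp h)
        have t1 := sg_val (hpo _ (hπ i)) x y
        rcases lt_or_gt_of_ne hb with hlt | hlt
        · have s1 : sg (Wk M b) x y = 1 := by
            unfold sg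
            rw [if_pos ((mem_Wk _ _ _ _).mpr (Or.inl hlt)), if_neg]
            · norm_num
            · rw [mem_Wk]; omega
          have s2 : sg (Wk M b') x y = -1 := by
            have := (hbl y x).mpr hlt
            unfold sg
            rw [if_neg, if_pos ((mem_Wk _ _ _ _).mpr (Or.inl this))]
            · norm_num
            · rw [mem_Wk]; omega
          rw [s1, s2]
          rcases t1 with h | h | h <;> rw [h] <;> norm_num
        · have s1 : sg (Wk M b) x y = -1 := by
            unfold sg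
            rw [if_neg, if_pos ((mem_Wk _ _ _ _).mpr (Or.inl hlt))]
            · norm_num
            · rw [mem_Wk]; omega
          have s2 : sg (Wk M b') x y = 1 := by
            have := (hbl x y).mpr hlt
            unfold sg
            rw [if_pos ((mem_Wk _ _ _ _).mpr (Or.inl this)), if_neg]
            · norm_num
            · rw [mem_Wk]; omega
          rw [s1, s2]
          rcases t1 with h | h | h <;> rw [h] <;> norm_num
  have htot : 2 * (Delta π (Wk M b) : ℤ) + 2 * (Delta π (Wk M b') : ℤ) ≤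
      ∑ x : X, ∑ y : X, (if x = y then 0 else (2 * v : ℤ)) -
        2 * ∑ x : X, ∑ y : X,
          (if x ≠ y ∧ ((e x : ℕ) / 2 = (e y : ℕ) / 2) then (1 : ℤ) else 0) := by
    rw [c1, c2, ← Finset.sum_add_distrib, Finset.mul_sum, ← Finset.sum_sub_distrib]
    refine Finset.sum_le_sum fun x _ => ?_
    rw [← Finset.sum_add_distrib, Finset.mul_sum, ← Finset.sum_sub_distrib]
    exact Finset.sum_le_sum fun y _ => hpt x y
  rw [sum_offdiag, choose_two_int] at htot
  have hcnt := pair_count e
  have hfin : (m : ℤ) + (Fintype.card X / 2 : ℕ) ≤ v * ((Fintype.card X).choose 2 : ℤ) := by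
    have e1 : (m : ℤ) ≤ Delta π (Wk M b) := by exact_mod_cast d1
    have e2 : (m : ℤ) ≤ Delta π (Wk M b') := by exact_mod_cast d2
    push_cast at hcnt ⊢
    nlinarith
  exact_mod_cast hfin

end Pool.Agent.V11145.Disp
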