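import Mathlib
import Pool.Agent.V11145.Disp4

/-! Partial orders: the bipartite bound for an odd number of voters. -/

namespace Pool.Agent.V11145.Disp

open Finset

variable {X : Type*} [Fintype X] [DecidableEq X]

theorem signs_zero {v : ℕ} (t : Fin v → ℤ)
    (ht : ∀ i, t i = 1 ∨ t i = 0 ∨ t i = -1) : ∑ i, |t i| ≤ (v : ℤ) := by
  have hv' : (v : ℤ) = ∑ _i : Fin v, (1 : ℤ) := by simp
  rw [hv']
  refine Finset.sum_le_sum fun i _ => ?_
  rcases ht i with h | h | h <;> rw [h] <;> norm_num

/-- a pair separated by the bipartition -/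
theorem signs_sep {v : ℕ} (hv : Odd v) (t : Fin v → ℤ)
    (ht : ∀ i, t i = 1 ∨ t i = 0 ∨ t i = -1) :
    ∑ i, |t i - ((if 0 < ∑ i, t i then 1 else 0) - 0)| +
      ∑ i, |t i - (0 - (if 0 < - ∑ i, t i then 1 else 0))| ≤ 2 * (v : ℤ) - 1 := by
  have h1 := signs_one hv t ht
  have h2 := signs_zero t ht
  rcases lt_trichotomy (∑ i, t i) 0 with h | h | h
  · rw [if_neg (by omega), if_pos (by omega)] at h1 ⊢
    simp only [sub_zero] at *
    linarith
  · rw [if_neg (by omega), if_neg (by omega)] at h1 ⊢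
    simp only [sub_zero] at *
    linarith
  · rw [if_pos (by omega), if_neg (by omega)] at h1 ⊢
    simp only [sub_zero] at *
    linarith

/-- the bipartite order from `A` to its complement along `M` -/
def Bp (M : X → X → ℤ) (A : Finset X) : Finset (X × X) :=
  univ.filter fun p => p.1 ∈ A ∧ p.2 ∉ A ∧ 0 < M p.1 p.2

theorem mem_Bp (M : X → X → ℤ) (A : Finset X) (x y : X) :
    (x, y) ∈ Bp M A ↔ x ∈ A ∧ y ∉ A ∧ 0 < M x y := by
  unfold Bp
  simp

theorem Bp_po (M : X → X → ℤ) (A : Finset X) : IsPO (Bp M A) := by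
  refine ⟨?_, ?_⟩
  · intro a h
    rw [mem_Bp] at h
    exact h.2.1 h.1
  · intro a b c h1 h2
    rw [mem_Bp] at h1 h2
    exact absurd h2.1 h1.2.1

/-- number of separated ordered pairs -/
theorem sep_count (A : Finset X) :
    ∑ x : X, ∑ y : X, (if (x ∈ A ∧ y ∉ A) ∨ (x ∉ A ∧ y ∈ A) then (1 : ℤ) else 0) =
      2 * ((A.card : ℤ) * (Aᶜ.card : ℤ)) := by
  have h1 : ∀ x y : X, (if (x ∈ A ∧ y ∉ A) ∨ (x ∉ A ∧ y ∈ A) then (1 : ℤ) else 0) =
      (if x ∈ A then 1 else 0) * (if y ∈ Aᶜ then 1 else 0) +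
      (if x ∈ Aᶜ then 1 else 0) * (if y ∈ A then 1 else 0) := by
    intro x y
    by_cases hx : x ∈ A <;> by_cases hy : y ∈ A <;> simp [hx, hy]
  simp_rw [h1, Finset.sum_add_distrib, ← Finset.mul_sum, ← Finset.sum_mul]
  have e : ∀ B : Finset X, ∑ x : X, (if x ∈ B then (1 : ℤ) else 0) = (B.card : ℤ) := by
    intro B
    simp
  rw [e, e]
  ring

/-- the bipartite bound -/
theorem upper_bip {R : Set (Finset (X × X))} (hall : ∀ r, IsPO r → r ∈ R)
    (hpo : ∀ r ∈ R, IsPO r) {v m : ℕ} (hv : Odd v) (h : Good R v m) (A : Finset X) :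
    2 * m + A.card * Aᶜ.card ≤ 2 * (v * (Fintype.card X).choose 2) := by
  obtain ⟨π, hπ, hm⟩ := h
  let M : X → X → ℤ := fun x y => ∑ i, sg (π i) x y
  have hM : ∀ x y, M y x = - M x y := by
    intro x y
    simp only [M]
    rw [← Finset.sum_neg_distrib]
    exact Finset.sum_congr rfl fun i _ => sg_swap _ _ _
  have w1 := Bp_po M A
  have w2 := Bp_po M Aᶜ
  have d1 := hm _ (hall _ w1)
  have d2 := hm _ (hall _ w2)
  have cost : ∀ s, IsPO s → 2 * (Delta π s : ℤ) =
      ∑ x, ∑ y, ∑ i, |sg (π i) x y - sg s x y| := by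
    intro s hs
    unfold Delta
    push_cast
    rw [Finset.mul_sum, Finset.sum_congr rfl fun i _ => two_delta (hpo _ (hπ i)) hs,
      Finset.sum_comm]
    exact Finset.sum_congr rfl fun x _ => Finset.sum_comm
  have c1 := cost _ w1
  have c2 := cost _ w2
  have hpt : ∀ x y, ∑ i, |sg (π i) x y - sg (Bp M A) x y| +
      ∑ i, |sg (π i) x y - sg (Bp M Aᶜ) x y| ≤
      (if x = y then 0 else (2 * v : ℤ)) -
        (if (x ∈ A ∧ y ∉ A) ∨ (x ∉ A ∧ y ∈ A) then (1 : ℤ) else 0) := by
    intro x y
    by_cases hxy : x = y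
    · subst hxy
      have : ¬ ((x ∈ A ∧ x ∉ A) ∨ (x ∉ A ∧ x ∈ A)) := by tauto
      rw [if_neg this]
      simp [sg_diag]
    · rw [if_neg hxy]
      have s1 : sg (Bp M A) x y =
          (if x ∈ A ∧ y ∉ A ∧ 0 < ∑ i, sg (π i) x y then 1 else 0) -
          (if y ∈ A ∧ x ∉ A ∧ 0 < - ∑ i, sg (π i) x y then 1 else 0) := by
        refine sg_of_iff (mem_Bp _ _ _ _) ?_
        rw [mem_Bp, hM x y]
      have s2 : sg (Bp M Aᶜ) x y =
          (if x ∈ Aᶜ ∧ y ∉ Aᶜ ∧ 0 < ∑ i, sg (π i) x y then 1 else 0) -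
          (if y ∈ Aᶜ ∧ x ∉ Aᶜ ∧ 0 < - ∑ i, sg (π i) x y then 1 else 0) := by
        refine sg_of_iff (mem_Bp _ _ _ _) ?_
        rw [mem_Bp, hM x y]
      have k1 := signs_sep hv (fun i => sg (π i) x y) fun i => sg_val (hpo _ (hπ i)) x y
      have k1' := signs_sep hv (fun i => - sg (π i) x y) (fun i => by
        rcases sg_val (hpo _ (hπ i)) x y with h | h | h <;> rw [h] <;> norm_num)
      have k2 := signs_zero (fun i => sg (π i) x y) fun i => sg_val (hpo _ (hπ i)) x y
      rw [s1, s2]
      by_cases hx : x ∈ A <;> by_cases hy : y ∈ A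
      · simp only [hx, hy, not_true_eq_false, false_and, and_false, if_false, mem_compl,
          not_false_eq_true, true_and, or_self, sub_zero]
        linarith
      · simp only [hx, hy, not_true_eq_false, false_and, and_false, if_false, mem_compl,
          not_false_eq_true, true_and, and_self, or_false, if_true, true_or]
        simp only [sub_zero] at k1 ⊢
        linarith
      · simp only [hx, hy, not_true_eq_false, false_and, and_false, if_false, mem_compl,
          not_false_eq_true, true_and, and_self, or_true, if_true, false_or, not_not]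
        simp only [Finset.sum_neg_distrib, neg_neg] at k1'
        have e1 : ∀ i, |-sg (π i) x y - ((if 0 < -∑ i, sg (π i) x y then 1 else 0) - 0)| =
            |sg (π i) x y - (0 - (if 0 < -∑ i, sg (π i) x y then 1 else 0))| := by
          intro i
          rw [← abs_neg]
          congr 1
          ring
        have e2 : ∀ i, |-sg (π i) x y - (0 - (if 0 < ∑ i, sg (π i) x y then 1 else 0))| =
            |sg (π i) x y - ((if 0 < ∑ i, sg (π i) x y then 1 else 0) - 0)| := by
          intro i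
          rw [← abs_neg]
          congr 1
          ring
        rw [Finset.sum_congr rfl fun i _ => e1 i, Finset.sum_congr rfl fun i _ => e2 i] at k1'
        linarith
      · simp only [hx, hy, false_and, and_false, if_false, mem_compl,
          not_false_eq_true, not_true_eq_false, true_and, or_self, sub_zero]
        linarith
  have htot : 2 * (Delta π (Bp M A) : ℤ) + 2 * (Delta π (Bp M Aᶜ) : ℤ) ≤
      ∑ x : X, ∑ y : X, (if x = y then 0 else (2 * v : ℤ)) -
        ∑ x : X, ∑ y : X,
          (if (x ∈ A ∧ y ∉ A) ∨ (x ∉ A ∧ y ∈ A) then (1 : ℤ) else 0) := by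
    rw [c1, c2, ← Finset.sum_add_distrib, ← Finset.sum_sub_distrib]
    refine Finset.sum_le_sum fun x _ => ?_
    rw [← Finset.sum_add_distrib, ← Finset.sum_sub_distrib]
    exact Finset.sum_le_sum fun y _ => hpt x y
  rw [sum_offdiag, choose_two_int, sep_count] at htot
  have hfin : 2 * (m : ℤ) + A.card * Aᶜ.card ≤
      2 * (v * ((Fintype.card X).choose 2 : ℤ)) := by
    have e1 : (m : ℤ) ≤ Delta π (Bp M A) := by exact_mod_cast d1
    have e2 : (m : ℤ) ≤ Delta π (Bp M Aᶜ) := by exact_mod_cast d2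
    nlinarith
  exact_mod_cast hfin

/-- the bipartite bound with a balanced bipartition -/
theorem upper_bip' {R : Set (Finset (X × X))} (hall : ∀ r, IsPO r → r ∈ R)
    (hpo : ∀ r ∈ R, IsPO r) {v m : ℕ} (hv : Odd v) (h : Good R v m) :
    2 * m + Fintype.card X ^ 2 / 4 ≤ 2 * (v * (Fintype.card X).choose 2) := by
  obtain ⟨A, -, hA⟩ := Finset.exists_subset_card_eq (s := (univ : Finset X))
    (n := Fintype.card X / 2) (by rw [card_univ]; omega)
  have h1 := upper_bip hall hpo hv h A
  rw [card_compl, hA] at h1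
  have h2 : Fintype.card X / 2 * (Fintype.card X - Fintype.card X / 2) =
      Fintype.card X ^ 2 / 4 := by
    rcases Nat.even_or_odd' (Fintype.card X) with ⟨k, hk | hk⟩
    · rw [hk]
      have e1 : 2 * k / 2 = k := by omega
      have e2 : 2 * k - k = k := by omega
      rw [e1, e2]
      have : (2 * k) ^ 2 = 4 * (k * k) := by ring
      rw [this]
      omega
    · rw [hk]
      have e1 : (2 * k + 1) / 2 = k := by omega
      have e2 : 2 * k + 1 - k = k + 1 := by omega
      rw [e1, e2]
      have : (2 * k + 1) ^ 2 = 4 * (k * (k + 1)) + 1 := by ring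
      rw [this]
      omega
  rw [h2] at h1
  exact h1

end Pool.Agent.V11145.Disp
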