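import Mathlib
import Pool.Agent.V11145.Disp5

/-! Skew conference matrices of order `2^k`, their discrepancy, and interval orders. -/

namespace Pool.Agent.V11145.Disp

open Finset Matrix

theorem skew (k : ℕ) : ∃ S : Matrix (Fin (2 ^ k)) (Fin (2 ^ k)) ℤ, Sᵀ = -S ∧
    S * S = (-((2 : ℤ) ^ k - 1)) • (1 : Matrix (Fin (2 ^ k)) (Fin (2 ^ k)) ℤ) ∧
    ∀ i j, i ≠ j → S i j = 1 ∨ S i j = -1 := by
  induction k with
  | zero =>
    refine ⟨0, by simp, by simp, ?_⟩
    intro i j hij
    exact absurd (Subsingleton.elim (h := by rw [pow_zero]; infer_instance) i j) hij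
  | succ k ih =>
    obtain ⟨S, hT, hS, hpm⟩ := ih
    let B : Matrix (Fin (2 ^ k) ⊕ Fin (2 ^ k)) (Fin (2 ^ k) ⊕ Fin (2 ^ k)) ℤ :=
      fromBlocks S (S + 1) (S - 1) (-S)
    have e : Fin (2 ^ (k + 1)) ≃ Fin (2 ^ k) ⊕ Fin (2 ^ k) :=
      (finCongr (by ring)).trans finSumFinEquiv.symm
    have hBT : Bᵀ = -B := by
      simp only [B, fromBlocks_transpose, fromBlocks_neg, transpose_add, transpose_sub,
        transpose_neg, transpose_one, hT]
      congr 1 <;> abel
    have hBB : B * B = (-((2 : ℤ) ^ (k + 1) - 1)) •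
        (1 : Matrix (Fin (2 ^ k) ⊕ Fin (2 ^ k)) (Fin (2 ^ k) ⊕ Fin (2 ^ k)) ℤ) := by
      have e1 : S * S + (S + 1) * (S - 1) = (-((2 : ℤ) ^ (k + 1) - 1)) • (1 : Matrix _ _ ℤ) := by
        have : (S + 1) * (S - 1) = S * S - 1 := by
          rw [add_mul, mul_sub, mul_sub]
          simp
        rw [this, hS, pow_succ]
        ext i j
        simp only [Matrix.add_apply, Matrix.sub_apply, Matrix.smul_apply, smul_eq_mul]
        ring
      have e2 : S * (S + 1) + (S + 1) * (-S) = 0 := by
        rw [mul_add, add_mul]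
        simp
        abel
      have e3 : (S - 1) * S + (-S) * (S - 1) = 0 := by
        rw [sub_mul, mul_sub]
        simp
      have e4 : (S - 1) * (S + 1) + (-S) * (-S) =
          (-((2 : ℤ) ^ (k + 1) - 1)) • (1 : Matrix _ _ ℤ) := by
        have : (S - 1) * (S + 1) = S * S - 1 := by
          rw [sub_mul, mul_add, mul_add]
          simp
          abel
        rw [this, neg_mul_neg, hS, pow_succ]
        ext i j
        simp only [Matrix.add_apply, Matrix.sub_apply, Matrix.smul_apply, smul_eq_mul]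
        ring
      simp only [B, fromBlocks_multiply]
      rw [e1, e2, e3, e4, ← fromBlocks_one, fromBlocks_smul]
      simp
    have hBpm : ∀ i j, i ≠ j → B i j = 1 ∨ B i j = -1 := by
      have hd : ∀ i, S i i = 0 := by
        intro i
        have := congrFun (congrFun hT i) i
        simp only [Matrix.transpose_apply, Matrix.neg_apply] at this
        omega
      rintro (i | i) (j | j) hij
      · exact hpm i j fun h => hij (by rw [h])
      · simp only [B, fromBlocks_apply₁₂, Matrix.add_apply]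
        by_cases h : i = j
        · subst h; left; rw [hd]; simp
        · rw [Matrix.one_apply_ne h, add_zero]; exact hpm i j h
      · simp only [B, fromBlocks_apply₂₁, Matrix.sub_apply]
        by_cases h : i = j
        · subst h; right; rw [hd]; simp
        · rw [Matrix.one_apply_ne h, sub_zero]; exact hpm i j h
      · simp only [B, fromBlocks_apply₂₂, Matrix.neg_apply]
        rcases hpm i j fun h => hij (by rw [h]) with h | h
        · right; rw [h]
        · left; rw [h]; rfl
    refine ⟨B.submatrix e e, ?_, ?_, ?_⟩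
    · rw [transpose_submatrix, hBT]
      rfl
    · rw [Matrix.submatrix_mul_equiv, hBB]
      ext i j
      simp only [Matrix.submatrix_apply, Matrix.smul_apply, Matrix.one_apply, smul_eq_mul,
        e.injective.eq_iff]
    · intro i j hij
      exact hBpm (e i) (e j) fun h => hij (e.injective h)

variable {X : Type*} [Fintype X] [DecidableEq X]

/-- a skew `±1` pattern with orthogonal columns on a set with `2^k` elements -/
theorem skew_pattern (k : ℕ) (hX : Fintype.card X = 2 ^ k) : ∃ M : X → X → ℤ,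
    (∀ x y, M y x = - M x y) ∧
    (∀ y y', ∑ x, M x y * M x y' = if y = y' then (2 : ℤ) ^ k - 1 else 0) ∧
    ∀ x y, x ≠ y → M x y = 1 ∨ M x y = -1 := by
  obtain ⟨S, hT, hS, hpm⟩ := skew k
  let e : X ≃ Fin (2 ^ k) := Fintype.equivFinOfCardEq hX
  have hsk : ∀ i j, S j i = - S i j := by
    intro i j
    have := congrFun (congrFun hT i) j
    simpa using this
  refine ⟨fun x y => S (e x) (e y), fun x y => hsk _ _, ?_, ?_⟩
  · intro y y'
    have h1 : ∑ x, S (e x) (e y) * S (e x) (e y') = ∑ i, S i (e y) * S i (e y') :=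
      Equiv.sum_comp e fun i => S i (e y) * S i (e y')
    have h2 : ∑ i, S i (e y) * S i (e y') = - (S * S) (e y) (e y') := by
      rw [Matrix.mul_apply, ← Finset.sum_neg_distrib]
      refine Finset.sum_congr rfl fun i _ => ?_
      rw [hsk (e y) i]
      ring
    rw [h1, h2, hS]
    by_cases h : y = y'
    · subst h; simp
    · rw [if_neg h]
      have : e y ≠ e y' := fun h' => h (e.injective h')
      simp [Matrix.one_apply_ne this]
  · intro x y hxy
    exact hpm _ _ fun h => hxy (e.injective h)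

/-- discrepancy of the pattern -/
theorem disc {k : ℕ} (hX : Fintype.card X = 16 ^ k) {M : X → X → ℤ}
    (hcol : ∀ y y', ∑ x, M x y * M x y' = if y = y' then (16 : ℤ) ^ k - 1 else 0)
    (A B : Finset X) : ∑ x ∈ A, ∑ y ∈ B, M x y ≤ 64 ^ k := by
  have h1 : (∑ x ∈ A, ∑ y ∈ B, M x y) ^ 2 ≤ A.card * ∑ x ∈ A, (∑ y ∈ B, M x y) ^ 2 :=
    sq_sum_le_card_mul_sum_sq
  have h2 : ∑ x ∈ A, (∑ y ∈ B, M x y) ^ 2 ≤ ∑ x, (∑ y ∈ B, M x y) ^ 2 :=
    Finset.sum_le_sum_of_subset_of_nonneg (subset_univ _) fun _ _ _ => sq_nonneg _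
  have h3 : ∑ x, (∑ y ∈ B, M x y) ^ 2 = B.card * ((16 : ℤ) ^ k - 1) := by
    have : ∀ x, (∑ y ∈ B, M x y) ^ 2 = ∑ y ∈ B, ∑ y' ∈ B, M x y * M x y' := by
      intro x
      rw [sq, Finset.sum_mul_sum]
    rw [Finset.sum_congr rfl fun x _ => this x, Finset.sum_comm]
    have h4 : ∀ y ∈ B, ∑ x, ∑ y' ∈ B, M x y * M x y' = (16 : ℤ) ^ k - 1 := by
      intro y hy
      rw [Finset.sum_comm, Finset.sum_congr rfl fun y' _ => hcol y y', Finset.sum_ite_eq,
        if_pos hy]
    rw [Finset.sum_congr rfl h4, Finset.sum_const, nsmul_eq_mul]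
  have hA : (A.card : ℤ) ≤ 16 ^ k := by
    have := Finset.card_le_univ A
    rw [hX] at this
    exact_mod_cast this
  have hB : (B.card : ℤ) ≤ 16 ^ k := by
    have := Finset.card_le_univ B
    rw [hX] at this
    exact_mod_cast this
  have hpos : (0 : ℤ) < 16 ^ k := by positivity
  have h5 : (∑ x ∈ A, ∑ y ∈ B, M x y) ^ 2 ≤ ((64 : ℤ) ^ k) ^ 2 := by
    have e : ((64 : ℤ) ^ k) ^ 2 = 16 ^ k * (16 ^ k * 16 ^ k) := by
      rw [← pow_mul, ← mul_pow, ← mul_pow, mul_comm k 2, pow_mul]
      norm_num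
    rw [e]
    calc (∑ x ∈ A, ∑ y ∈ B, M x y) ^ 2 ≤ A.card * ∑ x ∈ A, (∑ y ∈ B, M x y) ^ 2 := h1
      _ ≤ A.card * (B.card * ((16 : ℤ) ^ k - 1)) := by
          rw [← h3]
          exact mul_le_mul_of_nonneg_left h2 (by positivity)
      _ ≤ A.card * (B.card * (16 : ℤ) ^ k) := by
          refine mul_le_mul_of_nonneg_left ?_ (by positivity)
          exact mul_le_mul_of_nonneg_left (by linarith) (by positivity)
      _ ≤ 16 ^ k * (16 ^ k * 16 ^ k) := by
          refine mul_le_mul hA ?_ (by positivity) hpos.le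
          exact mul_le_mul_of_nonneg_right hB hpos.le
  exact abs_le_of_sq_le_sq' h5 (by positivity) |>.2

/-- the score of an interval order in the pattern -/
theorem interval_score {k : ℕ} (hX : Fintype.card X = 16 ^ k) {M : X → X → ℤ}
    (hcol : ∀ y y', ∑ x, M x y * M x y' = if y = y' then (16 : ℤ) ^ k - 1 else 0)
    (hle : ∀ x y, M x y ≤ 1) {s : Finset (X × X)} (hs : IsInterval s) :
    ∑ x, ∑ y, (if (x, y) ∈ s then M x y else 0) ≤ 2 * 128 ^ k := by
  classical
  let U : X → Finset X := fun x => univ.filter fun y => (x, y) ∈ s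
  have hU : ∀ x y, y ∈ U x ↔ (x, y) ∈ s := by intro x y; simp [U]
  have hnest : ∀ x x', U x ⊆ U x' ∨ U x' ⊆ U x := by
    intro x x'
    by_contra hcon
    push Not at hcon
    obtain ⟨h1, h2⟩ := hcon
    obtain ⟨b, hb, hb'⟩ := Finset.not_subset.mp h1
    obtain ⟨d, hd, hd'⟩ := Finset.not_subset.mp h2
    rw [hU] at hb hb' hd hd'
    rcases hs.2 x b x' d hb hd with h | h
    · exact hd' h
    · exact hb' h
  have hsum : ∀ x, ∑ y, (if (x, y) ∈ s then M x y else 0) = ∑ y ∈ U x, M x y := by
    intro x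
    rw [Finset.sum_filter]
  rw [Finset.sum_congr rfl fun x _ => hsum x]
  have hcard : ∀ x, (U x).card < 16 ^ k := by
    intro x
    rw [← hX, ← card_univ]
    refine Finset.card_lt_card ?_
    rw [Finset.ssubset_iff_of_subset (subset_univ _)]
    exact ⟨x, mem_univ _, fun h => hs.1.1 x ((hU x x).mp h)⟩
  have hlev : ∀ x ∈ (univ : Finset X), (U x).card / 8 ^ k ∈ range (2 ^ k) := by
    intro x _
    rw [mem_range]
    rw [Nat.div_lt_iff_lt_mul (by positivity), ← mul_pow]
    exact hcard x
  rw [← Finset.sum_fiberwise_of_maps_to hlev]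
  have hgrp : ∀ j ∈ range (2 ^ k),
      ∑ x ∈ univ.filter (fun x => (U x).card / 8 ^ k = j), ∑ y ∈ U x, M x y ≤
      64 ^ k + ((univ.filter (fun x => (U x).card / 8 ^ k = j)).card : ℤ) * 8 ^ k := by
    intro j _
    rcases (univ.filter (fun x => (U x).card / 8 ^ k = j)).eq_empty_or_nonempty with h0 | h0
    · rw [h0]; simp
    · obtain ⟨x0, hx0, hmin⟩ := Finset.exists_min_image _ (fun x => (U x).card) h0
      have hx0' := (mem_filter.mp hx0).2
      have hsub : ∀ x ∈ univ.filter (fun x => (U x).card / 8 ^ k = j), U x0 ⊆ U x := by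
        intro x hx
        rcases hnest x0 x with h | h
        · exact h
        · exact (Finset.eq_of_subset_of_card_le h (hmin x hx)).symm ▸ subset_rfl
      have hsmall : ∀ x ∈ univ.filter (fun x => (U x).card / 8 ^ k = j),
          ((U x \ U x0).card : ℤ) ≤ 8 ^ k := by
        intro x hx
        have hx' := (mem_filter.mp hx).2
        have h1 := Finset.card_sdiff_of_subset (hsub x hx)
        have h8 : 0 < 8 ^ k := by positivity
        have h2 : (U x).card < (j + 1) * 8 ^ k := by
          rw [← Nat.div_lt_iff_lt_mul h8]; omega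
        have h3 : j * 8 ^ k ≤ (U x0).card := by
          rw [← Nat.le_div_iff_mul_le h8]; omega
        have h4 : (U x \ U x0).card ≤ 8 ^ k := by
          rw [h1]
          have : (j + 1) * 8 ^ k = j * 8 ^ k + 8 ^ k := by ring
          omega
        exact_mod_cast h4
      have hdec : ∀ x ∈ univ.filter (fun x => (U x).card / 8 ^ k = j),
          ∑ y ∈ U x, M x y ≤ ∑ y ∈ U x0, M x y + 8 ^ k := by
        intro x hx
        rw [← Finset.sum_sdiff (hsub x hx)]
        have : ∑ y ∈ U x \ U x0, M x y ≤ ∑ _y ∈ U x \ U x0, (1 : ℤ) :=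
          Finset.sum_le_sum fun y _ => hle x y
        rw [Finset.sum_const, nsmul_eq_mul, mul_one] at this
        linarith [hsmall x hx]
      calc ∑ x ∈ univ.filter (fun x => (U x).card / 8 ^ k = j), ∑ y ∈ U x, M x y
          ≤ ∑ x ∈ univ.filter (fun x => (U x).card / 8 ^ k = j),
              (∑ y ∈ U x0, M x y + 8 ^ k) := Finset.sum_le_sum hdec
        _ = ∑ x ∈ univ.filter (fun x => (U x).card / 8 ^ k = j), ∑ y ∈ U x0, M x y +
            ((univ.filter (fun x => (U x).card / 8 ^ k = j)).card : ℤ) * 8 ^ k := by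
              rw [Finset.sum_add_distrib, Finset.sum_const, nsmul_eq_mul]
        _ ≤ _ := by
              have := disc hX hcol (univ.filter (fun x => (U x).card / 8 ^ k = j)) (U x0)
              linarith
  refine (Finset.sum_le_sum hgrp).trans ?_
  rw [Finset.sum_add_distrib, ← Finset.sum_mul]
  have hc : ∑ j ∈ range (2 ^ k),
      ((univ.filter (fun x => (U x).card / 8 ^ k = j)).card : ℤ) = 16 ^ k := by
    have := Finset.card_eq_sum_card_fiberwise hlev
    rw [card_univ, hX] at this
    have h2 : ((16 ^ k : ℕ) : ℤ) = ((∑ j ∈ range (2 ^ k),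
      (univ.filter (fun x => (U x).card / 8 ^ k = j)).card : ℕ) : ℤ) := by rw [this]
    push_cast at h2
    exact h2.symm
  rw [hc]
  simp only [Finset.sum_const, card_range, nsmul_eq_mul]
  push_cast
  rw [← mul_pow, ← mul_pow]
  norm_num
  linarith

end Pool.Agent.V11145.Disp
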