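import Mathlib
import Pool.Agent.V11145.Disp6

/-! Realising a margin pattern by linear orders. -/

namespace Pool.Agent.V11145.Disp

open Finset

variable {X : Type*} [Fintype X] [DecidableEq X]

/-- the pattern `M` is the total margin of `v` linear orders -/
def Real (v : ℕ) (M : X → X → ℤ) : Prop :=
  ∃ π : Fin v → Finset (X × X), (∀ i, IsLin (π i)) ∧ ∀ x y, ∑ i, sg (π i) x y = M x y

theorem real_add {v w : ℕ} {M M' : X → X → ℤ} (h : Real v M) (h' : Real w M') :
    Real (v + w) fun x y => M x y + M' x y := by
  obtain ⟨π, hπ, hM⟩ := h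
  obtain ⟨ρ, hρ, hM'⟩ := h'
  refine ⟨Fin.append π ρ, ?_, ?_⟩
  · intro i
    refine Fin.addCases (fun j => ?_) (fun j => ?_) i
    · rw [Fin.append_left]; exact hπ j
    · rw [Fin.append_right]; exact hρ j
  · intro x y
    rw [Fin.sum_univ_add]
    simp only [Fin.append_left, Fin.append_right]
    rw [hM, hM']

theorem real_one {f : X → ℕ} (hf : Function.Injective f) : Real 1 fun x y => sg (rel f) x y :=
  ⟨fun _ => rel f, fun _ => rel_lin hf, fun x y => by simp⟩

theorem real_two {L L' : Finset (X × X)} (hL : IsLin L) (hL' : IsLin L') {M : X → X → ℤ}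
    (h : ∀ x y, sg L x y + sg L' x y = M x y) : Real 2 M := by
  refine ⟨![L, L'], ?_, ?_⟩
  · intro i
    fin_cases i
    · exact hL
    · exact hL'
  · intro x y
    rw [Fin.sum_univ_two]
    exact h x y

theorem real_zero_two : Real 2 fun _ _ : X => 0 := by
  obtain ⟨L, L', hL, hL', hrev⟩ := exists_lin (X := X)
  exact real_two hL hL' fun x y => by rw [hrev]; ring

/-- one arc with margin two -/
theorem real_arc {a b : X} (hab : a ≠ b) : Real 2 fun x y : X =>
    2 * ((if x = a ∧ y = b then (1 : ℤ) else 0) - (if x = b ∧ y = a then 1 else 0)) := by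
  let e := Fintype.equivFin X
  let f1 : X → ℕ := fun w => if w = a then 0 else if w = b then 1 else 2 + (e w : ℕ)
  let f2 : X → ℕ := fun w => if w = a then Fintype.card X + 1 else
    if w = b then Fintype.card X + 2 else Fintype.card X - (e w : ℕ)
  have he : ∀ w : X, (e w : ℕ) < Fintype.card X := fun w => (e w).2
  have hinj : ∀ w w' : X, (e w : ℕ) = (e w' : ℕ) → w = w' := fun w w' h =>
    e.injective (Fin.ext h)
  have i1 : Function.Injective f1 := by
    intro w w' h
    simp only [f1] at h
    split_ifs at h with h1 h2 h3 h4 h5 h6 h7 h8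
    all_goals first
      | (subst_vars; rfl)
      | (exfalso; omega)
      | (exact hinj _ _ (by omega))
  have i2 : Function.Injective f2 := by
    intro w w' h
    have := he w
    have := he w'
    simp only [f2] at h
    split_ifs at h with h1 h2 h3 h4 h5 h6 h7 h8
    all_goals first
      | (subst_vars; rfl)
      | (exfalso; omega)
      | (exact hinj _ _ (by omega))
  refine real_two (rel_lin i1) (rel_lin i2) ?_
  intro x y
  rw [sg_rel, sg_rel]
  have hx := he x
  have hy := he y
  simp only [f1, f2]
  by_cases hxa : x = a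
  · subst hxa
    by_cases hyb : y = b
    · subst hyb
      simp [hab, hab.symm]
    · by_cases hya : y = x
      · subst hya
        simp [hab]
      · have h1 : ¬ (Fintype.card X + 1 < Fintype.card X - (e y : ℕ)) := by omega
        have h2 : Fintype.card X - (e y : ℕ) < Fintype.card X + 1 := by omega
        simp [hab, hyb, hya, h1, h2]
  · by_cases hxb : x = b
    · subst hxb
      by_cases hya : y = a
      · subst hya
        simp [hab, hab.symm]
      · by_cases hyb : y = x
        · subst hyb
          simp [hxa]
        · have h1 : ¬ (Fintype.card X + 2 < Fintype.card X - (e y : ℕ)) := by omega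
          have h2 : Fintype.card X - (e y : ℕ) < Fintype.card X + 2 := by omega
          have h3 : ¬ (2 + (e y : ℕ) < 1) := by omega
          have h4 : 1 < 2 + (e y : ℕ) := by omega
          simp [hxa, hyb, hya, h1, h2, h3, h4]
    · by_cases hya : y = a
      · subst hya
        have h1 : ¬ (Fintype.card X + 1 < Fintype.card X - (e x : ℕ)) := by omega
        have h2 : Fintype.card X - (e x : ℕ) < Fintype.card X + 1 := by omega
        simp [hxa, hxb, h1, h2]
      · by_cases hyb : y = b
        · subst hyb
          have h1 : ¬ (Fintype.card X + 2 < Fintype.card X - (e x : ℕ)) := by omega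
          have h2 : Fintype.card X - (e x : ℕ) < Fintype.card X + 2 := by omega
          have h3 : ¬ (2 + (e x : ℕ) < 1) := by omega
          have h4 : 1 < 2 + (e x : ℕ) := by omega
          simp [hxa, hxb, hya, h1, h2, h3, h4]
        · simp only [hxa, hxb, hya, hyb, if_false, false_and]
          rcases lt_trichotomy (e x : ℕ) (e y : ℕ) with h | h | h
          · rw [if_pos (by omega), if_neg (by omega), if_neg (by omega), if_pos (by omega)]
            norm_num
          · rw [if_neg (by omega), if_neg (by omega), if_neg (by omega), if_neg (by omega)]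
            norm_num
          · rw [if_neg (by omega), if_pos (by omega), if_pos (by omega), if_neg (by omega)]
            norm_num

/-- many arcs -/
theorem real_arcs {f : X → ℕ} (hf : Function.Injective f) (D : Finset (X × X)) :
    (∀ p ∈ D, p.1 ≠ p.2) → Real (1 + 2 * D.card) fun x y : X => sg (rel f) x y +
      2 * ((if (x, y) ∈ D then (1 : ℤ) else 0) - (if (y, x) ∈ D then 1 else 0)) := by
  classical
  induction D using Finset.induction_on with
  | empty =>
    intro _
    simpa using real_one hf
  | insert p D hp ih =>
    intro h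
    obtain ⟨a, b⟩ := p
    have h1 := ih fun q hq => h q (mem_insert_of_mem hq)
    have hab : a ≠ b := h (a, b) (mem_insert_self _ _)
    have h2 := real_add h1 (real_arc hab)
    rw [card_insert_of_notMem hp]
    have e : 1 + 2 * (D.card + 1) = 1 + 2 * D.card + 2 := by ring
    rw [e]
    convert h2 using 3 with x y
    have k1 : (if (x, y) ∈ insert (a, b) D then (1 : ℤ) else 0) =
        (if (x, y) ∈ D then 1 else 0) + (if x = a ∧ y = b then 1 else 0) := by
      by_cases hxy : x = a ∧ y = b
      · obtain ⟨rfl, rfl⟩ := hxy
        simp [hp]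
      · have : (x, y) ≠ (a, b) := fun h => hxy (by simpa using h)
        simp [hxy, this]
    have k2 : (if (y, x) ∈ insert (a, b) D then (1 : ℤ) else 0) =
        (if (y, x) ∈ D then 1 else 0) + (if x = b ∧ y = a then 1 else 0) := by
      by_cases hxy : x = b ∧ y = a
      · obtain ⟨rfl, rfl⟩ := hxy
        simp [hp]
      · have : (y, x) ≠ (a, b) := fun h => hxy (by
          have := Prod.mk.inj h
          exact ⟨this.2, this.1⟩)
        simp [hxy, this]
    rw [k1, k2]
    ring

theorem real_more {v : ℕ} {M : X → X → ℤ} (h : Real v M) (q : ℕ) : Real (v + 2 * q) M := by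
  induction q with
  | zero => simpa using h
  | succ q ih =>
    have := real_add ih (real_zero_two (X := X))
    simpa [mul_add, add_assoc] using this

/-- every skew `±1` pattern is a total margin of any odd number `v ≥ n^2` of linear orders -/
theorem real_pattern {M : X → X → ℤ} (hsk : ∀ x y, M y x = - M x y)
    (hpm : ∀ x y, x ≠ y → M x y = 1 ∨ M x y = -1) {v : ℕ} (hv : Odd v)
    (hvn : Fintype.card X ^ 2 ≤ v) : Real v M := by
  classical
  let e := Fintype.equivFin X
  let f : X → ℕ := fun x => (e x : ℕ)
  have hf : Function.Injective f := fun x y h => e.injective (Fin.ext h)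
  let D : Finset (X × X) := univ.filter fun p => f p.2 < f p.1 ∧ M p.1 p.2 = 1
  have hD : ∀ p ∈ D, p.1 ≠ p.2 := by
    intro p hp h
    have := (mem_filter.mp hp).2.1
    rw [h] at this
    exact lt_irrefl _ this
  have h1 := real_arcs hf D hD
  have hcard : 2 * D.card ≤ Fintype.card X * Fintype.card X - Fintype.card X := by
    have hdis : Disjoint D (D.image Prod.swap) := by
      rw [Finset.disjoint_left]
      intro p hp hp'
      obtain ⟨q, hq, rfl⟩ := mem_image.mp hp'
      have a1 := (mem_filter.mp hp).2.1
      have a2 := (mem_filter.mp hq).2.1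
      simp only [Prod.fst_swap, Prod.snd_swap] at a1
      omega
    have hsub : D ∪ D.image Prod.swap ⊆ (univ : Finset X).offDiag := by
      intro p hp
      rw [mem_offDiag]
      refine ⟨mem_univ _, mem_univ _, ?_⟩
      rcases mem_union.mp hp with hp | hp
      · exact hD p hp
      · obtain ⟨q, hq, rfl⟩ := mem_image.mp hp
        exact fun h => hD q hq h.symm
    have := Finset.card_le_card hsub
    rw [Finset.card_union_of_disjoint hdis, Finset.card_image_of_injective _ Prod.swap_injective,
      offDiag_card, card_univ] at this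
    omega
  have hM : (fun x y : X => sg (rel f) x y +
      2 * ((if (x, y) ∈ D then (1 : ℤ) else 0) - (if (y, x) ∈ D then 1 else 0))) = M := by
    funext x y
    have m1 : (x, y) ∈ D ↔ f y < f x ∧ M x y = 1 := by simp [D]
    have m2 : (y, x) ∈ D ↔ f x < f y ∧ M y x = 1 := by simp [D]
    simp only [m1, m2]
    rw [sg_rel]
    by_cases hxy : x = y
    · subst hxy
      have := hsk x x
      have h0 : M x x = 0 := by omega
      simp [h0]
    · have hne : f x ≠ f y := fun h => hxy (hf h)
      have hs := hsk x y
      rcases hpm x y hxy with h | h <;> rcases lt_or_gt_of_ne hne with h' | h'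
      · rw [if_pos h', if_neg (by omega), if_neg (by omega), if_neg (by omega), h]; norm_num
      · rw [if_neg (by omega), if_pos h', if_pos ⟨h', h⟩, if_neg (by omega), h]; norm_num
      · rw [if_pos h', if_neg (by omega), if_neg (by omega), if_pos ⟨h', by omega⟩, h]; norm_num
      · rw [if_neg (by omega), if_pos h', if_neg (by omega), if_neg (by omega), h]; norm_num
  rw [hM] at h1
  obtain ⟨w, hw⟩ := hv
  have hn : Fintype.card X * Fintype.card X ≤ v := by rw [← sq]; exact hvn
  have hle : 1 + 2 * D.card ≤ v := by
    rcases Nat.eq_zero_or_pos (Fintype.card X) with h0 | h0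
    · rw [h0] at hcard; omega
    · have : Fintype.card X ≤ Fintype.card X * Fintype.card X := Nat.le_mul_self _
      omega
  have h2 := real_more h1 (w - D.card)
  have e2 : 1 + 2 * D.card + 2 * (w - D.card) = v := by omega
  rw [e2] at h2
  exact h2

/-- lower bound for interval orders -/
theorem lower_interval {k : ℕ} (hX : Fintype.card X = 16 ^ k) {R : Set (Finset (X × X))}
    (hlin : ∀ r, IsLin r → r ∈ R) (hint : ∀ r ∈ R, IsInterval r) {v : ℕ} (hv : Odd v)
    (hvn : Fintype.card X ^ 2 ≤ v) :
    v * (Fintype.card X).choose 2 ≤ F R v + 2 * 128 ^ k := by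
  have hX' : Fintype.card X = 2 ^ (4 * k) := by
    rw [hX, pow_mul]; norm_num
  obtain ⟨M, hsk, hcol, hpm⟩ := skew_pattern (4 * k) hX'
  have h16 : (2 : ℤ) ^ (4 * k) = 16 ^ k := by rw [pow_mul]; norm_num
  rw [h16] at hcol
  have hle : ∀ x y, M x y ≤ 1 := by
    intro x y
    by_cases hxy : x = y
    · subst hxy
      have := hsk x x
      omega
    · rcases hpm x y hxy with h | h <;> rw [h]
      norm_num
  obtain ⟨π, hπ, hM⟩ := real_pattern hsk hpm hv hvn
  obtain ⟨L, -, hL, -, -⟩ := exists_lin (X := X)
  have hgood : Good R v (v * (Fintype.card X).choose 2 - 2 * 128 ^ k) := by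
    refine ⟨π, fun i => hlin _ (hπ i), ?_⟩
    intro s hs
    have hs' := hint s hs
    have h1 : 2 * (Delta π s : ℤ) =
        ∑ x : X, ∑ y : X, (if x = y then 0 else (v : ℤ)) - ∑ x, ∑ y, M x y * sg s x y := by
      unfold Delta
      push_cast
      rw [Finset.mul_sum]
      rw [Finset.sum_congr rfl fun i _ => two_delta (hπ i).1 hs'.1, Finset.sum_comm,
        ← Finset.sum_sub_distrib]
      refine Finset.sum_congr rfl fun x _ => ?_
      rw [Finset.sum_comm, ← Finset.sum_sub_distrib]
      refine Finset.sum_congr rfl fun y _ => ?_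
      by_cases hxy : x = y
      · subst hxy; simp [sg_diag]
      · rw [if_neg hxy]
        have : ∀ i, |sg (π i) x y - sg s x y| = 1 - sg (π i) x y * sg s x y := by
          intro i
          rcases sg_lin (hπ i) hxy with h | h <;> rcases sg_val hs'.1 x y with h' | h' | h' <;>
            rw [h, h'] <;> norm_num
        rw [Finset.sum_congr rfl fun i _ => this i, Finset.sum_sub_distrib, ← Finset.sum_mul,
          hM]
        simp
    have h2 : ∑ x, ∑ y, M x y * sg s x y =
        2 * ∑ x, ∑ y, (if (x, y) ∈ s then M x y else 0) := by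
      have e1 : ∑ x, ∑ y, M x y * sg s x y =
          ∑ x, ∑ y, (if (x, y) ∈ s then M x y else 0) +
          ∑ x, ∑ y, (if (y, x) ∈ s then M y x else 0) := by
        rw [← Finset.sum_add_distrib]
        refine Finset.sum_congr rfl fun x _ => ?_
        rw [← Finset.sum_add_distrib]
        refine Finset.sum_congr rfl fun y _ => ?_
        unfold sg
        rw [hsk x y]
        by_cases h1 : (x, y) ∈ s <;> by_cases h2 : (y, x) ∈ s <;> simp [h1, h2]
      have e2 : ∑ x, ∑ y, (if (y, x) ∈ s then M y x else 0) =
          ∑ x, ∑ y, (if (x, y) ∈ s then M x y else 0) := Finset.sum_comm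
      rw [e1, e2]
      ring
    have h3 := interval_score hX hcol hle hs'
    rw [h2, sum_offdiag, choose_two_int] at h1
    have h4 : (v * (Fintype.card X).choose 2 : ℤ) ≤ (Delta π s : ℤ) + 2 * 128 ^ k := by
      linarith
    have h5 : v * (Fintype.card X).choose 2 ≤ Delta π s + 2 * 128 ^ k := by exact_mod_cast h4
    omega
  have := le_F ⟨L, hlin _ hL⟩ hgood
  omega

end Pool.Agent.V11145.Disp
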