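import Mathlib
import Pool.Agent.V11145.Disp7

/-! Blow-ups: a lower bound for interval orders for all `n` and all large odd `v`. -/

namespace Pool.Agent.V11145.Disp

open Finset

variable {X : Type*} [Fintype X] [DecidableEq X]
variable {Y : Type*} [Fintype Y] [DecidableEq Y]

omit [DecidableEq X] in
/-- summing a nonnegative function of the colour -/
theorem sum_fib (c : X → Y) (b : ℕ) (hb : ∀ a, (univ.filter fun x => c x = a).card ≤ b)
    (g : Y → ℤ) (hg : ∀ a, 0 ≤ g a) : ∑ x, g (c x) ≤ b * ∑ a, g a := by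
  rw [← Finset.sum_fiberwise' (univ : Finset X) c g, Finset.mul_sum]
  refine Finset.sum_le_sum fun a _ => ?_
  rw [Finset.sum_const, nsmul_eq_mul]
  refine mul_le_mul_of_nonneg_right ?_ (hg a)
  exact_mod_cast hb a

omit [DecidableEq X] in
/-- discrepancy of a blow-up -/
theorem disc_blow {k b : ℕ} {M : Y → Y → ℤ}
    (hcol : ∀ y y', ∑ x, M x y * M x y' = if y = y' then (16 : ℤ) ^ k - 1 else 0)
    (c : X → Y) (hb : ∀ a, (univ.filter fun x => c x = a).card ≤ b)
    (hX : Fintype.card X ≤ 16 ^ k * b)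
    (A B : Finset X) : ∑ x ∈ A, ∑ y ∈ B, M (c x) (c y) ≤ 64 ^ k * b ^ 2 := by
  have h1 : (∑ x ∈ A, ∑ y ∈ B, M (c x) (c y)) ^ 2 ≤
      A.card * ∑ x ∈ A, (∑ y ∈ B, M (c x) (c y)) ^ 2 := sq_sum_le_card_mul_sum_sq
  have h2 : ∑ x ∈ A, (∑ y ∈ B, M (c x) (c y)) ^ 2 ≤ ∑ x, (∑ y ∈ B, M (c x) (c y)) ^ 2 :=
    Finset.sum_le_sum_of_subset_of_nonneg (subset_univ _) fun _ _ _ => sq_nonneg _
  have h2' : ∑ x, (∑ y ∈ B, M (c x) (c y)) ^ 2 ≤ b * ∑ a, (∑ y ∈ B, M a (c y)) ^ 2 :=
    sum_fib c b hb (fun a => (∑ y ∈ B, M a (c y)) ^ 2) fun a => sq_nonneg _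
  have h3 : ∑ a, (∑ y ∈ B, M a (c y)) ^ 2 ≤ B.card * (b * (16 : ℤ) ^ k) := by
    have : ∀ a, (∑ y ∈ B, M a (c y)) ^ 2 = ∑ y ∈ B, ∑ y' ∈ B, M a (c y) * M a (c y') := by
      intro a
      rw [sq, Finset.sum_mul_sum]
    rw [Finset.sum_congr rfl fun a _ => this a, Finset.sum_comm]
    have h4 : ∀ y ∈ B, ∑ a, ∑ y' ∈ B, M a (c y) * M a (c y') ≤ b * (16 : ℤ) ^ k := by
      intro y hy
      rw [Finset.sum_comm, Finset.sum_congr rfl fun y' _ => hcol (c y) (c y')]
      calc ∑ y' ∈ B, (if c y = c y' then (16 : ℤ) ^ k - 1 else 0)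
          ≤ ∑ y' : X, (if c y = c y' then (16 : ℤ) ^ k else 0) := by
            refine (Finset.sum_le_sum_of_subset_of_nonneg (subset_univ B) ?_).trans ?_
            · intro y' _ _
              split_ifs
              · have : (1 : ℤ) ≤ 16 ^ k := one_le_pow₀ (by norm_num)
                linarith
              · exact le_rfl
            · refine Finset.sum_le_sum fun y' _ => ?_
              split_ifs
              · linarith
              · exact le_rfl
        _ = ((univ.filter fun x => c x = c y).card : ℤ) * 16 ^ k := by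
            rw [← Finset.sum_filter, Finset.sum_const, nsmul_eq_mul]
            congr 3
            ext y'
            simp only [mem_filter, mem_univ, true_and]
            exact eq_comm
        _ ≤ b * (16 : ℤ) ^ k := by
            refine mul_le_mul_of_nonneg_right ?_ (by positivity)
            exact_mod_cast hb (c y)
    refine (Finset.sum_le_sum h4).trans ?_
    rw [Finset.sum_const, nsmul_eq_mul]
  have hA : (A.card : ℤ) ≤ 16 ^ k * b := by
    have := (Finset.card_le_univ A).trans hX
    exact_mod_cast this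
  have hB : (B.card : ℤ) ≤ 16 ^ k * b := by
    have := (Finset.card_le_univ B).trans hX
    exact_mod_cast this
  have h5 : (∑ x ∈ A, ∑ y ∈ B, M (c x) (c y)) ^ 2 ≤ ((64 : ℤ) ^ k * b ^ 2) ^ 2 := by
    have e : ((64 : ℤ) ^ k * b ^ 2) ^ 2 =
        (16 ^ k * b) * (b * ((16 ^ k * b) * (b * 16 ^ k))) := by
      have e' : ((64 : ℤ) ^ k) ^ 2 = 16 ^ k * (16 ^ k * 16 ^ k) := by
        rw [← pow_mul, ← mul_pow, ← mul_pow, mul_comm k 2, pow_mul]
        norm_num
      rw [mul_pow, e']
      ring
    rw [e]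
    calc (∑ x ∈ A, ∑ y ∈ B, M (c x) (c y)) ^ 2
        ≤ A.card * ∑ x ∈ A, (∑ y ∈ B, M (c x) (c y)) ^ 2 := h1
      _ ≤ A.card * (b * (B.card * (b * (16 : ℤ) ^ k))) := by
          refine mul_le_mul_of_nonneg_left ?_ (by positivity)
          refine h2.trans (h2'.trans ?_)
          exact mul_le_mul_of_nonneg_left h3 (by positivity)
      _ ≤ A.card * (b * ((16 ^ k * b) * (b * (16 : ℤ) ^ k))) := by
          refine mul_le_mul_of_nonneg_left ?_ (by positivity)
          refine mul_le_mul_of_nonneg_left ?_ (by positivity)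
          exact mul_le_mul_of_nonneg_right hB (by positivity)
      _ ≤ (16 ^ k * b) * (b * ((16 ^ k * b) * (b * 16 ^ k))) :=
          mul_le_mul_of_nonneg_right hA (by positivity)
  exact abs_le_of_sq_le_sq' h5 (by positivity) |>.2

/-- the score of an interval order in a pattern of small discrepancy -/
theorem ferrers_score {K w : ℕ} {Dn : ℤ} (hDn : 0 ≤ Dn) (hw : 0 < w)
    (hKw : Fintype.card X ≤ K * w) {M : X → X → ℤ}
    (hdisc : ∀ A B : Finset X, ∑ x ∈ A, ∑ y ∈ B, M x y ≤ Dn)
    (hle : ∀ x y, M x y ≤ 1) {s : Finset (X × X)} (hs : IsInterval s) :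
    ∑ x, ∑ y, (if (x, y) ∈ s then M x y else 0) ≤ K * Dn + Fintype.card X * w := by
  classical
  let U : X → Finset X := fun x => univ.filter fun y => (x, y) ∈ s
  have hU : ∀ x y, y ∈ U x ↔ (x, y) ∈ s := by intro x y; simp [U]
  have hnest : ∀ x x', U x ⊆ U x' ∨ U x' ⊆ U x := by
    intro x x'
    by_contra hcon
    push Not at hcon
    obtain ⟨h1, h2⟩ := hcon
    obtain ⟨b, hb, hb'⟩ := Finset.not_subset.mp h1
    obtain ⟨d, hd, hd'⟩ := Finset.not_subset.mp h2
    rw [hU] at hb hb' hd hd'
    rcases hs.2 x b x' d hb hd with h | h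
    · exact hd' h
    · exact hb' h
  have hsum : ∀ x, ∑ y, (if (x, y) ∈ s then M x y else 0) = ∑ y ∈ U x, M x y := by
    intro x
    rw [Finset.sum_filter]
  rw [Finset.sum_congr rfl fun x _ => hsum x]
  have hcard : ∀ x, (U x).card < K * w := by
    intro x
    refine lt_of_lt_of_le ?_ hKw
    rw [← card_univ]
    refine Finset.card_lt_card ?_
    rw [Finset.ssubset_iff_of_subset (subset_univ _)]
    exact ⟨x, mem_univ _, fun h => hs.1.1 x ((hU x x).mp h)⟩
  have hlev : ∀ x ∈ (univ : Finset X), (U x).card / w ∈ range K := by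
    intro x _
    rw [mem_range, Nat.div_lt_iff_lt_mul hw]
    exact hcard x
  rw [← Finset.sum_fiberwise_of_maps_to hlev]
  have hgrp : ∀ j ∈ range K,
      ∑ x ∈ univ.filter (fun x => (U x).card / w = j), ∑ y ∈ U x, M x y ≤
      Dn + ((univ.filter (fun x => (U x).card / w = j)).card : ℤ) * w := by
    intro j _
    rcases (univ.filter (fun x => (U x).card / w = j)).eq_empty_or_nonempty with h0 | h0
    · rw [h0]; simpa using hDn
    · obtain ⟨x0, hx0, hmin⟩ := Finset.exists_min_image _ (fun x => (U x).card) h0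
      have hx0' := (mem_filter.mp hx0).2
      have hsub : ∀ x ∈ univ.filter (fun x => (U x).card / w = j), U x0 ⊆ U x := by
        intro x hx
        rcases hnest x0 x with h | h
        · exact h
        · exact (Finset.eq_of_subset_of_card_le h (hmin x hx)).symm ▸ subset_rfl
      have hsmall : ∀ x ∈ univ.filter (fun x => (U x).card / w = j),
          ((U x \ U x0).card : ℤ) ≤ w := by
        intro x hx
        have hx' := (mem_filter.mp hx).2
        have h1 := Finset.card_sdiff_of_subset (hsub x hx)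
        have h2 : (U x).card < (j + 1) * w := by
          rw [← Nat.div_lt_iff_lt_mul hw]; omega
        have h3 : j * w ≤ (U x0).card := by
          rw [← Nat.le_div_iff_mul_le hw]; omega
        have h4 : (U x \ U x0).card ≤ w := by
          rw [h1]
          have : (j + 1) * w = j * w + w := by ring
          omega
        exact_mod_cast h4
      have hdec : ∀ x ∈ univ.filter (fun x => (U x).card / w = j),
          ∑ y ∈ U x, M x y ≤ ∑ y ∈ U x0, M x y + w := by
        intro x hx
        rw [← Finset.sum_sdiff (hsub x hx)]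
        have : ∑ y ∈ U x \ U x0, M x y ≤ ∑ _y ∈ U x \ U x0, (1 : ℤ) :=
          Finset.sum_le_sum fun y _ => hle x y
        rw [Finset.sum_const, nsmul_eq_mul, mul_one] at this
        linarith [hsmall x hx]
      calc ∑ x ∈ univ.filter (fun x => (U x).card / w = j), ∑ y ∈ U x, M x y
          ≤ ∑ x ∈ univ.filter (fun x => (U x).card / w = j),
              (∑ y ∈ U x0, M x y + w) := Finset.sum_le_sum hdec
        _ = ∑ x ∈ univ.filter (fun x => (U x).card / w = j), ∑ y ∈ U x0, M x y +
            ((univ.filter (fun x => (U x).card / w = j)).card : ℤ) * w := by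
              rw [Finset.sum_add_distrib, Finset.sum_const, nsmul_eq_mul]
        _ ≤ _ := by
              have := hdisc (univ.filter (fun x => (U x).card / w = j)) (U x0)
              linarith
  refine (Finset.sum_le_sum hgrp).trans ?_
  rw [Finset.sum_add_distrib, ← Finset.sum_mul]
  have hc : ∑ j ∈ range K,
      ((univ.filter (fun x => (U x).card / w = j)).card : ℤ) = Fintype.card X := by
    have := Finset.card_eq_sum_card_fiberwise hlev
    rw [card_univ] at this
    exact_mod_cast this.symm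
  rw [hc]
  simp only [Finset.sum_const, card_range, nsmul_eq_mul]
  exact le_rfl

theorem alt_sum (w : ℕ) : ∑ i ∈ range (2 * w + 1), (if Even i then (1 : ℤ) else -1) = 1 := by
  induction w with
  | zero => simp
  | succ w ih =>
    rw [show 2 * (w + 1) + 1 = 2 * w + 1 + 1 + 1 by ring, Finset.sum_range_succ,
      Finset.sum_range_succ, ih]
    have h1 : ¬ Even (2 * w + 1) := by simp
    have h2 : Even (2 * w + 1 + 1) := ⟨w + 1, by ring⟩
    rw [if_neg h1, if_pos h2]
    norm_num

/-- lexicographic lift of linear orders along a colouring -/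
theorem real_lift {v : ℕ} (hv : Odd v) {M : Y → Y → ℤ} (h : Real v M) (c : X → Y)
    {ρ : X → ℕ} (hρ : Function.Injective ρ) :
    Real v fun x y => M (c x) (c y) + (if c x = c y then sg (rel ρ) x y else 0) := by
  classical
  obtain ⟨π, hπ, hM⟩ := h
  let τ : Fin v → X → X → Prop := fun i x y =>
    if Even (i : ℕ) then ρ x < ρ y else ρ y < ρ x
  let π' : Fin v → Finset (X × X) := fun i =>
    univ.filter fun p => (c p.1, c p.2) ∈ π i ∨ (c p.1 = c p.2 ∧ τ i p.1 p.2)
  have hm : ∀ i x y, (x, y) ∈ π' i ↔ (c x, c y) ∈ π i ∨ (c x = c y ∧ τ i x y) := by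
    intro i x y; simp [π']
  have hττ : ∀ i x y z, τ i x y → τ i y z → τ i x z := by
    intro i x y z h1 h2
    simp only [τ] at *
    split_ifs at * <;> omega
  have hτ0 : ∀ i x, ¬ τ i x x := by
    intro i x h
    simp only [τ] at h
    split_ifs at h <;> omega
  have hτt : ∀ i x y, x ≠ y → τ i x y ∨ τ i y x := by
    intro i x y hxy
    have : ρ x ≠ ρ y := fun h => hxy (hρ h)
    simp only [τ]
    split_ifs <;> omega
  refine ⟨π', ?_, ?_⟩
  · intro i
    refine ⟨⟨?_, ?_⟩, ?_⟩
    · intro a ha
      rw [hm] at ha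
      rcases ha with ha | ha
      · exact (hπ i).1.1 _ ha
      · exact hτ0 i a ha.2
    · intro a b d h1 h2
      rw [hm] at *
      rcases h1 with h1 | ⟨h1, h1'⟩ <;> rcases h2 with h2 | ⟨h2, h2'⟩
      · exact Or.inl ((hπ i).1.2 _ _ _ h1 h2)
      · exact Or.inl (h2 ▸ h1)
      · exact Or.inl (h1 ▸ h2)
      · exact Or.inr ⟨h1.trans h2, hττ i a b d h1' h2'⟩
    · intro a b hab
      rw [hm, hm]
      by_cases hc : c a = c b
      · rcases hτt i a b hab with h | h
        · exact Or.inl (Or.inr ⟨hc, h⟩)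
        · exact Or.inr (Or.inr ⟨hc.symm, h⟩)
      · rcases (hπ i).2 _ _ hc with h | h
        · exact Or.inl (Or.inl h)
        · exact Or.inr (Or.inl h)
  · intro x y
    show ∑ i, sg (π' i) x y = M (c x) (c y) + (if c x = c y then sg (rel ρ) x y else 0)
    by_cases hc : c x = c y
    · rw [if_pos hc]
      have h1 : ∀ i, sg (π' i) x y = (if Even (i : ℕ) then (1 : ℤ) else -1) *
          sg (rel ρ) x y := by
        intro i
        have n1 : (c x, c y) ∉ π i := by rw [hc]; exact (hπ i).1.1 _
        have n2 : (c y, c x) ∉ π i := by rw [hc]; exact (hπ i).1.1 _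
        have m1 : (x, y) ∈ π' i ↔ τ i x y := by
          rw [hm]
          exact ⟨fun h => h.elim (fun h => absurd h n1) fun h => h.2, fun h => Or.inr ⟨hc, h⟩⟩
        have m2 : (y, x) ∈ π' i ↔ τ i y x := by
          rw [hm]
          exact ⟨fun h => h.elim (fun h => absurd h n2) fun h => h.2,
            fun h => Or.inr ⟨hc.symm, h⟩⟩
        rw [sg_rel]
        by_cases he : Even (i : ℕ)
        · have m1' : (x, y) ∈ π' i ↔ ρ x < ρ y := by rw [m1]; simp only [τ]; rw [if_pos he]
          have m2' : (y, x) ∈ π' i ↔ ρ y < ρ x := by rw [m2]; simp only [τ]; rw [if_pos he]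
          rw [sg_of_iff m1' m2', if_pos he]
          ring
        · have m1' : (x, y) ∈ π' i ↔ ρ y < ρ x := by rw [m1]; simp only [τ]; rw [if_neg he]
          have m2' : (y, x) ∈ π' i ↔ ρ x < ρ y := by rw [m2]; simp only [τ]; rw [if_neg he]
          rw [sg_of_iff m1' m2', if_neg he]
          ring
      have h2 : M (c x) (c y) = 0 := by
        rw [← hM, hc]
        exact Finset.sum_eq_zero fun i _ => sg_diag _ _
      obtain ⟨w, hw⟩ := hv
      rw [Finset.sum_congr rfl fun i _ => h1 i, ← Finset.sum_mul,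
        Fin.sum_univ_eq_sum_range (fun i => if Even i then (1 : ℤ) else -1) v, hw, alt_sum, h2]
      ring
    · rw [if_neg hc, ← hM, add_zero]
      refine Finset.sum_congr rfl fun i _ => ?_
      have m1 : (x, y) ∈ π' i ↔ (c x, c y) ∈ π i := by
        rw [hm]
        exact ⟨fun h => h.elim id fun h => absurd h.1 hc, Or.inl⟩
      have m2 : (y, x) ∈ π' i ↔ (c y, c x) ∈ π i := by
        rw [hm]
        exact ⟨fun h => h.elim id fun h => absurd h.1.symm hc, Or.inl⟩
      rw [sg_of_iff m1 m2]
      rfl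

end Pool.Agent.V11145.Disp
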