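import Mathlib
import Pool.Agent.V11145.Disp8

/-! The lower bound for interval orders for all `n`. -/

namespace Pool.Agent.V11145.Disp

open Finset

variable {X : Type*} [Fintype X] [DecidableEq X]

/-- the total distance of a realised pattern -/
theorem real_cost {v : ℕ} {M : X → X → ℤ} (h : Real v M) :
    ∃ π : Fin v → Finset (X × X), (∀ i, IsLin (π i)) ∧ ∀ s, IsPO s →
      (Delta π s : ℤ) = v * ((Fintype.card X).choose 2 : ℤ) -
        ∑ x, ∑ y, (if (x, y) ∈ s then M x y else 0) := by
  obtain ⟨π, hπ, hM⟩ := h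
  refine ⟨π, hπ, ?_⟩
  intro s hs'
  have hsk : ∀ x y, M y x = - M x y := by
    intro x y
    rw [← hM, ← hM, ← Finset.sum_neg_distrib]
    exact Finset.sum_congr rfl fun i _ => sg_swap _ _ _
  have h1 : 2 * (Delta π s : ℤ) =
      ∑ x : X, ∑ y : X, (if x = y then 0 else (v : ℤ)) - ∑ x, ∑ y, M x y * sg s x y := by
    unfold Delta
    push_cast
    rw [Finset.mul_sum]
    rw [Finset.sum_congr rfl fun i _ => two_delta (hπ i).1 hs', Finset.sum_comm,
      ← Finset.sum_sub_distrib]
    refine Finset.sum_congr rfl fun x _ => ?_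
    rw [Finset.sum_comm, ← Finset.sum_sub_distrib]
    refine Finset.sum_congr rfl fun y _ => ?_
    by_cases hxy : x = y
    · subst hxy; simp [sg_diag]
    · rw [if_neg hxy]
      have : ∀ i, |sg (π i) x y - sg s x y| = 1 - sg (π i) x y * sg s x y := by
        intro i
        rcases sg_lin (hπ i) hxy with h | h <;> rcases sg_val hs' x y with h' | h' | h' <;>
          rw [h, h'] <;> norm_num
      rw [Finset.sum_congr rfl fun i _ => this i, Finset.sum_sub_distrib, ← Finset.sum_mul,
        hM]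
      simp
  have h2 : ∑ x, ∑ y, M x y * sg s x y =
      2 * ∑ x, ∑ y, (if (x, y) ∈ s then M x y else 0) := by
    have e1 : ∑ x, ∑ y, M x y * sg s x y =
        ∑ x, ∑ y, (if (x, y) ∈ s then M x y else 0) +
        ∑ x, ∑ y, (if (y, x) ∈ s then M y x else 0) := by
      rw [← Finset.sum_add_distrib]
      refine Finset.sum_congr rfl fun x _ => ?_
      rw [← Finset.sum_add_distrib]
      refine Finset.sum_congr rfl fun y _ => ?_
      unfold sg
      rw [hsk x y]
      by_cases h1 : (x, y) ∈ s <;> by_cases h2 : (y, x) ∈ s <;> simp [h1, h2]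
    have e2 : ∑ x, ∑ y, (if (y, x) ∈ s then M y x else 0) =
        ∑ x, ∑ y, (if (x, y) ∈ s then M x y else 0) := Finset.sum_comm
    rw [e1, e2]
    ring
  rw [h2, sum_offdiag, choose_two_int] at h1
  linarith

/-- a balanced colouring -/
theorem exists_colour {m b : ℕ} (hb : 0 < b) (hX : Fintype.card X ≤ m * b) :
    ∃ c : X → Fin m, ∀ a, (univ.filter fun x => c x = a).card ≤ b := by
  have hlt : ∀ x : X, (Fintype.equivFin X x : ℕ) / b < m := by
    intro x
    rw [Nat.div_lt_iff_lt_mul hb]
    exact lt_of_lt_of_le (Fintype.equivFin X x).2 hX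
  refine ⟨fun x => ⟨(Fintype.equivFin X x : ℕ) / b, hlt x⟩, fun a => ?_⟩
  have h1 : (univ.filter fun x : X =>
      (⟨(Fintype.equivFin X x : ℕ) / b, hlt x⟩ : Fin m) = a).card ≤
      (Finset.Ico ((a : ℕ) * b) ((a : ℕ) * b + b)).card := by
    refine Finset.card_le_card_of_injOn (fun x => (Fintype.equivFin X x : ℕ)) ?_ ?_
    · intro x hx
      have hx' := (mem_filter.mp (Finset.mem_coe.mp hx)).2
      have h1 : (Fintype.equivFin X x : ℕ) / b = (a : ℕ) := by
        have := congrArg Fin.val hx'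
        simpa using this
      rw [Finset.mem_coe, Finset.mem_Ico]
      have h2 := Nat.div_add_mod (Fintype.equivFin X x : ℕ) b
      have h3 := Nat.mod_lt (Fintype.equivFin X x : ℕ) hb
      rw [h1] at h2
      have h4 : (a : ℕ) * b = b * (a : ℕ) := mul_comm _ _
      show (a : ℕ) * b ≤ (Fintype.equivFin X x : ℕ) ∧
        (Fintype.equivFin X x : ℕ) < (a : ℕ) * b + b
      constructor <;> omega
    · intro x _ y _ h
      exact (Fintype.equivFin X).injective (Fin.ext h)
  rw [Nat.card_Ico, Nat.add_sub_cancel_left] at h1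
  exact h1

/-- lower bound for families of interval orders, all `n` -/
theorem lower_blow {k b : ℕ} (hX : Fintype.card X ≤ 16 ^ k * b) {R : Set (Finset (X × X))}
    (hlin : ∀ r, IsLin r → r ∈ R) (hint : ∀ r ∈ R, IsInterval r) {v : ℕ} (hv : Odd v)
    (hvk : 256 ^ k ≤ v) :
    v * (Fintype.card X).choose 2 ≤ F R v + (2 * 128 ^ k + 16 ^ k) * b ^ 2 := by
  rcases Nat.eq_zero_or_pos b with hb0 | hb0
  · subst hb0
    have : Fintype.card X = 0 := by omega
    rw [this]
    simp
  have hY : Fintype.card (Fin (16 ^ k)) = 2 ^ (4 * k) := by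
    rw [Fintype.card_fin, pow_mul]; norm_num
  obtain ⟨M, hsk, hcol, hpm⟩ := skew_pattern (4 * k) hY
  have h16 : (2 : ℤ) ^ (4 * k) = 16 ^ k := by rw [pow_mul]; norm_num
  rw [h16] at hcol
  have hle : ∀ x y, M x y ≤ 1 := by
    intro x y
    by_cases hxy : x = y
    · subst hxy
      have := hsk x x
      omega
    · rcases hpm x y hxy with h | h <;> rw [h]
      norm_num
  have hreal : Real v M := by
    refine real_pattern hsk hpm hv ?_
    rw [Fintype.card_fin, ← pow_mul, mul_comm k 2, pow_mul]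
    exact hvk
  obtain ⟨c, hc⟩ := exists_colour (X := X) hb0 hX
  have hρ : Function.Injective (fun x : X => (Fintype.equivFin X x : ℕ)) :=
    fun x y h => (Fintype.equivFin X).injective (Fin.ext h)
  obtain ⟨π, hπ, hcost⟩ := real_cost (real_lift hv hreal c hρ)
  obtain ⟨L, -, hL, -, -⟩ := exists_lin (X := X)
  have hgood : Good R v (v * (Fintype.card X).choose 2 - (2 * 128 ^ k + 16 ^ k) * b ^ 2) := by
    refine ⟨π, fun i => hlin _ (hπ i), ?_⟩
    intro s hs
    have hs' := hint s hs
    have h1 := hcost s hs'.1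
    have h2 : ∑ x, ∑ y, (if (x, y) ∈ s then (M (c x) (c y) +
        (if c x = c y then sg (rel fun x : X => (Fintype.equivFin X x : ℕ)) x y else 0)) else 0)
        ≤ ∑ x, ∑ y, (if (x, y) ∈ s then M (c x) (c y) else 0) +
          ∑ x : X, ∑ y : X, (if c y = c x then (1 : ℤ) else 0) := by
      rw [← Finset.sum_add_distrib]
      refine Finset.sum_le_sum fun x _ => ?_
      rw [← Finset.sum_add_distrib]
      refine Finset.sum_le_sum fun y _ => ?_
      have h3 : sg (rel fun x : X => (Fintype.equivFin X x : ℕ)) x y ≤ 1 := by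
        rw [sg_rel]
        split_ifs <;> norm_num
      by_cases hxy : (x, y) ∈ s
      · by_cases hcc : c x = c y
        · rw [if_pos hxy, if_pos hxy, if_pos hcc, if_pos hcc.symm]
          linarith
        · rw [if_pos hxy, if_pos hxy, if_neg hcc, if_neg fun h => hcc h.symm]
      · rw [if_neg hxy, if_neg hxy]
        split_ifs <;> norm_num
    have h4 : ∑ x : X, ∑ y : X, (if c y = c x then (1 : ℤ) else 0) ≤ 16 ^ k * b * b := by
      calc ∑ x : X, ∑ y : X, (if c y = c x then (1 : ℤ) else 0) ≤ ∑ _x : X, (b : ℤ) := by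
            refine Finset.sum_le_sum fun x _ => ?_
            rw [Finset.sum_boole]
            exact_mod_cast hc (c x)
        _ = (Fintype.card X : ℤ) * b := by
            rw [Finset.sum_const, card_univ, nsmul_eq_mul]
        _ ≤ 16 ^ k * b * b := by
            refine mul_le_mul_of_nonneg_right ?_ (by positivity)
            exact_mod_cast hX
    have hKw : Fintype.card X ≤ 2 ^ k * (8 ^ k * b) := by
      refine hX.trans (le_of_eq ?_)
      rw [← mul_assoc, ← mul_pow]
      norm_num
    have h5 := ferrers_score (X := X) (K := 2 ^ k) (w := 8 ^ k * b) (Dn := 64 ^ k * b ^ 2)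
      (by positivity) (by positivity) hKw (M := fun x y => M (c x) (c y))
      (fun A B => disc_blow hcol c hc hX A B) (fun x y => hle _ _) hs'
    have h6 : ((2 ^ k : ℕ) : ℤ) * (64 ^ k * (b : ℤ) ^ 2) +
        (Fintype.card X : ℤ) * ((8 ^ k * b : ℕ) : ℤ) ≤ 2 * 128 ^ k * (b : ℤ) ^ 2 := by
      have h7 : (Fintype.card X : ℤ) * ((8 ^ k * b : ℕ) : ℤ) ≤
          (16 ^ k * b) * (8 ^ k * b) := by
        push_cast
        refine mul_le_mul_of_nonneg_right ?_ (by positivity)
        exact_mod_cast hX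
      have h8 : ((2 ^ k : ℕ) : ℤ) * (64 ^ k * (b : ℤ) ^ 2) = 128 ^ k * (b : ℤ) ^ 2 := by
        push_cast
        rw [← mul_assoc, ← mul_pow]
        norm_num
      have h9 : ((16 : ℤ) ^ k * b) * (8 ^ k * b) = 128 ^ k * (b : ℤ) ^ 2 := by
        have : (128 : ℤ) ^ k = 16 ^ k * 8 ^ k := by rw [← mul_pow]; norm_num
        rw [this]
        ring
      rw [h8]
      rw [h9] at h7
      linarith
    have h10 : (v * (Fintype.card X).choose 2 : ℤ) ≤
        (Delta π s : ℤ) + (2 * 128 ^ k + 16 ^ k) * (b : ℤ) ^ 2 := by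
      rw [h1]
      have e : ((2 : ℤ) * 128 ^ k + 16 ^ k) * (b : ℤ) ^ 2 =
        2 * 128 ^ k * (b : ℤ) ^ 2 + 16 ^ k * b * b := by ring
      rw [e]
      linarith
    have h11 : v * (Fintype.card X).choose 2 ≤
        Delta π s + (2 * 128 ^ k + 16 ^ k) * b ^ 2 := by exact_mod_cast h10
    omega
  have := le_F ⟨L, hlin _ hL⟩ hgood
  omega

end Pool.Agent.V11145.Disp
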