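import Mathlib
import Pool.Agent.V11145.Disp3

/-! Three voters: products with a base structure. -/

namespace Pool.Agent.V11145.Disp

open Finset

variable {X : Type*} [Fintype X] [DecidableEq X]

theorem combineG {m : ℕ} (ρ : Fin 3 → Fin m → ℕ) (hρ : ∀ i, Function.Injective (ρ i))
    (c : X → Fin m) (B : Finset X) (fb : Fin m → Fin 3 → X → ℕ)
    (hfb : ∀ a i, Set.InjOn (fb a i) (B.filter fun x => c x = a : Finset X)) :
    ∃ f : Fin 3 → X → ℕ, (∀ i, Set.InjOn (f i) B) ∧ ∀ s : Finset (X × X),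
      Qs f s B = ∑ a, Qs (fb a) s (B.filter fun x => c x = a) +
        ∑ a, ∑ b, Mg ρ a b * Us s (B.filter fun x => c x = a) (B.filter fun x => c x = b) := by
  classical
  obtain ⟨N, hN⟩ : ∃ N : ℕ, ∀ a i x, fb a i x < N := by
    refine ⟨1 + ∑ a, ∑ i, ∑ x, fb a i x, fun a i x => ?_⟩
    have h1 : fb a i x ≤ ∑ x, fb a i x :=
      Finset.single_le_sum (f := fun x => fb a i x) (fun _ _ => Nat.zero_le _) (mem_univ x)
    have h2 : ∑ x, fb a i x ≤ ∑ i, ∑ x, fb a i x :=
      Finset.single_le_sum (f := fun i => ∑ x, fb a i x) (fun _ _ => Nat.zero_le _) (mem_univ i)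
    have h3 : ∑ i, ∑ x, fb a i x ≤ ∑ a, ∑ i, ∑ x, fb a i x :=
      Finset.single_le_sum (f := fun a => ∑ i, ∑ x, fb a i x) (fun _ _ => Nat.zero_le _)
        (mem_univ a)
    omega
  let f : Fin 3 → X → ℕ := fun i x => ρ i (c x) * N + fb (c x) i x
  have lt_of : ∀ p q a b : ℕ, a < N → b < N → p < q → p * N + a < q * N + b := by
    intro p q a b ha hb hpq
    have : (p + 1) * N ≤ q * N := Nat.mul_le_mul_right _ hpq
    nlinarith
  have hsg : ∀ i x y, sg (rel (f i)) x y = sg (rel (ρ i)) (c x) (c y) +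
      (if c x = c y then sg (rel (fb (c x) i)) x y else 0) := by
    intro i x y
    rw [sg_rel, sg_rel]
    by_cases hc : c x = c y
    · rw [if_pos hc, sg_rel]
      have e1 : f i x = ρ i (c y) * N + fb (c x) i x := by simp only [f]; rw [hc]
      have e2 : f i y = ρ i (c y) * N + fb (c x) i y := by simp only [f]; rw [hc]
      rw [e1, e2, hc]
      simp only [Nat.add_lt_add_iff_left, lt_irrefl, if_false]
      ring
    · rw [if_neg hc, add_zero]
      have hne : ρ i (c x) ≠ ρ i (c y) := fun h => hc (hρ i h)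
      rcases lt_or_gt_of_ne hne with h | h
      · have := lt_of _ _ _ _ (hN (c x) i x) (hN (c y) i y) h
        have e1 : f i x < f i y := this
        rw [if_pos e1, if_neg (by omega), if_pos h, if_neg (by omega)]
      · have := lt_of _ _ _ _ (hN (c y) i y) (hN (c x) i x) h
        have e1 : f i y < f i x := this
        rw [if_neg (by omega), if_pos e1, if_neg (by omega), if_pos h]
  have hMg : ∀ x y, Mg f x y = Mg ρ (c x) (c y) +
      (if c x = c y then Mg (fb (c x)) x y else 0) := by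
    intro x y
    unfold Mg
    rw [Finset.sum_congr rfl fun i _ => hsg i x y, Finset.sum_add_distrib]
    congr 1
    by_cases hc : c x = c y
    · simp [hc]
    · simp [hc]
  refine ⟨f, ?_, ?_⟩
  · intro i x hx y hy hxy
    by_cases hc : c x = c y
    · have e1 : f i x = ρ i (c y) * N + fb (c x) i x := by simp only [f]; rw [hc]
      have e2 : f i y = ρ i (c y) * N + fb (c x) i y := by simp only [f]; rw [hc]
      rw [e1, e2] at hxy
      refine hfb (c x) i ?_ ?_ (by omega)
      · rw [Finset.mem_coe, mem_filter]; exact ⟨hx, rfl⟩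
      · rw [Finset.mem_coe, mem_filter]; exact ⟨hy, hc.symm⟩
    · exfalso
      have hne : ρ i (c x) ≠ ρ i (c y) := fun h => hc (hρ i h)
      rcases lt_or_gt_of_ne hne with h | h
      · have e1 : f i x < f i y := lt_of _ _ _ _ (hN (c x) i x) (hN (c y) i y) h
        omega
      · have e1 : f i y < f i x := lt_of _ _ _ _ (hN (c y) i y) (hN (c x) i x) h
        omega
  · intro s
    have fibsum : ∀ g : X → ℤ, ∑ x ∈ B, g x = ∑ a, ∑ x ∈ B.filter (fun x => c x = a), g x :=
      fun g => (Finset.sum_fiberwise B c g).symm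
    have h1 : Qs f s B = ∑ x ∈ B, ∑ y ∈ B, Mg ρ (c x) (c y) * sg s x y +
        ∑ x ∈ B, ∑ y ∈ B, (if c x = c y then Mg (fb (c x)) x y else 0) * sg s x y := by
      unfold Qs
      rw [← Finset.sum_add_distrib]
      refine Finset.sum_congr rfl fun x _ => ?_
      rw [← Finset.sum_add_distrib]
      refine Finset.sum_congr rfl fun y _ => ?_
      rw [hMg, add_mul]
    have h2 : ∑ x ∈ B, ∑ y ∈ B, Mg ρ (c x) (c y) * sg s x y =
        ∑ a, ∑ b, Mg ρ a b * Us s (B.filter fun x => c x = a) (B.filter fun x => c x = b) := by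
      rw [fibsum]
      refine Finset.sum_congr rfl fun a _ => ?_
      have e : ∀ x ∈ B.filter (fun x => c x = a), ∑ y ∈ B, Mg ρ (c x) (c y) * sg s x y =
          ∑ b, ∑ y ∈ B.filter (fun y => c y = b), Mg ρ a b * sg s x y := by
        intro x hx
        rw [fibsum]
        refine Finset.sum_congr rfl fun b _ => Finset.sum_congr rfl fun y hy => ?_
        rw [(mem_filter.mp hx).2, (mem_filter.mp hy).2]
      rw [Finset.sum_congr rfl e, Finset.sum_comm]
      refine Finset.sum_congr rfl fun b _ => ?_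
      unfold Us
      rw [Finset.mul_sum]
      exact Finset.sum_congr rfl fun x _ => by rw [Finset.mul_sum]
    have h3 : ∑ x ∈ B, ∑ y ∈ B, (if c x = c y then Mg (fb (c x)) x y else 0) * sg s x y =
        ∑ a, Qs (fb a) s (B.filter fun x => c x = a) := by
      rw [fibsum]
      refine Finset.sum_congr rfl fun a _ => ?_
      unfold Qs
      refine Finset.sum_congr rfl fun x hx => ?_
      rw [Finset.sum_filter]
      refine Finset.sum_congr rfl fun y _ => ?_
      have hx' := (mem_filter.mp hx).2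
      by_cases hc : c y = a
      · rw [if_pos hc, if_pos (by rw [hx', hc]), hx']
      · rw [if_neg hc, if_neg (fun h => hc (by rw [← h, hx'])), zero_mul]
    rw [h1, h2, h3]
    ring

/-- indicator of the arcs of a cyclic triple -/
def tri {m : ℕ} (t : Fin m × Fin m × Fin m) (a b : Fin m) : ℤ :=
  (if a = t.1 ∧ b = t.2.1 then 1 else 0) + (if a = t.2.1 ∧ b = t.2.2 then 1 else 0) +
    (if a = t.2.2 ∧ b = t.1 then 1 else 0)

theorem tri_sum {m : ℕ} (t : Fin m × Fin m × Fin m) (U : Fin m → Fin m → ℤ)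
    (hU : ∀ a b, U b a = - U a b) :
    ∑ a, ∑ b, (tri t a b - tri t b a) * U a b =
      2 * (U t.1 t.2.1 + U t.2.1 t.2.2 + U t.2.2 t.1) := by
  have pt : ∀ p q : Fin m, ∑ a, ∑ b, (if a = p ∧ b = q then (1 : ℤ) else 0) * U a b = U p q := by
    intro p q
    rw [Finset.sum_eq_single p, Finset.sum_eq_single q]
    · simp
    · intro b _ hb
      simp [hb]
    · intro h; exact absurd (mem_univ _) h
    · intro a _ ha
      exact Finset.sum_eq_zero fun b _ => by simp [ha]
    · intro h; exact absurd (mem_univ _) h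
  have pt' : ∀ p q : Fin m, ∑ a, ∑ b, (if b = p ∧ a = q then (1 : ℤ) else 0) * U a b =
      U q p := by
    intro p q
    rw [← pt q p]
    refine Finset.sum_congr rfl fun a _ => Finset.sum_congr rfl fun b _ => ?_
    congr 1
    exact if_congr and_comm rfl rfl
  unfold tri
  simp only [sub_mul, add_mul, Finset.sum_sub_distrib, Finset.sum_add_distrib, pt, pt']
  rw [hU t.1 t.2.1, hU t.2.1 t.2.2, hU t.2.2 t.1]
  ring

/-- `n` is tight on `X` -/
def Tight (X : Type*) [Fintype X] [DecidableEq X] (n : ℕ) : Prop :=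
  ∀ B : Finset X, B.card = n → ∃ f : Fin 3 → X → ℕ, (∀ i, Set.InjOn (f i) B) ∧
    ∀ s : Finset (X × X), IsPO s → 3 * Qs f s B ≤ (n : ℤ) * ((n : ℤ) - 1)

theorem tight_one : Tight X 1 := by
  intro B hB
  refine ⟨fun _ _ => 0, ?_, ?_⟩
  · intro i x hx y hy _
    exact Finset.card_le_one.mp (by omega) x hx y hy
  · intro s hs
    have : Qs (fun _ _ => 0) s B = 0 := by
      unfold Qs Mg
      refine Finset.sum_eq_zero fun x _ => Finset.sum_eq_zero fun y _ => ?_
      simp [sg_rel]
    rw [this]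
    norm_num

/-- an exact colouring -/
theorem exact_colour {m b : ℕ} (hb : 0 < b) (hm : 0 < m) (B : Finset X)
    (hB : B.card = m * b) :
    ∃ c : X → Fin m, ∀ a, (B.filter fun x => c x = a).card = b := by
  classical
  let e := B.equivFinOfCardEq hB
  have hlt : ∀ x (h : x ∈ B), (e ⟨x, h⟩ : ℕ) / b < m := by
    intro x h
    rw [Nat.div_lt_iff_lt_mul hb]
    exact (e ⟨x, h⟩).2
  let c : X → Fin m := fun x => if h : x ∈ B then ⟨(e ⟨x, h⟩ : ℕ) / b, hlt x h⟩ else ⟨0, hm⟩
  have hle : ∀ a, (B.filter fun x => c x = a).card ≤ b := by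
    intro a
    have h1 : (B.filter fun x => c x = a).card ≤
        (Finset.Ico ((a : ℕ) * b) ((a : ℕ) * b + b)).card := by
      refine Finset.card_le_card_of_injOn
        (fun x => if h : x ∈ B then (e ⟨x, h⟩ : ℕ) else 0) ?_ ?_
      · intro x hx
        have hx' := mem_filter.mp (Finset.mem_coe.mp hx)
        have h1 : (e ⟨x, hx'.1⟩ : ℕ) / b = (a : ℕ) := by
          have h0 := hx'.2
          simp only [c, dif_pos hx'.1] at h0
          have := congrArg Fin.val h0
          simpa using this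
        rw [Finset.mem_coe, Finset.mem_Ico]
        simp only [dif_pos hx'.1]
        have h2 := Nat.div_add_mod (e ⟨x, hx'.1⟩ : ℕ) b
        have h3 := Nat.mod_lt (e ⟨x, hx'.1⟩ : ℕ) hb
        rw [h1] at h2
        have h4 : (a : ℕ) * b = b * (a : ℕ) := mul_comm _ _
        constructor <;> omega
      · intro x hx y hy h
        have hx' := (mem_filter.mp (Finset.mem_coe.mp hx)).1
        have hy' := (mem_filter.mp (Finset.mem_coe.mp hy)).1
        simp only [dif_pos hx', dif_pos hy'] at h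
        have := e.injective (Fin.ext h)
        exact congrArg Subtype.val this
    rw [Nat.card_Ico, Nat.add_sub_cancel_left] at h1
    exact h1
  refine ⟨c, ?_⟩
  by_contra hcon
  push Not at hcon
  obtain ⟨a, ha⟩ := hcon
  have hlt' : (B.filter fun x => c x = a).card < b := lt_of_le_of_ne (hle a) ha
  have h1 : ∑ a, (B.filter fun x => c x = a).card < ∑ _a : Fin m, b :=
    Finset.sum_lt_sum (fun a _ => hle a) ⟨a, mem_univ _, hlt'⟩
  have h2 : ∑ a, (B.filter fun x => c x = a).card = B.card := by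
    rw [← Finset.card_eq_sum_card_fiberwise fun x _ => mem_univ (c x)]
  rw [h2, hB] at h1
  simp at h1

/-- product with a base structure decomposed into cyclic triples -/
theorem tight_mul {m r : ℕ} (hm : 0 < m) (ρ : Fin 3 → Fin m → ℕ)
    (hρ : ∀ i, Function.Injective (ρ i)) (T : Fin r → Fin m × Fin m × Fin m)
    (hdec : ∀ a b, ∑ i : Fin 3, ((if ρ i a < ρ i b then (1 : ℤ) else 0) -
      (if ρ i b < ρ i a then 1 else 0)) = ∑ j, (tri (T j) a b - tri (T j) b a))
    (hr : 6 * r = m * (m - 1)) {b : ℕ} (h : Tight X b) : Tight X (m * b) := by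
  intro B hB
  rcases Nat.eq_zero_or_pos b with hb | hb
  · subst hb
    have hB0 : B = ∅ := by
      rw [← Finset.card_eq_zero, hB]; rfl
    refine ⟨fun _ _ => 0, ?_, ?_⟩
    · intro i x hx
      rw [hB0] at hx
      simp at hx
    · intro s _
      rw [hB0]
      simp [Qs]
  obtain ⟨c, hc⟩ := exact_colour hb hm B hB
  choose fb hfb hQ using fun a => h (B.filter fun x => c x = a) (hc a)
  obtain ⟨f, hf, hQf⟩ := combineG ρ hρ c B fb hfb
  refine ⟨f, hf, fun s hs => ?_⟩
  rw [hQf s]
  have hMg : ∀ a b', Mg ρ a b' = ∑ j, (tri (T j) a b' - tri (T j) b' a) := by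
    intro a b'
    rw [← hdec]
    unfold Mg
    exact Finset.sum_congr rfl fun i _ => sg_rel _ _ _
  let U : Fin m → Fin m → ℤ := fun a b' =>
    Us s (B.filter fun x => c x = a) (B.filter fun x => c x = b')
  have hU : ∀ a b', U b' a = - U a b' := fun a b' => Us_swap s _ _
  have h1 : ∑ a, ∑ b', Mg ρ a b' * U a b' =
      ∑ j, 2 * (U (T j).1 (T j).2.1 + U (T j).2.1 (T j).2.2 + U (T j).2.2 (T j).1) := by
    calc ∑ a, ∑ b', Mg ρ a b' * U a b'
        = ∑ a, ∑ b', ∑ j, (tri (T j) a b' - tri (T j) b' a) * U a b' := by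
          refine Finset.sum_congr rfl fun a _ => Finset.sum_congr rfl fun b' _ => ?_
          rw [hMg, Finset.sum_mul]
      _ = ∑ a, ∑ j, ∑ b', (tri (T j) a b' - tri (T j) b' a) * U a b' :=
          Finset.sum_congr rfl fun a _ => Finset.sum_comm
      _ = ∑ j, ∑ a, ∑ b', (tri (T j) a b' - tri (T j) b' a) * U a b' := Finset.sum_comm
      _ = _ := Finset.sum_congr rfl fun j _ => tri_sum (T j) U hU
  have hbz : (0 : ℤ) < b := by exact_mod_cast hb
  have h2 : ∀ j, 2 * (U (T j).1 (T j).2.1 + U (T j).2.1 (T j).2.2 + U (T j).2.2 (T j).1) ≤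
      2 * ((b : ℤ) * b) := by
    intro j
    have := Us_triple hs (B.filter fun x => c x = (T j).1) (B.filter fun x => c x = (T j).2.1)
      (B.filter fun x => c x = (T j).2.2)
    rw [hc, hc, hc] at this
    have h3 : (b : ℤ) * (U (T j).1 (T j).2.1 + U (T j).2.1 (T j).2.2 +
        U (T j).2.2 (T j).1) ≤ b * (b * b) := by
      have e : (b : ℤ) * b * b = b * (b * b) := by ring
      rw [← e]
      simp only [U]
      linarith
    have := le_of_mul_le_mul_left h3 hbz
    linarith
  have h4 : ∑ a, Qs (fb a) s (B.filter fun x => c x = a) * 3 ≤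
      ∑ _a : Fin m, ((b : ℤ) * ((b : ℤ) - 1)) := by
    refine Finset.sum_le_sum fun a _ => ?_
    have := hQ a s hs
    linarith
  rw [← Finset.sum_mul, Finset.sum_const, card_univ, Fintype.card_fin, nsmul_eq_mul] at h4
  have h5 : ∑ j : Fin r, 2 * (U (T j).1 (T j).2.1 + U (T j).2.1 (T j).2.2 +
      U (T j).2.2 (T j).1) ≤ ∑ _j : Fin r, 2 * ((b : ℤ) * b) :=
    Finset.sum_le_sum fun j _ => h2 j
  rw [Finset.sum_const, card_univ, Fintype.card_fin, nsmul_eq_mul] at h5
  have hrz : 6 * (r : ℤ) = m * ((m : ℤ) - 1) := by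
    have h6 : ((6 * r : ℕ) : ℤ) = ((m * (m - 1) : ℕ) : ℤ) := by rw [hr]
    push_cast [Nat.cast_sub hm] at h6
    exact h6
  have h7 : ∑ a, ∑ b', Mg ρ a b' * Us s (B.filter fun x => c x = a)
      (B.filter fun x => c x = b') ≤ (r : ℤ) * (2 * ((b : ℤ) * b)) := by
    have := h1 ▸ h5
    exact this
  push_cast
  have h8 : (r : ℤ) * (2 * ((b : ℤ) * b)) * 3 = m * ((m : ℤ) - 1) * (b * b) := by
    rw [← hrz]; ring
  nlinarith

end Pool.Agent.V11145.Disp
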