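import Mathlib
import Pool.Agent.V11145.Disp10

/-! Base structures. -/

namespace Pool.Agent.V11145.Disp

open Finset

/-- three orders on 3 points -/
def ord3 : Fin 3 → Fin 3 → ℕ :=
  ![![0, 1, 2],
    ![2, 0, 1],
    ![1, 2, 0]]

/-- a decomposition into cyclic triples -/
def trp3 : Fin 1 → Fin 3 × Fin 3 × Fin 3 :=
  ![(0, 1, 2)]

theorem tight_3 {X : Type*} [Fintype X] [DecidableEq X] {b : ℕ} (h : Tight X b) :
    Tight X (3 * b) :=
  tight_mul (by norm_num) ord3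
    (by
      have : ∀ i a b, ord3 i a = ord3 i b → a = b := by decide +kernel
      exact fun i a b h => this i a b h)
    trp3 (by decide +kernel) (by norm_num) h

/-- three orders on 7 points -/
def ord7 : Fin 3 → Fin 7 → ℕ :=
  ![![0, 1, 2, 3, 4, 5, 6],
    ![5, 6, 2, 0, 4, 1, 3],
    ![4, 2, 5, 6, 1, 3, 0]]

/-- a decomposition into cyclic triples -/
def trp7 : Fin 7 → Fin 7 × Fin 7 × Fin 7 :=
  ![(0, 1, 5), (0, 2, 6), (0, 3, 4), (1, 2, 4), (1, 3, 6), (2, 3, 5), (4, 5, 6)]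

theorem tight_7 {X : Type*} [Fintype X] [DecidableEq X] {b : ℕ} (h : Tight X b) :
    Tight X (7 * b) :=
  tight_mul (by norm_num) ord7
    (by
      have : ∀ i a b, ord7 i a = ord7 i b → a = b := by decide +kernel
      exact fun i a b h => this i a b h)
    trp7 (by decide +kernel) (by norm_num) h

/-- three orders on 13 points -/
def ord13 : Fin 3 → Fin 13 → ℕ :=
  ![![0, 1, 2, 3, 4, 5, 6, 7, 8, 9, 10, 11, 12],
    ![8, 11, 7, 3, 12, 10, 5, 0, 9, 1, 4, 2, 6],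
    ![10, 6, 9, 12, 2, 3, 7, 11, 1, 8, 4, 5, 0]]

/-- a decomposition into cyclic triples -/
def trp13 : Fin 26 → Fin 13 × Fin 13 × Fin 13 :=
  ![(0, 1, 2), (0, 3, 12), (0, 4, 6), (0, 5, 11), (0, 7, 9), (0, 8, 10), (1, 3, 8), (1, 4, 5), (1, 6, 12), (1, 7, 10), (1, 9, 11), (2, 3, 6), (2, 4, 10), (2, 5, 9), (2, 7, 12), (2, 8, 11), (3, 4, 9), (3, 5, 7), (3, 10, 11), (4, 7, 8), (4, 11, 12), (5, 6, 8), (5, 10, 12), (6, 7, 11), (6, 9, 10), (8, 9, 12)]

theorem tight_13 {X : Type*} [Fintype X] [DecidableEq X] {b : ℕ} (h : Tight X b) :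
    Tight X (13 * b) :=
  tight_mul (by norm_num) ord13
    (by
      have : ∀ i a b, ord13 i a = ord13 i b → a = b := by decide +kernel
      exact fun i a b h => this i a b h)
    trp13 (by decide +kernel) (by norm_num) h

/-- three orders on 15 points -/
def ord15 : Fin 3 → Fin 15 → ℕ :=
  ![![0, 1, 2, 3, 4, 5, 6, 7, 8, 9, 10, 11, 12, 13, 14],
    ![12, 9, 14, 5, 10, 2, 13, 6, 1, 8, 11, 0, 3, 7, 4],
    ![9, 11, 5, 13, 7, 14, 2, 8, 12, 4, 0, 10, 6, 1, 3]]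

/-- a decomposition into cyclic triples -/
def trp15 : Fin 35 → Fin 15 × Fin 15 × Fin 15 :=
  ![(0, 1, 4), (0, 2, 7), (0, 3, 10), (0, 5, 13), (0, 6, 9), (0, 8, 12), (0, 11, 14), (1, 2, 11), (1, 3, 9), (1, 5, 7), (1, 6, 14), (1, 8, 13), (1, 10, 12), (2, 3, 13), (2, 4, 6), (2, 5, 9), (2, 8, 10), (2, 12, 14), (3, 4, 11), (3, 5, 14), (3, 6, 12), (3, 7, 8), (4, 5, 12), (4, 7, 9), (4, 8, 14), (4, 10, 13), (5, 6, 8), (5, 10, 11), (6, 7, 10), (6, 11, 13), (7, 11, 12), (7, 13, 14), (8, 9, 11), (9, 10, 14), (9, 12, 13)]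

theorem tight_15 {X : Type*} [Fintype X] [DecidableEq X] {b : ℕ} (h : Tight X b) :
    Tight X (15 * b) :=
  tight_mul (by norm_num) ord15
    (by
      have : ∀ i a b, ord15 i a = ord15 i b → a = b := by decide +kernel
      exact fun i a b h => this i a b h)
    trp15 (by decide +kernel) (by norm_num) h

/-- three orders on 19 points -/
def ord19 : Fin 3 → Fin 19 → ℕ :=
  ![![0, 1, 2, 3, 4, 5, 6, 7, 8, 9, 10, 11, 12, 13, 14, 15, 16, 17, 18],
    ![14, 16, 9, 6, 17, 7, 18, 15, 2, 10, 8, 4, 1, 13, 11, 12, 0, 3, 5],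
    ![13, 10, 16, 18, 6, 15, 3, 5, 17, 8, 9, 12, 14, 1, 2, 0, 11, 7, 4]]

/-- a decomposition into cyclic triples -/
def trp19 : Fin 57 → Fin 19 × Fin 19 × Fin 19 :=
  ![(0, 1, 16), (0, 2, 15), (0, 3, 14), (0, 4, 11), (0, 5, 10), (0, 6, 18), (0, 7, 17), (0, 8, 9), (0, 12, 13), (1, 2, 14), (1, 3, 7), (1, 4, 9), (1, 5, 15), (1, 6, 17), (1, 8, 10), (1, 11, 13), (1, 12, 18), (2, 3, 5), (2, 4, 12), (2, 6, 11), (2, 7, 16), (2, 8, 18), (2, 9, 10), (2, 13, 17), (3, 4, 16), (3, 6, 8), (3, 9, 12), (3, 10, 11), (3, 13, 18), (3, 15, 17), (4, 5, 13), (4, 6, 7), (4, 8, 14), (4, 10, 15), (4, 17, 18), (5, 6, 16), (5, 7, 12), (5, 8, 17), (5, 9, 11), (5, 14, 18), (6, 9, 13), (6, 10, 14), (6, 12, 15), (7, 8, 15), (7, 9, 14), (7, 10, 13), (7, 11, 18), (8, 11, 12), (8, 13, 16), (9, 15, 18), (9, 16, 17), (10, 12, 17), (10, 16, 18), (11, 14, 17), (11, 15, 16), (12, 14, 16), (13, 14, 15)]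

theorem tight_19 {X : Type*} [Fintype X] [DecidableEq X] {b : ℕ} (h : Tight X b) :
    Tight X (19 * b) :=
  tight_mul (by norm_num) ord19
    (by
      have : ∀ i a b, ord19 i a = ord19 i b → a = b := by decide +kernel
      exact fun i a b h => this i a b h)
    trp19 (by decide +kernel) (by norm_num) h

end Pool.Agent.V11145.Disp
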