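import Mathlib
import Pool.Agent.V11145.Disp11

/-! Three voters: exact values on a multiplicative set of `n`. -/

namespace Pool.Agent.V11145.Disp

open Finset

variable {X : Type*} [Fintype X] [DecidableEq X]

theorem tight_closure {n : ℕ} (h : n ∈ Submonoid.closure ({3, 7, 13, 15, 19} : Set ℕ)) :
    Tight X n := by
  induction h using Submonoid.closure_induction_left with
  | one => exact tight_one
  | mul_left x hx y _ ih =>
    rcases hx with rfl | rfl | rfl | rfl | rfl
    · exact tight_3 ih
    · exact tight_7 ih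
    · exact tight_13 ih
    · exact tight_15 ih
    · exact tight_19 ih

/-- a profile of three linear orders, tight case -/
theorem good_three_tight {R : Set (Finset (X × X))} (hlin : ∀ r, IsLin r → r ∈ R)
    (hpo : ∀ r ∈ R, IsPO r) (ht : Tight X (Fintype.card X)) :
    ∃ m, Good R 3 m ∧ 8 * (Fintype.card X).choose 2 ≤ 3 * m := by
  obtain ⟨f, hf, hq⟩ := ht univ card_univ
  have hinj : ∀ i, Function.Injective (f i) := by
    intro i
    have := hf i
    rw [Finset.coe_univ] at this
    exact Set.injOn_univ.mp this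
  have hL : ∀ i, IsLin (rel (f i)) := fun i => rel_lin (hinj i)
  refine ⟨(8 * (Fintype.card X).choose 2 + 2) / 3,
    ⟨fun i => rel (f i), fun i => hlin _ (hL i), ?_⟩, by omega⟩
  intro s hs
  have hs' := hpo s hs
  have h1 : 2 * (Delta (fun i => rel (f i)) s : ℤ) =
      ∑ x : X, ∑ y : X, (if x = y then 0 else (3 : ℤ)) - Qs f s univ := by
    unfold Delta Qs
    push_cast
    rw [Finset.mul_sum]
    rw [Finset.sum_congr rfl fun i _ => two_delta (hL i).1 hs', Finset.sum_comm,
      ← Finset.sum_sub_distrib]
    refine Finset.sum_congr rfl fun x _ => ?_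
    rw [Finset.sum_comm, ← Finset.sum_sub_distrib]
    refine Finset.sum_congr rfl fun y _ => ?_
    by_cases hxy : x = y
    · subst hxy; simp [sg_diag]
    · rw [if_neg hxy]
      have : ∀ i, |sg (rel (f i)) x y - sg s x y| = 1 - sg (rel (f i)) x y * sg s x y := by
        intro i
        rcases sg_lin (hL i) hxy with h | h <;> rcases sg_val hs' x y with h' | h' | h' <;>
          rw [h, h'] <;> norm_num
      rw [Finset.sum_congr rfl fun i _ => this i, Finset.sum_sub_distrib, ← Finset.sum_mul]
      unfold Mg
      simp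
  rw [sum_offdiag, choose_two_int] at h1
  have h2 := hq s hs'
  rw [choose_two_int] at h2
  omega

/-- lower bound for odd `v ≥ 3`, tight case -/
theorem lower_odd_tight {R : Set (Finset (X × X))} (hlin : ∀ r, IsLin r → r ∈ R)
    (hpo : ∀ r ∈ R, IsPO r) (ht : Tight X (Fintype.card X)) (p : ℕ) :
    (6 * p + 8) * (Fintype.card X).choose 2 ≤ 3 * F R (2 * p + 3) := by
  obtain ⟨L, -, hL, -, -⟩ := exists_lin (X := X)
  obtain ⟨m, hm, hm2⟩ := good_three_tight hlin hpo ht
  have h := le_F ⟨L, hlin _ hL⟩ (good_add (good_even hlin hpo p) hm)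
  nlinarith

end Pool.Agent.V11145.Disp
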