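import Pool.Agent.V11145.MajorStep

set_option autoImplicit false

/-!
# Asymptotically sharp lower bound for all threshold lists
-/

namespace Pool.Agent.V11145.Maj

open Finset Classical

variable {V : Type}

theorem step_real (G : SimpleGraph V) (W : Finset V) {v s : ℕ} (l : List ℕ) (c : ℕ) (hv : 2 ≤ v)
    (hT : Thr G W 0 (List.replicate (s + 1) v ++ l)) (hcP : c ≤ P l)
    (ih : ∀ W' : Finset V, Thr G W' 0 l → c ≤ kc G W' (l.length + 1)) :
    (v : ℝ) ^ s * c * (1 - 2 ^ (s + 1 + (l.length + 1) + 3) *
      ((s + 1 + (l.length + 1)).factorial : ℝ) / v) ≤ kc G W (s + 1 + (l.length + 1)) := by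
  have h := step_nat G W l c hT hcP ih
  set R := s + 1 + (l.length + 1) with hR
  set B := (v + 1) / 3 with hB
  set Q := kc G W R with hQ
  have hB1 : 1 ≤ B := by omega
  have hB4 : v ≤ 4 * B := by omega
  have hf : (l.length + 1).factorial + R ≤ 2 * R.factorial := by
    have h1 : (l.length + 1).factorial ≤ R.factorial := Nat.factorial_le (by omega)
    have h2 := Nat.self_le_factorial R
    omega
  have h2 : v ^ s * (B * c) ≤ Q * (B + 2 ^ (R + 1) * R.factorial) := by
    refine h.trans (Nat.mul_le_mul_left _ (Nat.add_le_add_left ?_ _))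
    calc 2 ^ R * ((l.length + 1).factorial + R) ≤ 2 ^ R * (2 * R.factorial) :=
          Nat.mul_le_mul_left _ hf
      _ = 2 ^ (R + 1) * R.factorial := by ring
  have h3 : (v : ℝ) ^ s * (B * c) ≤ Q * (B + 2 ^ (R + 1) * (R.factorial : ℝ)) := by
    exact_mod_cast h2
  set Z : ℝ := 2 ^ (R + 1) * (R.factorial : ℝ) with hZ
  have hZ0 : 0 ≤ Z := by positivity
  have hBr : (0 : ℝ) < B := by exact_mod_cast hB1
  have hvr : (0 : ℝ) < v := by exact_mod_cast (by omega : 0 < v)
  have hQ0 : (0 : ℝ) ≤ Q := Nat.cast_nonneg _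
  have hA0 : (0 : ℝ) ≤ (v : ℝ) ^ s * c := by positivity
  have e1 : (2 : ℝ) ^ (R + 3) * (R.factorial : ℝ) / v = 4 * Z / v := by
    rw [hZ]; ring
  rw [e1]
  rcases le_or_gt (1 - 4 * Z / v) 0 with hneg | hpos
  · exact (mul_nonpos_of_nonneg_of_nonpos hA0 hneg).trans hQ0
  · have h4 : Z / B ≤ 4 * Z / v := by
      rw [div_le_div_iff₀ hBr hvr]
      have : (v : ℝ) ≤ 4 * B := by exact_mod_cast hB4
      nlinarith
    have h5 : (v : ℝ) ^ s * c ≤ Q * (1 + Z / B) := by
      have : (v : ℝ) ^ s * c * B ≤ Q * (1 + Z / B) * B := by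
        have e2 : (Q : ℝ) * (1 + Z / B) * B = Q * (B + Z) := by
          field_simp
        rw [e2]
        calc (v : ℝ) ^ s * c * B = (v : ℝ) ^ s * (B * c) := by ring
          _ ≤ _ := h3
      exact le_of_mul_le_mul_right this hBr
    have h6 : 0 ≤ 1 - Z / B := by linarith
    have h7 : 0 ≤ Z / B := by positivity
    calc (v : ℝ) ^ s * c * (1 - 4 * Z / v) ≤ (v : ℝ) ^ s * c * (1 - Z / B) :=
          mul_le_mul_of_nonneg_left (by linarith) hA0
      _ ≤ Q * (1 + Z / B) * (1 - Z / B) := mul_le_mul_of_nonneg_right h5 h6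
      _ = Q * (1 - (Z / B) ^ 2) := by ring
      _ ≤ Q * 1 := mul_le_mul_of_nonneg_left (by nlinarith [sq_nonneg (Z / B)]) hQ0
      _ = Q := mul_one _

/-- number of blocks -/
def cls : List ℕ → ℕ
  | [] => 0
  | a :: l => asc (a :: l) + 1

theorem cls_le : ∀ l : List ℕ, cls l ≤ l.length := by
  intro l
  cases l with
  | nil => simp [cls]
  | cons a l =>
    have := asc_le l a
    simp only [cls, List.length_cons]
    omega

theorem decomp : ∀ (l : List ℕ) (a : ℕ),
    a :: l = List.replicate (eqc a l + 1) a ++ l.drop (eqc a l) ∧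
      cls (a :: l) = 1 + cls (l.drop (eqc a l)) := by
  intro l
  induction l with
  | nil => intro a; simp [eqc, cls, asc]
  | cons b l ih =>
    intro a
    by_cases hb : b = a
    · subst hb
      obtain ⟨h1, h2⟩ := ih b
      have e1 : eqc b (b :: l) = eqc b l + 1 := by simp [eqc]
      rw [e1]
      refine ⟨?_, ?_⟩
      · rw [List.drop_succ_cons, List.replicate_succ, List.cons_append, ← h1]
      · rw [List.drop_succ_cons, ← h2]
        simp [cls, asc]
    · have e1 : eqc a (b :: l) = 0 := by simp [eqc, hb]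
      rw [e1]
      refine ⟨by simp, ?_⟩
      have : ¬ a = b := fun h => hb h.symm
      simp only [List.drop_zero, cls, asc, if_neg this]
      omega

theorem pow_le_P (t : ℕ) (ht : 1 ≤ t) : ∀ l : List ℕ, l.Pairwise (· ≤ ·) → (∀ x ∈ l, t ≤ x) →
    t ^ (l.length - cls l) ≤ P l := by
  intro l hp hall
  cases l with
  | nil => simp [cls, P]
  | cons a l =>
    have h := P_ge t l a (hall a (by simp)) hp
    have e : (a :: l).length - cls (a :: l) = l.length - asc (a :: l) := by
      simp only [List.length_cons, cls]; omega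
    rw [e]
    refine le_trans ?_ h
    exact Nat.le_mul_of_pos_left _ (Nat.factorial_pos _)

theorem asym_lower (G : SimpleGraph V) {t : ℕ} (ht : 2 ≤ t) {C : ℝ} : ∀ (n : ℕ) (l : List ℕ),
    l.length = n → l.Pairwise (· ≤ ·) → (∀ x ∈ l, t ≤ x) →
    (∀ R : ℕ, R ≤ n + 1 → 2 ^ (R + 3) * (R.factorial : ℝ) ≤ C) → 0 ≤ 1 - C / t →
    ∀ W : Finset V, Thr G W 0 l →
      (t : ℝ) ^ (l.length - cls l) * (1 - C / t) ^ (cls l) ≤ kc G W (l.length + 1) := by
  intro n
  induction n using Nat.strong_induction_on with
  | _ n ih =>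
    intro l hl hp hall hC hρ W hT
    have hC0 : 0 ≤ C := le_trans (by positivity) (hC 0 (Nat.zero_le _))
    have htr : (0 : ℝ) < t := by exact_mod_cast (by omega : 0 < t)
    have hρ1 : 1 - C / t ≤ 1 := by
      have : 0 ≤ C / t := by positivity
      linarith
    cases l with
    | nil =>
      simp only [List.length_nil, cls, Nat.sub_self, pow_zero, one_mul, Nat.zero_add]
      rw [kc_one]
      have h1 : 1 ≤ W.card := by
        have := hT
        simp only [Thr] at this
        omega
      exact_mod_cast h1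
    | cons a l1 =>
      obtain ⟨hd, hcls⟩ := decomp l1 a
      set s := eqc a l1 with hs
      set l' := l1.drop s with hl'
      have hlen : (a :: l1).length = s + 1 + l'.length := by
        conv_lhs => rw [hd]
        rw [List.length_append, List.length_replicate]
      have hta : t ≤ a := hall a (by simp)
      have hp' : l'.Pairwise (· ≤ ·) := (List.pairwise_cons.1 hp).2.sublist (List.drop_sublist _ _)
      have hall' : ∀ x ∈ l', t ≤ x := fun x hx =>
        hall x (List.mem_cons_of_mem _ (List.mem_of_mem_drop hx))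
      set x : ℝ := (t : ℝ) ^ (l'.length - cls l') * (1 - C / t) ^ (cls l') with hx
      have hx0 : 0 ≤ x := by positivity
      have hIH : ∀ W' : Finset V, Thr G W' 0 l' → ⌈x⌉₊ ≤ kc G W' (l'.length + 1) := by
        intro W' hW'
        rw [Nat.ceil_le]
        apply ih l'.length (by omega) l' rfl hp' hall' _ hρ W' hW'
        intro R hR
        exact hC R (by omega)
      have hcP : ⌈x⌉₊ ≤ P l' := by
        rw [Nat.ceil_le]
        have h1 : ((t ^ (l'.length - cls l') : ℕ) : ℝ) ≤ (P l' : ℝ) := by
          exact_mod_cast pow_le_P t (by omega) l' hp' hall'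
        refine le_trans ?_ h1
        rw [hx]
        push_cast
        exact mul_le_of_le_one_right (by positivity) (pow_le_one₀ hρ hρ1)
      have hT' : Thr G W 0 (List.replicate (s + 1) a ++ l') := by rw [← hd]; exact hT
      have h := step_real G W l' ⌈x⌉₊ (by omega) hT' hcP hIH
      have hR : s + 1 + (l'.length + 1) = (a :: l1).length + 1 := by omega
      rw [hR] at h
      refine le_trans ?_ h
      have har : (t : ℝ) ≤ a := by exact_mod_cast hta
      have h1 : (t : ℝ) ^ s ≤ (a : ℝ) ^ s := pow_le_pow_left₀ htr.le har s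
      have h2 : x ≤ (⌈x⌉₊ : ℝ) := Nat.le_ceil x
      have h3 : 1 - C / t ≤ 1 - 2 ^ ((a :: l1).length + 1 + 3) *
          (((a :: l1).length + 1).factorial : ℝ) / a := by
        have h4 := hC ((a :: l1).length + 1) (by omega)
        have h5 : 2 ^ ((a :: l1).length + 1 + 3) * (((a :: l1).length + 1).factorial : ℝ) / a ≤
            C / t := div_le_div₀ hC0 h4 htr har
        linarith
      have e1 : (a :: l1).length - cls (a :: l1) = s + (l'.length - cls l') := by
        have := cls_le l'
        omega
      rw [e1, hcls, pow_add, pow_add, pow_one]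
      calc (t : ℝ) ^ s * (t : ℝ) ^ (l'.length - cls l') * ((1 - C / t) * (1 - C / t) ^ cls l')
          = (t : ℝ) ^ s * x * (1 - C / t) := by rw [hx]; ring
        _ ≤ (a : ℝ) ^ s * ⌈x⌉₊ * (1 - 2 ^ ((a :: l1).length + 1 + 3) *
              (((a :: l1).length + 1).factorial : ℝ) / a) := by
            apply mul_le_mul (mul_le_mul h1 h2 hx0 (by positivity)) h3 hρ (by positivity)

/-- The asymptotically sharp lower bound. -/
theorem lower_asym {n : ℕ} (G : SimpleGraph (Fin n)) {t r δ j : ℕ} (hr : 1 ≤ r) (ht : 1 ≤ t)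
    (hn : n = r * t + δ) (hj : j = r ∨ δ ≤ (j + 1).choose 2) (hjr : j ≤ r)
    (hle : ∀ v, t ≤ cd G univ v) (hex : ∃ v, cd G univ v = t)
    (hnon : NonMajorizable r G) :
    t ^ (r - j) * t ≤ t * {S : Finset (Fin n) | G.IsNClique (r + 1) S}.ncard +
      r * 2 ^ (r + 4) * (r + 1).factorial * t ^ (r - j) := by
  set D := r * 2 ^ (r + 4) * (r + 1).factorial with hD
  rcases le_or_gt t D with htD | htD
  · have : t ^ (r - j) * t ≤ D * t ^ (r - j) := by
      rw [mul_comm]
      exact Nat.mul_le_mul_right _ htD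
    omega
  · obtain ⟨l, hl, hp, hT, hs⟩ := thr_of_nonmaj G hr hle hex hnon
    have hall : ∀ x ∈ l, t ≤ x := (List.pairwise_cons.1 hp).1
    have hall' : ∀ x ∈ t :: l, t ≤ x := by
      intro x hx
      rcases List.mem_cons.1 hx with h | h
      · omega
      · exact hall x h
    have hD0 : 2 ^ (r + 4) * (r + 1).factorial ≤ D := by
      rw [hD, mul_assoc]
      exact Nat.le_mul_of_pos_left _ hr
    have hC0 : 0 < 2 ^ (r + 4) * (r + 1).factorial := by positivity
    have htr : (0 : ℝ) < t := by exact_mod_cast (by omega : 0 < t)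
    set C : ℝ := 2 ^ (r + 4) * ((r + 1).factorial : ℝ) with hC
    have hCr : (r : ℝ) * C = D := by rw [hC, hD]; push_cast; ring
    have hCD : C ≤ D := by rw [hC]; exact_mod_cast hD0
    have hC0' : 0 ≤ C := by positivity
    have htDr : (D : ℝ) < t := by exact_mod_cast htD
    have hρ : 0 ≤ 1 - C / t := by
      have : C / t ≤ 1 := by
        rw [div_le_one htr]; linarith
      linarith
    have h := asym_lower G (t := t) (by omega) (C := C) (t :: l).length (t :: l) rfl hp hall' (by
      intro R hR
      rw [List.length_cons, hl] at hR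
      have h1 : (2 : ℝ) ^ (R + 3) ≤ 2 ^ (r + 4) := pow_le_pow_right₀ (by norm_num) (by omega)
      have h2 : (R.factorial : ℝ) ≤ (r + 1).factorial := by
        exact_mod_cast Nat.factorial_le hR
      exact mul_le_mul h1 h2 (by positivity) (by positivity)) hρ univ hT
    have hlr : (t :: l).length = r := by rw [List.length_cons, hl]
    rw [hlr, kc_univ] at h
    set k := {S : Finset (Fin n) | G.IsNClique (r + 1) S}.ncard with hk
    -- number of blocks
    have h2 := sum_sub l t hall
    have h3 := asc_sum l t hp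
    rw [List.sum_cons] at hs
    have h6 : r * t = l.length * t + t := by rw [← hl]; ring
    set σ := (l.map (fun x => x - t)).sum with hσ
    have hcj : cls (t :: l) ≤ j := by
      rcases hj with hj | hj
      · have := cls_le (t :: l)
        rw [hlr] at this
        omega
      · by_contra hcon
        push Not at hcon
        have h9 : j + 1 ≤ asc (t :: l) + 1 := by
          have : cls (t :: l) = asc (t :: l) + 1 := rfl
          omega
        have h10 := Nat.choose_le_choose 2 h9
        omega
    have hcr : cls (t :: l) ≤ r := hcj.trans hjr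
    have hbern : 1 - (D : ℝ) / t ≤ (1 - C / t) ^ cls (t :: l) := by
      have h7 := one_add_mul_le_pow (a := -(C / t)) (by linarith) (cls (t :: l))
      have h8 : (1 : ℝ) + -(C / t) = 1 - C / t := by ring
      rw [h8] at h7
      refine le_trans ?_ h7
      have h9 : (cls (t :: l) : ℝ) ≤ r := by exact_mod_cast hcr
      have h10 : 0 ≤ C / t := by positivity
      have h11 : (D : ℝ) / t = r * (C / t) := by rw [← hCr]; ring
      rw [h11]
      nlinarith
    have hDt : 0 ≤ 1 - (D : ℝ) / t := by
      have : (D : ℝ) / t ≤ 1 := by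
        rw [div_le_one htr]; linarith
      linarith
    have h12 : (t : ℝ) ^ (r - j) ≤ (t : ℝ) ^ (r - cls (t :: l)) :=
      pow_le_pow_right₀ (by exact_mod_cast (by omega : 1 ≤ t)) (by omega)
    have h13 : (t : ℝ) ^ (r - j) * (1 - (D : ℝ) / t) ≤ k := by
      refine le_trans ?_ h
      exact mul_le_mul h12 hbern hDt (by positivity)
    have h14 : (t : ℝ) ^ (r - j) * t ≤ t * k + D * (t : ℝ) ^ (r - j) := by
      have h15 := mul_le_mul_of_nonneg_right h13 htr.le
      have h16 : (t : ℝ) ^ (r - j) * (1 - (D : ℝ) / t) * t =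
          (t : ℝ) ^ (r - j) * t - D * (t : ℝ) ^ (r - j) := by
        field_simp
      rw [h16] at h15
      linarith
    exact_mod_cast h14

end Pool.Agent.V11145.Maj
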