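import Mathlib

/-!
# Counting eigenvalues with subspaces
-/

namespace Pool.Agent.V11145.Inertia

open Matrix Finset

variable {n : Type} [Fintype n] [DecidableEq n]

/-- The quadratic form in the eigenvector basis. -/
lemma form_eq (A : Matrix n n ℝ) (h : A.IsHermitian) (v : n → ℝ) :
    v ⬝ᵥ (A *ᵥ v) = ∑ j, h.eigenvalues j * (v ⬝ᵥ (h.eigenvectorBasis j).ofLp) ^ 2 := by
  have hsym : ∀ x y : n → ℝ, x ⬝ᵥ (A *ᵥ y) = y ⬝ᵥ (A *ᵥ x) := by
    intro x y
    have hT : Aᵀ = A := by
      have := h.eq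
      rwa [Matrix.conjTranspose_eq_transpose_of_trivial] at this
    rw [Matrix.dotProduct_mulVec, dotProduct_comm, ← Matrix.mulVec_transpose, hT]
  have h1 := OrthonormalBasis.sum_inner_mul_inner h.eigenvectorBasis
    (WithLp.toLp 2 v : EuclideanSpace ℝ n) (WithLp.toLp 2 (A *ᵥ v) : EuclideanSpace ℝ n)
  have h2 : inner ℝ (WithLp.toLp 2 v : EuclideanSpace ℝ n)
      (WithLp.toLp 2 (A *ᵥ v) : EuclideanSpace ℝ n) = v ⬝ᵥ (A *ᵥ v) := by
    rw [EuclideanSpace.inner_eq_star_dotProduct]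
    simp [dotProduct_comm]
  rw [h2] at h1
  rw [← h1]
  apply Finset.sum_congr rfl
  intro j _
  have h3 : inner ℝ (WithLp.toLp 2 v : EuclideanSpace ℝ n) (h.eigenvectorBasis j)
      = v ⬝ᵥ (h.eigenvectorBasis j).ofLp := by
    rw [EuclideanSpace.inner_eq_star_dotProduct]
    simp [dotProduct_comm]
  have h4 : inner ℝ (h.eigenvectorBasis j) (WithLp.toLp 2 (A *ᵥ v) : EuclideanSpace ℝ n)
      = h.eigenvalues j * (v ⬝ᵥ (h.eigenvectorBasis j).ofLp) := by
    rw [EuclideanSpace.inner_eq_star_dotProduct]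
    simp only [star_trivial]
    rw [dotProduct_comm, hsym, h.mulVec_eigenvectorBasis j, dotProduct_smul, smul_eq_mul]
  rw [h3, h4]
  ring

/-- If the form has sign `s` on the image of a linear map from `ℝ^p` (away from zero), there are
at least `p` eigenvalues of sign `s`. -/
lemma card_ge (A : Matrix n n ℝ) (h : A.IsHermitian) (s : ℝ) (p : ℕ)
    (w : (Fin p → ℝ) →ₗ[ℝ] (n → ℝ)) (hw : ∀ x, x ≠ 0 → 0 < s * ((w x) ⬝ᵥ (A *ᵥ (w x)))) :
    p ≤ (univ.filter (fun j => 0 < s * h.eigenvalues j)).card := by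
  classical
  by_contra hcon
  push Not at hcon
  set P := univ.filter (fun j => 0 < s * h.eigenvalues j) with hP
  let T : (Fin p → ℝ) →ₗ[ℝ] (P → ℝ) := LinearMap.pi (fun j =>
    ((LinearMap.lsum ℝ (fun _ : n => ℝ) ℝ
      (fun i => (h.eigenvectorBasis j.1).ofLp i • LinearMap.id)) ∘ₗ w))
  have hT : ∀ x j, T x j = (w x) ⬝ᵥ (h.eigenvectorBasis j.1).ofLp := by
    intro x j
    simp only [T, LinearMap.pi_apply, LinearMap.comp_apply, LinearMap.lsum_apply,
      LinearMap.sum_apply, LinearMap.smul_apply, LinearMap.id_apply, LinearMap.proj_apply,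
      smul_eq_mul, dotProduct]
    apply Finset.sum_congr rfl
    intro i _
    ring
  have hrank : Module.finrank ℝ (P → ℝ) < Module.finrank ℝ (Fin p → ℝ) := by
    simp only [Module.finrank_fintype_fun_eq_card, Fintype.card_coe, Fintype.card_fin]
    exact hcon
  have hker : LinearMap.ker T ≠ ⊥ := LinearMap.ker_ne_bot_of_finrank_lt hrank
  obtain ⟨x, hx, hx0⟩ := Submodule.exists_mem_ne_zero_of_ne_bot hker
  rw [LinearMap.mem_ker] at hx
  have hc : ∀ j ∈ P, (w x) ⬝ᵥ (h.eigenvectorBasis j).ofLp = 0 := by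
    intro j hj
    have := congrFun hx ⟨j, hj⟩
    rw [hT] at this
    exact this
  have h1 := hw x hx0
  rw [form_eq A h, Finset.mul_sum] at h1
  have h2 : ∑ j, s * (h.eigenvalues j * ((w x) ⬝ᵥ (h.eigenvectorBasis j).ofLp) ^ 2) ≤ 0 := by
    apply Finset.sum_nonpos
    intro j _
    by_cases hj : j ∈ P
    · rw [hc j hj]; simp
    · have hj' : s * h.eigenvalues j ≤ 0 := by
        by_contra hcon
        push Not at hcon
        exact hj (Finset.mem_filter.2 ⟨Finset.mem_univ _, hcon⟩)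
      rw [← mul_assoc]
      exact mul_nonpos_of_nonpos_of_nonneg hj' (sq_nonneg _)
  linarith

/-- The numbers of positive and negative eigenvalues are determined by complementary definite
subspaces. -/
theorem inertia_of_subspaces (A : Matrix n n ℝ) (h : A.IsHermitian) (p q : ℕ)
    (hpq : p + q = Fintype.card n)
    (w : (Fin p → ℝ) →ₗ[ℝ] (n → ℝ)) (hw : ∀ x, x ≠ 0 → 0 < (w x) ⬝ᵥ (A *ᵥ (w x)))
    (w' : (Fin q → ℝ) →ₗ[ℝ] (n → ℝ)) (hw' : ∀ x, x ≠ 0 → (w' x) ⬝ᵥ (A *ᵥ (w' x)) < 0) :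
    (univ.filter (fun j => 0 < h.eigenvalues j)).card = p ∧
      (univ.filter (fun j => h.eigenvalues j < 0)).card = q := by
  classical
  have h1 := card_ge A h 1 p w (by intro x hx; rw [one_mul]; exact hw x hx)
  have h2 := card_ge A h (-1) q w' (by intro x hx; rw [neg_one_mul, neg_pos]; exact hw' x hx)
  simp only [one_mul, neg_one_mul, neg_pos] at h1 h2
  have h3 : (univ.filter (fun j => 0 < h.eigenvalues j)).card
      + (univ.filter (fun j => h.eigenvalues j < 0)).card ≤ Fintype.card n := by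
    rw [← Finset.card_union_of_disjoint]
    · exact Finset.card_le_univ _
    · rw [Finset.disjoint_left]
      intro j hj hj'
      have a := (Finset.mem_filter.1 hj).2
      have b := (Finset.mem_filter.1 hj').2
      exact lt_asymm a b
  omega

end Pool.Agent.V11145.Inertia
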