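import Mathlib
import Pool.Agent.V11145.TriangleMultipartite

/-!
# Closure operations for Sidorenko's inequality `R(3,G) <= k + m`
-/

namespace Pool.Agent.V11145.SidorenkoClosure

open Finset Pool.Agent.V11145.TriangleMultipartite

variable {W : Type*} [DecidableEq W] (G : SimpleGraph W) [DecidableRel G.Adj]

/-- `ee G A` is the number of edges of `G` inside `A`. -/
def ee (A : Finset W) : ℕ := dd G A / 2

lemma dd_insert (A : Finset W) (v : W) (hv : v ∉ A) :
    dd G (insert v A) = dd G A + 2 * (A.filter (fun b => G.Adj v b)).card := by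
  unfold dd
  rw [Finset.sum_insert hv]
  have h1 : ((insert v A).filter (fun b => G.Adj v b)) = A.filter (fun b => G.Adj v b) := by
    rw [Finset.filter_insert, if_neg G.irrefl]
  have h2 : ∀ a ∈ A, ((insert v A).filter (fun b => G.Adj a b)).card
      = (A.filter (fun b => G.Adj a b)).card + (if G.Adj v a then 1 else 0) := by
    intro a ha
    rw [Finset.filter_insert]
    by_cases h : G.Adj v a
    · rw [if_pos h, if_pos h.symm, Finset.card_insert_of_notMem]
      intro hmem
      exact hv (Finset.mem_filter.1 hmem).1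
    · rw [if_neg h, if_neg (fun h' => h h'.symm)]
      rfl
  rw [h1, Finset.sum_congr rfl h2, Finset.sum_add_distrib]
  have h3 : ∑ a ∈ A, (if G.Adj v a then 1 else 0) = (A.filter (fun b => G.Adj v b)).card := by
    rw [Finset.card_filter]
  rw [h3]
  ring

lemma dd_even (A : Finset W) : dd G A = 2 * ee G A := by
  have : 2 ∣ dd G A := by
    induction A using Finset.induction_on with
    | empty => simp [dd]
    | insert v A hv ih =>
      rw [dd_insert G A v hv]
      exact dvd_add ih (dvd_mul_right _ _)
  unfold ee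
  omega

/-- The class of induced subgraphs reached from the empty graph by two operations:
`join` : add an independent set `P` completely joined to `A`, where `2|P| <= k` and
`2m <= k (k - |P|)` (`k`, `m` the numbers of vertices and edges of the new graph);
`glue` : put together two disjoint sets `A`, `B` such that the set `T` of vertices of `A` with a
neighbour in `B` satisfies `|T| (k - 1) <= m - e(B)`. -/
inductive Built : Finset W → Prop
  | empty : Built ∅
  | single (v : W) : Built {v}
  | join (A P : Finset W) (hA : Built A) (hdisj : Disjoint A P)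
      (hind : ∀ a ∈ P, ∀ b ∈ P, ¬ G.Adj a b) (hcomp : ∀ a ∈ P, ∀ b ∈ A, G.Adj a b)
      (hp : P.card ≤ A.card)
      (hm : 2 * ee G (A ∪ P) ≤ (A ∪ P).card * A.card) : Built (A ∪ P)
  | glue (A B : Finset W) (hA : Built A) (hB : Built B) (hdisj : Disjoint A B)
      (hm : ee G B + (A.filter (fun a => ∃ b ∈ B, G.Adj a b)).card * ((A ∪ B).card - 1)
        ≤ ee G (A ∪ B)) : Built (A ∪ B)

variable {V : Type*} [DecidableEq V] (H : SimpleGraph V) [DecidableRel H.Adj]

/-- the complement of `H` restricted to `U` contains `G` restricted to `A` -/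
def Emb (A : Finset W) (U : Finset V) : Prop :=
  ∃ f : W → V, (∀ a ∈ A, f a ∈ U) ∧ Set.InjOn f (A : Set W) ∧
        ∀ a ∈ A, ∀ b ∈ A, G.Adj a b → ¬ H.Adj (f a) (f b)

omit [DecidableEq W] [DecidableRel G.Adj] [DecidableEq V] [DecidableRel H.Adj] in
lemma Emb.mono {A : Finset W} {U U' : Finset V} (h : Emb G H A U) (hU : U ⊆ U') :
    Emb G H A U' := by
  obtain ⟨f, h1, h2, h3⟩ := h
  exact ⟨f, fun a ha => hU (h1 a ha), h2, h3⟩

omit [DecidableRel G.Adj] in
lemma emb_of_degree [Nonempty V] (hH : H.CliqueFree 3) (A : Finset W) (U : Finset V) (v : V)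
    (hvd : A.card ≤ (U.filter (fun w => H.Adj v w)).card) : Emb G H A U := by
  obtain ⟨f, h1, h2⟩ := exists_map (A := A) (U := U.filter (fun w => H.Adj v w)) hvd
  refine ⟨f, fun a ha => (Finset.mem_filter.1 (h1 a ha)).1, h2, ?_⟩
  intro a ha b hb _ hab
  have ha1 := (Finset.mem_filter.1 (h1 a ha)).2
  have hb1 := (Finset.mem_filter.1 (h1 b hb)).2
  exact hH {v, f a, f b} (SimpleGraph.is3Clique_iff.2 ⟨v, f a, f b, ha1, hb1, hab, rfl⟩)

omit [DecidableRel G.Adj] [DecidableEq V] [DecidableRel H.Adj] in
/-- gluing two partial maps -/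
lemma emb_union {A B : Finset W} {U : Finset V} (hdisj : Disjoint A B)
    (f g : W → V) (hf1 : ∀ a ∈ A, f a ∈ U) (hg1 : ∀ a ∈ B, g a ∈ U)
    (hf2 : Set.InjOn f (A : Set W)) (hg2 : Set.InjOn g (B : Set W))
    (hne : ∀ a ∈ A, ∀ b ∈ B, f a ≠ g b)
    (hf3 : ∀ a ∈ A, ∀ b ∈ A, G.Adj a b → ¬ H.Adj (f a) (f b))
    (hg3 : ∀ a ∈ B, ∀ b ∈ B, G.Adj a b → ¬ H.Adj (g a) (g b))
    (hfg : ∀ a ∈ A, ∀ b ∈ B, G.Adj a b → ¬ H.Adj (f a) (g b)) : Emb G H (A ∪ B) U := by
  have hnot : ∀ b ∈ B, b ∉ A := fun b hb ha => (Finset.disjoint_left.1 hdisj) ha hb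
  refine ⟨fun a => if a ∈ A then f a else g a, ?_, ?_, ?_⟩
  · intro a ha
    rcases Finset.mem_union.1 ha with ha | ha
    · simp only [ha, if_true]; exact hf1 a ha
    · simp only [hnot a ha, if_false]; exact hg1 a ha
  · intro a ha b hb hab
    rcases Finset.mem_union.1 ha with ha | ha <;> rcases Finset.mem_union.1 hb with hb | hb
    · simp only [ha, hb, if_true] at hab
      exact hf2 ha hb hab
    · simp only [ha, hnot b hb, if_true, if_false] at hab
      exact absurd hab (hne a ha b hb)
    · simp only [hb, hnot a ha, if_true, if_false] at hab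
      exact absurd hab.symm (hne b hb a ha)
    · simp only [hnot a ha, hnot b hb, if_false] at hab
      exact hg2 ha hb hab
  · intro a ha b hb hadj
    rcases Finset.mem_union.1 ha with ha | ha <;> rcases Finset.mem_union.1 hb with hb | hb
    · simp only [ha, hb, if_true]; exact hf3 a ha b hb hadj
    · simp only [ha, hnot b hb, if_true, if_false]; exact hfg a ha b hb hadj
    · simp only [hb, hnot a ha, if_true, if_false]
      exact fun h => hfg b hb a ha hadj.symm h.symm
    · simp only [hnot a ha, hnot b hb, if_false]; exact hg3 a ha b hb hadj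

/-- The join step. -/
lemma join_step [Nonempty V] (hH : H.CliqueFree 3) (A P : Finset W) (hdisj : Disjoint A P)
    (hind : ∀ a ∈ P, ∀ b ∈ P, ¬ G.Adj a b) (hcomp : ∀ a ∈ P, ∀ b ∈ A, G.Adj a b)
    (hp : P.card ≤ A.card)
    (hm : 2 * ee G (A ∪ P) ≤ (A ∪ P).card * A.card)
    (hA : ∀ U : Finset V, A.card + ee G A ≤ U.card → Emb G H A U)
    (U : Finset V) (hU : (A ∪ P).card + ee G (A ∪ P) ≤ U.card) : Emb G H (A ∪ P) U := by
  have hcard : (A ∪ P).card = A.card + P.card := Finset.card_union_of_disjoint hdisj
  rcases Nat.eq_zero_or_pos P.card with hP0 | hp1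
  · have : P = ∅ := Finset.card_eq_zero.1 hP0
    subst this
    rw [Finset.union_empty] at hU ⊢
    exact hA U hU
  have hnot : ∀ b ∈ P, b ∉ A := fun b hb ha => (Finset.disjoint_left.1 hdisj) ha hb
  -- edge count
  have hdd : ee G (A ∪ P) = ee G A + P.card * A.card := by
    have h0 : dd G (A ∪ P) = dd G A + 2 * (P.card * A.card) := by
      have h1 : dd G (A ∪ P) = ∑ a ∈ A, ((A ∪ P).filter (fun b => G.Adj a b)).card +
          ∑ a ∈ P, ((A ∪ P).filter (fun b => G.Adj a b)).card := by
        unfold dd
        rw [Finset.sum_union hdisj]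
      have h2 : ∑ a ∈ P, ((A ∪ P).filter (fun b => G.Adj a b)).card = P.card * A.card := by
        rw [Finset.sum_const_nat]
        intro a ha
        congr 1
        ext b
        rw [Finset.mem_filter, Finset.mem_union]
        constructor
        · rintro ⟨hb, hab⟩
          rcases hb with hb | hb
          · exact hb
          · exact absurd hab (hind a ha b hb)
        · intro hb
          exact ⟨Or.inl hb, hcomp a ha b hb⟩
      have h3 : ∑ a ∈ A, ((A ∪ P).filter (fun b => G.Adj a b)).card
          = dd G A + A.card * P.card := by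
        have : ∀ a ∈ A, ((A ∪ P).filter (fun b => G.Adj a b)).card
            = (A.filter (fun b => G.Adj a b)).card + P.card := by
          intro a ha
          have e : (A ∪ P).filter (fun b => G.Adj a b) = (A.filter (fun b => G.Adj a b)) ∪ P := by
            ext b
            rw [Finset.mem_union, Finset.mem_filter, Finset.mem_filter, Finset.mem_union]
            constructor
            · rintro ⟨hb | hb, hab⟩
              · left; exact ⟨hb, hab⟩
              · right; exact hb
            · rintro (⟨hb, hab⟩ | hb)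
              · exact ⟨Or.inl hb, hab⟩
              · exact ⟨Or.inr hb, (hcomp b hb a ha).symm⟩
          rw [e, Finset.card_union_of_disjoint]
          rw [Finset.disjoint_left]
          intro b hb hbP
          exact hnot b hbP (Finset.mem_filter.1 hb).1
        rw [Finset.sum_congr rfl this, Finset.sum_add_distrib, Finset.sum_const, smul_eq_mul]
        rfl
      rw [h1, h2, h3]
      ring
    have h1 := dd_even G (A ∪ P)
    have h2 := dd_even G A
    omega
  obtain ⟨U', hU'U, hU'c⟩ := Finset.exists_subset_card_eq hU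
  refine Emb.mono G H ?_ hU'U
  by_cases hdeg : ∃ v ∈ U', (A ∪ P).card ≤ (U'.filter (fun w => H.Adj v w)).card
  · obtain ⟨v, hv, hvd⟩ := hdeg
    exact emb_of_degree G H hH _ _ v hvd
  push Not at hdeg
  set p := P.card with hpdef
  set k := (A ∪ P).card with hk
  set m := ee G (A ∪ P) with hmdef
  have hk2p : 2 * p ≤ k := by omega
  have hmul : p * p ≤ p * A.card := Nat.mul_le_mul_left _ hp
  have hpp : p ≤ p * p := Nat.le_mul_of_pos_left _ hp1
  have hkpN : k + p ≤ U'.card := by rw [hU'c]; omega
  have hA'k : A.card = k - p := by omega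
  have hN2 : 2 * U'.card ≤ k * (k - p + 2) := by
    rw [hU'c]
    have : 2 * m ≤ k * (k - p) := by rw [← hA'k]; exact hm
    nlinarith
  obtain ⟨Q, hQU, hQc, hQr⟩ := greedy H U' k p (by omega) hkpN
    (fun v hv => hdeg v hv) p le_rfl
  have hnum := numeric U'.card k p hp1 hk2p hkpN hN2
  have hlt := lt_of_lt_of_le hnum hQr
  have hrest : A.card + ee G A ≤ (rest H U' Q).card := by
    have hkp : ((k - p : ℕ) : ℝ) = (k:ℝ) - p := by
      rw [Nat.cast_sub (by omega)]
    have e1 : ((U'.card : ℕ) : ℝ) = (k:ℝ) + ee G A + p * (k - p) := by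
      rw [hU'c, hdd, hA'k]
      push_cast
      rw [hkp]
      ring
    have e2 : (((A.card + ee G A : ℕ)) : ℝ) < ((rest H U' Q).card : ℝ) + 1 := by
      rw [hA'k]
      push_cast
      rw [hkp]
      rw [e1] at hlt
      linarith
    have e3 : A.card + ee G A < (rest H U' Q).card + 1 := by exact_mod_cast e2
    omega
  obtain ⟨f, hf1, hf2, hf3⟩ := hA (rest H U' Q) hrest
  obtain ⟨g, hg1, hg2⟩ := exists_map (A := P) (U := Q) (by omega)
  refine emb_union G H hdisj f g (fun a ha => (Finset.mem_filter.1 (hf1 a ha)).1)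
    (fun a ha => hQU (hg1 a ha)) hf2 hg2 ?_ hf3 ?_ ?_
  · intro a ha b hb hab
    have h1 := (Finset.mem_filter.1 (hf1 a ha)).2.1
    rw [hab] at h1
    exact h1 (hg1 b hb)
  · intro a ha b hb hab
    exact absurd hab (hind a ha b hb)
  · intro a ha b hb _ hadj
    exact (Finset.mem_filter.1 (hf1 a ha)).2.2 (g b) (hg1 b hb) hadj.symm

/-- The gluing step. -/
lemma glue_step [Nonempty V] (hH : H.CliqueFree 3) (A B : Finset W) (hdisj : Disjoint A B)
    (hm : ee G B + (A.filter (fun a => ∃ b ∈ B, G.Adj a b)).card * ((A ∪ B).card - 1)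
        ≤ ee G (A ∪ B))
    (hA : ∀ U : Finset V, A.card + ee G A ≤ U.card → Emb G H A U)
    (hB : ∀ U : Finset V, B.card + ee G B ≤ U.card → Emb G H B U)
    (U : Finset V) (hU : (A ∪ B).card + ee G (A ∪ B) ≤ U.card) : Emb G H (A ∪ B) U := by
  classical
  have hcard : (A ∪ B).card = A.card + B.card := Finset.card_union_of_disjoint hdisj
  have hmono : ee G A ≤ ee G (A ∪ B) := by
    have h1 : dd G A ≤ dd G (A ∪ B) := by
      unfold dd
      refine (Finset.sum_le_sum (fun a _ => Finset.card_le_card
        (Finset.filter_subset_filter _ (Finset.subset_union_left (s₂ := B))))).trans ?_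
      exact Finset.sum_le_sum_of_subset Finset.subset_union_left
    unfold ee
    exact Nat.div_le_div_right h1
  by_cases hdeg : ∃ v ∈ U, (A ∪ B).card ≤ (U.filter (fun w => H.Adj v w)).card
  · obtain ⟨v, hv, hvd⟩ := hdeg
    exact emb_of_degree G H hH _ _ v hvd
  push Not at hdeg
  obtain ⟨f, hf1, hf2, hf3⟩ := hA U (by omega)
  set T := A.filter (fun a => ∃ b ∈ B, G.Adj a b) with hT
  let X : Finset V := A.image f
  let Y : Finset V := T.biUnion (fun a => U.filter (fun w => H.Adj (f a) w))
  have hX : X.card ≤ A.card := Finset.card_image_le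
  have hY : Y.card ≤ T.card * ((A ∪ B).card - 1) := by
    refine Finset.card_biUnion_le.trans ?_
    refine (Finset.sum_le_card_nsmul _ _ ((A ∪ B).card - 1) ?_).trans (by simp)
    intro a ha
    have haA : a ∈ A := (Finset.mem_filter.1 ha).1
    have := hdeg (f a) (hf1 a haA)
    omega
  have hleft : B.card + ee G B ≤ (U \ (X ∪ Y)).card := by
    have h1 : U.card ≤ (U \ (X ∪ Y)).card + (X ∪ Y).card := by
      have := Finset.le_card_sdiff (X ∪ Y) U
      omega
    have h2 := Finset.card_union_le X Y
    omega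
  obtain ⟨g, hg1, hg2, hg3⟩ := hB _ hleft
  refine emb_union G H hdisj f g hf1 (fun a ha => (Finset.mem_sdiff.1 (hg1 a ha)).1) hf2 hg2
    ?_ hf3 hg3 ?_
  · intro a ha b hb hab
    have h1 := (Finset.mem_sdiff.1 (hg1 b hb)).2
    apply h1
    rw [← hab]
    exact Finset.mem_union_left _ (Finset.mem_image_of_mem f ha)
  · intro a ha b hb hadj hH'
    have h1 := Finset.mem_sdiff.1 (hg1 b hb)
    apply h1.2
    apply Finset.mem_union_right
    rw [Finset.mem_biUnion]
    refine ⟨a, Finset.mem_filter.2 ⟨ha, b, hb, hadj⟩, ?_⟩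
    rw [Finset.mem_filter]
    exact ⟨h1.1, hH'⟩

theorem built_embed [Nonempty V] (hH : H.CliqueFree 3) (A : Finset W) (hA : Built G A) :
    ∀ U : Finset V, A.card + ee G A ≤ U.card → Emb G H A U := by
  induction hA with
  | empty =>
    intro U hU
    obtain ⟨f, h1, h2⟩ := exists_map (A := (∅ : Finset W)) (U := U) (by simp)
    exact ⟨f, h1, h2, by simp⟩
  | single v =>
    intro U hU
    obtain ⟨f, h1, h2⟩ := exists_map (A := ({v} : Finset W)) (U := U) (by omega)
    refine ⟨f, h1, h2, ?_⟩
    intro a ha b hb hab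
    rw [Finset.mem_singleton] at ha hb
    rw [ha, hb] at hab
    exact absurd hab G.irrefl
  | join A P hA hdisj hind hcomp hp hm ih =>
    exact join_step G H hH A P hdisj hind hcomp hp hm ih
  | glue A B hA hB hdisj hm ihA ihB =>
    exact glue_step G H hH A B hdisj hm ihA ihB

/-! ## Statements about whole graphs -/

/-- Sidorenko's inequality `R(3,G) <= k + m` for the graph `G` (with `k` vertices and `m` edges):
the complement of every triangle-free graph on `n >= k + m` vertices contains `G`. -/
def SidorenkoHolds {W : Type} [Fintype W] (G : SimpleGraph W) : Prop :=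
  ∀ n : ℕ, Fintype.card W + G.edgeSet.ncard ≤ n → ∀ H : SimpleGraph (Fin n),
    H.CliqueFree 3 → G.IsContained Hᶜ

lemma ncard_edges_induce {W : Type} [DecidableEq W] (G : SimpleGraph W)
    [DecidableRel G.Adj] (A : Finset W) :
    (G.induce (A : Set W)).edgeSet.ncard = ee G A := by
  classical
  have h1 : (G.induce (A : Set W)).edgeSet.ncard = (G.induce (A : Set W)).edgeFinset.card := by
    rw [← SimpleGraph.coe_edgeFinset, Set.ncard_coe_finset]
  have h2 := (G.induce (A : Set W)).sum_degrees_eq_twice_card_edges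
  have h3 : ∑ v : (A : Set W), (G.induce (A : Set W)).degree v = dd G A := by
    unfold dd
    rw [← Finset.sum_coe_sort A]
    apply Finset.sum_congr rfl
    intro a _
    rw [← SimpleGraph.card_neighborFinset_eq_degree]
    apply Finset.card_bij (fun (b : (A : Set W)) _ => (b : W))
    · intro b hb
      rw [SimpleGraph.mem_neighborFinset] at hb
      rw [Finset.mem_filter]
      exact ⟨b.2, hb⟩
    · intro b _ c _ h
      exact Subtype.ext h
    · intro b hb
      rw [Finset.mem_filter] at hb
      refine ⟨⟨b, hb.1⟩, ?_, rfl⟩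
      rw [SimpleGraph.mem_neighborFinset]
      exact hb.2
  have h4 := dd_even G A
  omega

lemma emb_of_sidorenko {W : Type} [DecidableEq W] (G : SimpleGraph W)
    [DecidableRel G.Adj] (A : Finset W) (h : SidorenkoHolds (G.induce (A : Set W)))
    {V : Type} [Nonempty V] [DecidableEq V] (H : SimpleGraph V) [DecidableRel H.Adj]
    (hH : H.CliqueFree 3)
    (U : Finset V) (hU : A.card + ee G A ≤ U.card) : Emb G H A U := by
  classical
  let e : Fin U.card ≃ U := (Finset.equivFin U).symm
  let H' : SimpleGraph (Fin U.card) := H.comap (fun i => (e i : V))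
  have hH' : H'.CliqueFree 3 := by
    have hc : H'.IsContained H :=
      ⟨⟨⟨fun i => (e i : V), fun {a b} hab => hab⟩,
        fun i j hij => e.injective (Subtype.ext hij)⟩⟩
    exact SimpleGraph.CliqueFree.comap hc hH
  have h1 := h U.card (by
    rw [ncard_edges_induce]
    simpa using hU) H' hH'
  obtain ⟨f⟩ := h1
  refine ⟨fun a => if ha : a ∈ A then (e (f ⟨a, ha⟩) : V) else Classical.arbitrary V, ?_, ?_, ?_⟩
  · intro a ha
    simp only [ha, dif_pos]
    exact (e (f ⟨a, ha⟩)).2
  · intro a ha b hb hab
    have ha' : a ∈ A := ha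
    have hb' : b ∈ A := hb
    simp only [ha', hb', dif_pos] at hab
    have h2 := e.injective (Subtype.ext hab)
    have h3 := f.injective h2
    exact congrArg Subtype.val h3
  · intro a ha b hb hab
    simp only [ha, hb, dif_pos]
    have hadj : (G.induce (A : Set W)).Adj ⟨a, ha⟩ ⟨b, hb⟩ := hab
    have h2 := f.toHom.map_adj hadj
    exact (SimpleGraph.compl_adj _ _ _).1 h2 |>.2

lemma contained_of_emb {W : Type} [Fintype W] [DecidableEq W] (G : SimpleGraph W)
    {V : Type} [Fintype V] (H : SimpleGraph V)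
    (h : Emb G H (Finset.univ : Finset W) (Finset.univ : Finset V)) : G.IsContained Hᶜ := by
  obtain ⟨f, _, hf2, hf3⟩ := h
  have hinj : Function.Injective f := by
    intro a b hab
    exact hf2 (by simp) (by simp) hab
  refine ⟨⟨⟨f, ?_⟩, hinj⟩⟩
  intro a b hab
  rw [SimpleGraph.compl_adj]
  exact ⟨fun h => hab.ne (hinj h), hf3 a (Finset.mem_univ a) b (Finset.mem_univ b) hab⟩

lemma ee_univ {W : Type} [Fintype W] [DecidableEq W] (G : SimpleGraph W) [DecidableRel G.Adj] :
    ee G (Finset.univ : Finset W) = G.edgeSet.ncard := by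
  have h1 : G.edgeSet.ncard = G.edgeFinset.card := by
    rw [← SimpleGraph.coe_edgeFinset, Set.ncard_coe_finset]
  have h2 := G.sum_degrees_eq_twice_card_edges
  have h3 : dd G (Finset.univ : Finset W) = ∑ v, G.degree v := by
    unfold dd
    apply Finset.sum_congr rfl
    intro a _
    rw [← SimpleGraph.card_neighborFinset_eq_degree]
    congr 1
    ext b
    simp
  have h4 := dd_even G (Finset.univ : Finset W)
  omega

/-- Joining with an independent set preserves Sidorenko's inequality. -/
theorem sidorenko_join {W : Type} [Fintype W] [DecidableEq W] (G : SimpleGraph W)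
    (P : Finset W) (hind : ∀ a ∈ P, ∀ b ∈ P, ¬ G.Adj a b)
    (hcomp : ∀ a ∈ P, ∀ b, b ∉ P → G.Adj a b) (hp : 2 * P.card ≤ Fintype.card W)
    (hm : 2 * G.edgeSet.ncard ≤ Fintype.card W * (Fintype.card W - P.card))
    (h : SidorenkoHolds (G.induce ((Pᶜ : Finset W) : Set W))) : SidorenkoHolds G := by
  classical
  intro n hn H hH
  rcases isEmpty_or_nonempty W with hW | hW
  · refine ⟨⟨⟨fun w => (hW.false w).elim, ?_⟩, ?_⟩⟩
    · intro a; exact (hW.false a).elim
    · intro a; exact (hW.false a).elim
  have hn0 : 0 < n := by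
    have := Fintype.card_pos_iff.2 hW
    omega
  have : Nonempty (Fin n) := ⟨⟨0, hn0⟩⟩
  have hun : Pᶜ ∪ P = (Finset.univ : Finset W) := by
    rw [Finset.union_comm, Finset.union_compl]
  have hc : (Pᶜ : Finset W).card = Fintype.card W - P.card := Finset.card_compl P
  apply contained_of_emb
  have hj := join_step G H hH Pᶜ P (disjoint_compl_left) hind
    (fun a ha b hb => hcomp a ha b (Finset.mem_compl.1 hb)) (by omega)
    (by rw [hun, ee_univ, hc]; simpa using hm)
    (fun U hU => emb_of_sidorenko G Pᶜ h H hH U hU) Finset.univ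
    (by rw [hun, ee_univ]; simpa using hn)
  rw [hun] at hj
  exact hj

/-- Sparse gluing preserves Sidorenko's inequality. -/
theorem sidorenko_glue {W : Type} [Fintype W] [DecidableEq W] (G : SimpleGraph W)
    [DecidableRel G.Adj] (A : Finset W)
    (hm : (G.induce ((Aᶜ : Finset W) : Set W)).edgeSet.ncard +
      (A.filter (fun a => ∃ b, b ∉ A ∧ G.Adj a b)).card * (Fintype.card W - 1)
        ≤ G.edgeSet.ncard)
    (hA : SidorenkoHolds (G.induce (A : Set W)))
    (hB : SidorenkoHolds (G.induce ((Aᶜ : Finset W) : Set W))) : SidorenkoHolds G := by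
  classical
  intro n hn H hH
  rcases isEmpty_or_nonempty W with hW | hW
  · refine ⟨⟨⟨fun w => (hW.false w).elim, ?_⟩, ?_⟩⟩
    · intro a; exact (hW.false a).elim
    · intro a; exact (hW.false a).elim
  have hn0 : 0 < n := by
    have := Fintype.card_pos_iff.2 hW
    omega
  have : Nonempty (Fin n) := ⟨⟨0, hn0⟩⟩
  have hun : A ∪ Aᶜ = (Finset.univ : Finset W) := Finset.union_compl A
  apply contained_of_emb
  have hj := glue_step G H hH A Aᶜ (disjoint_compl_right)
    (by
      rw [hun, ee_univ, ← ncard_edges_induce]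
      refine le_trans (le_of_eq ?_) hm
      congr 2
      · congr 1
        ext a
        simp only [Finset.mem_filter, Finset.mem_compl])
    (fun U hU => emb_of_sidorenko G A hA H hH U hU)
    (fun U hU => emb_of_sidorenko G Aᶜ hB H hH U hU) Finset.univ
    (by rw [hun, ee_univ]; simpa using hn)
  rw [hun] at hj
  exact hj

end Pool.Agent.V11145.SidorenkoClosure
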