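import Mathlib

/-! Antichains with many distinct pairwise intersections: colouring lemma, construction, counting. -/

namespace Pool.Agent.V11145.Inter

open Finset

/-- the distinct pairwise intersections of different members of `A` -/
def inters {V : Type*} [DecidableEq V] (A : Finset (Finset V)) : Finset (Finset V) :=
  A.offDiag.image (fun p => p.1 ∩ p.2)

/-- union bound: a colouring of the finite sets such that every `a`-set contains `e`-subsets of
all colours -/
theorem exists_col {V : Type*} [Fintype V] [DecidableEq V] (e a c : ℕ) (hc : 0 < c)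
    (hlt : (Fintype.card V).choose a * c * (c - 1) ^ (a.choose e) < c ^ (a.choose e)) :
    ∃ χ : Finset V → Fin c, ∀ S : Finset V, S.card = a → ∀ j : Fin c,
      ∃ E, E ⊆ S ∧ E.card = e ∧ χ E = j := by
  classical
  by_contra hcon
  push Not at hcon
  set Bad : Finset V × Fin c → Finset (Finset V → Fin c) := fun p =>
    Fintype.piFinset (fun E => if E ∈ powersetCard e p.1 then univ.erase p.2 else univ) with hBad
  have hcover : (univ : Finset (Finset V → Fin c)) ⊆
      ((powersetCard a (univ : Finset V)) ×ˢ (univ : Finset (Fin c))).biUnion Bad := by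
    intro χ _
    obtain ⟨S, hS, j, hj⟩ := hcon χ
    rw [mem_biUnion]
    refine ⟨(S, j), ?_, ?_⟩
    · simp [mem_powersetCard, hS]
    · rw [hBad, Fintype.mem_piFinset]
      intro E
      by_cases hE : E ∈ powersetCard e S
      · have := hj E (mem_powersetCard.1 hE).1 (mem_powersetCard.1 hE).2
        simp [hE, this]
      · simp [hE]
  have hK : ∀ p ∈ (powersetCard a (univ : Finset V)) ×ˢ (univ : Finset (Fin c)),
      (Bad p).card = (c - 1) ^ (a.choose e) *
        c ^ (Fintype.card (Finset V) - a.choose e) := by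
    intro p hp
    rw [mem_product, mem_powersetCard] at hp
    rw [hBad, Fintype.card_piFinset]
    have h1 : ∀ E : Finset V, (if E ∈ powersetCard e p.1 then (univ : Finset (Fin c)).erase p.2
        else univ).card = if E ∈ powersetCard e p.1 then c - 1 else c := by
      intro E
      split_ifs
      · rw [card_erase_of_mem (mem_univ _), card_univ, Fintype.card_fin]
      · rw [card_univ, Fintype.card_fin]
    rw [prod_congr rfl (fun E _ => h1 E), prod_ite, prod_const, prod_const]
    have h2 : (univ.filter (fun E : Finset V => E ∈ powersetCard e p.1)).card = a.choose e := by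
      rw [filter_mem_eq_inter, univ_inter, card_powersetCard, hp.1.2]
    have h3 : (univ.filter (fun E : Finset V => E ∉ powersetCard e p.1)).card =
        Fintype.card (Finset V) - a.choose e := by
      have := card_filter_add_card_filter_not (s := (univ : Finset (Finset V)))
        (fun E => E ∈ powersetCard e p.1)
      rw [h2, card_univ] at this
      omega
    rw [h2, h3]
  have h4 := (card_le_card hcover).trans card_biUnion_le
  rw [sum_congr rfl hK, sum_const, card_product, card_powersetCard, card_univ, card_univ,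
    Fintype.card_fun, Fintype.card_fin, smul_eq_mul] at h4
  have hu : (univ : Finset (Fin c)).card = c := by simp
  rw [hu] at h4
  by_cases hS : ∃ S : Finset V, S.card = a
  · obtain ⟨S, hS⟩ := hS
    have hle : a.choose e ≤ Fintype.card (Finset V) := by
      rw [← hS, ← card_powersetCard, ← card_univ]
      exact card_le_card (subset_univ _)
    have h5 : c ^ Fintype.card (Finset V) = c ^ (a.choose e) *
        c ^ (Fintype.card (Finset V) - a.choose e) := by
      rw [← pow_add]; congr 1; omega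
    rw [h5] at h4
    have hpos : 0 < c ^ (Fintype.card (Finset V) - a.choose e) := pow_pos hc _
    have h6 : (Fintype.card V).choose a * c * (c - 1) ^ (a.choose e) *
        c ^ (Fintype.card (Finset V) - a.choose e) <
        c ^ (a.choose e) * c ^ (Fintype.card (Finset V) - a.choose e) :=
      Nat.mul_lt_mul_of_pos_right hlt hpos
    have h7 : (Fintype.card V).choose a * c * ((c - 1) ^ (a.choose e) *
        c ^ (Fintype.card (Finset V) - a.choose e)) = (Fintype.card V).choose a * c *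
        (c - 1) ^ (a.choose e) * c ^ (Fintype.card (Finset V) - a.choose e) := by ring
    rw [h7] at h4
    omega
  · obtain ⟨S, hS', -⟩ := hcon (fun _ => ⟨0, hc⟩)
    exact hS ⟨S, hS'⟩

/-- the construction -/
theorem construct {V : Type*} [Fintype V] [DecidableEq V] (P Q : Finset V)
    (hPQ : Disjoint P Q) (hU : P ∪ Q = univ) (e a : ℕ) (hea : e < a) (c : ℕ)
    (hcP : P.card ≤ c) (hcQ : Q.card ≤ c) (χ : Finset V → Fin c)
    (hχ : ∀ S : Finset V, S.card = a → ∀ j : Fin c, ∃ E, E ⊆ S ∧ E.card = e ∧ χ E = j) :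
    ∃ A : Finset (Finset V), IsAntichain (· ⊆ ·) (A : Set (Finset V)) ∧
      ∀ B : Finset V, a ≤ (P \ B).card → a ≤ (Q \ B).card → B ∈ inters A := by
  classical
  have hmem : ∀ x : V, x ∈ P ∨ x ∈ Q := by
    intro x
    have : x ∈ P ∪ Q := by rw [hU]; exact mem_univ _
    exact mem_union.1 this
  have hdis : ∀ x : V, x ∈ P → x ∉ Q := fun x h1 h2 => (disjoint_left.1 hPQ) h1 h2
  set T1 : Finset V → Prop := fun Z => (P \ Z).card = e ∧ (χ (P \ Z)).val = (Z ∩ Q).card ∧
    (Z ∩ Q).card + e < Q.card with hT1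
  set T2 : Finset V → Prop := fun Z => (Q \ Z).card = e ∧ (χ (Q \ Z)).val = (Z ∩ P).card ∧
    (Z ∩ P).card + e < P.card with hT2
  refine ⟨univ.filter (fun Z => T1 Z ∨ T2 Z), ?_, ?_⟩
  · intro Z hZ Z' hZ' hne hsub
    have hZ1 : T1 Z ∨ T2 Z := by simpa using hZ
    have hZ2 : T1 Z' ∨ T2 Z' := by simpa using hZ'
    have hsub' : Z ⊆ Z' := hsub
    have hcP' : (P \ Z').card ≤ (P \ Z).card := card_le_card (sdiff_subset_sdiff le_rfl hsub')
    have hcQ' : (Q \ Z').card ≤ (Q \ Z).card := card_le_card (sdiff_subset_sdiff le_rfl hsub')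
    have hsplitP : (P \ Z').card + (Z' ∩ P).card = P.card := by
      rw [inter_comm]; exact card_sdiff_add_card_inter P Z'
    have hsplitQ : (Q \ Z').card + (Z' ∩ Q).card = Q.card := by
      rw [inter_comm]; exact card_sdiff_add_card_inter Q Z'
    rcases hZ1 with h1 | h1 <;> rcases hZ2 with h2 | h2
    · obtain ⟨a1, a2, a3⟩ := h1
      obtain ⟨b1, b2, b3⟩ := h2
      have e1 : P \ Z' = P \ Z :=
        eq_of_subset_of_card_le (sdiff_subset_sdiff le_rfl hsub') (by omega)
      have e2 : Z ∩ Q = Z' ∩ Q := by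
        apply eq_of_subset_of_card_le (inter_subset_inter_right hsub')
        rw [← a2, ← b2, e1]
      apply hne
      ext x
      rcases hmem x with hx | hx
      · have : x ∈ P \ Z' ↔ x ∈ P \ Z := by rw [e1]
        simp only [mem_sdiff, hx, true_and] at this
        tauto
      · have : x ∈ Z ∩ Q ↔ x ∈ Z' ∩ Q := by rw [e2]
        simpa [hx] using this
    · obtain ⟨a1, a2, a3⟩ := h1
      obtain ⟨b1, b2, b3⟩ := h2
      omega
    · obtain ⟨a1, a2, a3⟩ := h1
      obtain ⟨b1, b2, b3⟩ := h2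
      omega
    · obtain ⟨a1, a2, a3⟩ := h1
      obtain ⟨b1, b2, b3⟩ := h2
      have e1 : Q \ Z' = Q \ Z :=
        eq_of_subset_of_card_le (sdiff_subset_sdiff le_rfl hsub') (by omega)
      have e2 : Z ∩ P = Z' ∩ P := by
        apply eq_of_subset_of_card_le (inter_subset_inter_right hsub')
        rw [← a2, ← b2, e1]
      apply hne
      ext x
      rcases hmem x with hx | hx
      · have : x ∈ Z ∩ P ↔ x ∈ Z' ∩ P := by rw [e2]
        simpa [hx] using this
      · have : x ∈ Q \ Z' ↔ x ∈ Q \ Z := by rw [e1]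
        simp only [mem_sdiff, hx, true_and] at this
        tauto
  · intro B hB1 hB2
    obtain ⟨S1, hS1, hS1c⟩ := exists_subset_card_eq hB1
    obtain ⟨S2, hS2, hS2c⟩ := exists_subset_card_eq hB2
    have hsplitP : (P \ B).card + (B ∩ P).card = P.card := by
      rw [inter_comm]; exact card_sdiff_add_card_inter P B
    have hsplitQ : (Q \ B).card + (B ∩ Q).card = Q.card := by
      rw [inter_comm]; exact card_sdiff_add_card_inter Q B
    obtain ⟨E1, hE1, hE1c, hE1χ⟩ := hχ S1 hS1c ⟨(B ∩ Q).card, by omega⟩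
    obtain ⟨E2, hE2, hE2c, hE2χ⟩ := hχ S2 hS2c ⟨(B ∩ P).card, by omega⟩
    have hE1' : ∀ x ∈ E1, x ∈ P ∧ x ∉ B := fun x hx => mem_sdiff.1 (hS1 (hE1 hx))
    have hE2' : ∀ x ∈ E2, x ∈ Q ∧ x ∉ B := fun x hx => mem_sdiff.1 (hS2 (hE2 hx))
    set Z1 := (P \ E1) ∪ (B ∩ Q) with hZ1
    set Z2 := (B ∩ P) ∪ (Q \ E2) with hZ2
    have p1 : P \ Z1 = E1 := by
      ext x
      have hd := hdis x
      have hx1 := hE1' x
      simp only [hZ1, mem_sdiff, mem_union, mem_inter]
      tauto
    have q1 : Z1 ∩ Q = B ∩ Q := by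
      ext x
      have hd := hdis x
      simp only [hZ1, mem_sdiff, mem_union, mem_inter]
      tauto
    have p2 : Q \ Z2 = E2 := by
      ext x
      have hd := hdis x
      have hx1 := hE2' x
      simp only [hZ2, mem_sdiff, mem_union, mem_inter]
      tauto
    have q2 : Z2 ∩ P = B ∩ P := by
      ext x
      have hd := hdis x
      simp only [hZ2, mem_sdiff, mem_union, mem_inter]
      tauto
    have t1 : T1 Z1 := by
      refine ⟨by rw [p1, hE1c], ?_, ?_⟩
      · rw [p1, q1, hE1χ]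
      · rw [q1]; omega
    have t2 : T2 Z2 := by
      refine ⟨by rw [p2, hE2c], ?_, ?_⟩
      · rw [p2, q2, hE2χ]
      · rw [q2]; omega
    unfold inters
    rw [mem_image]
    refine ⟨(Z1, Z2), ?_, ?_⟩
    · rw [mem_offDiag]
      refine ⟨by simp [t1], by simp [t2], ?_⟩
      intro heq
      have heq' : Z1 = Z2 := heq
      have : (P \ Z1).card = (P \ Z2).card := by rw [heq']
      have h5 : (P \ Z2).card + (Z2 ∩ P).card = P.card := by
        rw [inter_comm]; exact card_sdiff_add_card_inter P Z2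
      rw [p1, hE1c] at this
      rw [q2] at h5
      omega
    · ext x
      have hd := hdis x
      have hx1 := hE1' x
      have hx2 := hE2' x
      have hm := hmem x
      simp only [hZ1, hZ2, mem_sdiff, mem_union, mem_inter]
      tauto

/-- number of sets whose complement inside `P` is small -/
theorem count_small {V : Type*} [Fintype V] [DecidableEq V] (P Q : Finset V)
    (hU : P ∪ Q = univ) (a : ℕ) :
    ((univ : Finset (Finset V)).filter (fun B => (P \ B).card < a)).card ≤
      (P.powerset.filter (fun F => F.card < a)).card * 2 ^ Q.card := by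
  classical
  rw [← card_powerset, ← card_product]
  apply card_le_card_of_injOn (fun B => (P \ B, B ∩ Q))
  · intro B hB
    have hB' : (P \ B).card < a := by simpa using hB
    rw [mem_coe, mem_product, mem_filter, mem_powerset, mem_powerset]
    exact ⟨⟨sdiff_subset, hB'⟩, inter_subset_right⟩
  · intro B _ B' _ h
    have h1 : P \ B = P \ B' := (Prod.ext_iff.1 h).1
    have h2 : B ∩ Q = B' ∩ Q := (Prod.ext_iff.1 h).2
    ext x
    have hx : x ∈ P ∨ x ∈ Q := by
      have : x ∈ P ∪ Q := by rw [hU]; exact mem_univ _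
      exact mem_union.1 this
    rcases hx with hx | hx
    · have : x ∈ P \ B ↔ x ∈ P \ B' := by rw [h1]
      simp only [mem_sdiff, hx, true_and] at this
      tauto
    · have : x ∈ B ∩ Q ↔ x ∈ B' ∩ Q := by rw [h2]
      simpa [hx] using this

theorem count_powerset {V : Type*} [DecidableEq V] (P : Finset V) (a m : ℕ)
    (hm : P.card ≤ 2 ^ m) :
    (P.powerset.filter (fun F => F.card < a)).card ≤ a * 2 ^ (m * (a - 1)) := by
  classical
  have h1 : P.powerset.filter (fun F => F.card < a) ⊆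
      (range a).biUnion (fun i => powersetCard i P) := by
    intro F hF
    rw [mem_filter, mem_powerset] at hF
    rw [mem_biUnion]
    exact ⟨F.card, mem_range.2 hF.2, mem_powersetCard.2 ⟨hF.1, rfl⟩⟩
  refine (card_le_card h1).trans (card_biUnion_le.trans ?_)
  have h2 : ∀ i ∈ range a, (powersetCard i P).card ≤ 2 ^ (m * (a - 1)) := by
    intro i hi
    rw [mem_range] at hi
    rw [card_powersetCard]
    calc P.card.choose i ≤ P.card ^ i := Nat.choose_le_pow _ _
      _ ≤ (2 ^ m) ^ i := Nat.pow_le_pow_left hm i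
      _ = 2 ^ (m * i) := by rw [← pow_mul]
      _ ≤ 2 ^ (m * (a - 1)) := Nat.pow_le_pow_right (by norm_num) (Nat.mul_le_mul_left _ (by omega))
  calc ∑ i ∈ range a, (powersetCard i P).card ≤ ∑ _i ∈ range a, 2 ^ (m * (a - 1)) :=
        sum_le_sum h2
    _ = a * 2 ^ (m * (a - 1)) := by rw [sum_const, card_range, smul_eq_mul]

/-! ### numerical estimates -/

theorem bern (d k : ℕ) : d ^ (k + 1) + (k + 1) * d ^ k ≤ (d + 1) ^ (k + 1) := by
  induction k with
  | zero => simp
  | succ k ih =>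
    have h1 : (d + 1) ^ (k + 1 + 1) = (d + 1) * (d + 1) ^ (k + 1) := by ring
    rw [h1]
    calc d ^ (k + 1 + 1) + (k + 1 + 1) * d ^ (k + 1)
        ≤ (d + 1) * (d ^ (k + 1) + (k + 1) * d ^ k) := by
          have : (d + 1) * (d ^ (k + 1) + (k + 1) * d ^ k) =
            d ^ (k + 1 + 1) + (k + 1 + 1) * d ^ (k + 1) + (k + 1) * d ^ k := by ring
          omega
      _ ≤ (d + 1) * (d + 1) ^ (k + 1) := Nat.mul_le_mul_left _ ih

theorem half_pow (c : ℕ) (hc : 0 < c) : (c - 1) ^ c * 2 ≤ c ^ c := by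
  obtain ⟨d, rfl⟩ : ∃ d, c = d + 1 := ⟨c - 1, by omega⟩
  rw [Nat.add_sub_cancel]
  have h1 := bern d d
  have h2 : d ^ (d + 1) = d * d ^ d := by ring
  have h3 : (d + 1) * d ^ d = d * d ^ d + d ^ d := by ring
  omega

theorem decay (c t K : ℕ) (hc : 0 < c) (hK : c * t ≤ K) : (c - 1) ^ K * 2 ^ t ≤ c ^ K := by
  obtain ⟨r, rfl⟩ : ∃ r, K = c * t + r := ⟨K - c * t, by omega⟩
  rw [pow_add, pow_add, pow_mul, pow_mul]
  calc ((c - 1) ^ c) ^ t * (c - 1) ^ r * 2 ^ t = ((c - 1) ^ c * 2) ^ t * (c - 1) ^ r := by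
        rw [mul_pow]; ring
    _ ≤ (c ^ c) ^ t * c ^ r :=
        Nat.mul_le_mul (Nat.pow_le_pow_left (half_pow c hc) t)
          (Nat.pow_le_pow_left (Nat.sub_le _ _) r)

theorem eight_pow (L : ℕ) (hL : 3 ≤ L) : 8 * L ^ 3 + 2 * L ^ 2 ≤ 8 ^ L := by
  induction L, hL using Nat.le_induction with
  | base => norm_num
  | succ L hL ih =>
    have h1 : 8 ^ (L + 1) = 8 * 8 ^ L := by ring
    rw [h1]
    nlinarith [Nat.mul_le_mul hL hL, Nat.mul_le_mul (Nat.mul_le_mul hL hL) hL,
      Nat.mul_le_mul_left (L ^ 2) hL, Nat.mul_le_mul_left L hL]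

theorem binom_large (L : ℕ) (hL : 3 ≤ L) :
    2 ^ (L - 1) * (4 * L ^ 2 + L) ≤ (4 * L).choose (2 * L) := by
  have h1 := Nat.four_pow_le_two_mul_self_mul_centralBinom (2 * L) (by omega)
  have h2 : (2 * L).centralBinom = (4 * L).choose (2 * L) := by
    rw [Nat.centralBinom_eq_two_mul_choose]
    congr 1
    ring
  rw [h2] at h1
  by_contra hcon
  push Not at hcon
  obtain ⟨l, rfl⟩ : ∃ l, L = l + 1 := ⟨L - 1, by omega⟩
  rw [Nat.add_sub_cancel] at hcon
  have h3 := eight_pow (l + 1) hL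
  have h4 : 4 ^ (2 * (l + 1)) = 2 ^ (l + 1) * 8 ^ (l + 1) := by
    rw [pow_mul, ← mul_pow]; norm_num
  rw [h4] at h1
  have h5 : 2 ^ (l + 1) * (8 * (l + 1) ^ 3 + 2 * (l + 1) ^ 2) ≤ 2 ^ (l + 1) * 8 ^ (l + 1) :=
    Nat.mul_le_mul_left _ h3
  have h6 : 2 * (2 * (l + 1)) * (4 * (l + 1)).choose (2 * (l + 1)) <
      2 * (2 * (l + 1)) * (2 ^ l * (4 * (l + 1) ^ 2 + (l + 1))) :=
    Nat.mul_lt_mul_of_pos_left hcon (by positivity)
  have h7 : 2 * (2 * (l + 1)) * (2 ^ l * (4 * (l + 1) ^ 2 + (l + 1))) =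
      2 ^ (l + 1) * (8 * (l + 1) ^ 3 + 2 * (l + 1) ^ 2) := by ring
  omega

theorem col_ineq (n L : ℕ) (hL : 3 ≤ L) (hn : n ≤ 2 ^ L) :
    n.choose (4 * L) * 2 ^ (L - 1) * (2 ^ (L - 1) - 1) ^ ((4 * L).choose (2 * L)) <
      (2 ^ (L - 1)) ^ ((4 * L).choose (2 * L)) := by
  set K := (4 * L).choose (2 * L) with hK
  set c := 2 ^ (L - 1) with hc
  have hc4 : 4 ≤ c := by
    rw [hc]
    calc 4 = 2 ^ 2 := by norm_num
      _ ≤ 2 ^ (L - 1) := Nat.pow_le_pow_right (by norm_num) (by omega)
  have h1 := decay c (4 * L ^ 2 + L) K (by omega) (binom_large L hL)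
  have h2 : n.choose (4 * L) * c ≤ 2 ^ (4 * L ^ 2 + (L - 1)) := by
    rw [pow_add]
    apply Nat.mul_le_mul _ le_rfl
    calc n.choose (4 * L) ≤ n ^ (4 * L) := Nat.choose_le_pow _ _
      _ ≤ (2 ^ L) ^ (4 * L) := Nat.pow_le_pow_left hn _
      _ = 2 ^ (4 * L ^ 2) := by rw [← pow_mul]; congr 1; ring
  have h3 : 2 ^ (4 * L ^ 2 + (L - 1)) < 2 ^ (4 * L ^ 2 + L) :=
    Nat.pow_lt_pow_right (by norm_num) (by omega)
  have h4 : 0 < (c - 1) ^ K := pow_pos (by omega) _
  calc n.choose (4 * L) * c * (c - 1) ^ K < 2 ^ (4 * L ^ 2 + L) * (c - 1) ^ K :=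
        Nat.mul_lt_mul_of_pos_right (lt_of_le_of_lt h2 h3) h4
    _ = (c - 1) ^ K * 2 ^ (4 * L ^ 2 + L) := by ring
    _ ≤ c ^ K := h1

/-- the main construction for a given exponent `L` -/
theorem main_L {V : Type*} [Fintype V] [DecidableEq V] (L : ℕ) (hL : 3 ≤ L)
    (hn : Fintype.card V + 1 ≤ 2 ^ L) :
    ∃ A : Finset (Finset V), IsAntichain (· ⊆ ·) (A : Set (Finset V)) ∧
      2 ^ Fintype.card V ≤ (inters A).card + 2 ^ (Fintype.card V / 2 + 4 * L ^ 2) := by
  classical
  set n := Fintype.card V with hnd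
  obtain ⟨P, -, hPc⟩ := exists_subset_card_eq (s := (univ : Finset V)) (n := (n + 1) / 2)
    (by rw [card_univ]; omega)
  have hPQ : Disjoint P (univ \ P) := disjoint_sdiff
  have hU : P ∪ (univ \ P) = univ := union_sdiff_of_subset (subset_univ _)
  have hU' : (univ \ P) ∪ P = univ := by rw [union_comm]; exact hU
  have hQc : (univ \ P : Finset V).card = n / 2 := by
    rw [card_sdiff_of_subset (subset_univ _), card_univ, hPc]; omega
  have h2L : 2 ^ L = 2 * 2 ^ (L - 1) := by
    obtain ⟨l, rfl⟩ : ∃ l, L = l + 1 := ⟨L - 1, by omega⟩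
    rw [Nat.add_sub_cancel]; ring
  obtain ⟨χ, hχ⟩ := exists_col (V := V) (2 * L) (4 * L) (2 ^ (L - 1)) (by positivity)
    (col_ineq n L hL (by omega))
  obtain ⟨A, hA, hcov⟩ := construct P (univ \ P) hPQ hU (2 * L) (4 * L) (by omega)
    (2 ^ (L - 1)) (by omega) (by omega) χ hχ
  refine ⟨A, hA, ?_⟩
  have hcover : (univ : Finset (Finset V)) ⊆ inters A ∪
      (((univ : Finset (Finset V)).filter (fun B => (P \ B).card < 4 * L)) ∪
      ((univ : Finset (Finset V)).filter (fun B => ((univ \ P) \ B).card < 4 * L))) := by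
    intro B _
    rw [mem_union, mem_union, mem_filter, mem_filter]
    by_cases h1 : (P \ B).card < 4 * L
    · exact Or.inr (Or.inl ⟨mem_univ _, h1⟩)
    · by_cases h2 : ((univ \ P) \ B).card < 4 * L
      · exact Or.inr (Or.inr ⟨mem_univ _, h2⟩)
      · exact Or.inl (hcov B (by omega) (by omega))
  have hc0 := card_le_card hcover
  rw [card_univ, Fintype.card_finset, ← hnd] at hc0
  have hc1 := hc0.trans (card_union_le _ _)
  have hc2 := card_union_le ((univ : Finset (Finset V)).filter (fun B => (P \ B).card < 4 * L))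
    ((univ : Finset (Finset V)).filter (fun B => ((univ \ P) \ B).card < 4 * L))
  have hc3 := count_small P (univ \ P) hU (4 * L)
  have hc4 := count_small (univ \ P) P hU' (4 * L)
  have hc5 := count_powerset P (4 * L) (L - 1) (by omega)
  have hc6 := count_powerset (univ \ P) (4 * L) (L - 1) (by omega)
  rw [hQc] at hc3
  rw [hPc] at hc4
  have hc7 := Nat.mul_le_mul_right (2 ^ (n / 2)) hc5
  have hc8 := Nat.mul_le_mul_right (2 ^ ((n + 1) / 2)) hc6
  have hfin : 4 * L * 2 ^ ((L - 1) * (4 * L - 1)) * 2 ^ (n / 2) +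
      4 * L * 2 ^ ((L - 1) * (4 * L - 1)) * 2 ^ ((n + 1) / 2) ≤ 2 ^ (n / 2 + 4 * L ^ 2) := by
    obtain ⟨l, rfl⟩ : ∃ l, L = l + 1 := ⟨L - 1, by omega⟩
    have e1 : (l + 1 - 1) * (4 * (l + 1) - 1) = 4 * l ^ 2 + 3 * l := by
      have : 4 * (l + 1) - 1 = 4 * l + 3 := by omega
      rw [this, Nat.add_sub_cancel]; ring
    have e2 : n / 2 + 4 * (l + 1) ^ 2 = n / 2 + (4 * l ^ 2 + 3 * l) + (5 * l + 4) := by ring
    rw [e1, e2, pow_add 2 (n / 2 + (4 * l ^ 2 + 3 * l)) (5 * l + 4),
      pow_add 2 (n / 2) (4 * l ^ 2 + 3 * l)]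
    have e3 : 2 ^ ((n + 1) / 2) ≤ 2 * 2 ^ (n / 2) := by
      rw [← pow_succ']
      exact Nat.pow_le_pow_right (by norm_num) (by omega)
    have e4 : 12 * (l + 1) ≤ 2 ^ (5 * l + 4) := by
      have g1 : l + 1 ≤ 2 ^ l := Nat.lt_two_pow_self
      have g2 : 2 ^ (5 * l + 4) = 16 * 2 ^ l * 2 ^ (4 * l) := by
        rw [show 5 * l + 4 = 4 + l + 4 * l by ring, pow_add, pow_add]; norm_num
      have g3 : 1 ≤ 2 ^ (4 * l) := Nat.one_le_two_pow
      rw [g2]
      calc 12 * (l + 1) ≤ 16 * 2 ^ l * 1 := by omega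
        _ ≤ 16 * 2 ^ l * 2 ^ (4 * l) := Nat.mul_le_mul_left _ g3
    calc 4 * (l + 1) * 2 ^ (4 * l ^ 2 + 3 * l) * 2 ^ (n / 2) +
          4 * (l + 1) * 2 ^ (4 * l ^ 2 + 3 * l) * 2 ^ ((n + 1) / 2)
        ≤ 4 * (l + 1) * 2 ^ (4 * l ^ 2 + 3 * l) * 2 ^ (n / 2) +
          4 * (l + 1) * 2 ^ (4 * l ^ 2 + 3 * l) * (2 * 2 ^ (n / 2)) := by gcongr
      _ = 2 ^ (n / 2) * 2 ^ (4 * l ^ 2 + 3 * l) * (12 * (l + 1)) := by ring
      _ ≤ 2 ^ (n / 2) * 2 ^ (4 * l ^ 2 + 3 * l) * 2 ^ (5 * l + 4) :=
        Nat.mul_le_mul_left _ e4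
  omega

/-! ### the upper bound -/

theorem inters_le {V : Type*} [Fintype V] [DecidableEq V] (A : Finset (Finset V))
    (hA : IsAntichain (· ⊆ ·) (A : Set (Finset V))) :
    (inters A).card + A.card ≤ 2 ^ Fintype.card V ∧
      (inters A).card + A.card ≤ A.card * A.card := by
  classical
  constructor
  · have hd : Disjoint (inters A) A := by
      rw [disjoint_left]
      intro B hB hBA
      unfold inters at hB
      rw [mem_image] at hB
      obtain ⟨p, hp, rfl⟩ := hB
      rw [mem_offDiag] at hp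
      have h1 : p.1 ∩ p.2 = p.1 := hA.eq hBA hp.1 inter_subset_left
      have h2 : p.1 ∩ p.2 = p.2 := hA.eq hBA hp.2.1 inter_subset_right
      exact hp.2.2 (h1.symm.trans h2)
    rw [← card_union_of_disjoint hd, ← Fintype.card_finset, ← card_univ]
    exact card_le_card (subset_univ _)
  · have h1 : (inters A).card ≤ A.offDiag.card := card_image_le
    rw [offDiag_card] at h1
    have : A.card ≤ A.card * A.card := Nat.le_mul_self _
    omega

theorem upper {V : Type*} [Fintype V] [DecidableEq V] (A : Finset (Finset V))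
    (hA : IsAntichain (· ⊆ ·) (A : Set (Finset V))) :
    2 ^ Fintype.card V ≤ (2 ^ Fintype.card V - (inters A).card) ^ 2 := by
  obtain ⟨h1, h2⟩ := inters_le A hA
  set N := 2 ^ Fintype.card V with hN
  set a := A.card with ha
  set I := (inters A).card with hI
  obtain ⟨d, hd⟩ : ∃ d, N = I + d := ⟨N - I, by omega⟩
  have hsub : N - I = d := by omega
  rw [hsub]
  have had : a ≤ d := by omega
  by_cases hc : N ≤ a * a
  · calc N ≤ a * a := hc
      _ ≤ d * d := Nat.mul_le_mul had had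
      _ = d ^ 2 := by ring
  · push Not at hc
    obtain ⟨t, ht⟩ : ∃ t, N = a * a + t := ⟨N - a * a, by omega⟩
    have h3 : t + a ≤ d := by omega
    have h4 : t ≤ t * t := Nat.le_mul_self t
    calc N = a * a + t := ht
      _ ≤ (t + a) * (t + a) := by nlinarith
      _ ≤ d * d := Nat.mul_le_mul h3 h3
      _ = d ^ 2 := by ring

end Pool.Agent.V11145.Inter
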