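import Pool.Agent.V11145.EdgeMapSound

/-! The numerical data read off from a blocking map cannot exist. -/

namespace Pool.Agent.V11145.EdgeMap

open Finset

structure Data (a : ℕ → ℕ → ℕ) (p : ℕ → ℕ → ℕ → ℕ) : Prop where
  symm : ∀ i j, a i j = a j i
  irrefl : ∀ i, a i i = 0
  le_one : ∀ i j, a i j ≤ 1
  psymm : ∀ i j k, p i j k = p j i k
  pdiag : ∀ i j, p i j j = 0
  psum : ∀ n ≤ 8, ∀ i j, ∑ k ∈ range n, p i j k ≤ 2 * a i j
  need : ∀ i j k, i < j → j < k → k < 8 →
    a i j + a i k + a j k - 1 ≤ p i j k + p j k i + p i k j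
  min : ∀ m < 8, ∀ i ≤ m, ∑ j ∈ range (m+1), a m j ≤ ∑ j ∈ range (m+1), a i j
  edges : 14 ≤ ∑ j ∈ range 8, ∑ i ∈ range j, a i j
  target : ∀ i < 8, ∀ j < 8, a i j = 1 →
    ∃ x < 8, ∃ y < 8, a x y = 1 ∧ p i j x = 1 ∧ p i j y = 1

structure Inv (a : ℕ → ℕ → ℕ) (n g e N : ℕ) : Prop where
  bits : ∀ i < 8, ∀ j < 8, bit g (8*i+j) = if i < n ∧ j < n then a i j else 0
  edge : e = ∑ j ∈ range n, ∑ i ∈ range j, a i j
  nn : N = ∑ k ∈ range n, ∑ j ∈ range k, ∑ i ∈ range j, (a i j + a i k + a j k - 1)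

variable {a : ℕ → ℕ → ℕ} {p : ℕ → ℕ → ℕ → ℕ}

theorem testBit_of_bit {g q : ℕ} (h : bit g q = 0) : g.testBit q = false := by
  rw [bit_eq] at h
  by_contra hc
  simp at hc
  simp [hc] at h

theorem bits_step (D : Data a p) {n g s : ℕ} (hn : n < 8)
    (hg : ∀ i < 8, ∀ j < 8, bit g (8*i+j) = if i < n ∧ j < n then a i j else 0)
    (hs1 : ∀ i < n, bit s i = a i n) (hs2 : ∀ i, n ≤ i → bit s i = 0) :
    ∀ i < 8, ∀ j < 8, bit (g ||| s <<< (8*n) ||| col s n n) (8*i+j) =
      if i < n+1 ∧ j < n+1 then a i j else 0 := by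
  intro i hi j hj
  have hg' := hg i hi j hj
  have hcol := testBit_col s n n (8*i+j)
  rw [bit_eq, Nat.testBit_or, Nat.testBit_or, Nat.testBit_shiftLeft]
  rcases lt_trichotomy i n with hin | hin | hin
  · -- i < n
    have h1 : ¬ (8*n ≤ 8*i+j) := by omega
    rcases lt_trichotomy j n with hjn | hjn | hjn
    · have h2 : (col s n n).testBit (8*i+j) = false := by
        by_contra hc
        simp only [Bool.not_eq_false] at hc
        obtain ⟨i', _, h3, _⟩ := hcol.mp hc
        omega
      rw [h2]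
      simp only [h1, decide_false, Bool.false_and, Bool.or_false]
      rw [← bit_eq, hg', if_pos ⟨hin, hjn⟩, if_pos ⟨by omega, by omega⟩]
    · subst hjn
      have h3 : bit g (8*i+j) = 0 := by rw [hg', if_neg (by omega)]
      rw [testBit_of_bit h3]
      simp only [h1, decide_false, Bool.false_and, Bool.or_false, Bool.false_or]
      rw [if_pos (show i < j+1 ∧ j < j+1 by omega), ← hs1 i hin]
      by_cases hb : bit s i = 1
      · rw [hb, if_pos (hcol.mpr ⟨i, hin, rfl, hb⟩)]
      · have hb0 : bit s i = 0 := by have := bit_le s i; omega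
        rw [hb0, if_neg]
        intro hc
        obtain ⟨i', _, h4, h5⟩ := hcol.mp hc
        have : i' = i := by omega
        rw [this] at h5; omega
    · have h3 : bit g (8*i+j) = 0 := by rw [hg', if_neg (by omega)]
      have h2 : (col s n n).testBit (8*i+j) = false := by
        by_contra hc
        simp only [Bool.not_eq_false] at hc
        obtain ⟨i', _, h3, _⟩ := hcol.mp hc
        omega
      rw [h2, testBit_of_bit h3]
      simp only [h1, decide_false, Bool.false_and, Bool.or_false]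
      rw [if_neg (by simp), if_neg (by omega)]
  · subst hin
    have h3 : bit g (8*i+j) = 0 := by rw [hg', if_neg (by omega)]
    have h2 : (col s i i).testBit (8*i+j) = false := by
      by_contra hc
      simp only [Bool.not_eq_false] at hc
      obtain ⟨i', _, h3, _⟩ := hcol.mp hc
      omega
    rw [h2, testBit_of_bit h3]
    have h1 : 8*i ≤ 8*i+j := by omega
    simp only [h1, decide_true, Bool.true_and, Bool.or_false, Bool.false_or, Nat.add_sub_cancel_left]
    rw [← bit_eq]
    rcases Nat.lt_or_ge j i with hji | hji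
    · rw [hs1 j hji, if_pos ⟨by omega, by omega⟩, D.symm]
    · rw [hs2 j hji]
      rcases Nat.eq_or_lt_of_le hji with rfl | h'
      · rw [if_pos ⟨by omega, by omega⟩, D.irrefl]
      · rw [if_neg (by omega)]
  · have h3 : bit g (8*i+j) = 0 := by rw [hg', if_neg (by omega)]
    have h2 : (col s n n).testBit (8*i+j) = false := by
      by_contra hc
      simp only [Bool.not_eq_false] at hc
      obtain ⟨i', _, h3, _⟩ := hcol.mp hc
      omega
    rw [h2, testBit_of_bit h3]
    have h1 : 8*n ≤ 8*i+j := by omega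
    simp only [h1, decide_true, Bool.true_and, Bool.or_false, Bool.false_or]
    rw [← bit_eq, hs2 _ (by omega), if_neg (by omega)]

/-- the pointer inequality for a prefix -/
theorem pointer_le (D : Data a p) (n : ℕ) (hn : n ≤ 8) :
    ∑ k ∈ range n, ∑ j ∈ range k, ∑ i ∈ range j, (a i j + a i k + a j k - 1)
      ≤ 2 * ∑ j ∈ range n, ∑ i ∈ range j, a i j := by
  calc _ ≤ ∑ k ∈ range n, ∑ j ∈ range k, ∑ i ∈ range j, (p i j k + p j k i + p i k j) := by
        refine sum_le_sum fun k hk => sum_le_sum fun j hj => sum_le_sum fun i hi => ?_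
        rw [mem_range] at hk hj hi
        exact D.need i j k hi hj (by omega)
    _ = ∑ j ∈ range n, ∑ i ∈ range j, ∑ k ∈ range n, p i j k := sum_triples p D.psymm D.pdiag n
    _ ≤ ∑ j ∈ range n, ∑ i ∈ range j, 2 * a i j :=
        sum_le_sum fun j _ => sum_le_sum fun i _ => D.psum n hn i j
    _ = _ := by
        rw [mul_sum]
        exact sum_congr rfl fun j _ => (mul_sum _ _ _).symm

theorem sum_range_ext (n : ℕ) (hn : n ≤ 8) (f : ℕ → ℕ) :
    ∑ j ∈ range 8, (if j < n then f j else 0) = ∑ j ∈ range n, f j := by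
  rw [← sum_filter]
  congr 1
  ext x; simp only [mem_filter, mem_range]; omega

/-- degrees sum -/
theorem sum_deg (D : Data a p) (n : ℕ) :
    ∑ i ∈ range n, ∑ j ∈ range n, a i j = 2 * ∑ j ∈ range n, ∑ i ∈ range j, a i j := by
  rw [← sum_pairs a n]
  have : ∑ i ∈ range n, a i i = 0 := sum_eq_zero fun i _ => D.irrefl i
  rw [this, add_zero, mul_sum]
  refine sum_congr rfl fun j _ => ?_
  rw [mul_sum]
  exact sum_congr rfl fun i _ => by rw [D.symm j i]; ring

theorem min_mul (D : Data a p) (n : ℕ) (hn : n < 8) :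
    (n+1) * ∑ j ∈ range (n+1), a n j ≤ 2 * ∑ j ∈ range (n+1), ∑ i ∈ range j, a i j := by
  rw [← sum_deg D]
  calc (n+1) * ∑ j ∈ range (n+1), a n j = ∑ i ∈ range (n+1), ∑ j ∈ range (n+1), a n j := by
        rw [sum_const, card_range, smul_eq_mul]
    _ ≤ _ := by
        refine sum_le_sum fun i hi => D.min n hn i ?_
        rw [mem_range] at hi; omega

theorem edges_ge (D : Data a p) : ∀ n ≤ 8, lb n ≤ ∑ j ∈ range n, ∑ i ∈ range j, a i j := by
  have step : ∀ n < 8, lb (n+1) ≤ ∑ j ∈ range (n+1), ∑ i ∈ range j, a i j →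
      lb n ≤ ∑ j ∈ range n, ∑ i ∈ range j, a i j := by
    intro n hn h
    have h1 := min_mul D n hn
    rw [sum_range_succ (fun j => a n j), D.irrefl, add_zero] at h1
    rw [sum_range_succ (fun j => ∑ i ∈ range j, a i j)] at h h1
    have h2 : ∑ i ∈ range n, a i n = ∑ j ∈ range n, a n j := sum_congr rfl fun i _ => D.symm _ _
    rw [h2] at h h1
    generalize ∑ j ∈ range n, a n j = d at h h1
    generalize ∑ j ∈ range n, ∑ i ∈ range j, a i j = e at h h1 ⊢
    interval_cases n <;> simp only [lb] at h ⊢ <;> omega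
  have h8 : lb 8 ≤ ∑ j ∈ range 8, ∑ i ∈ range j, a i j := D.edges
  have h7 := step 7 (by norm_num) h8
  have h6 := step 6 (by norm_num) h7
  have h5 := step 5 (by norm_num) h6
  have h4 := step 4 (by norm_num) h5
  have h3 := step 3 (by norm_num) h4
  have h2 := step 2 (by norm_num) h3
  have h1 := step 1 (by norm_num) h2
  have h0 := step 0 (by norm_num) h1
  intro n hn
  interval_cases n <;> assumption

theorem check_step (D : Data a p) {k n g e N : ℕ} (hn : n < 8) (I : Inv a n g e N)
    (hc : check (k+1) n g e N = true) :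
    ∃ g' e' N', Inv a (n+1) g' e' N' ∧ check k (n+1) g' e' N' = true := by
  obtain ⟨s, hs, hs1, hs2⟩ := exists_bits n (fun i => a i n) (fun i => D.le_one i n)
  have hpc : pc s = ∑ i ∈ range n, a i n := by
    rw [pc_eq, ← sum_range_ext n (by omega)]
    refine sum_congr rfl fun i _ => ?_
    split_ifs with h
    · exact hs1 i h
    · exact hs2 i (by omega)
  have hE : e + pc s = ∑ j ∈ range (n+1), ∑ i ∈ range j, a i j := by
    rw [sum_range_succ, ← I.edge, hpc]
  have hN : N + incN g n s
      = ∑ k ∈ range (n+1), ∑ j ∈ range k, ∑ i ∈ range j, (a i j + a i k + a j k - 1) := by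
    rw [sum_range_succ, ← I.nn, incN_eq g n s (by omega)]
    congr 1
    refine sum_congr rfl fun j hj => sum_congr rfl fun i hi => ?_
    rw [mem_range] at hj hi
    rw [I.bits j (by omega) i (by omega), if_pos ⟨hj, by omega⟩, hs1 i (by omega), hs1 j hj, D.symm]
  have hsymm : ∑ i ∈ range n, a i n = ∑ j ∈ range (n+1), a n j := by
    rw [sum_range_succ, D.irrefl, add_zero]
    exact sum_congr rfl fun i _ => D.symm _ _
  refine ⟨g ||| s <<< (8*n) ||| col s n n, e + pc s, N + incN g n s, ⟨?_, hE, hN⟩, ?_⟩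
  · exact bits_step D hn I.bits hs1 hs2
  · rw [check, allTo_eq] at hc
    have h := hc s hs
    simp only [force_eq, Bool.or_eq_true, Bool.not_eq_true'] at h
    rcases h with h | h
    · exfalso
      have h1 : Nat.ble (lb (n+1)) (e + pc s) = true := by
        rw [Nat.ble_eq, hE]; exact edges_ge D (n+1) hn
      have h2 : Nat.ble ((n+1)*pc s) (2*(e+pc s)) = true := by
        rw [Nat.ble_eq, hE, hpc, hsymm]; exact min_mul D n hn
      have h3 : allTo (fun i => Nat.ble (pc s) (pc (row g i) + bit s i)) n = true := by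
        rw [allTo_eq]
        intro i hi
        rw [Nat.ble_eq, hpc, hsymm, hs1 i hi]
        refine (D.min n hn i (by omega)).trans (le_of_eq ?_)
        rw [sum_range_succ]
        congr 1
        rw [pc_eq, ← sum_range_ext n (by omega)]
        refine sum_congr rfl fun j hj => ?_
        rw [mem_range] at hj
        rw [bit_row _ _ _ hj, I.bits i (by omega) j hj]
        simp only [hi, true_and]
      have h4 : Nat.ble (N + incN g n s) (2*(e+pc s)) = true := by
        rw [Nat.ble_eq, hE, hN]; exact pointer_le D (n+1) hn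
      rw [h1, h2, h3, h4] at h
      simp at h
    · exact h

theorem tight (D : Data a p)
    (h : ∑ k ∈ range 8, ∑ j ∈ range k, ∑ i ∈ range j, (a i j + a i k + a j k - 1)
      = 2 * ∑ j ∈ range 8, ∑ i ∈ range j, a i j) :
    ∀ i j k, i < j → j < k → k < 8 →
      a i j + a i k + a j k - 1 = p i j k + p j k i + p i k j := by
  have hle : ∀ k ∈ range 8, ∀ j ∈ range k, ∀ i ∈ range j,
      a i j + a i k + a j k - 1 ≤ p i j k + p j k i + p i k j := by
    intro k hk j hj i hi
    rw [mem_range] at hk hj hi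
    exact D.need i j k hi hj (by omega)
  have h1 : ∑ k ∈ range 8, ∑ j ∈ range k, ∑ i ∈ range j, (p i j k + p j k i + p i k j)
      ≤ 2 * ∑ j ∈ range 8, ∑ i ∈ range j, a i j := by
    rw [sum_triples p D.psymm D.pdiag 8, mul_sum]
    refine sum_le_sum fun j _ => ?_
    rw [mul_sum]
    exact sum_le_sum fun i _ => D.psum 8 le_rfl i j
  have h2 : ∑ k ∈ range 8, ∑ j ∈ range k, ∑ i ∈ range j, (a i j + a i k + a j k - 1)
      = ∑ k ∈ range 8, ∑ j ∈ range k, ∑ i ∈ range j, (p i j k + p j k i + p i k j) := by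
    apply le_antisymm
    · exact sum_le_sum fun k hk => sum_le_sum fun j hj => sum_le_sum fun i hi => hle k hk j hj i hi
    · rw [h]; exact h1
  intro i j k hij hjk hk
  have h3 := (sum_eq_sum_iff_of_le (fun k hk => sum_le_sum fun j hj => sum_le_sum fun i hi =>
    hle k hk j hj i hi)).mp h2 k (mem_range.mpr hk)
  have h4 := (sum_eq_sum_iff_of_le (fun j hj => sum_le_sum fun i hi =>
    hle k (mem_range.mpr hk) j hj i hi)).mp h3 j (mem_range.mpr hjk)
  exact (sum_eq_sum_iff_of_le (fun i hi =>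
    hle k (mem_range.mpr hk) j (mem_range.mpr hjk) i hi)).mp h4 i (mem_range.mpr hij)

theorem p_le (D : Data a p) (i j k : ℕ) : p i j k ≤ 2 * a i j ∨ 8 ≤ k := by
  rcases Nat.lt_or_ge k 8 with h | h
  · left
    exact (single_le_sum (f := fun k => p i j k) (fun _ _ => Nat.zero_le _) (mem_range.mpr h)).trans
      (D.psum 8 le_rfl i j)
  · right; exact h

/-- in the tight case a pointer only goes to a vertex adjacent to one end of its edge -/
theorem adj_of_pointer (D : Data a p)
    (ht : ∀ i j k, i < j → j < k → k < 8 →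
      a i j + a i k + a j k - 1 = p i j k + p j k i + p i k j)
    {x y z : ℕ} (hx : x < 8) (hy : y < 8) (hz : z < 8) (hxy : a x y = 1) (hp : p x y z = 1) :
    1 ≤ a x z + a y z := by
  have hzy : z ≠ y := by rintro rfl; rw [D.pdiag] at hp; omega
  have hzx : z ≠ x := by rintro rfl; rw [D.psymm, D.pdiag] at hp; omega
  have hne : x ≠ y := by rintro rfl; rw [D.irrefl] at hxy; omega
  have s1 := D.symm x y
  have s2 := D.symm x z
  have s3 := D.symm y z
  have q1 := D.psymm x y z
  have q2 := D.psymm y z x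
  have q3 := D.psymm x z y
  rcases lt_or_gt_of_ne hne with h1 | h1
  · rcases lt_or_gt_of_ne hzy with h2 | h2
    · rcases lt_or_gt_of_ne hzx with h3 | h3
      · have := ht z x y h3 h1 hy; omega
      · have := ht x z y h3 h2 hy; omega
    · have := ht x y z h1 h2 hz; omega
  · rcases lt_or_gt_of_ne hzx with h2 | h2
    · rcases lt_or_gt_of_ne hzy with h3 | h3
      · have := ht z y x h3 h1 hx; omega
      · have := ht y z x h3 h2 hx; omega
    · have := ht y x z h1 h2 hz; omega

theorem forced_sound (D : Data a p) {g : ℕ} (hb : ∀ i < 8, ∀ j < 8, bit g (8*i+j) = a i j)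
    (ht : ∀ i j k, i < j → j < k → k < 8 →
      a i j + a i k + a j k - 1 = p i j k + p j k i + p i k j)
    {x y z : ℕ} (hx : x < 8) (hy : y < 8) (hxy : a x y = 1)
    (hf : forced g x y z = true) : p x y z = 1 := by
  obtain ⟨u, hu, w, hw, huw, pu, pw⟩ := D.target x hx y hy hxy
  have hu1 : u ≠ y := by rintro rfl; rw [D.pdiag] at pu; omega
  have hu2 : u ≠ x := by rintro rfl; rw [D.psymm, D.pdiag] at pu; omega
  have hw1 : w ≠ y := by rintro rfl; rw [D.pdiag] at pw; omega
  have hw2 : w ≠ x := by rintro rfl; rw [D.psymm, D.pdiag] at pw; omega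
  have au := adj_of_pointer D ht hx hy hu hxy pu
  have aw := adj_of_pointer D ht hx hy hw hxy pw
  rw [forced, allTo_eq] at hf
  have h1 := hf u hu
  rw [allTo_eq] at h1
  have h2 := h1 w hw
  rw [hb u hu w hw, hb x hx u hu, hb y hy u hu, hb x hx w hw, hb y hy w hw] at h2
  simp only [Bool.or_eq_true, Bool.not_eq_true', Bool.and_eq_false_iff, Nat.beq_eq, Bool.not_eq_false',
    Nat.ble_eq] at h2
  rcases h2 with (h2 | h2) | h2
  · exfalso
    have e1 : Nat.beq (a u w) 1 = true := by rw [Nat.beq_eq]; exact huw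
    have e2 : Nat.beq u x = false := by
      rw [← Bool.not_eq_true, Nat.beq_eq]; exact hu2
    have e3 : Nat.beq u y = false := by
      rw [← Bool.not_eq_true, Nat.beq_eq]; exact hu1
    have e4 : Nat.beq w x = false := by
      rw [← Bool.not_eq_true, Nat.beq_eq]; exact hw2
    have e5 : Nat.beq w y = false := by
      rw [← Bool.not_eq_true, Nat.beq_eq]; exact hw1
    have e6 : Nat.ble 1 (a x u + a y u) = true := by rw [Nat.ble_eq]; exact au
    have e7 : Nat.ble 1 (a x w + a y w) = true := by rw [Nat.ble_eq]; exact aw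
    rw [e1, e6, e7] at h2
    simp [hu1, hu2, hw1, hw2] at h2
  · rw [← h2]; exact pu
  · rw [← h2]; exact pw

theorem core (D : Data a p) : False := by
  have I1 : Inv a 1 0 0 0 := by
    refine ⟨?_, ?_, ?_⟩
    · intro i _ j _
      have : bit 0 (8*i+j) = 0 := by rw [bit_eq]; simp
      rw [this]
      split_ifs with h
      · have h1 : i = 0 := by omega
        have h2 : j = 0 := by omega
        rw [h1, h2, D.irrefl]
      · rfl
    · simp
    · simp
  obtain ⟨g2, e2, N2, I2, c2⟩ := check_step D (by norm_num) I1 check_true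
  obtain ⟨g3, e3, N3, I3, c3⟩ := check_step D (by norm_num) I2 c2
  obtain ⟨g4, e4, N4, I4, c4⟩ := check_step D (by norm_num) I3 c3
  obtain ⟨g5, e5, N5, I5, c5⟩ := check_step D (by norm_num) I4 c4
  obtain ⟨g6, e6, N6, I6, c6⟩ := check_step D (by norm_num) I5 c5
  obtain ⟨g7, e7, N7, I7, c7⟩ := check_step D (by norm_num) I6 c6
  obtain ⟨g, e, N, I, c⟩ := check_step D (by norm_num) I7 c7
  rw [check, final, Bool.and_eq_true, Nat.beq_eq, anyTo_eq] at c
  obtain ⟨hN, z, hz, c⟩ := c
  rw [anyTo_eq] at c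
  obtain ⟨y, hy, c⟩ := c
  rw [anyTo_eq] at c
  obtain ⟨x, hx, c⟩ := c
  simp only [Bool.and_eq_true, Nat.beq_eq] at c
  obtain ⟨⟨⟨⟨⟨c1, c2⟩, c3⟩, c4⟩, c5⟩, c6⟩ := c
  have hb : ∀ i < 8, ∀ j < 8, bit g (8*i+j) = a i j := by
    intro i hi j hj
    rw [I.bits i hi j hj, if_pos ⟨hi, hj⟩]
  rw [hb _ (by omega) _ (by omega)] at c1 c2 c3
  have ht := tight D (by rw [← I.edge, ← I.nn, hN])
  have p1 := forced_sound D hb ht (by omega) (by omega) c1 c4
  have p2 := forced_sound D hb ht (by omega) (by omega) c3 c5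
  have p3 := forced_sound D hb ht (by omega) (by omega) c2 c6
  have := ht x y z hx hy hz
  omega

end Pool.Agent.V11145.EdgeMap
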