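import Mathlib

/-!
A computation used for the exclusive-copy edge-mapping numbers of the path with three vertices.

Vertices are numbered `0, ..., 7`; the graph on the first `n` of them is stored in the number `g`,
eight binary digits per row.  `check` runs through all graphs obtained by adding the vertices one by
one, the new vertex always having minimum degree, that keep enough edges and satisfy the pointer
inequality, and verifies the test `final` on those with all eight vertices.
-/

namespace Pool.Agent.V11145.EdgeMap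

open Finset

/-- the `p`-th binary digit -/
def bit (g p : ℕ) : ℕ := (g >>> p) % 2

def sumTo (f : ℕ → ℕ) (n : ℕ) : ℕ := Nat.rec 0 (fun k acc => acc + f k) n
def allTo (f : ℕ → Bool) (n : ℕ) : Bool := Nat.rec true (fun k acc => f k && acc) n
def anyTo (f : ℕ → Bool) (n : ℕ) : Bool := Nat.rec false (fun k acc => f k || acc) n
def force (n : ℕ) (k : ℕ → Bool) : Bool := Nat.rec (k 0) (fun m _ => k (m+1)) n
def forceN (n : ℕ) (k : ℕ → ℕ) : ℕ := Nat.rec (k 0) (fun m _ => k (m+1)) n

def pc (r : ℕ) : ℕ := sumTo (bit r) 8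
def row (g i : ℕ) : ℕ := (g >>> (8*i)) % 256

def lb : ℕ → ℕ
  | 2 => 1 | 3 => 2 | 4 => 4 | 5 => 6 | 6 => 8 | 7 => 11 | 8 => 14 | _ => 0

def inc1 (r s j : ℕ) : ℕ := sumTo (fun i => bit r i + bit s i + bit s j - 1) j
def incN (g n s : ℕ) : ℕ := sumTo (fun j => forceN (row g j % 2^j) fun r => inc1 r s j) n

/-- the digits `8 i + n` for `i` in `s` -/
def col (s n : ℕ) : ℕ → ℕ := fun k => Nat.rec 0 (fun i acc => acc ||| (bit s i <<< (8*i+n))) k

/-- every edge disjoint from `a b` with both ends adjacent to `a` or `b` contains `c` -/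
def forced (g a b c : ℕ) : Bool :=
  allTo (fun x => allTo (fun y =>
    !(Nat.beq (bit g (8*x+y)) 1 && !Nat.beq x a && !Nat.beq x b && !Nat.beq y a && !Nat.beq y b
      && Nat.ble 1 (bit g (8*a+x) + bit g (8*b+x)) && Nat.ble 1 (bit g (8*a+y) + bit g (8*b+y)))
    || Nat.beq x c || Nat.beq y c) 8) 8

def final (g e N : ℕ) : Bool :=
  Nat.beq N (2*e) &&
  anyTo (fun c => anyTo (fun b => anyTo (fun a =>
    Nat.beq (bit g (8*a+b)) 1 && Nat.beq (bit g (8*a+c)) 1 && Nat.beq (bit g (8*b+c)) 1 &&
    forced g a b c && forced g b c a && forced g a c b) b) c) 8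

def check : ℕ → ℕ → ℕ → ℕ → ℕ → Bool
  | 0, _n, g, e, N => final g e N
  | k+1, n, g, e, N => allTo (fun s => force s fun s => force (pc s) fun p =>
      !(Nat.ble (lb (n+1)) (e + p) && Nat.ble ((n+1)*p) (2*(e+p)) &&
        allTo (fun i => force (row g i) fun r => Nat.ble p (pc r + bit s i)) n &&
        Nat.ble (N + incN g n s) (2*(e+p))) ||
      force (g ||| s <<< (8*n) ||| col s n n) fun g' => force (e+p) fun e' =>
        force (N+incN g n s) fun N' => check k (n+1) g' e' N') (2^n)

set_option maxRecDepth 100000 in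
theorem check_true : check 7 1 0 0 0 = true := by decide +kernel

end Pool.Agent.V11145.EdgeMap
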