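import Pool.Agent.V11145.EdgeMapEnum

/-! Soundness of the computation in `EdgeMapEnum`. -/

namespace Pool.Agent.V11145.EdgeMap

open Finset

theorem sumTo_eq (f : ℕ → ℕ) (n : ℕ) : sumTo f n = ∑ i ∈ range n, f i := by
  induction n with
  | zero => rfl
  | succ n ih => rw [sum_range_succ, ← ih]; rfl

theorem allTo_eq (f : ℕ → Bool) (n : ℕ) : allTo f n = true ↔ ∀ i < n, f i = true := by
  induction n with
  | zero => simp [allTo]
  | succ n ih =>
    have h : allTo f (n+1) = (f n && allTo f n) := rfl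
    rw [h, Bool.and_eq_true, ih]
    constructor
    · rintro ⟨h1, h2⟩ i hi
      rcases Nat.lt_succ_iff_lt_or_eq.mp hi with h | rfl
      · exact h2 i h
      · exact h1
    · intro h
      exact ⟨h n (Nat.lt_succ_self n), fun i hi => h i (Nat.lt_succ_of_lt hi)⟩

theorem anyTo_eq (f : ℕ → Bool) (n : ℕ) : anyTo f n = true ↔ ∃ i < n, f i = true := by
  induction n with
  | zero => simp [anyTo]
  | succ n ih =>
    have h : anyTo f (n+1) = (f n || anyTo f n) := rfl
    rw [h, Bool.or_eq_true, ih]
    constructor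
    · rintro (h1 | ⟨i, hi, h2⟩)
      · exact ⟨n, Nat.lt_succ_self n, h1⟩
      · exact ⟨i, Nat.lt_succ_of_lt hi, h2⟩
    · rintro ⟨i, hi, h2⟩
      rcases Nat.lt_succ_iff_lt_or_eq.mp hi with h' | h'
      · exact Or.inr ⟨i, h', h2⟩
      · exact Or.inl (h' ▸ h2)

theorem force_eq (n : ℕ) (k : ℕ → Bool) : force n k = k n := by cases n <;> rfl
theorem forceN_eq (n : ℕ) (k : ℕ → ℕ) : forceN n k = k n := by cases n <;> rfl

theorem bit_eq (g p : ℕ) : bit g p = if g.testBit p then 1 else 0 := by
  unfold bit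
  rw [Nat.shiftRight_eq_div_pow, Nat.testBit_eq_decide_div_mod_eq]
  have := Nat.mod_two_eq_zero_or_one (g / 2^p)
  rcases this with h | h <;> simp [h]

theorem bit_le (g p : ℕ) : bit g p ≤ 1 := by
  rw [bit_eq]; split_ifs <;> omega

theorem bit_row (g i j : ℕ) (hj : j < 8) : bit (row g i) j = bit g (8*i+j) := by
  rw [bit_eq, bit_eq, row]
  have h : (256 : ℕ) = 2^8 := by norm_num
  rw [h, Nat.testBit_mod_two_pow, Nat.testBit_shiftRight]
  simp [hj]

theorem bit_mod (r i j : ℕ) (hj : i < j) : bit (r % 2^j) i = bit r i := by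
  rw [bit_eq, bit_eq, Nat.testBit_mod_two_pow]
  simp [hj]

theorem inc1_eq (r s j : ℕ) : inc1 r s j = ∑ i ∈ range j, (bit r i + bit s i + bit s j - 1) := by
  rw [inc1, sumTo_eq]

theorem incN_eq (g n s : ℕ) (hn : n ≤ 8) :
    incN g n s = ∑ j ∈ range n, ∑ i ∈ range j, (bit g (8*j+i) + bit s i + bit s j - 1) := by
  rw [incN, sumTo_eq]
  apply sum_congr rfl
  intro j hj
  rw [forceN_eq, inc1_eq]
  apply sum_congr rfl
  intro i hi
  rw [mem_range] at hi hj
  rw [bit_mod _ _ _ hi, bit_row _ _ _ (by omega)]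

theorem pc_eq (r : ℕ) : pc r = ∑ i ∈ range 8, bit r i := by rw [pc, sumTo_eq]

/-- digits of `col` -/
theorem testBit_col (s n k q : ℕ) :
    (col s n k).testBit q = true ↔ ∃ i < k, q = 8*i+n ∧ bit s i = 1 := by
  induction k with
  | zero => simp [col]
  | succ k ih =>
    have h : col s n (k+1) = col s n k ||| (bit s k <<< (8*k+n)) := rfl
    rw [h, Nat.testBit_or, Bool.or_eq_true, ih, Nat.testBit_shiftLeft]
    constructor
    · rintro (⟨i, hi, h1, h2⟩ | h1)
      · exact ⟨i, by omega, h1, h2⟩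
      · refine ⟨k, Nat.lt_succ_self k, ?_⟩
        have hb := bit_le s k
        rw [Bool.and_eq_true, decide_eq_true_eq] at h1
        rcases Nat.le_one_iff_eq_zero_or_eq_one.mp hb with h0 | h0
        · rw [h0] at h1; simp at h1
        · rw [h0] at h1
          have h3 : (1:ℕ) = 2^0 := rfl
          rw [h3, Nat.testBit_two_pow] at h1
          have := h1.2
          rw [decide_eq_true_eq] at this
          exact ⟨by omega, h0⟩
    · rintro ⟨i, hi, h1, h2⟩
      rcases Nat.lt_succ_iff_lt_or_eq.mp hi with h' | rfl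
      · exact Or.inl ⟨i, h', h1, h2⟩
      · right
        rw [h2, h1]
        simp

/-- there is a number with prescribed binary digits -/
theorem exists_bits (n : ℕ) (b : ℕ → ℕ) (hb : ∀ i, b i ≤ 1) :
    ∃ s < 2^n, (∀ i < n, bit s i = b i) ∧ ∀ i, n ≤ i → bit s i = 0 := by
  induction n with
  | zero => exact ⟨0, by simp, fun i hi => by omega, fun i _ => by simp [bit_eq]⟩
  | succ n ih =>
    obtain ⟨s, hs, h1, h2⟩ := ih
    rcases Nat.le_one_iff_eq_zero_or_eq_one.mp (hb n) with h0 | h0
    · refine ⟨s, by rw [pow_succ]; omega, ?_, fun i hi => h2 i (by omega)⟩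
      intro i hi
      rcases Nat.lt_succ_iff_lt_or_eq.mp hi with h' | rfl
      · exact h1 i h'
      · rw [h0]; exact h2 i le_rfl
    · refine ⟨2^n + s, by rw [pow_succ]; omega, ?_, ?_⟩
      · intro i hi
        rcases Nat.lt_succ_iff_lt_or_eq.mp hi with h' | rfl
        · rw [← h1 i h', bit_eq, bit_eq, Nat.testBit_two_pow_add_gt h']
        · rw [h0, bit_eq, Nat.testBit_two_pow_add_eq]
          have := h2 i le_rfl
          rw [bit_eq] at this
          have h3 : s.testBit i = false := by
            by_contra hc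
            simp at hc
            simp [hc] at this
          simp [h3]
      · intro i hi
        rw [bit_eq]
        have : (2^n + s).testBit i = false := by
          apply Nat.testBit_lt_two_pow
          calc 2^n + s < 2^(n+1) := by rw [pow_succ]; omega
            _ ≤ 2^i := Nat.pow_le_pow_right (by norm_num) hi
        simp [this]

/-- ordered pairs, the diagonal removed -/
theorem sum_pairs (Q : ℕ → ℕ → ℕ) (n : ℕ) :
    ∑ j ∈ range n, ∑ i ∈ range j, (Q j i + Q i j) + ∑ i ∈ range n, Q i i
      = ∑ i ∈ range n, ∑ j ∈ range n, Q i j := by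
  induction n with
  | zero => simp
  | succ n ih =>
    rw [sum_range_succ, sum_range_succ (fun i => Q i i), sum_range_succ (fun i => ∑ j ∈ range (n+1), Q i j)]
    have h1 : ∑ i ∈ range n, ∑ j ∈ range (n+1), Q i j
        = ∑ i ∈ range n, ∑ j ∈ range n, Q i j + ∑ i ∈ range n, Q i n := by
      rw [← sum_add_distrib]
      exact sum_congr rfl fun i _ => sum_range_succ _ _
    rw [h1, ← ih, sum_range_succ (fun j => Q n j), sum_add_distrib (s := range n)]
    ring

/-- triples against (pair, point) -/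
theorem sum_triples (P : ℕ → ℕ → ℕ → ℕ) (hs : ∀ i j k, P i j k = P j i k)
    (h0 : ∀ i j, P i j j = 0) (n : ℕ) :
    ∑ k ∈ range n, ∑ j ∈ range k, ∑ i ∈ range j, (P i j k + P j k i + P i k j)
      = ∑ j ∈ range n, ∑ i ∈ range j, ∑ k ∈ range n, P i j k := by
  induction n with
  | zero => simp
  | succ n ih =>
    rw [sum_range_succ, ih, sum_range_succ (fun j => ∑ i ∈ range j, ∑ k ∈ range (n+1), P i j k)]
    have h1 : ∑ j ∈ range n, ∑ i ∈ range j, ∑ k ∈ range (n+1), P i j k
        = ∑ j ∈ range n, ∑ i ∈ range j, ∑ k ∈ range n, P i j k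
          + ∑ j ∈ range n, ∑ i ∈ range j, P i j n := by
      rw [← sum_add_distrib]
      refine sum_congr rfl fun j _ => ?_
      rw [← sum_add_distrib]
      exact sum_congr rfl fun i _ => sum_range_succ _ _
    have h2 : ∑ i ∈ range n, ∑ k ∈ range (n+1), P i n k = ∑ i ∈ range n, ∑ k ∈ range n, P i n k := by
      refine sum_congr rfl fun i _ => ?_
      rw [sum_range_succ, h0 i n, add_zero]
    have h3 := sum_pairs (fun i k => P i n k) n
    have h4 : ∑ i ∈ range n, P i n i = 0 := by
      refine sum_eq_zero fun i _ => ?_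
      rw [hs]; exact h0 n i
    rw [h4, add_zero] at h3
    have h5 : ∑ j ∈ range n, ∑ i ∈ range j, (P i j n + P j n i + P i n j)
        = ∑ j ∈ range n, ∑ i ∈ range j, P i j n
          + ∑ j ∈ range n, ∑ i ∈ range j, (P j n i + P i n j) := by
      rw [← sum_add_distrib]
      refine sum_congr rfl fun j _ => ?_
      rw [← sum_add_distrib]
      exact sum_congr rfl fun i _ => by ring
    rw [h1, h2, ← h3, h5]
    ring

end Pool.Agent.V11145.EdgeMap
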