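import Pool.Agent.V11145.MajorThr

set_option autoImplicit false

/-!
# Arithmetic of threshold lists and the general lower bound
-/

namespace Pool.Agent.V11145.Maj

open Finset Classical

/-- number of strict ascents -/
def asc : List ℕ → ℕ
  | [] => 0
  | [_] => 0
  | a :: b :: l => (if a = b then 0 else 1) + asc (b :: l)

theorem asc_le : ∀ (l : List ℕ) (a : ℕ), asc (a :: l) ≤ l.length := by
  intro l
  induction l with
  | nil => intro a; simp [asc]
  | cons b l ih =>
    intro a
    have := ih b
    simp only [asc, List.length_cons]
    split_ifs <;> omega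

theorem P_ge (t : ℕ) : ∀ (l : List ℕ) (a : ℕ), t ≤ a → (a :: l).Pairwise (· ≤ ·) →
    (eqc a l).factorial * t ^ (l.length - asc (a :: l)) ≤ P (a :: l) := by
  intro l
  induction l with
  | nil => intro a _ _; simp [eqc, P, asc]
  | cons b l ih =>
    intro a ha hp
    have hp' : (b :: l).Pairwise (· ≤ ·) := (List.pairwise_cons.1 hp).2
    have hab : a ≤ b := (List.pairwise_cons.1 hp).1 b (by simp)
    have h1 := ih b (ha.trans hab) hp'
    have h2 := asc_le l b
    by_cases hb : b = a
    · subst hb
      have e1 : eqc b (b :: l) = eqc b l + 1 := by simp [eqc]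
      have e2 : asc (b :: b :: l) = asc (b :: l) := by simp [asc]
      have e3 : P (b :: b :: l) = (b * (eqc b l + 1) + 1) * P (b :: l) := by
        show (b * eqc b (b :: l) + 1) * P (b :: l) = _
        rw [e1]
      rw [e1, e2, e3, List.length_cons, Nat.factorial_succ]
      have e4 : l.length + 1 - asc (b :: l) = (l.length - asc (b :: l)) + 1 := by omega
      rw [e4, pow_succ]
      calc (eqc b l + 1) * (eqc b l).factorial * (t ^ (l.length - asc (b :: l)) * t)
          = ((eqc b l + 1) * t) * ((eqc b l).factorial * t ^ (l.length - asc (b :: l))) := by ring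
        _ ≤ ((eqc b l + 1) * t) * P (b :: l) := Nat.mul_le_mul_left _ h1
        _ ≤ (b * (eqc b l + 1) + 1) * P (b :: l) := by
            apply Nat.mul_le_mul_right
            have : (eqc b l + 1) * t ≤ (eqc b l + 1) * b := Nat.mul_le_mul_left _ ha
            rw [mul_comm b]; omega
    · have e1 : eqc a (b :: l) = 0 := by simp [eqc, hb]
      have e2 : asc (a :: b :: l) = asc (b :: l) + 1 := by
        have : ¬ a = b := fun h => hb h.symm
        simp only [asc, if_neg this]; omega
      have e3 : P (a :: b :: l) = P (b :: l) := by
        show (a * eqc a (b :: l) + 1) * P (b :: l) = _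
        rw [e1]; simp
      rw [e1, e2, e3, List.length_cons, Nat.factorial_zero, one_mul]
      have e4 : l.length + 1 - (asc (b :: l) + 1) = l.length - asc (b :: l) := by omega
      rw [e4]
      refine le_trans ?_ h1
      exact Nat.le_mul_of_pos_left _ (Nat.factorial_pos _)

theorem asc_sum : ∀ (l : List ℕ) (a : ℕ), (a :: l).Pairwise (· ≤ ·) →
    (asc (a :: l) + 1).choose 2 ≤ (l.map (fun x => x - a)).sum := by
  intro l
  induction l with
  | nil => intro a _; simp [asc]
  | cons b l ih =>
    intro a hp
    have hp' : (b :: l).Pairwise (· ≤ ·) := (List.pairwise_cons.1 hp).2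
    have hab : a ≤ b := (List.pairwise_cons.1 hp).1 b (by simp)
    have h1 := ih b hp'
    have h2 := asc_le l b
    by_cases hb : b = a
    · subst hb
      have e2 : asc (b :: b :: l) = asc (b :: l) := by simp [asc]
      rw [e2]
      simp only [List.map_cons, List.sum_cons, Nat.sub_self, zero_add]
      exact h1
    · have e2 : asc (a :: b :: l) = asc (b :: l) + 1 := by
        have : ¬ a = b := fun h => hb h.symm
        simp only [asc, if_neg this]; omega
      rw [e2]
      simp only [List.map_cons, List.sum_cons]
      have h3 : (l.map (fun x => x - b)).sum + l.length * (b - a) ≤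
          (l.map (fun x => x - a)).sum := by
        have hall : ∀ x ∈ l, b ≤ x := (List.pairwise_cons.1 hp').1
        clear ih h1 h2 hp hp' e2
        induction l with
        | nil => simp
        | cons y l ih =>
          simp only [List.map_cons, List.sum_cons, List.length_cons]
          have := ih (fun x hx => hall x (List.mem_cons_of_mem _ hx))
          have hy := hall y (by simp)
          have : (l.length + 1) * (b - a) = l.length * (b - a) + (b - a) := by ring
          omega
      have h4 : l.length ≤ l.length * (b - a) := Nat.le_mul_of_pos_right _ (by omega)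
      have h5 : (asc (b :: l) + 1 + 1).choose 2 = (asc (b :: l) + 1) + (asc (b :: l) + 1).choose 2 := by
        rw [Nat.choose_succ_succ' (asc (b :: l) + 1) 1, Nat.choose_one_right]
      rw [h5]
      omega

theorem eqc_ge : ∀ (l : List ℕ) (a : ℕ), (a :: l).Pairwise (· ≤ ·) →
    l.length ≤ eqc a l + (l.map (fun x => x - a)).sum := by
  intro l
  induction l with
  | nil => intro a _; simp
  | cons b l ih =>
    intro a hp
    have hp' : (b :: l).Pairwise (· ≤ ·) := (List.pairwise_cons.1 hp).2
    have hab : a ≤ b := (List.pairwise_cons.1 hp).1 b (by simp)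
    by_cases hb : b = a
    · subst hb
      have h1 := ih b hp'
      simp only [eqc, List.map_cons, List.sum_cons, List.length_cons, if_true]
      omega
    · simp only [eqc, if_neg hb, List.map_cons, List.sum_cons, List.length_cons]
      have hall : ∀ x ∈ l, b ≤ x := (List.pairwise_cons.1 hp').1
      have h3 : l.length ≤ (l.map (fun x => x - a)).sum := by
        clear ih hp hp'
        induction l with
        | nil => simp
        | cons y l ih =>
          simp only [List.map_cons, List.sum_cons, List.length_cons]
          have h4 := ih (fun x hx => hall x (List.mem_cons_of_mem _ hx))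
          have hy := hall y (by simp)
          omega
      omega

theorem sum_sub : ∀ (l : List ℕ) (a : ℕ), (∀ x ∈ l, a ≤ x) →
    (l.map (fun x => x - a)).sum + l.length * a = l.sum := by
  intro l a h
  induction l with
  | nil => simp
  | cons y l ih =>
    simp only [List.map_cons, List.sum_cons, List.length_cons]
    have := ih (fun x hx => h x (List.mem_cons_of_mem _ hx))
    have hy := h y (by simp)
    have : (l.length + 1) * a = l.length * a + a := by ring
    omega

theorem kc_univ {n : ℕ} (G : SimpleGraph (Fin n)) (m : ℕ) :
    kc G univ m = {S : Finset (Fin n) | G.IsNClique m S}.ncard := by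
  unfold kc
  rw [← Set.ncard_coe_finset]
  congr 1
  ext S
  simp only [Finset.coe_filter, Finset.mem_powersetCard, Set.mem_ofPred_eq, Finset.subset_univ,
    true_and, SimpleGraph.isNClique_iff]
  tauto

/-- The general lower bound. -/
theorem lower {n : ℕ} (G : SimpleGraph (Fin n)) {t r δ j : ℕ} (hr : 1 ≤ r) (ht : 1 ≤ t)
    (hn : n = r * t + δ) (hj : j = r ∨ δ ≤ (j + 1).choose 2)
    (hle : ∀ v, t ≤ cd G univ v) (hex : ∃ v, cd G univ v = t)
    (hnon : NonMajorizable r G) :
    (r - δ).factorial * t ^ (r - j) ≤
      (r + 1).factorial * {S : Finset (Fin n) | G.IsNClique (r + 1) S}.ncard := by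
  obtain ⟨l, hl, hp, hT, hs⟩ := thr_of_nonmaj G hr hle hex hnon
  have h1 := main_lower G (t :: l) univ hT
  rw [List.length_cons, hl, kc_univ] at h1
  refine le_trans ?_ h1
  refine le_trans ?_ (P_ge t l t le_rfl hp)
  have hall : ∀ x ∈ l, t ≤ x := (List.pairwise_cons.1 hp).1
  have h2 := sum_sub l t hall
  have h3 := asc_sum l t hp
  have h4 := eqc_ge l t hp
  have h5 := asc_le l t
  rw [List.sum_cons] at hs
  have h6 : r * t = l.length * t + t := by rw [← hl]; ring
  set σ := (l.map (fun x => x - t)).sum with hσ
  have hσδ : σ + 1 ≤ δ := by omega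
  have h7 : r - δ ≤ eqc t l := by omega
  have h8 : r - j ≤ l.length - asc (t :: l) := by
    rcases hj with hj | hj
    · subst hj; omega
    · by_contra hcon
      push Not at hcon
      have h9 : j + 1 ≤ asc (t :: l) + 1 := by omega
      have h10 := Nat.choose_le_choose 2 h9
      omega
  exact Nat.mul_le_mul (Nat.factorial_le h7) (Nat.pow_le_pow_right ht h8)

end Pool.Agent.V11145.Maj
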