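import Pool.Agent.V11145.MajorArith

set_option autoImplicit false

/-!
# Asymptotically sharp lower bound: the counting step
-/

namespace Pool.Agent.V11145.Maj

open Finset Classical

variable {V : Type}

/-- common neighbours of `X` inside `W` -/
noncomputable def cn (G : SimpleGraph V) (W X : Finset V) : Finset V :=
  W.filter (fun u => ∀ x ∈ X, G.Adj x u)

theorem cn_empty (G : SimpleGraph V) (W : Finset V) : cn G W ∅ = W := by
  unfold cn
  apply Finset.filter_true_of_mem
  intro u _ x hx
  exact absurd hx (by simp)

theorem cn_insert (G : SimpleGraph V) (W X : Finset V) (y : V) :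
    cn G W (insert y X) = cn G (lk G W y) X := by
  ext u
  simp only [cn, lk, Finset.mem_filter, Finset.mem_insert, forall_eq_or_imp]
  tauto

theorem cn_insert' (G : SimpleGraph V) (W X : Finset V) (y : V) :
    cn G W (insert y X) = lk G (cn G W X) y := by
  ext u
  simp only [cn, lk, Finset.mem_filter, Finset.mem_insert, forall_eq_or_imp]
  tauto

theorem cn_subset (G : SimpleGraph V) (W X : Finset V) : cn G W X ⊆ W :=
  Finset.filter_subset _ _

theorem thr_cn (G : SimpleGraph V) {v : ℕ} (l : List ℕ) : ∀ (X W : Finset V),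
    (∀ x ∈ X, cd G W x ≤ v) → Thr G W 0 (List.replicate X.card v ++ l) →
    Thr G (cn G W X) 0 l := by
  intro X
  induction X using Finset.induction_on with
  | empty =>
    intro W _ h
    rw [cn_empty]
    simpa using h
  | insert y X hy ih =>
    intro W hcd h
    rw [cn_insert]
    apply ih
    · intro x hx
      exact (cd_mono G (Finset.filter_subset _ _) x).trans (hcd x (Finset.mem_insert_of_mem hx))
    · rw [Finset.card_insert_of_notMem hy, List.replicate_succ, List.cons_append] at h
      exact thr_link G W y (hcd y (Finset.mem_insert_self _ _)) _ 0 h.2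

theorem card_cn (G : SimpleGraph V) {v : ℕ} : ∀ (X W : Finset V),
    (∀ x ∈ X, cd G W x ≤ v) → W.card ≤ (cn G W X).card + X.card * v := by
  intro X
  induction X using Finset.induction_on with
  | empty => intro W _; rw [cn_empty]; simp
  | insert y X hy ih =>
    intro W hcd
    rw [cn_insert, Finset.card_insert_of_notMem hy]
    have h1 := ih (lk G W y) (fun x hx =>
      (cd_mono G (Finset.filter_subset _ _) x).trans (hcd x (Finset.mem_insert_of_mem hx)))
    have h2 := card_lk_add G W y
    have h3 := hcd y (Finset.mem_insert_self _ _)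
    have : (X.card + 1) * v = X.card * v + v := by ring
    omega

theorem thr_card (G : SimpleGraph V) (W : Finset V) : ∀ (l : List ℕ) (s : ℕ), Thr G W s l →
    s + l.sum + 1 ≤ W.card := by
  intro l
  induction l with
  | nil => intro s h; simpa [Thr] using h
  | cons a l ih =>
    intro s h
    have := ih (s + a) h.2
    rw [List.sum_cons]
    omega

/-- crude bound with surplus -/
theorem main_lower' (G : SimpleGraph V) (H : ℕ) : ∀ (l : List ℕ) (W : Finset V), Thr G W 0 l →
    l.sum + H ≤ W.card → H * P l ≤ (l.length + 1).factorial * kc G W (l.length + 1) := by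
  intro l
  induction l with
  | nil =>
    intro W h hH
    simp only [P, List.length_nil, Nat.zero_add, Nat.factorial_one, one_mul]
    rw [kc_one]
    simp at hH ⊢
    omega
  | cons a l ih =>
    intro W h hH
    have hF := thr_eqc G W a l 0 h
    set F := W.filter (fun v => cd G W v ≤ a) with hFdef
    have h2 : ∀ v ∈ F, H * P l ≤ (l.length + 1).factorial * kc G (lk G W v) (l.length + 1) := by
      intro v hv
      apply ih
      · exact thr_link G W v (Finset.mem_filter.1 hv).2 l 0 h.2
      · have h3 := card_lk_add G W v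
        have h4 := (Finset.mem_filter.1 hv).2
        rw [List.sum_cons] at hH
        omega
    have h3 := Finset.sum_le_sum h2
    rw [Finset.sum_const, smul_eq_mul, ← Finset.mul_sum] at h3
    have h4 := sum_link_le G W F (Finset.filter_subset _ _) (l.length + 1)
    simp only [P, List.length_cons]
    calc H * ((a * eqc a l + 1) * P l) = (a * eqc a l + 1) * (H * P l) := by ring
      _ ≤ F.card * (H * P l) := Nat.mul_le_mul_right _ (by omega)
      _ ≤ (l.length + 1).factorial * ∑ v ∈ F, kc G (lk G W v) (l.length + 1) := h3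
      _ ≤ (l.length + 1).factorial * ((l.length + 1 + 1) * kc G W (l.length + 1 + 1)) :=
          Nat.mul_le_mul_left _ h4
      _ = (l.length + 1 + 1).factorial * kc G W (l.length + 1 + 1) := by
          rw [Nat.factorial_succ (l.length + 1)]; ring

theorem kc_pow (G : SimpleGraph V) (v : ℕ) : ∀ (m : ℕ) (F : Finset V),
    (∀ x ∈ F, cd G F x ≤ v) → m * v ≤ F.card → v ^ m ≤ kc G F m := by
  intro m
  induction m with
  | zero =>
    intro F _ _
    unfold kc
    rw [Finset.powersetCard_zero, Finset.filter_true_of_mem]
    · simp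
    · intro T hT
      rw [Finset.mem_singleton] at hT
      rw [hT]; simp
  | succ m ih =>
    intro F hcd hF
    have h1 : ∀ x ∈ F, v ^ m ≤ kc G (lk G F x) m := by
      intro x hx
      apply ih
      · intro y hy
        exact (cd_mono G (Finset.filter_subset _ _) y).trans (hcd y (Finset.mem_filter.1 hy).1)
      · have h3 := card_lk_add G F x
        have h4 := hcd x hx
        have : (m + 1) * v = m * v + v := by ring
        omega
    have h2 := Finset.sum_le_sum h1
    rw [Finset.sum_const, smul_eq_mul] at h2
    have h3 := sum_link_le G F F subset_rfl m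
    have h4 : (m + 1) * v ^ (m + 1) ≤ (m + 1) * kc G F (m + 1) := by
      calc (m + 1) * v ^ (m + 1) = ((m + 1) * v) * v ^ m := by ring
        _ ≤ F.card * v ^ m := Nat.mul_le_mul_right _ hF
        _ ≤ _ := h2
        _ ≤ _ := h3
    exact Nat.le_of_mul_le_mul_left h4 (by omega)

/-- the `R`-cliques inside `W` -/
noncomputable def cl (G : SimpleGraph V) (W : Finset V) (R : ℕ) : Finset (Finset V) :=
  (W.powersetCard R).filter (fun T : Finset V => G.IsClique (T : Set V))

theorem kc_eq_card (G : SimpleGraph V) (W : Finset V) (R : ℕ) : kc G W R = (cl G W R).card := rfl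

theorem mem_cl {G : SimpleGraph V} {W : Finset V} {R : ℕ} {K : Finset V} :
    K ∈ cl G W R ↔ K ⊆ W ∧ K.card = R ∧ G.IsClique (K : Set V) := by
  unfold cl
  rw [Finset.mem_filter, Finset.mem_powersetCard]
  tauto

/-- cliques containing `Y` -/
theorem card_above (G : SimpleGraph V) (W Y : Finset V) (q : ℕ) (hY : Y ⊆ W)
    (hcl : G.IsClique (Y : Set V)) :
    kc G (cn G W Y) q ≤ ((cl G W (Y.card + q)).filter (fun K => Y ⊆ K)).card := by
  rw [kc_eq_card]
  have hdisj : ∀ K ∈ cl G (cn G W Y) q, Disjoint Y K := by
    intro K hK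
    rw [mem_cl] at hK
    rw [Finset.disjoint_left]
    intro y hy hyK
    have := (Finset.mem_filter.1 (hK.1 hyK)).2 y hy
    exact G.loopless.irrefl y this
  apply Finset.card_le_card_of_injOn (fun K => Y ∪ K)
  · intro K hK
    have hK' := hK
    rw [Finset.mem_coe, mem_cl] at hK
    rw [Finset.mem_coe, Finset.mem_filter, mem_cl]
    refine ⟨⟨?_, ?_, ?_⟩, Finset.subset_union_left⟩
    · exact Finset.union_subset hY (hK.1.trans (cn_subset G W Y))
    · rw [Finset.card_union_of_disjoint (hdisj K hK'), hK.2.1]
    · intro a ha b hb hab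
      rw [Finset.coe_union, Set.mem_union, Finset.mem_coe, Finset.mem_coe] at ha hb
      rcases ha with ha | ha <;> rcases hb with hb | hb
      · exact hcl ha hb hab
      · exact (Finset.mem_filter.1 (hK.1 hb)).2 a ha
      · exact ((Finset.mem_filter.1 (hK.1 ha)).2 b hb).symm
      · exact hK.2.2 ha hb hab
  · intro K hK K' hK' h
    have h1 := hdisj K hK
    have h2 := hdisj K' hK'
    simp only at h
    have e1 : K = (Y ∪ K) \ Y := by
      rw [Finset.union_sdiff_left, Finset.sdiff_eq_self_of_disjoint h1.symm]
    have e2 : K' = (Y ∪ K') \ Y := by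
      rw [Finset.union_sdiff_left, Finset.sdiff_eq_self_of_disjoint h2.symm]
    rw [e1, e2, h]

/-- double counting -/
theorem double_count {α : Type} (S : Finset α) (T : Finset (Finset V)) (f : α → Finset V)
    (c b : ℕ) (h1 : ∀ x ∈ S, c ≤ (T.filter (fun K => f x ⊆ K)).card)
    (h2 : ∀ K ∈ T, (S.filter (fun x => f x ⊆ K)).card ≤ b) : S.card * c ≤ T.card * b := by
  have h := Finset.sum_card_bipartiteAbove_eq_sum_card_bipartiteBelow (s := S) (t := T)
    (fun (x : α) (K : Finset V) => f x ⊆ K)
  have h3 : S.card * c ≤ ∑ x ∈ S, (T.filter (fun K => f x ⊆ K)).card := by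
    rw [← smul_eq_mul, ← Finset.sum_const]
    exact Finset.sum_le_sum h1
  have h4 : ∑ K ∈ T, (S.filter (fun x => f x ⊆ K)).card ≤ T.card * b := by
    rw [← smul_eq_mul, ← Finset.sum_const]
    exact Finset.sum_le_sum h2
  exact h3.trans (le_of_eq_of_le h h4)

end Pool.Agent.V11145.Maj
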