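import Mathlib

set_option autoImplicit false

/-!
# Graphs not degree-majorized by r-partite graphs: definitions and threshold lists
-/

namespace Pool.Agent.V11145.Maj

/-- The degree of a vertex. -/
noncomputable def deg {V : Type} (G : SimpleGraph V) (v : V) : ℕ := (G.neighborSet v).ncard

/-- The `n`-vertex graph `G` is degree-majorized by the `n`-vertex graph `H`: list the vertices of
each graph by nonincreasing degree (as `σ 0, σ 1, ...` and `τ 0, τ 1, ...`); then the `i`-th degree
of `G` is at most the `i`-th degree of `H`, for every `i`. -/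
def DegMajorizedBy {n : ℕ} (G H : SimpleGraph (Fin n)) : Prop :=
  ∃ σ τ : Equiv.Perm (Fin n), Antitone (fun i => deg G (σ i)) ∧ Antitone (fun i => deg H (τ i)) ∧
    ∀ i, deg G (σ i) ≤ deg H (τ i)

/-- No `r`-partite graph on `n` vertices degree-majorizes `G`. -/
def NonMajorizable {n : ℕ} (r : ℕ) (G : SimpleGraph (Fin n)) : Prop :=
  ∀ H : SimpleGraph (Fin n), H.Colorable r → ¬ DegMajorizedBy G H

/-- The numbers of copies of `K_{r+1}` in the `n`-vertex graphs with maximum degree `k` that are
non-majorizable for `r`. -/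
def copyNumbers (n k r : ℕ) : Set ℕ :=
  {c | ∃ G : SimpleGraph (Fin n), (∀ v, deg G v ≤ k) ∧ (∃ v, deg G v = k) ∧ NonMajorizable r G ∧
    c = {S : Finset (Fin n) | G.IsNClique (r + 1) S}.ncard}

open Finset Classical

section thr

variable {V : Type}

/-- codegree inside `W` -/
noncomputable def cd (G : SimpleGraph V) (W : Finset V) (v : V) : ℕ :=
  (W.filter (fun u => ¬ G.Adj v u)).card

/-- link inside `W` -/
noncomputable def lk (G : SimpleGraph V) (W : Finset V) (v : V) : Finset V :=
  W.filter (fun u => G.Adj v u)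

/-- number of `m`-cliques inside `W` -/
noncomputable def kc (G : SimpleGraph V) (W : Finset V) (m : ℕ) : ℕ :=
  ((W.powersetCard m).filter (fun T : Finset V => G.IsClique (T : Set V))).card

/-- threshold condition -/
def Thr (G : SimpleGraph V) (W : Finset V) : ℕ → List ℕ → Prop
  | s, [] => s + 1 ≤ W.card
  | s, a :: l => s + 1 ≤ (W.filter (fun v => cd G W v ≤ a)).card ∧ Thr G W (s + a) l

theorem card_lk_add (G : SimpleGraph V) (W : Finset V) (v : V) :
    (lk G W v).card + cd G W v = W.card := by
  unfold lk cd
  exact Finset.card_filter_add_card_filter_not _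

theorem cd_mono (G : SimpleGraph V) {W W' : Finset V} (h : W ⊆ W') (v : V) :
    cd G W v ≤ cd G W' v :=
  Finset.card_le_card (Finset.filter_subset_filter _ h)

theorem cd_pos (G : SimpleGraph V) {W : Finset V} {v : V} (h : v ∈ W) : 1 ≤ cd G W v := by
  unfold cd
  exact Finset.card_pos.2 ⟨v, by simp [h]⟩

theorem thr_link (G : SimpleGraph V) (W : Finset V) (v : V) {a : ℕ} (hv : cd G W v ≤ a) :
    ∀ (l : List ℕ) (s : ℕ), Thr G W (s + a) l → Thr G (lk G W v) s l := by
  intro l
  induction l with
  | nil =>
    intro s h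
    have := card_lk_add G W v
    simp only [Thr] at h ⊢
    omega
  | cons b l ih =>
    intro s h
    simp only [Thr] at h ⊢
    obtain ⟨h1, h2⟩ := h
    refine ⟨?_, ?_⟩
    · have hsub : (W.filter (fun u => cd G W u ≤ b)) \ (W.filter (fun u => ¬ G.Adj v u)) ⊆
          (lk G W v).filter (fun u => cd G (lk G W v) u ≤ b) := by
        intro u hu
        simp only [Finset.mem_sdiff, Finset.mem_filter, not_and, not_not] at hu
        simp only [lk, Finset.mem_filter]
        refine ⟨⟨hu.1.1, hu.2 hu.1.1⟩, le_trans (cd_mono G (Finset.filter_subset _ _) u) hu.1.2⟩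
      have h3 := Finset.card_le_card hsub
      have h4 := Finset.le_card_sdiff (W.filter (fun u => ¬ G.Adj v u))
        (W.filter (fun u => cd G W u ≤ b))
      have h5 : (W.filter (fun u => ¬ G.Adj v u)).card = cd G W v := rfl
      omega
    · apply ih
      have : s + b + a = s + a + b := by omega
      rw [this]; exact h2

/-- number of leading entries equal to `a` -/
def eqc (a : ℕ) : List ℕ → ℕ
  | [] => 0
  | b :: l => if b = a then eqc a l + 1 else 0

/-- the product of choices -/
def P : List ℕ → ℕ
  | [] => 1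
  | a :: l => (a * eqc a l + 1) * P l

theorem thr_eqc (G : SimpleGraph V) (W : Finset V) (a : ℕ) :
    ∀ (l : List ℕ) (s : ℕ), Thr G W s (a :: l) →
      s + a * eqc a l + 1 ≤ (W.filter (fun v => cd G W v ≤ a)).card := by
  intro l
  induction l with
  | nil => intro s h; simp only [Thr] at h; simp only [eqc]; omega
  | cons b l ih =>
    intro s h
    simp only [eqc]
    by_cases hb : b = a
    · subst hb
      rw [if_pos rfl]
      have h1 := ih (s + b) h.2
      have : b * (eqc b l + 1) = b * eqc b l + b := by ring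
      omega
    · rw [if_neg hb]
      have := h.1
      omega

theorem sum_link_le (G : SimpleGraph V) (W F : Finset V) (hF : F ⊆ W) (m : ℕ) :
    ∑ v ∈ F, kc G (lk G W v) m ≤ (m + 1) * kc G W (m + 1) := by
  have h1 : ∑ v ∈ F, kc G (lk G W v) m =
      (F.sigma (fun v => ((lk G W v).powersetCard m).filter
        (fun T : Finset V => G.IsClique (T : Set V)))).card := by
    rw [Finset.card_sigma]; rfl
  rw [h1]
  have key : ∀ x ∈ (F.sigma (fun v => ((lk G W v).powersetCard m).filter
        (fun T : Finset V => G.IsClique (T : Set V)))), x.1 ∉ x.2 ∧ x.1 ∈ W ∧ x.2 ⊆ W ∧ x.2.card = m ∧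
        G.IsClique (x.2 : Set V) ∧ ∀ u ∈ x.2, G.Adj x.1 u := by
    rintro ⟨v, T⟩ hx
    rw [Finset.mem_sigma, Finset.mem_filter, Finset.mem_powersetCard] at hx
    obtain ⟨hv, ⟨hT, hc⟩, hcl⟩ := hx
    have hadj : ∀ u ∈ T, G.Adj v u := fun u hu => (Finset.mem_filter.1 (hT hu)).2
    refine ⟨fun h => G.loopless.irrefl v (hadj v h), hF hv, fun u hu => (Finset.mem_filter.1 (hT hu)).1, hc, hcl, hadj⟩
  apply Finset.card_le_mul_card_image_of_maps_to (f := fun x => insert x.1 x.2)
    (t := (W.powersetCard (m+1)).filter (fun T : Finset V => G.IsClique (T : Set V)))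
  · intro x hx
    obtain ⟨h1, h2, h3, h4, h5, h6⟩ := key x hx
    rw [Finset.mem_filter, Finset.mem_powersetCard]
    refine ⟨⟨Finset.insert_subset h2 h3, by rw [Finset.card_insert_of_notMem h1, h4]⟩, ?_⟩
    rw [Finset.coe_insert]
    rw [SimpleGraph.isClique_insert]
    exact ⟨h5, fun b hb _ => h6 b hb⟩
  · intro K hK
    rw [Finset.mem_filter, Finset.mem_powersetCard] at hK
    rw [← hK.1.2]
    apply Finset.card_le_card_of_injOn (fun x => x.1)
    · intro x hx
      simp only [Finset.coe_filter, Set.mem_ofPred_eq] at hx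
      show x.1 ∈ (K : Set V)
      rw [← hx.2]
      simp
    · intro x hx y hy hxy
      simp only [Finset.coe_filter, Set.mem_ofPred_eq] at hx hy
      obtain ⟨hx1, hx2⟩ := hx
      obtain ⟨hy1, hy2⟩ := hy
      obtain ⟨v, T⟩ := x
      obtain ⟨w, T'⟩ := y
      simp only at hxy
      subst hxy
      have ha := (key _ hx1).1
      have hb := (key _ hy1).1
      simp only at ha hb hx2 hy2
      have : T = T' := by
        rw [← Finset.erase_insert ha, ← Finset.erase_insert hb, hx2, hy2]
      rw [this]

theorem kc_one (G : SimpleGraph V) (W : Finset V) : kc G W 1 = W.card := by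
  unfold kc
  rw [Finset.filter_true_of_mem, Finset.card_powersetCard, Nat.choose_one_right]
  intro T hT
  rw [Finset.mem_powersetCard] at hT
  obtain ⟨x, hx⟩ := Finset.card_eq_one.1 hT.2
  rw [hx]; simp

theorem main_lower (G : SimpleGraph V) : ∀ (l : List ℕ) (W : Finset V), Thr G W 0 l →
    P l ≤ (l.length + 1).factorial * kc G W (l.length + 1) := by
  intro l
  induction l with
  | nil =>
    intro W h
    simp only [Thr] at h
    simp only [P, List.length_nil, Nat.zero_add, Nat.factorial_one, one_mul]
    rw [kc_one]; omega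
  | cons a l ih =>
    intro W h
    have hF := thr_eqc G W a l 0 h
    set F := W.filter (fun v => cd G W v ≤ a) with hFdef
    have h2 : ∀ v ∈ F, P l ≤ (l.length + 1).factorial * kc G (lk G W v) (l.length + 1) := by
      intro v hv
      apply ih
      exact thr_link G W v (Finset.mem_filter.1 hv).2 l 0 h.2
    have h3 := Finset.sum_le_sum h2
    rw [Finset.sum_const, smul_eq_mul, ← Finset.mul_sum] at h3
    have h4 := sum_link_le G W F (Finset.filter_subset _ _) (l.length + 1)
    simp only [P, List.length_cons]
    calc (a * eqc a l + 1) * P l ≤ F.card * P l := Nat.mul_le_mul_right _ (by omega)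
      _ ≤ (l.length + 1).factorial * ∑ v ∈ F, kc G (lk G W v) (l.length + 1) := h3
      _ ≤ (l.length + 1).factorial * ((l.length + 1 + 1) * kc G W (l.length + 1 + 1)) :=
          Nat.mul_le_mul_left _ h4
      _ = (l.length + 1 + 1).factorial * kc G W (l.length + 1 + 1) := by
          rw [Nat.factorial_succ (l.length + 1)]; ring

end thr

end Pool.Agent.V11145.Maj
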