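import Pool.Agent.V11145.MajorAsym

set_option autoImplicit false

/-!
# Asymptotically sharp lower bound: one block of equal thresholds
-/

namespace Pool.Agent.V11145.Maj

open Finset Classical

variable {V : Type}

theorem thr_rep (G : SimpleGraph V) (W : Finset V) {v : ℕ} (l : List ℕ) : ∀ (s s0 : ℕ),
    Thr G W s0 (List.replicate (s + 1) v ++ l) →
    s0 + s * v + 1 ≤ (W.filter (fun u => cd G W u ≤ v)).card := by
  intro s
  induction s with
  | zero =>
    intro s0 h
    have := h.1
    omega
  | succ s ih =>
    intro s0 h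
    have h1 := ih (s0 + v) h.2
    have : (s + 1) * v = s * v + v := by ring
    omega

theorem double_count' {α : Type} (S : Finset α) (T : Finset (Finset V)) (f : α → Finset V)
    (c b m : ℕ) (h1 : ∀ x ∈ S, c ≤ m * (T.filter (fun K => f x ⊆ K)).card)
    (h2 : ∀ K ∈ T, (S.filter (fun x => f x ⊆ K)).card ≤ b) : S.card * c ≤ m * (T.card * b) := by
  have h := Finset.sum_card_bipartiteAbove_eq_sum_card_bipartiteBelow (s := S) (t := T)
    (fun (x : α) (K : Finset V) => f x ⊆ K)
  have h3 : S.card * c ≤ ∑ x ∈ S, m * (T.filter (fun K => f x ⊆ K)).card := by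
    rw [← smul_eq_mul, ← Finset.sum_const]
    exact Finset.sum_le_sum h1
  rw [← Finset.mul_sum] at h3
  have h4 : ∑ K ∈ T, (S.filter (fun x => f x ⊆ K)).card ≤ T.card * b := by
    rw [← smul_eq_mul, ← Finset.sum_const]
    exact Finset.sum_le_sum h2
  exact h3.trans (Nat.mul_le_mul_left _ (le_of_eq_of_le h h4))

/-- `X` has a common neighbour `y` whose non-neighbourhood overlaps a lot with those of `X`. -/
def Heavy (G : SimpleGraph V) (F X : Finset V) (B : ℕ) : Prop :=
  ∃ y ∈ cn G F X, B ≤ (F.filter (fun u => ¬ G.Adj y u ∧ u ∉ cn G F X)).card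

theorem step_nat (G : SimpleGraph V) (W : Finset V) {v s : ℕ} (l : List ℕ) (c : ℕ)
    (hT : Thr G W 0 (List.replicate (s + 1) v ++ l)) (hcP : c ≤ P l)
    (ih : ∀ W' : Finset V, Thr G W' 0 l → c ≤ kc G W' (l.length + 1)) :
    v ^ s * (((v + 1) / 3) * c) ≤
      kc G W (s + 1 + (l.length + 1)) * ((v + 1) / 3 +
        2 ^ (s + 1 + (l.length + 1)) * ((l.length + 1).factorial + (s + 1 + (l.length + 1)))) := by
  set R := s + 1 + (l.length + 1) with hR
  set B := (v + 1) / 3 with hB
  set F := W.filter (fun u => cd G W u ≤ v) with hF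
  have hFW : F ⊆ W := Finset.filter_subset _ _
  have hFcd : ∀ x ∈ F, cd G W x ≤ v := fun x hx => (Finset.mem_filter.1 hx).2
  have hFcd' : ∀ x ∈ F, cd G F x ≤ v := fun x hx => (cd_mono G hFW x).trans (hFcd x hx)
  have hFc : s * v + 1 ≤ F.card := by
    have := thr_rep G W l s 0 hT
    rw [Nat.zero_add] at this
    rw [hF]
    convert this
  set XX := cl G F s with hXX
  set T := cl G W R with hTT
  have hXXc : v ^ s ≤ XX.card := by
    rw [hXX, ← kc_eq_card]
    exact kc_pow G v s F hFcd' (by omega)
  -- facts on `insert y X`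
  have hY : ∀ X ∈ XX, ∀ y ∈ cn G F X, y ∉ X ∧ insert y X ⊆ F ∧ (insert y X).card = s + 1 ∧
      G.IsClique ((insert y X : Finset V) : Set V) := by
    intro X hX y hy
    rw [hXX, mem_cl] at hX
    obtain ⟨hXF, hXc, hXcl⟩ := hX
    have hy' := Finset.mem_filter.1 hy
    have hyX : y ∉ X := fun h => G.loopless.irrefl y (hy'.2 y h)
    refine ⟨hyX, Finset.insert_subset hy'.1 hXF, ?_, ?_⟩
    · rw [Finset.card_insert_of_notMem hyX, hXc]
    · rw [Finset.coe_insert, SimpleGraph.isClique_insert]
      exact ⟨hXcl, fun b hb _ => (hy'.2 b hb).symm⟩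
  have hcount : ∀ X ∈ XX, ∀ y ∈ cn G F X,
      kc G (cn G W (insert y X)) (l.length + 1) ≤ (T.filter (fun K => insert y X ⊆ K)).card ∧
      c ≤ kc G (cn G W (insert y X)) (l.length + 1) := by
    intro X hX y hy
    obtain ⟨hyX, hsub, hcard, hcl⟩ := hY X hX y hy
    refine ⟨?_, ?_⟩
    · have := card_above G W (insert y X) (l.length + 1) (hsub.trans hFW) hcl
      rw [hcard] at this
      exact this
    · apply ih
      apply thr_cn G l (insert y X) W (fun x hx => hFcd x (hsub hx))
      rw [hcard]
      exact hT
  have hex : ∀ X ∈ XX, (cn G F X).Nonempty := by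
    intro X hX
    have h1 := card_cn G (v := v) X F (fun x hx => hFcd' x ((mem_cl.1 hX).1 hx))
    rw [(mem_cl.1 hX).2.1] at h1
    rw [← Finset.card_pos]
    omega
  set X1 := XX.filter (fun X => Heavy G F X B) with hX1
  set X2 := (XX.filter (fun X => ¬ Heavy G F X B)).filter (fun X => B < (cn G F X).card) with hX2
  set X3 := (XX.filter (fun X => ¬ Heavy G F X B)).filter (fun X => ¬ B < (cn G F X).card) with hX3
  have hsum : X1.card + X2.card + X3.card = XX.card := by
    have h1 : X1.card + (XX.filter (fun X => ¬ Heavy G F X B)).card = XX.card := by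
      rw [hX1]
      convert Finset.card_filter_add_card_filter_not (s := XX) (fun X => Heavy G F X B)
    have h2 : X2.card + X3.card = (XX.filter (fun X => ¬ Heavy G F X B)).card := by
      rw [hX2, hX3]
      convert Finset.card_filter_add_card_filter_not (s := XX.filter (fun X => ¬ Heavy G F X B))
        (fun X => B < (cn G F X).card)
    omega
  -- (1) heavy
  have e1 : X1.card * (B * P l) ≤ (l.length + 1).factorial * (T.card * 2 ^ R) := by
    apply double_count' X1 T (fun X => X)
    · intro X hX
      obtain ⟨hXX', y, hy, hov⟩ := Finset.mem_filter.1 hX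
      obtain ⟨hyX, hsub, hcard, hcl⟩ := hY X hXX' y hy
      have hXF := (mem_cl.1 hXX').1
      have hXs := (mem_cl.1 hXX').2.1
      have a1 : B * P l ≤ (l.length + 1).factorial * kc G (cn G W (insert y X)) (l.length + 1) := by
        apply main_lower'
        · apply thr_cn G l (insert y X) W (fun x hx => hFcd x (hsub hx))
          rw [hcard]
          exact hT
        · have b1 := card_lk_add G (cn G W X) y
          rw [← cn_insert'] at b1
          have b2 := card_cn G (v := v) X W (fun x hx => hFcd x (hXF hx))
          rw [hXs] at b2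
          have b3 := thr_card G W _ 0 hT
          rw [List.sum_append, List.sum_replicate, smul_eq_mul] at b3
          have b4 : cd G (cn G W X) y +
              (F.filter (fun u => ¬ G.Adj y u ∧ u ∉ cn G F X)).card ≤ cd G W y := by
            unfold cd
            rw [← Finset.card_union_of_disjoint]
            · apply Finset.card_le_card
              intro u hu
              rw [Finset.mem_union, Finset.mem_filter, Finset.mem_filter] at hu
              rw [Finset.mem_filter]
              rcases hu with hu | hu
              · exact ⟨cn_subset G W X hu.1, hu.2⟩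
              · exact ⟨hFW hu.1, hu.2.1⟩
            · rw [Finset.disjoint_left]
              intro u hu hu'
              rw [Finset.mem_filter] at hu hu'
              apply hu'.2.2
              unfold cn
              rw [Finset.mem_filter]
              exact ⟨hu'.1, (Finset.mem_filter.1 hu.1).2⟩
          have b5 := hFcd y (hsub (Finset.mem_insert_self _ _))
          have b6 : (s + 1) * v = s * v + v := by ring
          omega
      have a2 := (hcount X hXX' y hy).1
      have a3 : (T.filter (fun K => insert y X ⊆ K)).card ≤ (T.filter (fun K => X ⊆ K)).card := by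
        apply Finset.card_le_card
        intro K hK
        rw [Finset.mem_filter] at hK ⊢
        exact ⟨hK.1, (Finset.subset_insert _ _).trans hK.2⟩
      exact a1.trans (Nat.mul_le_mul_left _ (a2.trans a3))
    · intro K hK
      have hKc := (mem_cl.1 hK).2.1
      rw [← hKc, ← Finset.card_powerset]
      apply Finset.card_le_card
      intro X hX
      rw [Finset.mem_powerset]
      exact (Finset.mem_filter.1 hX).2
  -- (2) many common neighbours
  have e2 : X2.card * B * c ≤ T.card * (2 ^ R * R) := by
    set S := X2.sigma (fun X => cn G F X) with hS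
    have hScard : X2.card * B ≤ S.card := by
      rw [hS, Finset.card_sigma, ← smul_eq_mul, ← Finset.sum_const]
      apply Finset.sum_le_sum
      intro X hX
      exact (Finset.mem_filter.1 hX).2.le
    refine (Nat.mul_le_mul_right c hScard).trans ?_
    apply double_count S T (fun z => insert z.2 z.1)
    · rintro ⟨X, y⟩ hz
      rw [hS, Finset.mem_sigma] at hz
      have hXX' : X ∈ XX := (Finset.mem_filter.1 (Finset.mem_filter.1 hz.1).1).1
      have h := hcount X hXX' y hz.2
      exact h.2.trans h.1
    · intro K hK
      have hKc := (mem_cl.1 hK).2.1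
      have : (2 : ℕ) ^ R * R = (K.powerset ×ˢ K).card := by
        rw [Finset.card_product, Finset.card_powerset, hKc]
      rw [this]
      apply Finset.card_le_card_of_injOn (fun z => (z.1, z.2))
      · rintro ⟨X, y⟩ hz
        rw [Finset.mem_coe, Finset.mem_filter] at hz
        rw [Finset.mem_coe, Finset.mem_product, Finset.mem_powerset]
        exact ⟨(Finset.subset_insert _ _).trans hz.2, hz.2 (Finset.mem_insert_self _ _)⟩
      · rintro ⟨X, y⟩ _ ⟨X', y'⟩ _ h
        simp only [Prod.mk.injEq] at h
        rw [h.1, h.2]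
  -- (3) the typical case
  have e3 : X3.card * c ≤ T.card * 1 := by
    apply double_count X3 T (fun X => X)
    · intro X hX
      have hXX' : X ∈ XX := (Finset.mem_filter.1 (Finset.mem_filter.1 hX).1).1
      obtain ⟨y, hy⟩ := hex X hXX'
      have h := hcount X hXX' y hy
      refine (h.2.trans h.1).trans ?_
      apply Finset.card_le_card
      intro K hK
      rw [Finset.mem_filter] at hK ⊢
      exact ⟨hK.1, (Finset.subset_insert _ _).trans hK.2⟩
    · intro K hK
      rw [Finset.card_le_one]
      intro Y1 hY1 Y2 hY2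
      rw [Finset.mem_filter] at hY1 hY2
      obtain ⟨hY1a, hY1K⟩ := hY1
      obtain ⟨hY2a, hY2K⟩ := hY2
      rw [hX3, Finset.mem_filter, Finset.mem_filter] at hY1a hY2a
      obtain ⟨⟨hY1X, hY1h⟩, hY1B⟩ := hY1a
      obtain ⟨⟨hY2X, hY2h⟩, hY2B⟩ := hY2a
      by_contra hne
      have hc1 := (mem_cl.1 hY1X).2.1
      have hc2 := (mem_cl.1 hY2X).2.1
      have hnsub : ¬ Y2 ⊆ Y1 := by
        intro hsub
        exact hne (Finset.eq_of_subset_of_card_le hsub (by omega)).symm
      rw [Finset.not_subset] at hnsub
      obtain ⟨y, hy2, hy1⟩ := hnsub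
      have hKcl := (mem_cl.1 hK).2.2
      have hyF : y ∈ F := (mem_cl.1 hY2X).1 hy2
      have hyA : y ∈ cn G F Y1 := by
        unfold cn
        rw [Finset.mem_filter]
        refine ⟨hyF, fun x hx => ?_⟩
        exact hKcl (hY1K hx) (hY2K hy2) (fun h => hy1 (h ▸ hx))
      have hov : ¬ B ≤ (F.filter (fun u => ¬ G.Adj y u ∧ u ∉ cn G F Y1)).card :=
        fun h => hY1h ⟨y, hyA, h⟩
      have a1 : cd G F y ≤ (F.filter (fun u => ¬ G.Adj y u ∧ u ∉ cn G F Y1)).card +
          (cn G F Y1).card := by
        refine (Finset.card_le_card ?_).trans (Finset.card_union_le _ _)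
        intro u hu
        rw [Finset.mem_filter] at hu
        rw [Finset.mem_union, Finset.mem_filter]
        by_cases huA : u ∈ cn G F Y1
        · exact Or.inr huA
        · exact Or.inl ⟨hu.1, hu.2, huA⟩
      have a2 : F.card ≤ (cn G F Y2).card + (s - 1) * v + cd G F y := by
        have b1 : cn G F Y2 = lk G (cn G F (Y2.erase y)) y := by
          rw [← cn_insert', Finset.insert_erase hy2]
        have b2 := card_lk_add G (cn G F (Y2.erase y)) y
        rw [← b1] at b2
        have b3 := card_cn G (v := v) (Y2.erase y) F (fun x hx => hFcd' x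
          ((mem_cl.1 hY2X).1 (Finset.mem_of_mem_erase hx)))
        rw [Finset.card_erase_of_mem hy2, hc2] at b3
        have b4 := cd_mono G (cn_subset G F (Y2.erase y)) y
        omega
      have hs1 : 1 ≤ s := by
        rw [← hc2]
        exact Finset.card_pos.2 ⟨y, hy2⟩
      obtain ⟨s', rfl⟩ : ∃ s', s = s' + 1 := ⟨s - 1, by omega⟩
      have a3 : (s' + 1) * v = s' * v + v := by ring
      have a4 : s' + 1 - 1 = s' := by omega
      rw [a4] at a2
      omega
  -- conclusion
  rw [kc_eq_card, ← hTT]
  calc v ^ s * (B * c) ≤ XX.card * (B * c) := Nat.mul_le_mul_right _ hXXc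
    _ = X1.card * (B * c) + X2.card * B * c + B * (X3.card * c) := by rw [← hsum]; ring
    _ ≤ X1.card * (B * P l) + T.card * (2 ^ R * R) + B * (T.card * 1) := by
        apply Nat.add_le_add (Nat.add_le_add _ e2) (Nat.mul_le_mul_left _ e3)
        exact Nat.mul_le_mul_left _ (Nat.mul_le_mul_left _ hcP)
    _ ≤ (l.length + 1).factorial * (T.card * 2 ^ R) + T.card * (2 ^ R * R) + B * (T.card * 1) := by
        apply Nat.add_le_add_right
        exact Nat.add_le_add_right e1 _
    _ = T.card * (B + 2 ^ R * ((l.length + 1).factorial + R)) := by ring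

end Pool.Agent.V11145.Maj
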