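import Pool.Agent.V11145.MajorDefs

set_option autoImplicit false

/-!
# Non-majorizability and threshold lists
-/

namespace Pool.Agent.V11145.Maj

open Finset Classical

theorem deg_add_cd {n : ℕ} (G : SimpleGraph (Fin n)) (v : Fin n) :
    deg G v + cd G univ v = n := by
  have h := card_lk_add G univ v
  have h2 : deg G v = (lk G univ v).card := by
    unfold deg lk
    rw [Set.ncard_eq_toFinset_card']
    congr 1
    ext u
    simp
  rw [h2, h]; simp

theorem majorized_of_le {n : ℕ} (G H : SimpleGraph (Fin n)) (h : ∀ v, deg G v ≤ deg H v) :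
    DegMajorizedBy G H := by
  set σ := Tuple.sort (fun v => cd G univ v) with hσ
  set τ := Tuple.sort (fun v => cd H univ v) with hτ
  have h1 : Monotone ((fun v => cd G univ v) ∘ σ) := Tuple.monotone_sort _
  have h2 : Monotone ((fun v => cd H univ v) ∘ τ) := Tuple.monotone_sort _
  refine ⟨σ, τ, ?_, ?_, ?_⟩
  · intro i j hij
    have := h1 hij
    simp only [Function.comp] at this
    have e1 := deg_add_cd G (σ i)
    have e2 := deg_add_cd G (σ j)
    show deg G (σ j) ≤ deg G (σ i)
    omega
  · intro i j hij
    have := h2 hij
    simp only [Function.comp] at this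
    have e1 := deg_add_cd H (τ i)
    have e2 := deg_add_cd H (τ j)
    show deg H (τ j) ≤ deg H (τ i)
    omega
  · intro i
    by_contra hcon
    push Not at hcon
    have e1 := deg_add_cd G (σ i)
    have e2 := deg_add_cd H (τ i)
    have hinj : (Finset.Iic i).card ≤ (Finset.Iio i).card := by
      apply Finset.card_le_card_of_injOn (fun j => τ.symm (σ j))
      · intro j hj
        rw [Finset.coe_Iic, Set.mem_Iic] at hj
        show τ.symm (σ j) ∈ ((Finset.Iio i : Finset (Fin n)) : Set (Fin n))
        rw [Finset.coe_Iio, Set.mem_Iio]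
        by_contra hge
        push Not at hge
        have a1 := h2 hge
        simp only [Function.comp, Equiv.apply_symm_apply] at a1
        have a2 := h1 hj
        simp only [Function.comp] at a2
        have a3 := h (σ j)
        have e3 := deg_add_cd G (σ j)
        have e4 := deg_add_cd H (σ j)
        omega
      · intro a _ b _ hab
        exact σ.injective (τ.symm.injective hab)
    rw [Fin.card_Iic, Fin.card_Iio] at hinj
    omega

theorem count_le_of_majorized {n : ℕ} {G H : SimpleGraph (Fin n)} (h : DegMajorizedBy G H) (a : ℕ) :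
    (univ.filter (fun v => cd G univ v ≤ a)).card ≤ (univ.filter (fun v => cd H univ v ≤ a)).card := by
  obtain ⟨σ, τ, -, -, h⟩ := h
  apply Finset.card_le_card_of_injOn (fun v => τ (σ.symm v))
  · intro v hv
    simp only [Finset.coe_filter, Finset.mem_univ, true_and, Set.mem_ofPred_eq] at hv ⊢
    have h1 := h (σ.symm v)
    rw [Equiv.apply_symm_apply] at h1
    have e1 := deg_add_cd G v
    have e2 := deg_add_cd H (τ (σ.symm v))
    omega
  · intro a _ b _ hab
    exact σ.symm.injective (τ.injective hab)

theorem nonmaj_of_thr {n : ℕ} (G : SimpleGraph (Fin n)) (l : List ℕ) (h : Thr G univ 0 l) :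
    NonMajorizable l.length G := by
  intro H hcol hmaj
  obtain ⟨C⟩ := hcol
  set β : Fin l.length → ℕ := fun c => (univ.filter (fun v => C v = c)).card with hβ
  have hcd : ∀ v, β (C v) ≤ cd H univ v := by
    intro v
    apply Finset.card_le_card
    intro u hu
    simp only [Finset.mem_filter, Finset.mem_univ, true_and] at hu ⊢
    intro hadj
    exact C.valid hadj hu.symm
  have hcount : ∀ a, (univ.filter (fun v => cd G univ v ≤ a)).card ≤
      ∑ c ∈ univ.filter (fun c => β c ≤ a), β c := by
    intro a
    refine (count_le_of_majorized hmaj a).trans ?_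
    have h1 : (univ.filter (fun v => cd H univ v ≤ a)) ⊆
        (univ.filter (fun c => β c ≤ a)).biUnion (fun c => univ.filter (fun v => C v = c)) := by
      intro v hv
      simp only [Finset.mem_filter, Finset.mem_univ, true_and] at hv
      simp only [Finset.mem_biUnion, Finset.mem_filter, Finset.mem_univ, true_and]
      exact ⟨C v, (hcd v).trans hv, rfl⟩
    exact (Finset.card_le_card h1).trans Finset.card_biUnion_le
  have hsum : ∑ c, β c = n := by
    have := Finset.card_eq_sum_card_fiberwise (f := fun v => C v) (s := (univ : Finset (Fin n)))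
      (t := (univ : Finset (Fin l.length))) (fun v _ => Finset.mem_coe.2 (Finset.mem_univ _))
    rw [Finset.card_univ, Fintype.card_fin] at this
    exact this.symm
  have key : ∀ (l' : List ℕ) (s : ℕ) (J : Finset (Fin l.length)), J.card + l'.length = l.length →
      Thr G univ s l' → ∑ c ∈ J, β c ≤ s → False := by
    intro l'
    induction l' with
    | nil =>
      intro s J hJ hT hs
      have hJu : J = univ := by
        rw [← Finset.card_eq_iff_eq_univ, Fintype.card_fin]
        simpa using hJ
      rw [hJu, hsum] at hs
      simp only [Thr, Finset.card_univ, Fintype.card_fin] at hT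
      omega
    | cons a l' ih =>
      intro s J hJ hT hs
      obtain ⟨h1, h2⟩ := hT
      have h3 := hcount a
      have h4 : ∃ c, c ∉ J ∧ β c ≤ a := by
        by_contra hcon
        push Not at hcon
        have h5 : univ.filter (fun c => β c ≤ a) ⊆ J := by
          intro c hc
          simp only [Finset.mem_filter, Finset.mem_univ, true_and] at hc
          by_contra hcJ
          have := hcon c hcJ
          omega
        have := Finset.sum_le_sum_of_subset (f := β) h5
        omega
      obtain ⟨c, hc, hca⟩ := h4
      refine ih (s + a) (insert c J) ?_ h2 ?_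
      · rw [Finset.card_insert_of_notMem hc]
        simp only [List.length_cons] at hJ
        omega
      · rw [Finset.sum_insert hc]; omega
  exact key l 0 ∅ (by simp) h (by simp)

/-- greedy list of part sizes -/
def thrList (c : ℕ → ℕ) : ℕ → ℕ → List ℕ
  | 0, _ => []
  | r + 1, s => c s :: thrList c r (s + c s)

theorem thrList_length (c : ℕ → ℕ) : ∀ r s, (thrList c r s).length = r := by
  intro r
  induction r with
  | zero => intro s; rfl
  | succ r ih => intro s; simp [thrList, ih]

theorem thrList_colour {n : ℕ} (c : ℕ → ℕ) (hmono : ∀ i j, i ≤ j → j < n → c i ≤ c j) :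
    ∀ r s, n ≤ s + (thrList c r s).sum →
      ∃ f : ℕ → ℕ, ∀ i, s ≤ i → i < n → f i < r ∧
        ((Finset.range n).filter (fun j => s ≤ j ∧ f j = f i)).card ≤ c i := by
  intro r
  induction r with
  | zero =>
    intro s h
    refine ⟨fun _ => 0, fun i h1 h2 => ?_⟩
    simp only [thrList, List.sum_nil] at h
    omega
  | succ r ih =>
    intro s h
    simp only [thrList, List.sum_cons] at h
    obtain ⟨f, hf⟩ := ih (s + c s) (by omega)
    refine ⟨fun i => if i < s + c s then r else f i, fun i h1 h2 => ?_⟩
    by_cases hi : i < s + c s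
    · simp only [if_pos hi]
      refine ⟨by omega, ?_⟩
      have hsub : (Finset.range n).filter (fun j => s ≤ j ∧ (if j < s + c s then r else f j) = r) ⊆
          Finset.Ico s (s + c s) := by
        intro j hj
        simp only [Finset.mem_filter, Finset.mem_range] at hj
        rw [Finset.mem_Ico]
        refine ⟨hj.2.1, ?_⟩
        by_contra hge
        rw [if_neg hge] at hj
        have := (hf j (by omega) hj.1).1
        omega
      have h3 := Finset.card_le_card hsub
      rw [Nat.card_Ico] at h3
      have h4 := hmono s i h1 h2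
      omega
    · simp only [if_neg hi]
      obtain ⟨h3, h4⟩ := hf i (by omega) h2
      refine ⟨by omega, ?_⟩
      refine (Finset.card_le_card ?_).trans h4
      intro j hj
      simp only [Finset.mem_filter, Finset.mem_range] at hj ⊢
      refine ⟨hj.1, ?_⟩
      by_cases hj2 : j < s + c s
      · rw [if_pos hj2] at hj
        omega
      · rw [if_neg hj2] at hj
        exact ⟨by omega, hj.2.2⟩

theorem thrList_thr {n : ℕ} (G : SimpleGraph (Fin n)) (σ : Equiv.Perm (Fin n)) (c : ℕ → ℕ)
    (hmono : ∀ i j, i ≤ j → j < n → c i ≤ c j)
    (hc : ∀ i : Fin n, c i = cd G univ (σ i)) :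
    ∀ r s, s + (thrList c r s).sum < n → Thr G univ s (thrList c r s) := by
  intro r
  induction r with
  | zero =>
    intro s h
    simp only [thrList, List.sum_nil] at h
    simp only [thrList, Thr, Finset.card_univ, Fintype.card_fin]
    omega
  | succ r ih =>
    intro s h
    simp only [thrList, List.sum_cons] at h
    simp only [thrList, Thr]
    refine ⟨?_, ih _ (by omega)⟩
    have hs : s < n := by omega
    have h1 : (Finset.Iic (⟨s, hs⟩ : Fin n)).card ≤
        (univ.filter (fun v => cd G univ v ≤ c s)).card := by
      apply Finset.card_le_card_of_injOn (fun j => σ j)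
      · intro j hj
        rw [Finset.coe_Iic, Set.mem_Iic] at hj
        simp only [Finset.coe_filter, Finset.mem_univ, true_and, Set.mem_ofPred_eq]
        rw [← hc j]
        exact hmono j s hj hs
      · intro a _ b _ hab
        exact σ.injective hab
    rw [Fin.card_Iic] at h1
    exact h1

theorem thrList_ge (c : ℕ → ℕ) {n : ℕ} (hmono : ∀ i j, i ≤ j → j < n → c i ≤ c j) :
    ∀ r s, s + (thrList c r s).sum < n → (∀ x ∈ thrList c r s, c s ≤ x) ∧
      (thrList c r s).Pairwise (· ≤ ·) := by
  intro r
  induction r with
  | zero => intro s _; simp [thrList]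
  | succ r ih =>
    intro s h
    simp only [thrList, List.sum_cons] at h
    obtain ⟨h1, h2⟩ := ih (s + c s) (by omega)
    simp only [thrList, List.mem_cons, List.pairwise_cons]
    have h3 : ∀ x ∈ thrList c r (s + c s), c s ≤ x := by
      intro x hx
      rcases Nat.eq_zero_or_pos r with hr | hr
      · subst hr; simp [thrList] at hx
      · refine le_trans ?_ (h1 x hx)
        by_cases hlt : s + c s < n
        · exact hmono _ _ (by omega) hlt
        · exfalso
          omega
    refine ⟨?_, h3, h2⟩
    rintro x (rfl | hx)
    · exact le_rfl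
    · exact h3 x hx

/-- A non-majorizable graph with maximum degree `n - t` has a sorted threshold list of length `r`
starting with `t`. -/
theorem thr_of_nonmaj {n : ℕ} (G : SimpleGraph (Fin n)) {t r : ℕ} (hr : 1 ≤ r)
    (hle : ∀ v, t ≤ cd G univ v) (hex : ∃ v, cd G univ v = t)
    (hnon : NonMajorizable r G) :
    ∃ l : List ℕ, l.length + 1 = r ∧ (t :: l).Pairwise (· ≤ ·) ∧ Thr G univ 0 (t :: l) ∧
      (t :: l).sum < n := by
  set σ := Tuple.sort (fun v => cd G univ v) with hσ
  have h1 : Monotone ((fun v => cd G univ v) ∘ σ) := Tuple.monotone_sort _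
  obtain ⟨v0, hv0⟩ := hex
  have hn : 0 < n := lt_of_le_of_lt (Nat.zero_le _) v0.isLt
  set c : ℕ → ℕ := fun i => if h : i < n then cd G univ (σ ⟨i, h⟩) else 0 with hcdef
  have hc : ∀ i : Fin n, c i = cd G univ (σ i) := by
    intro i
    simp only [hcdef, i.isLt, dif_pos]
  have hmono : ∀ i j, i ≤ j → j < n → c i ≤ c j := by
    intro i j hij hj
    have hi : i < n := by omega
    have := h1 (show (⟨i, hi⟩ : Fin n) ≤ ⟨j, hj⟩ from hij)
    simp only [Function.comp] at this
    simp only [hcdef, dif_pos hi, dif_pos hj]
    exact this
  by_cases hcase : 0 + (thrList c r 0).sum < n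
  · obtain ⟨r', rfl⟩ : ∃ r', r = r' + 1 := ⟨r - 1, by omega⟩
    have h0 : c 0 = t := by
      apply le_antisymm
      · have := hmono 0 (σ.symm v0) (Nat.zero_le _) (σ.symm v0).isLt
        rw [hc (σ.symm v0), Equiv.apply_symm_apply, hv0] at this
        exact this
      · have := hc ⟨0, hn⟩
        simp only at this
        rw [this]
        exact hle _
    have h2 := thrList_ge c hmono (r' + 1) 0 hcase
    have h3 := thrList_thr G σ c hmono hc (r' + 1) 0 hcase
    simp only [thrList, h0] at h2 h3 hcase
    refine ⟨thrList c r' (0 + t), by rw [thrList_length], h2.2, h3, ?_⟩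
    omega
  · exfalso
    obtain ⟨f, hf⟩ := thrList_colour c hmono r 0 (by omega)
    have hfr : ∀ v : Fin n, f (σ.symm v) < r := fun v => (hf _ (Nat.zero_le _) (σ.symm v).isLt).1
    set H : SimpleGraph (Fin n) :=
      { Adj := fun u v => f (σ.symm u) ≠ f (σ.symm v)
        symm := ⟨fun u v h => Ne.symm h⟩
        loopless := ⟨fun u h => h rfl⟩ } with hH
    apply hnon H
    · refine ⟨SimpleGraph.Coloring.mk (fun v => (⟨f (σ.symm v), hfr v⟩ : Fin r)) ?_⟩
      intro u v huv heq
      exact huv (congrArg Fin.val heq)
    · apply majorized_of_le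
      intro v
      have e1 := deg_add_cd G v
      have e2 := deg_add_cd H v
      have e3 := (hf (σ.symm v) (Nat.zero_le _) (σ.symm v).isLt).2
      rw [hc (σ.symm v), Equiv.apply_symm_apply] at e3
      have e4 : cd H univ v ≤ ((Finset.range n).filter
          (fun j => 0 ≤ j ∧ f j = f (σ.symm v))).card := by
        unfold cd
        apply Finset.card_le_card_of_injOn (fun u => ((σ.symm u : Fin n) : ℕ))
        · intro u hu
          simp only [Finset.coe_filter, Finset.mem_univ, true_and, Set.mem_ofPred_eq,
            Finset.mem_range, Nat.zero_le] at hu ⊢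
          refine ⟨(σ.symm u).isLt, ?_⟩
          by_contra hne
          exact hu (fun h => hne h.symm)
        · intro a _ b _ hab
          exact σ.symm.injective (Fin.ext hab)
      omega

end Pool.Agent.V11145.Maj
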