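import Pool.Agent.V11145.MajorArith

set_option autoImplicit false

/-!
# The extremal graphs
-/

namespace Pool.Agent.V11145.Maj

open Finset Classical

/-- vertices: parts of sizes `a 0, ..., a (r-1)` and one extra vertex -/
abbrev EV (r : ℕ) (a : ℕ → ℕ) : Type := Option (Σ i : Fin r, Fin (a i))

/-- adjacency -/
def eadj (r q : ℕ) (a : ℕ → ℕ) : EV r a → EV r a → Prop
  | none, none => False
  | none, some x => x.1.val < q ∨ x.2.val = 0
  | some x, none => x.1.val < q ∨ x.2.val = 0
  | some x, some y => x.1 ≠ y.1

/-- complete `r`-partite graph on the parts, the extra vertex joined to all of the first `q` parts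
and to one vertex of each of the others -/
def EG (r q : ℕ) (a : ℕ → ℕ) : SimpleGraph (EV r a) where
  Adj := eadj r q a
  symm := ⟨by
    rintro (_ | x) (_ | y) h
    · exact h
    · exact h
    · exact h
    · exact fun e => h e.symm⟩
  loopless := ⟨by
    rintro (_ | x) h
    · exact h
    · exact h rfl⟩

variable {r q : ℕ} {a : ℕ → ℕ}

theorem cdE_le (x : Σ i : Fin r, Fin (a i)) (hx : x.1.val < q ∨ x.2.val = 0) :
    (univ.filter (fun u => ¬ (EG r q a).Adj (some x) u)).card ≤ a x.1 := by
  have hsub : univ.filter (fun u => ¬ (EG r q a).Adj (some x) u) ⊆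
      univ.image (fun y : Fin (a x.1) => (some ⟨x.1, y⟩ : EV r a)) := by
    intro u hu
    simp only [Finset.mem_filter, Finset.mem_univ, true_and] at hu
    simp only [Finset.mem_image, Finset.mem_univ, true_and]
    rcases u with _ | ⟨i, y⟩
    · exact absurd hx hu
    · have : x.1 = i := by
        by_contra hne
        exact hu hne
      subst this
      exact ⟨y, rfl⟩
  refine (Finset.card_le_card hsub).trans (Finset.card_image_le.trans ?_)
  simp

theorem cdE_le' (x : Σ i : Fin r, Fin (a i)) :
    (univ.filter (fun u => ¬ (EG r q a).Adj (some x) u)).card ≤ a x.1 + 1 := by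
  have hsub : univ.filter (fun u => ¬ (EG r q a).Adj (some x) u) ⊆
      insert none (univ.image (fun y : Fin (a x.1) => (some ⟨x.1, y⟩ : EV r a))) := by
    intro u hu
    simp only [Finset.mem_filter, Finset.mem_univ, true_and] at hu
    simp only [Finset.mem_insert, Finset.mem_image, Finset.mem_univ, true_and]
    rcases u with _ | ⟨i, y⟩
    · exact Or.inl rfl
    · right
      have : x.1 = i := by
        by_contra hne
        exact hu hne
      subst this
      exact ⟨y, rfl⟩
  refine (Finset.card_le_card hsub).trans ((Finset.card_insert_le _ _).trans ?_)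
  have : (univ.image (fun y : Fin (a x.1) => (some ⟨x.1, y⟩ : EV r a))).card ≤ a x.1 := by
    refine Finset.card_image_le.trans ?_
    simp
  omega

theorem cdE_ge (x : Σ i : Fin r, Fin (a i)) :
    a x.1 ≤ (univ.filter (fun u => ¬ (EG r q a).Adj (some x) u)).card := by
  have h : (univ : Finset (Fin (a x.1))).card ≤
      (univ.filter (fun u => ¬ (EG r q a).Adj (some x) u)).card := by
    apply Finset.card_le_card_of_injOn (fun y => (some ⟨x.1, y⟩ : EV r a))
    · intro y _
      simp only [Finset.coe_filter, Finset.mem_univ, true_and, Set.mem_ofPred_eq]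
      intro h
      exact h rfl
    · intro y _ y' _ hyy
      simp only [Option.some.injEq, Sigma.mk.injEq, heq_eq_eq, true_and] at hyy
      exact hyy
  simpa using h

theorem cdE_none (hq : q < r) :
    a q ≤ (univ.filter (fun u => ¬ (EG r q a).Adj none u)).card := by
  rcases Nat.eq_zero_or_pos (a q) with h0 | h0
  · omega
  have h : (univ : Finset (Fin (a q))).card ≤
      (univ.filter (fun u => ¬ (EG r q a).Adj none u)).card := by
    apply Finset.card_le_card_of_injOn
      (fun y : Fin (a q) => if y.val = 0 then (none : EV r a) else some ⟨⟨q, hq⟩, y⟩)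
    · intro y _
      simp only [Finset.coe_filter, Finset.mem_univ, true_and, Set.mem_ofPred_eq]
      by_cases hy : y.val = 0
      · rw [if_pos hy]
        exact fun h => h
      · rw [if_neg hy]
        intro h
        rcases h with h | h
        · exact absurd h (lt_irrefl q)
        · exact hy h
    · intro y _ y' _ hyy
      simp only at hyy
      by_cases h1 : y.val = 0 <;> by_cases h2 : y'.val = 0
      · exact Fin.ext (by omega)
      · rw [if_pos h1, if_neg h2] at hyy; exact absurd hyy (by simp)
      · rw [if_neg h1, if_pos h2] at hyy; exact absurd hyy (by simp)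
      · rw [if_neg h1, if_neg h2] at hyy
        simp only [Option.some.injEq, Sigma.mk.injEq, heq_eq_eq, true_and] at hyy
        exact hyy
  simpa using h

theorem countE (hmono : ∀ i k, i ≤ k → k < r → a i ≤ a k)
    (hstr : ∀ i k, q ≤ i → i < k → k < r → a i < a k) (hpos : ∀ i, i < r → 1 ≤ a i)
    {k : ℕ} (hk : k < r) :
    ∑ i ∈ Finset.range k, a i + 1 ≤
      (univ.filter (fun x => (univ.filter (fun u => ¬ (EG r q a).Adj x u)).card ≤ a k)).card := by
  have hcard : (univ : Finset (Option (Σ i : Fin k, Fin (a i)))).card =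
      ∑ i ∈ Finset.range k, a i + 1 := by
    rw [Finset.card_univ, Fintype.card_option, Fintype.card_sigma]
    simp only [Fintype.card_fin]
    rw [Fin.sum_univ_eq_sum_range]
  rw [← hcard]
  apply Finset.card_le_card_of_injOn (fun o => match o with
    | none => (some ⟨⟨k, hk⟩, ⟨0, hpos k hk⟩⟩ : EV r a)
    | some x => some ⟨⟨x.1.val, x.1.isLt.trans hk⟩, x.2⟩)
  · rintro (_ | x) _
    · simp only [Finset.coe_filter, Finset.mem_univ, true_and, Set.mem_ofPred_eq]
      exact cdE_le _ (Or.inr rfl)
    · simp only [Finset.coe_filter, Finset.mem_univ, true_and, Set.mem_ofPred_eq]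
      have hxk : x.1.val < k := x.1.isLt
      by_cases hxq : x.1.val < q
      · exact (cdE_le (q := q) (⟨⟨x.1.val, x.1.isLt.trans hk⟩, x.2⟩ : Σ i : Fin r, Fin (a i))
          (Or.inl hxq)).trans (hmono _ _ hxk.le hk)
      · have h2 := hstr x.1.val k (by omega) hxk hk
        have h3 := cdE_le' (q := q) (⟨⟨x.1.val, x.1.isLt.trans hk⟩, x.2⟩ : Σ i : Fin r, Fin (a i))
        simp only at h3
        omega
  · rintro (_ | ⟨i, y⟩) _ (_ | ⟨i', y'⟩) _ h
    · rfl
    · simp only [Option.some.injEq, Sigma.mk.injEq, Fin.mk.injEq] at h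
      have := i'.isLt
      omega
    · simp only [Option.some.injEq, Sigma.mk.injEq, Fin.mk.injEq] at h
      have := i.isLt
      omega
    · simp only [Option.some.injEq, Sigma.mk.injEq, Fin.mk.injEq] at h
      obtain ⟨h1, h2⟩ := h
      have h3 : i = i' := Fin.ext h1
      subst h3
      rw [eq_of_heq h2]

theorem cliqueE (hq : q ≤ r) (hpos : ∀ i, i < r → 1 ≤ a i) {t : ℕ} (hat : ∀ i, i < q → a i = t) :
    {S : Finset (EV r a) | (EG r q a).IsNClique (r + 1) S}.ncard ≤ t ^ q := by
  set F : (∀ i : Fin q, Fin (a i)) → Finset (EV r a) := fun g =>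
    insert none (univ.image (fun i : Fin r =>
      (some ⟨i, if h : i.val < q then g ⟨i.val, h⟩ else ⟨0, hpos i i.isLt⟩⟩ : EV r a))) with hF
  have hcardF : ∀ g, (F g).card = r + 1 := by
    intro g
    rw [hF]
    simp only
    rw [Finset.card_insert_of_notMem (by simp), Finset.card_image_of_injective, Finset.card_univ,
      Fintype.card_fin]
    intro i i' h
    simp only [Option.some.injEq, Sigma.mk.injEq] at h
    exact h.1
  have hsub : {S : Finset (EV r a) | (EG r q a).IsNClique (r + 1) S} ⊆ Set.range F := by
    intro S hS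
    rw [Set.mem_ofPred_eq, SimpleGraph.isNClique_iff] at hS
    obtain ⟨hcl, hcard⟩ := hS
    have hinj : ∀ x y : Σ i : Fin r, Fin (a i), (some x : EV r a) ∈ S → (some y : EV r a) ∈ S →
        x.1 = y.1 → x = y := by
      intro x y hx hy hxy
      by_contra hne
      have := hcl hx hy (by simpa using hne)
      exact this hxy
    set f : EV r a → Option (Fin r) := Option.map Sigma.fst with hf
    have himg : S.image f = univ := by
      rw [← Finset.card_eq_iff_eq_univ, Finset.card_image_of_injOn, hcard]
      · simp
      · rintro (_ | x) hx (_ | y) hy h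
        · rfl
        · exact absurd h (by simp [hf])
        · exact absurd h (by simp [hf])
        · simp only [hf, Option.map_some, Option.some.injEq] at h
          rw [hinj x y hx hy h]
    have hnone : (none : EV r a) ∈ S := by
      have : (none : Option (Fin r)) ∈ S.image f := by rw [himg]; simp
      obtain ⟨o, ho, ho2⟩ := Finset.mem_image.1 this
      rcases o with _ | x
      · exact ho
      · exact absurd ho2 (by simp [hf])
    have hex : ∀ i : Fin r, ∃ y : Fin (a i), (some ⟨i, y⟩ : EV r a) ∈ S := by
      intro i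
      have : (some i : Option (Fin r)) ∈ S.image f := by rw [himg]; simp
      obtain ⟨o, ho, ho2⟩ := Finset.mem_image.1 this
      rcases o with _ | ⟨i', y⟩
      · exact absurd ho2 (by simp [hf])
      · simp only [hf, Option.map_some, Option.some.injEq] at ho2
        subst ho2
        exact ⟨y, ho⟩
    choose Y hY using hex
    refine ⟨fun i => Y ⟨i.val, i.isLt.trans_le hq⟩, ?_⟩
    apply Finset.eq_of_subset_of_card_le
    · intro o ho
      rw [hF] at ho
      simp only [Finset.mem_insert, Finset.mem_image, Finset.mem_univ, true_and] at ho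
      rcases ho with rfl | ⟨i, rfl⟩
      · exact hnone
      · by_cases hi : i.val < q
        · rw [dif_pos hi]; exact hY i
        · rw [dif_neg hi]
          have h1 := hcl hnone (hY i) (by simp)
          have h2 : (Y i).val = 0 := by
            rcases h1 with h1 | h1
            · exact absurd h1 hi
            · exact h1
          have h3 : Y i = ⟨0, hpos i i.isLt⟩ := Fin.ext h2
          rw [← h3]; exact hY i
    · have h5 := hcardF (fun i => Y ⟨i.val, i.isLt.trans_le hq⟩)
      exact (hcard.trans h5.symm).le
  refine (Set.ncard_le_ncard hsub (Set.finite_range F)).trans ?_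
  rw [← Set.image_univ]
  refine (Set.ncard_image_le Set.finite_univ).trans ?_
  rw [Set.ncard_univ, Nat.card_eq_fintype_card, Fintype.card_pi]
  simp only [Fintype.card_fin]
  rw [Finset.prod_congr rfl (fun i _ => hat i.val i.isLt)]
  simp

/-- Transfer to `Fin n`. -/
theorem upper_gen (hmono : ∀ i k, i ≤ k → k < r → a i ≤ a k)
    (hstr : ∀ i k, q ≤ i → i < k → k < r → a i < a k) {t : ℕ} (ht : 1 ≤ t)
    (h0 : a 0 = t) (hq : q < r) (hat : ∀ i, i < q → a i = t) {n : ℕ}
    (hn : n = ∑ i ∈ Finset.range r, a i + 1) :
    ∃ G : SimpleGraph (Fin n), (∀ v, t ≤ cd G univ v) ∧ (∃ v, cd G univ v = t) ∧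
      NonMajorizable r G ∧ {S : Finset (Fin n) | G.IsNClique (r + 1) S}.ncard ≤ t ^ q := by
  have hr : 0 < r := by omega
  have hge : ∀ i, i < r → t ≤ a i := fun i hi => h0 ▸ hmono 0 i (Nat.zero_le _) hi
  have hpos : ∀ i, i < r → 1 ≤ a i := fun i hi => ht.trans (hge i hi)
  have hcardV : Fintype.card (EV r a) = n := by
    rw [Fintype.card_option, Fintype.card_sigma]
    simp only [Fintype.card_fin]
    rw [Fin.sum_univ_eq_sum_range, hn]
  set e : Fin n ≃ EV r a := (Fintype.equivFinOfCardEq hcardV).symm with he
  set G : SimpleGraph (Fin n) := (EG r q a).comap e with hG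
  have hcd : ∀ v, cd G univ v = (univ.filter (fun u => ¬ (EG r q a).Adj (e v) u)).card := by
    intro v
    unfold cd
    apply Finset.card_bij (fun u _ => e u)
    · intro u hu
      simp only [Finset.mem_filter, Finset.mem_univ, true_and] at hu ⊢
      exact hu
    · intro u _ u' _ h
      exact e.injective h
    · intro w hw
      refine ⟨e.symm w, ?_, by simp⟩
      simp only [Finset.mem_filter, Finset.mem_univ, true_and, hG, SimpleGraph.comap_adj,
        Equiv.apply_symm_apply] at hw ⊢
      exact hw
  have hcount : ∀ b, (univ.filter (fun v => cd G univ v ≤ b)).card =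
      (univ.filter (fun x => (univ.filter (fun u => ¬ (EG r q a).Adj x u)).card ≤ b)).card := by
    intro b
    apply Finset.card_bij (fun u _ => e u)
    · intro u hu
      simp only [Finset.mem_filter, Finset.mem_univ, true_and] at hu ⊢
      rw [hcd] at hu
      exact hu
    · intro u _ u' _ h
      exact e.injective h
    · intro w hw
      refine ⟨e.symm w, ?_, by simp⟩
      simp only [Finset.mem_filter, Finset.mem_univ, true_and, Equiv.apply_symm_apply,
        hcd] at hw ⊢
      exact hw
  refine ⟨G, ?_, ?_, ?_, ?_⟩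
  · intro v
    rw [hcd]
    rcases hev : e v with _ | x
    · exact (hge q hq).trans (cdE_none hq)
    · exact (hge x.1 x.1.isLt).trans (cdE_ge x)
  · refine ⟨e.symm (some ⟨⟨0, hr⟩, ⟨0, hpos 0 hr⟩⟩), ?_⟩
    rw [hcd, Equiv.apply_symm_apply]
    apply le_antisymm
    · have := cdE_le (q := q) (⟨⟨0, hr⟩, ⟨0, hpos 0 hr⟩⟩ : Σ i : Fin r, Fin (a i)) (Or.inr rfl)
      simp only at this
      exact this.trans h0.le
    · have := cdE_ge (q := q) (⟨⟨0, hr⟩, ⟨0, hpos 0 hr⟩⟩ : Σ i : Fin r, Fin (a i))
      simp only at this
      exact h0.symm.le.trans this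
  · have key : ∀ m k, k + m = r → Thr G univ (∑ i ∈ Finset.range k, a i)
        ((List.range' k m).map a) := by
      intro m
      induction m with
      | zero =>
        intro k hk
        simp only [List.range'_zero, List.map_nil, Thr, Finset.card_univ, Fintype.card_fin]
        rw [Nat.add_zero] at hk
        rw [hk, hn]
      | succ m ih =>
        intro k hk
        rw [List.range'_succ, List.map_cons]
        refine ⟨?_, ?_⟩
        · rw [hcount]
          exact countE hmono hstr hpos (by omega)
        · have := ih (k + 1) (by omega)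
          rw [Finset.sum_range_succ] at this
          exact this
    have h1 := key r 0 (by omega)
    rw [Finset.sum_range_zero] at h1
    have h2 := nonmaj_of_thr G _ h1
    rw [List.length_map, List.length_range'] at h2
    exact h2
  · refine le_trans ?_ (cliqueE hq.le hpos hat)
    apply Set.ncard_le_ncard_of_injOn (fun S : Finset (Fin n) => S.map e.toEmbedding)
    · intro S hS
      simp only [Set.mem_ofPred_eq] at hS ⊢
      rw [SimpleGraph.isNClique_iff] at hS ⊢
      refine ⟨?_, by rw [Finset.card_map]; exact hS.2⟩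
      intro x hx y hy hxy
      simp only [Finset.coe_map, Set.mem_image, Finset.mem_coe] at hx hy
      obtain ⟨u, hu, rfl⟩ := hx
      obtain ⟨w, hw, rfl⟩ := hy
      exact hS.1 hu hw (fun h => hxy (by rw [h]))
    · intro S _ S' _ h
      exact Finset.map_injective _ h

/-- The part sizes of the extremal graph. -/
def sz (r q t e : ℕ) (i : ℕ) : ℕ :=
  if i < q then t else if i + 1 < r then t + (i - q) else t + e

theorem sum_sz {r q t e : ℕ} (hq : q < r) :
    ∑ i ∈ Finset.range r, sz r q t e i = r * t + (r - q - 1).choose 2 + e := by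
  obtain ⟨m, rfl⟩ : ∃ m, r = q + m + 1 := ⟨r - q - 1, by omega⟩
  rw [Finset.sum_range_succ, Finset.sum_range_add]
  have h1 : ∀ i ∈ Finset.range q, sz (q + m + 1) q t e i = t := by
    intro i hi
    rw [Finset.mem_range] at hi
    simp [sz, hi]
  have h2 : ∀ i ∈ Finset.range m, sz (q + m + 1) q t e (q + i) = t + i := by
    intro i hi
    rw [Finset.mem_range] at hi
    have a1 : ¬ q + i < q := by omega
    have a2 : q + i + 1 < q + m + 1 := by omega
    simp only [sz, if_neg a1, if_pos a2]
    omega
  have h3 : sz (q + m + 1) q t e (q + m) = t + e := by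
    have a1 : ¬ q + m < q := by omega
    have a2 : ¬ q + m + 1 < q + m + 1 := by omega
    simp only [sz, if_neg a1, if_neg a2]
  rw [Finset.sum_congr rfl h1, Finset.sum_congr rfl h2, h3, Finset.sum_const, Finset.card_range,
    Finset.sum_add_distrib, Finset.sum_const, Finset.card_range, smul_eq_mul, smul_eq_mul,
    Finset.sum_range_id]
  have h4 : q + m + 1 - q - 1 = m := by omega
  rw [h4, Nat.choose_two_right]
  ring

/-- The upper bound. -/
theorem upper {t r δ j : ℕ} (hr : 2 ≤ r) (ht : 1 ≤ t) (hj1 : 1 ≤ j) (hjr : j ≤ r)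
    (hjδ : j.choose 2 + 1 ≤ δ) (hj2 : j = 1 → δ = 1) :
    ∃ G : SimpleGraph (Fin (r * t + δ)), (∀ v, t ≤ cd G univ v) ∧ (∃ v, cd G univ v = t) ∧
      NonMajorizable r G ∧
      {S : Finset (Fin (r * t + δ)) | G.IsNClique (r + 1) S}.ncard ≤ t ^ (r - j) := by
  set q := r - j with hq
  set e := δ - 1 - (j - 1).choose 2 with he
  have hch : j.choose 2 = (j - 1).choose 2 + (j - 1) := by
    obtain ⟨i, rfl⟩ : ∃ i, j = i + 1 := ⟨j - 1, by omega⟩
    have h1 : i + 1 - 1 = i := by omega
    have h2 : (i + 1).choose 2 = i.choose 1 + i.choose 2 := Nat.choose_succ_succ' i 1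
    rw [h1, h2, Nat.choose_one_right]; omega
  have hej : j - 1 ≤ e := by omega
  have hrq : r - q - 1 = j - 1 := by omega
  apply upper_gen (q := q) (a := sz r q t e)
  · intro i k hik hk
    simp only [sz]
    split_ifs <;> omega
  · intro i k hi hik hk
    have a1 : ¬ i < q := by omega
    have a2 : ¬ k < q := by omega
    have a3 : i + 1 < r := by omega
    simp only [sz, if_neg a1, if_neg a2, if_pos a3]
    split_ifs <;> omega
  · exact ht
  · simp only [sz]
    split_ifs with h1 h2
    · rfl
    · omega
    · omega
  · omega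
  · intro i hi
    simp only [sz, if_pos hi]
  · rw [sum_sz (by omega), hrq]
    omega

end Pool.Agent.V11145.Maj
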