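import Mathlib

/-! General algebra for the truncated sum, and congruences modulo `p^3` in `ZMod (p^3)`. -/

namespace Pool.Agent.V11145.Trunc

open Finset

section general
variable {B : Type*} [CommRing B]

/-- The rising factorial `x (x+1) ... (x+k-1)`. -/
def rise (x : B) (k : ℕ) : B := ∏ i ∈ range k, (x + i)

@[simp] lemma rise_zero (x : B) : rise x 0 = 1 := by simp [rise]

lemma rise_succ (x : B) (k : ℕ) : rise x (k+1) = rise x k * (x + k) := by
  simp [rise, Finset.prod_range_succ]

lemma rise_succ' (x : B) (k : ℕ) : rise x (k+1) = x * rise (x+1) k := by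
  simp only [rise, Finset.prod_range_succ']
  rw [mul_comm]
  congr 1
  · simp
  · apply Finset.prod_congr rfl
    intro i _
    push_cast; ring

lemma rise_dvd (x : B) (k i : ℕ) (hi : i < k) : (x + i) ∣ rise x k :=
  Finset.dvd_prod_of_mem _ (mem_range.2 hi)

lemma map_rise {C : Type*} [CommRing C] (f : B →+* C) (x : B) (k : ℕ) :
    f (rise x k) = rise (f x) k := by
  simp [rise, map_prod]

/-- The `k`-th term of the sum. -/
def tm (h : B) (w : ℕ → B) (α : B) (k : ℕ) : B :=
  rise h k * rise (-α) k * rise (α + 1) k * (w k)^3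

/-- The truncated sum. -/
def S (h : B) (w : ℕ → B) (p : ℕ) (α : B) : B := ∑ k ∈ range p, tm h w α k

lemma S_symm (h : B) (w : ℕ → B) (p : ℕ) (α : B) : S h w p (-1 - α) = S h w p α := by
  unfold S
  apply Finset.sum_congr rfl
  intro k _
  unfold tm
  rw [show -(-1 - α) = α + 1 by ring, show -1 - α + 1 = -α by ring]
  ring

lemma zeil (h : B) (w : ℕ → B) (M : ℕ) (hh : 2*h = 1)
    (hw : ∀ k, k < M → w (k+1) * (k+1) = w k) (hw0 : w 0 = 1) (α : B) (N : ℕ) (hN : N ≤ M) :
    ∑ k ∈ range (N+1), ((α+2)^2 * tm h w (α+2) k - (α+1)^2 * tm h w α k)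
      = 2*(2*α+3) * rise h (N+1) * rise (-α-1) N * rise (α+2) N * (w N)^3 := by
  induction N with
  | zero =>
    simp only [zero_add, Finset.sum_range_one, tm, rise_zero, hw0]
    rw [show rise h 1 = h by simp [rise]]
    linear_combination (-(2*α+3)) * hh
  | succ N ih =>
    rw [Finset.sum_range_succ, ih (by omega)]
    have hwN := hw N (by omega)
    have e1 : rise (-(α+2)) (N+1) = (-(α+2)) * rise (-α-1) N := by
      rw [rise_succ']; congr 2; ring
    have e2 : (α+2) * rise (α+2+1) (N+1) = rise (α+2) N * (α+2+N) * (α+3+N) := by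
      rw [← rise_succ', rise_succ, rise_succ]; push_cast; ring
    have e3 : (-α-1) * rise (-α) (N+1) = rise (-α-1) N * (-α-1+N) * (-α+N) := by
      have : rise (-α-1) (N+1+1) = (-α-1) * rise (-α) (N+1) := by
        rw [rise_succ']; congr 2; ring
      rw [← this, rise_succ, rise_succ]; push_cast; ring
    have e4 : rise (α+1) (N+1) = (α+1) * rise (α+2) N := by
      rw [rise_succ']; congr 2; ring
    have f1 : (α+2)^2 * tm h w (α+2) (N+1)
        = -(α+2)^2 * rise h (N+1) * rise (-α-1) N * (rise (α+2) N * (α+2+N) * (α+3+N)) * (w (N+1))^3 := by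
      unfold tm
      rw [e1]
      linear_combination (-(α+2)^2 * rise h (N+1) * rise (-α-1) N * (w (N+1))^3) * e2
    have f2 : (α+1)^2 * tm h w α (N+1)
        = -(α+1)^2 * rise h (N+1) * rise (α+2) N * (rise (-α-1) N * (-α-1+N) * (-α+N)) * (w (N+1))^3 := by
      unfold tm
      rw [e4]
      linear_combination (-(α+1)^2 * rise h (N+1) * rise (α+2) N * (w (N+1))^3) * e3
    rw [f1, f2, ← hwN, rise_succ h (N+1), rise_succ (-α-1) N, rise_succ (α+2) N]
    push_cast
    linear_combination (-(2*α+3) * rise h (N+1) * rise (-α-1) N * rise (α+2) N * (w (N+1))^3 *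
      ((N-α-1)*(N+α+2))) * hh

lemma map_S {C : Type*} [CommRing C] (f : B →+* C) (h : B) (w : ℕ → B) (w' : ℕ → C) (p : ℕ)
    (hw : ∀ k, k < p → f (w k) = w' k) (α : B) :
    f (S h w p α) = S (f h) w' p (f α) := by
  unfold S
  rw [map_sum]
  apply Finset.sum_congr rfl
  intro k hk
  unfold tm
  simp only [map_mul, map_pow, map_rise, map_neg, map_add, map_one, hw k (mem_range.1 hk)]

end general

end Pool.Agent.V11145.Trunc
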