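import Pool.Agent.V11145.TruncA

/-! Congruences modulo `p^3` in `ZMod (p^3)`. -/

namespace Pool.Agent.V11145.Trunc

set_option linter.unusedSectionVars false

open Finset

variable {p : ℕ} [hpf : Fact p.Prime]

lemma pi_cube : ((p : ZMod (p^3)))^3 = 0 := by
  have := ZMod.natCast_self (p^3)
  push_cast at this
  exact this

lemma unit_of_not_dvd {j : ℕ} (h : ¬ p ∣ j) : IsUnit ((j : ZMod (p^3))) := by
  rw [ZMod.isUnit_iff_coprime]
  exact (Nat.Coprime.pow_right 3 ((Nat.Prime.coprime_iff_not_dvd hpf.out).2 h).symm)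

lemma inv_spec {j : ℕ} (h : ¬ p ∣ j) : (j : ZMod (p^3)) * (j : ZMod (p^3))⁻¹ = 1 :=
  ZMod.coe_mul_inv_eq_one _ (Nat.Coprime.pow_right 3 ((Nat.Prime.coprime_iff_not_dvd hpf.out).2 h).symm)

lemma sum_inv_sq_zmod (hp : 5 ≤ p) (n : ℕ) (hn : 2*n+1 = p) :
    ∑ j ∈ range n, (((j+1 : ℕ) : ZMod p)⁻¹)^2 = 0 := by
  have h1 : ∑ x : ZMod p, (x⁻¹)^2 = 0 := by
    have := FiniteField.sum_pow_lt_card_sub_one (ZMod p) 2 (by rw [ZMod.card]; omega)
    rw [← this]
    exact Fintype.sum_bijective (fun x => x⁻¹) (inv_involutive.bijective) _ _ (fun x => rfl)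
  have h2 : ∑ j ∈ range p, (((j : ℕ) : ZMod p)⁻¹)^2 = ∑ x : ZMod p, (x⁻¹)^2 := by
    refine Finset.sum_bij (fun (j : ℕ) (_ : j ∈ range p) => ((j : ℕ) : ZMod p)) ?_ ?_ ?_ ?_
    · intros; simp
    · intro a ha b hb hab
      have := (ZMod.natCast_eq_natCast_iff' a b p).1 hab
      rw [Nat.mod_eq_of_lt (mem_range.1 ha), Nat.mod_eq_of_lt (mem_range.1 hb)] at this
      exact this
    · intro b _
      exact ⟨b.val, mem_range.2 (ZMod.val_lt b), ZMod.natCast_zmod_val b⟩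
    · intros; rfl
  rw [h1] at h2
  have hr : range p = range (2*n+1) := by rw [hn]
  rw [hr, Finset.sum_range_succ', show 2*n = n + n by ring, Finset.sum_range_add] at h2
  have h3 : ∑ j ∈ range n, (((n + j + 1 : ℕ) : ZMod p)⁻¹)^2 = ∑ j ∈ range n, (((j+1 : ℕ) : ZMod p)⁻¹)^2 := by
    rw [← Finset.sum_range_reflect]
    apply Finset.sum_congr rfl
    intro j hj
    have hj' := mem_range.1 hj
    have : ((n + (n - 1 - j) + 1 : ℕ) : ZMod p) = - ((j+1 : ℕ) : ZMod p) := by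
      have e : (n + (n-1-j) + 1) + (j+1) = p := by omega
      have := congrArg (Nat.cast : ℕ → ZMod p) e
      rw [Nat.cast_add, ZMod.natCast_self] at this
      linear_combination this
    rw [this, inv_neg, neg_sq]
  rw [h3] at h2
  simp only [Nat.cast_zero, inv_zero, ne_eq, OfNat.ofNat_ne_zero, not_false_eq_true, zero_pow, add_zero] at h2
  have h4 : (2 : ZMod p) ≠ 0 := by
    intro h
    have : ((2:ℕ) : ZMod p) = 0 := by exact_mod_cast h
    rw [ZMod.natCast_eq_zero_iff] at this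
    have := Nat.le_of_dvd (by norm_num) this
    omega
  have h5 : (2 : ZMod p) * ∑ j ∈ range n, (((j+1 : ℕ) : ZMod p)⁻¹)^2 = 0 := by
    rw [two_mul]; exact h2
  exact (mul_eq_zero.1 h5).resolve_left h4

lemma pi_mul_of_cast_zero (x : ZMod (p^3)) (h : (ZMod.castHom (dvd_pow_self p (by norm_num : 3 ≠ 0)) (ZMod p)) x = 0) :
    (p : ZMod (p^3))^2 * x = 0 := by
  have h1 : ((x.val : ℕ) : ZMod p) = 0 := by
    have : x = ((x.val : ℕ) : ZMod (p^3)) := (ZMod.natCast_zmod_val x).symm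
    rw [this, map_natCast] at h
    exact h
  rw [ZMod.natCast_eq_zero_iff] at h1
  obtain ⟨c, hc⟩ := h1
  have : x = ((x.val : ℕ) : ZMod (p^3)) := (ZMod.natCast_zmod_val x).symm
  rw [this, hc]
  push_cast
  linear_combination (c : ZMod (p^3)) * pi_cube (p := p)

lemma sum_inv_sq (hp : 5 ≤ p) (n : ℕ) (hn : 2*n+1 = p) :
    (p : ZMod (p^3))^2 * ∑ j ∈ range n, (((j+1 : ℕ) : ZMod (p^3))⁻¹)^2 = 0 := by
  apply pi_mul_of_cast_zero
  rw [map_sum, ← sum_inv_sq_zmod hp n hn]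
  apply Finset.sum_congr rfl
  intro j hj
  have hj' := mem_range.1 hj
  have hnd : ¬ p ∣ (j+1) := fun h => by have := Nat.le_of_dvd (by omega) h; omega
  rw [map_pow]
  congr 1
  have h1 := congrArg (ZMod.castHom (dvd_pow_self p (by norm_num : 3 ≠ 0)) (ZMod p)) (inv_spec hnd)
  rw [map_mul, map_one, map_natCast] at h1
  have h2 : ((j+1 : ℕ) : ZMod p) ≠ 0 := by
    intro h; rw [ZMod.natCast_eq_zero_iff] at h; exact hnd h
  field_simp
  rw [mul_comm]; exact h1

lemma prod_one_add (n : ℕ) (d : ZMod (p^3)) (y : ℕ → ZMod (p^3)) :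
    ∏ j ∈ range n, (1 + (p : ZMod (p^3))^2 * d * y j) = 1 + (p : ZMod (p^3))^2 * d * ∑ j ∈ range n, y j := by
  induction n with
  | zero => simp
  | succ n ih =>
    rw [Finset.prod_range_succ, ih, Finset.sum_range_succ]
    linear_combination ((p : ZMod (p^3)) * d^2 * y n * ∑ j ∈ range n, y j) * pi_cube (p := p)

/-- The key product lemma: adding a multiple of `p^2` to each factor does not change the product
when the factors are `κ j^2` modulo `p`. -/
lemma prod_key (hp : 5 ≤ p) (n : ℕ) (hn : 2*n+1 = p) (κ κ' c : ZMod (p^3)) (hκ : κ * κ' = 1)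
    (x e : ℕ → ZMod (p^3)) (hx : ∀ j, j < n → x j = κ * ((j+1 : ℕ) : ZMod (p^3))^2 + (p : ZMod (p^3)) * e j) :
    ∏ j ∈ range n, (x j + (p : ZMod (p^3))^2 * c) = ∏ j ∈ range n, x j := by
  have h1 : ∀ j ∈ range n, x j + (p : ZMod (p^3))^2 * c
      = x j * (1 + (p : ZMod (p^3))^2 * (c*κ') * (((j+1 : ℕ) : ZMod (p^3))⁻¹)^2) := by
    intro j hj
    have hj' := mem_range.1 hj
    have hnd : ¬ p ∣ (j+1) := fun h => by have := Nat.le_of_dvd (by omega) h; omega
    have hi := inv_spec hnd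
    rw [hx j hj']
    generalize (((j+1 : ℕ) : ZMod (p^3))⁻¹) = z at *
    generalize (((j+1 : ℕ) : ZMod (p^3))) = y at *
    linear_combination (-(e j * c * κ' * z^2)) * pi_cube (p := p) - ((p : ZMod (p^3))^2 * c) * hκ
      - ((p : ZMod (p^3))^2 * c * κ * κ') * (y * z + 1) * hi
  rw [Finset.prod_congr rfl h1, Finset.prod_mul_distrib, prod_one_add]
  have := sum_inv_sq hp n hn
  linear_combination ((∏ j ∈ range n, x j) * (c * κ')) * this

end Pool.Agent.V11145.Trunc
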