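import Pool.Agent.V11145.TruncB

/-! Wilson/Wolstenholme/Morley type products modulo `p^3`. -/

namespace Pool.Agent.V11145.Trunc

set_option linter.unusedSectionVars false

open Finset

variable {p : ℕ} [hpf : Fact p.Prime]

lemma pi_eq (n : ℕ) (hn : 2*n+1 = p) : (p : ZMod (p^3)) = 2*(n : ZMod (p^3)) + 1 := by
  have : ((2*n+1 : ℕ) : ZMod (p^3)) = (p : ZMod (p^3)) := by rw [hn]
  rw [← this]; push_cast; ring

lemma fact_prod (n : ℕ) : ((n.factorial : ℕ) : ZMod (p^3)) = ∏ j ∈ range n, ((j+1 : ℕ) : ZMod (p^3)) := by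
  rw [← Finset.prod_range_add_one_eq_factorial]; push_cast; rfl

/-- `∏_{j ≤ n} (j^2 - (p s)^2) = (n!)^2`. -/
lemma prod_sq_sub (hp : 5 ≤ p) (n : ℕ) (hn : 2*n+1 = p) (s : ZMod (p^3)) :
    ∏ j ∈ range n, (((j+1 : ℕ) : ZMod (p^3))^2 - ((p : ZMod (p^3))*s)^2) = ((n.factorial : ℕ) : ZMod (p^3))^2 := by
  have := prod_key hp n hn 1 1 (-s^2) (by ring) (fun j => ((j+1 : ℕ) : ZMod (p^3))^2) (fun _ => 0)
    (by intro j _; ring)
  rw [fact_prod, ← Finset.prod_pow, ← this]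
  apply Finset.prod_congr rfl
  intro j _; ring

lemma prod_pm (hp : 5 ≤ p) (n : ℕ) (hn : 2*n+1 = p) (s : ZMod (p^3)) :
    (∏ j ∈ range n, ((p : ZMod (p^3))*s - ((j+1 : ℕ) : ZMod (p^3)))) *
      (∏ j ∈ range n, ((p : ZMod (p^3))*s + ((j+1 : ℕ) : ZMod (p^3)))) =
      (-1)^n * ((n.factorial : ℕ) : ZMod (p^3))^2 := by
  rw [← prod_sq_sub hp n hn s, ← Finset.prod_mul_distrib]
  have : ((-1 : ZMod (p^3)))^n = ∏ j ∈ range n, (-1 : ZMod (p^3)) := by simp
  rw [this, ← Finset.prod_mul_distrib]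
  apply Finset.prod_congr rfl
  intro j _; ring

lemma split_reflect (n : ℕ) (hn : 2*n+1 = p) (F : ZMod (p^3) → ZMod (p^3)) :
    ∏ j ∈ range (2*n), F ((j+1 : ℕ) : ZMod (p^3)) =
      (∏ j ∈ range n, F ((j+1 : ℕ) : ZMod (p^3))) *
        ∏ j ∈ range n, F ((p : ZMod (p^3)) - ((j+1 : ℕ) : ZMod (p^3))) := by
  rw [two_mul, Finset.prod_range_add]
  congr 1
  rw [← Finset.prod_range_reflect]
  apply Finset.prod_congr rfl
  intro j hj
  have hj' := mem_range.1 hj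
  congr 1
  have e : (n + (n-1-j) + 1) + (j+1) = p := by omega
  have := congrArg (Nat.cast : ℕ → ZMod (p^3)) e
  rw [Nat.cast_add] at this
  linear_combination this

/-- `∏_{j ≤ p-1} (p s + j) = (p-1)!` modulo `p^3`. -/
lemma prod_block (hp : 5 ≤ p) (n : ℕ) (hn : 2*n+1 = p) (s : ZMod (p^3)) :
    ∏ j ∈ range (2*n), ((p : ZMod (p^3))*s + ((j+1 : ℕ) : ZMod (p^3))) = (((2*n).factorial : ℕ) : ZMod (p^3)) := by
  have key : ∀ s : ZMod (p^3), ∏ j ∈ range (2*n), ((p : ZMod (p^3))*s + ((j+1 : ℕ) : ZMod (p^3))) =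
      ∏ j ∈ range n, (((j+1 : ℕ) : ZMod (p^3)) * ((p : ZMod (p^3)) - ((j+1 : ℕ) : ZMod (p^3)))) := by
    intro s
    rw [split_reflect n hn (fun x => (p : ZMod (p^3))*s + x), ← Finset.prod_mul_distrib]
    have := prod_key hp n hn (-1) (-1) (s^2+s) (by ring)
      (fun j => (((j+1 : ℕ) : ZMod (p^3)) * ((p : ZMod (p^3)) - ((j+1 : ℕ) : ZMod (p^3)))))
      (fun j => ((j+1 : ℕ) : ZMod (p^3))) (by intro j _; ring)
    rw [← this]
    apply Finset.prod_congr rfl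
    intro j _; ring
  rw [key s, ← key 0, fact_prod]
  apply Finset.prod_congr rfl
  intro j _; ring

lemma fact_split (n : ℕ) (hn : 2*n+1 = p) :
    (((2*n).factorial : ℕ) : ZMod (p^3)) = ((n.factorial : ℕ) : ZMod (p^3)) *
      ∏ j ∈ range n, ((p : ZMod (p^3)) - ((j+1 : ℕ) : ZMod (p^3))) := by
  rw [fact_prod, split_reflect n hn (fun x => x), ← fact_prod]

/-- product of the odd numbers -/
def oddP (n : ℕ) : ℕ := ∏ j ∈ range n, (2*j+1)

lemma fact_odd (n : ℕ) : (2*n).factorial = oddP n * 2^n * n.factorial := by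
  induction n with
  | zero => simp [oddP]
  | succ n ih =>
    rw [show 2*(n+1) = (2*n+1)+1 by ring, Nat.factorial_succ, Nat.factorial_succ, ih]
    unfold oddP
    rw [Finset.prod_range_succ, Nat.factorial_succ]
    ring

lemma oddP_cast (n : ℕ) (hn : 2*n+1 = p) :
    ((oddP n : ℕ) : ZMod (p^3)) = ∏ j ∈ range n, ((p : ZMod (p^3)) - 2*((j+1 : ℕ) : ZMod (p^3))) := by
  unfold oddP
  rw [Nat.cast_prod, ← Finset.prod_range_reflect]
  apply Finset.prod_congr rfl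
  intro j hj
  have hj' := mem_range.1 hj
  have e : (2*(n-1-j)+1) + 2*(j+1) = p := by omega
  have := congrArg (Nat.cast : ℕ → ZMod (p^3)) e
  rw [Nat.cast_add] at this
  push_cast at this ⊢
  linear_combination this

lemma half_spec (n : ℕ) (hn : 2*n+1 = p) :
    2 * (((n : ZMod (p^3)) + 1) * (1 - (p : ZMod (p^3)) + (p : ZMod (p^3))^2)) = 1 := by
  have h1 := pi_eq n hn
  have h2 := pi_cube (p := p)
  have : (2 * ((n : ZMod (p^3)) + 1)) = 1 + (p : ZMod (p^3)) := by rw [h1]; ring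
  calc 2 * (((n : ZMod (p^3)) + 1) * (1 - (p : ZMod (p^3)) + (p : ZMod (p^3))^2))
      = (2 * ((n : ZMod (p^3)) + 1)) * (1 - (p : ZMod (p^3)) + (p : ZMod (p^3))^2) := by ring
    _ = 1 := by rw [this]; linear_combination h2

lemma fact_unit {n : ℕ} (h : n < p) : IsUnit ((n.factorial : ℕ) : ZMod (p^3)) := by
  apply unit_of_not_dvd
  rw [Nat.Prime.dvd_factorial hpf.out]
  omega

/-- Morley's congruence in the form `(2n)! = 4^(2n) (-1)^n n!^2` modulo `p^3`, `p = 2n+1`. -/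
lemma morley (hp : 5 ≤ p) (n : ℕ) (hn : 2*n+1 = p) :
    (((2*n).factorial : ℕ) : ZMod (p^3)) = 4^(2*n) * ((-1)^n * ((n.factorial : ℕ) : ZMod (p^3))^2) := by
  have hh := half_spec n hn
  set h := (((n : ZMod (p^3)) + 1) * (1 - (p : ZMod (p^3)) + (p : ZMod (p^3))^2)) with hhdef
  have h1 : ((oddP n : ℕ) : ZMod (p^3))^2 = 4^n * (-1)^n * (((2*n).factorial : ℕ) : ZMod (p^3)) := by
    rw [fact_split n hn, oddP_cast n hn, ← Finset.prod_pow, fact_prod]
    have := prod_key hp n hn 4 (h^2) 1 (by linear_combination (2*h+1)*hh)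
      (fun j => 4 * (((j+1 : ℕ) : ZMod (p^3)) * (((j+1 : ℕ) : ZMod (p^3)) - (p : ZMod (p^3)))))
      (fun j => -4 * ((j+1 : ℕ) : ZMod (p^3))) (by intro j _; ring)
    have e1 : ∏ j ∈ range n, ((p : ZMod (p^3)) - 2*((j+1 : ℕ) : ZMod (p^3)))^2 =
        ∏ j ∈ range n, (4 * (((j+1 : ℕ) : ZMod (p^3)) * (((j+1 : ℕ) : ZMod (p^3)) - (p : ZMod (p^3)))) + (p : ZMod (p^3))^2 * 1) := by
      apply Finset.prod_congr rfl
      intro j _; ring
    rw [e1, this]
    have e2 : ((4 : ZMod (p^3)))^n = ∏ j ∈ range n, (4 : ZMod (p^3)) := by simp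
    have e3 : ((-1 : ZMod (p^3)))^n = ∏ j ∈ range n, (-1 : ZMod (p^3)) := by simp
    rw [e2, e3, ← Finset.prod_mul_distrib, ← Finset.prod_mul_distrib, ← Finset.prod_mul_distrib]
    apply Finset.prod_congr rfl
    intro j _; ring
  have h2 : (((2*n).factorial : ℕ) : ZMod (p^3)) = ((oddP n : ℕ) : ZMod (p^3)) * 2^n * ((n.factorial : ℕ) : ZMod (p^3)) := by
    rw [fact_odd]; push_cast; ring
  have hu := fact_unit (p := p) (n := 2*n) (by omega)
  apply hu.mul_left_cancel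
  have h4 : ((4 : ZMod (p^3)))^n = 2^n * 2^n := by
    rw [← mul_pow]; norm_num
  calc (((2*n).factorial : ℕ) : ZMod (p^3)) * (((2*n).factorial : ℕ) : ZMod (p^3))
      = ((oddP n : ℕ) : ZMod (p^3))^2 * (2^n * 2^n) * ((n.factorial : ℕ) : ZMod (p^3))^2 := by
        rw [h2]; ring
    _ = _ := by rw [h1, ← h4]; rw [two_mul n, pow_add]; ring

end Pool.Agent.V11145.Trunc
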