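import Pool.Agent.V11145.TruncC

/-! The truncated sum modulo `p^3`. -/

namespace Pool.Agent.V11145.Trunc

set_option linter.unusedSectionVars false

open Finset

variable {p : ℕ} [hpf : Fact p.Prime]

/-- Data: an inverse `h` of `2` and inverses `w k` of `k!` for `k < p`. -/
structure Dat (p : ℕ) (h : ZMod (p^3)) (w : ℕ → ZMod (p^3)) : Prop where
  hh : 2 * h = 1
  hw : ∀ k, k < p → w k * ((k.factorial : ℕ) : ZMod (p^3)) = 1

variable {h : ZMod (p^3)} {w : ℕ → ZMod (p^3)}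

lemma Dat.w0 (D : Dat p h w) : w 0 = 1 := by
  have := D.hw 0 hpf.out.pos
  simpa using this

lemma Dat.step (D : Dat p h w) (k : ℕ) (hk : k < p - 1) : w (k+1) * (k+1) = w k := by
  have h1 := D.hw (k+1) (by omega)
  have h2 := D.hw k (by omega)
  rw [Nat.factorial_succ] at h1
  push_cast at h1
  calc w (k+1) * (k+1) = w (k+1) * (k+1) * (w k * ((k.factorial : ℕ) : ZMod (p^3))) := by rw [h2, mul_one]
    _ = w k * (w (k+1) * (((k : ZMod (p^3)) + 1) * ((k.factorial : ℕ) : ZMod (p^3)))) := by ring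
    _ = w k := by rw [h1, mul_one]

lemma S_step (D : Dat p h w) (n : ℕ) (hn : 2*n+1 = p) (hp : 5 ≤ p) (r : ℕ) (hr : r + 3 ≤ p) (τ : ZMod (p^3)) :
    ((r : ZMod (p^3)) + (p : ZMod (p^3))*τ + 2)^2 * S h w p ((r : ZMod (p^3)) + (p : ZMod (p^3))*τ + 2)
      = ((r : ZMod (p^3)) + (p : ZMod (p^3))*τ + 1)^2 * S h w p ((r : ZMod (p^3)) + (p : ZMod (p^3))*τ) := by
  set α := (r : ZMod (p^3)) + (p : ZMod (p^3))*τ with hα
  have z := zeil h w (p-1) D.hh (fun k hk => D.step k hk) D.w0 α (p-1) le_rfl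
  rw [show p - 1 + 1 = p by omega] at z
  have d1 : (p : ZMod (p^3)) ∣ rise h p := by
    refine dvd_trans ?_ (rise_dvd h p n (by omega))
    refine ⟨h, ?_⟩
    have := pi_eq n hn
    rw [this]
    linear_combination (-(n : ZMod (p^3))) * D.hh
  have d2 : (p : ZMod (p^3)) ∣ rise (-α-1) (p-1) := by
    refine dvd_trans ?_ (rise_dvd (-α-1) (p-1) (r+1) (by omega))
    refine ⟨-τ, ?_⟩
    rw [hα]; push_cast; ring
  have d3 : (p : ZMod (p^3)) ∣ rise (α+2) (p-1) := by
    refine dvd_trans ?_ (rise_dvd (α+2) (p-1) (p-2-r) (by omega))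
    refine ⟨τ+1, ?_⟩
    have e : (p - 2 - r) + (r + 2) = p := by omega
    have := congrArg (Nat.cast : ℕ → ZMod (p^3)) e
    rw [Nat.cast_add] at this
    rw [hα]; push_cast at this ⊢
    linear_combination this
  obtain ⟨c1, e1⟩ := d1
  obtain ⟨c2, e2⟩ := d2
  obtain ⟨c3, e3⟩ := d3
  rw [e1, e2, e3] at z
  rw [Finset.sum_sub_distrib, ← Finset.mul_sum, ← Finset.mul_sum] at z
  unfold S
  linear_combination z + (2*(2*α+3) * c1 * c2 * c3 * (w (p-1))^3) * pi_cube (p := p)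

lemma S_chain (D : Dat p h w) (n : ℕ) (hn : 2*n+1 = p) (hp : 5 ≤ p) (τ : ZMod (p^3)) (m : ℕ) (hm : m ≤ n) :
    (∏ i ∈ range m, (2*((i+1 : ℕ) : ZMod (p^3)) + (p : ZMod (p^3))*τ)^2) *
        S h w p (2*(m : ZMod (p^3)) + (p : ZMod (p^3))*τ)
      = (∏ i ∈ range m, (2*(i : ZMod (p^3)) + 1 + (p : ZMod (p^3))*τ)^2) * S h w p ((p : ZMod (p^3))*τ) := by
  induction m with
  | zero => simp
  | succ m ih =>
    have ih := ih (by omega)
    have st := S_step D n hn hp (2*m) (by omega) τ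
    rw [Finset.prod_range_succ, Finset.prod_range_succ]
    have e : (2*((m+1 : ℕ) : ZMod (p^3)) + (p : ZMod (p^3))*τ) = (((2*m : ℕ) : ZMod (p^3)) + (p : ZMod (p^3))*τ + 2) := by
      push_cast; ring
    have e' : (((2*m : ℕ) : ZMod (p^3)) + (p : ZMod (p^3))*τ) = 2*(m : ZMod (p^3)) + (p : ZMod (p^3))*τ := by
      push_cast; ring
    rw [e, mul_assoc, st, e']
    linear_combination ((2 * (m : ZMod (p^3)) + (p : ZMod (p^3))*τ + 1)^2) * ih

lemma rise_pair (k : ℕ) (τ : ZMod (p^3)) :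
    (p : ZMod (p^3)) * (rise (1 - (p : ZMod (p^3))*τ) k * rise (1 + (p : ZMod (p^3))*τ) k)
      = (p : ZMod (p^3)) * ((k.factorial : ℕ) : ZMod (p^3))^2 := by
  induction k with
  | zero => simp
  | succ k ih =>
    rw [rise_succ, rise_succ, Nat.factorial_succ]
    push_cast
    linear_combination ((k : ZMod (p^3)) + 1)^2 * ih
      - (rise (1 - (p : ZMod (p^3))*τ) k * rise (1 + (p : ZMod (p^3))*τ) k * τ^2) * pi_cube (p := p)

/-- First coefficient. -/
def A1 (h : ZMod (p^3)) (w : ℕ → ZMod (p^3)) : ZMod (p^3) :=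
  ∑ k ∈ range (p-1), rise h (k+1) * (w (k+1))^3 * ((k.factorial : ℕ) : ZMod (p^3))^2 * ((k : ZMod (p^3)) + 1)

/-- Second coefficient. -/
def A2 (h : ZMod (p^3)) (w : ℕ → ZMod (p^3)) : ZMod (p^3) :=
  ∑ k ∈ range (p-1), rise h (k+1) * (w (k+1))^3 * ((k.factorial : ℕ) : ZMod (p^3))^2

lemma S_expand (D : Dat p h w) (τ : ZMod (p^3)) :
    S h w p ((p : ZMod (p^3))*τ) = 1 - (p : ZMod (p^3)) * τ * A1 h w - (p : ZMod (p^3))^2 * τ^2 * A2 h w := by
  unfold S A1 A2
  have hp1 : p = (p - 1) + 1 := by have := hpf.out.pos; omega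
  have hr : range p = range ((p-1)+1) := by rw [← hp1]
  rw [hr, Finset.sum_range_succ']
  have h0 : tm h w ((p : ZMod (p^3))*τ) 0 = 1 := by simp [tm, D.w0]
  rw [h0]
  have hk : ∀ k ∈ range (p-1), tm h w ((p : ZMod (p^3))*τ) (k+1) =
      - ((p : ZMod (p^3)) * τ) * (rise h (k+1) * (w (k+1))^3 * ((k.factorial : ℕ) : ZMod (p^3))^2 * ((k : ZMod (p^3)) + 1))
      - ((p : ZMod (p^3))^2 * τ^2) * (rise h (k+1) * (w (k+1))^3 * ((k.factorial : ℕ) : ZMod (p^3))^2) := by
    intro k _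
    unfold tm
    have e1 : rise (-((p : ZMod (p^3))*τ)) (k+1) = -((p : ZMod (p^3))*τ) * rise (1 - (p : ZMod (p^3))*τ) k := by
      rw [rise_succ']; congr 2; ring
    have e2 : rise ((p : ZMod (p^3))*τ + 1) (k+1) = rise (1 + (p : ZMod (p^3))*τ) k * (1 + (p : ZMod (p^3))*τ + k) := by
      rw [rise_succ]; congr 2 <;> ring
    rw [e1, e2]
    have := rise_pair k τ
    linear_combination (-(rise h (k+1) * (w (k+1))^3 * τ * (1 + (p : ZMod (p^3))*τ + k))) * this
  rw [Finset.sum_congr rfl hk, Finset.sum_sub_distrib, ← Finset.mul_sum, ← Finset.mul_sum]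
  ring

lemma isUnit_two (n : ℕ) (hn : 2*n+1 = p) : IsUnit (2 : ZMod (p^3)) :=
  IsUnit.of_mul_eq_one _ (half_spec n hn)

lemma S_neg (D : Dat p h w) (n : ℕ) (hn : 2*n+1 = p) (hp : 5 ≤ p) :
    S h w p (-(p : ZMod (p^3))) = 4^(2*n) := by
  have h0 := S_expand D 0
  have hc := S_chain D n hn hp 0 n le_rfl
  rw [h0] at hc
  have e1 : (∏ i ∈ range n, (2*((i+1 : ℕ) : ZMod (p^3)) + (p : ZMod (p^3))*0)^2) = 4^n * ((n.factorial : ℕ) : ZMod (p^3))^2 := by
    have e2 : ((4 : ZMod (p^3)))^n = ∏ j ∈ range n, (4 : ZMod (p^3)) := by simp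
    rw [fact_prod, ← Finset.prod_pow, e2, ← Finset.prod_mul_distrib]
    apply Finset.prod_congr rfl
    intro i _; ring
  have e2 : (∏ i ∈ range n, (2*(i : ZMod (p^3)) + 1 + (p : ZMod (p^3))*0)^2) = ((oddP n : ℕ) : ZMod (p^3))^2 := by
    unfold oddP
    rw [Nat.cast_prod, ← Finset.prod_pow]
    apply Finset.prod_congr rfl
    intro i _; push_cast; ring
  have e3 : (2*(n : ZMod (p^3)) + (p : ZMod (p^3))*0) = -1 - (-(p : ZMod (p^3))) := by
    rw [pi_eq n hn]; ring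
  rw [e1, e2, e3, S_symm] at hc
  have hW : (((2*n).factorial : ℕ) : ZMod (p^3)) = ((oddP n : ℕ) : ZMod (p^3)) * 2^n * ((n.factorial : ℕ) : ZMod (p^3)) := by
    rw [fact_odd]; push_cast; ring
  have hM := morley hp n hn
  have h4 : ((4 : ZMod (p^3)))^n = 2^n * 2^n := by
    rw [← mul_pow]; norm_num
  have hu2 := (isUnit_two n hn).pow n
  have huf := fact_unit (p := p) (n := n) (by omega)
  -- multiply by 4^n (n!)^2
  have u : IsUnit (((4 : ZMod (p^3)))^n * ((n.factorial : ℕ) : ZMod (p^3))^2 * (4^n * ((n.factorial : ℕ) : ZMod (p^3))^2)) := by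
    rw [h4]
    exact ((hu2.mul hu2).mul (huf.pow 2)).mul ((hu2.mul hu2).mul (huf.pow 2))
  apply u.mul_left_cancel
  have hsq : (((-1 : ZMod (p^3)))^n)^2 = 1 := by rw [← pow_mul, mul_comm, pow_mul]; norm_num
  calc (4 : ZMod (p^3))^n * ((n.factorial : ℕ) : ZMod (p^3))^2 * (4^n * ((n.factorial : ℕ) : ZMod (p^3))^2) * S h w p (-(p : ZMod (p^3)))
      = 4^n * ((n.factorial : ℕ) : ZMod (p^3))^2 * (4^n * ((n.factorial : ℕ) : ZMod (p^3))^2 * S h w p (-(p : ZMod (p^3)))) := by ring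
    _ = 4^n * ((n.factorial : ℕ) : ZMod (p^3))^2 * ((oddP n : ℕ) : ZMod (p^3))^2 := by rw [hc]; ring
    _ = (((2*n).factorial : ℕ) : ZMod (p^3))^2 := by rw [hW, h4]; ring
    _ = 4^(2*n) * 4^(2*n) * ((n.factorial : ℕ) : ZMod (p^3))^2 * ((n.factorial : ℕ) : ZMod (p^3))^2 * (((-1 : ZMod (p^3)))^n)^2 := by
        rw [hM]; ring
    _ = _ := by rw [hsq, two_mul n, pow_add]; ring

lemma choose_cast (hp : 5 ≤ p) (n : ℕ) (hn : 2*n+1 = p) : (((2*p).choose p : ℕ) : ZMod (p^3)) = 2 := by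
  have h1 : (2*p).choose p * (2*n).factorial = 2 * ∏ j ∈ range (2*n), (p*1 + (j+1)) := by
    have a1 := Nat.add_choose_mul_factorial_mul_factorial p p
    have a2 : (p + p).factorial = p.factorial * ∏ j ∈ range p, (p + (j+1)) := by
      have := Nat.factorial_mul_ascFactorial p p
      rw [← this, Nat.ascFactorial_eq_prod_range]
      congr 1
      apply Finset.prod_congr rfl; intro j _; ring
    have hr : range p = range (2*n+1) := by rw [hn]
    rw [hr, Finset.prod_range_succ] at a2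
    have a3 : p.factorial = p * (2*n).factorial := by
      conv_lhs => rw [← hn]
      rw [Nat.factorial_succ, hn]
    have hpos : 0 < p.factorial * p := Nat.mul_pos (Nat.factorial_pos p) (by omega)
    rw [two_mul p]
    apply Nat.eq_of_mul_eq_mul_left hpos
    calc p.factorial * p * ((p+p).choose p * (2*n).factorial)
        = (p+p).choose p * p.factorial * (p * (2*n).factorial) := by ring
      _ = (p+p).choose p * p.factorial * p.factorial := by rw [← a3]
      _ = p.factorial * ((∏ j ∈ range (2*n), (p + (j+1))) * (p + (2*n+1))) := by rw [a1, a2]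
      _ = p.factorial * ((∏ j ∈ range (2*n), (p + (j+1))) * (p + p)) := by rw [hn]
      _ = _ := by simp only [mul_one]; ring
  have h2 := congrArg (Nat.cast : ℕ → ZMod (p^3)) h1
  rw [Nat.cast_mul, Nat.cast_mul, Nat.cast_prod] at h2
  have h3 : ∏ j ∈ range (2*n), ((p*1 + (j+1) : ℕ) : ZMod (p^3)) = (((2*n).factorial : ℕ) : ZMod (p^3)) := by
    rw [← prod_block hp n hn 1]
    apply Finset.prod_congr rfl
    intro j _; push_cast; ring
  rw [h3] at h2
  have hu := fact_unit (p := p) (n := 2*n) (by omega)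
  apply hu.mul_right_cancel
  exact_mod_cast h2

end Pool.Agent.V11145.Trunc
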