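import Pool.Agent.V11145.TruncD

/-! The truncated sum at multiples of `p`, and the Gamma side. -/

namespace Pool.Agent.V11145.Trunc

set_option linter.unusedSectionVars false

open Finset

variable {p : ℕ} [hpf : Fact p.Prime]
variable {h : ZMod (p^3)} {w : ℕ → ZMod (p^3)}

lemma pow_nil {B : Type*} [CommRing B] (h x : B) (hh : 2*h = 1) (hx : x^3 = 0) (m : ℕ) :
    (1 + x)^m = 1 + m * x + h * m * (m - 1) * x^2 := by
  induction m with
  | zero => simp
  | succ m ih =>
    rw [pow_succ, ih]; push_cast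
    linear_combination (h * m * (m-1)) * hx - (m * x^2) * hh

lemma S_mult (D : Dat p h w) (n : ℕ) (hn : 2*n+1 = p) (hp : 5 ≤ p)
    (hS : S h w p (p : ZMod (p^3)) * 4^(2*n) = 1) (U : ℕ) :
    S h w p ((p : ZMod (p^3)) * (-2 * U)) = (4^(2*n))^(2*U) := by
  have e1 := S_expand D (-1)
  have e2 := S_expand D 1
  have e3 := S_expand D (-2 * (U : ZMod (p^3)))
  have hneg := S_neg D n hn hp
  rw [show (p : ZMod (p^3)) * (-1) = -(p : ZMod (p^3)) by ring, hneg] at e1
  rw [mul_one] at e2
  rw [e2, e1] at hS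
  set X := (p : ZMod (p^3)) * A1 h w with hX
  set Y := (p : ZMod (p^3))^2 * A2 h w with hY
  have hpc := pi_cube (p := p)
  have hXY : X * Y = 0 := by rw [hX, hY]; linear_combination (A1 h w * A2 h w) * hpc
  have hYY : Y * Y = 0 := by rw [hY]; linear_combination (A2 h w * A2 h w * (p : ZMod (p^3))) * hpc
  have hXXX : X * X * X = 0 := by rw [hX]; linear_combination (A1 h w ^3) * hpc
  have hXX : X * X = -2 * Y := by linear_combination hYY - hS
  have hcc : ((4 : ZMod (p^3))^(2*n)) = 1 + (X - Y) := by rw [e1]; ring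
  rw [e3, hcc, pow_nil h (X-Y) D.hh (by linear_combination hXXX - 3 * X * hXY + 3 * Y * hXY - Y * hYY) (2*U)]
  push_cast
  have : (X - Y)^2 = -2 * Y := by linear_combination hXX - 2 * hXY + hYY
  rw [this]
  linear_combination (2 * U * (2*U-1) * Y) * D.hh

/-- The factor occurring in the functional equation. -/
def kap (p x : ℕ) : ℤ := if p ∣ x then 1 else x

/-- Morita's values at natural numbers. -/
def g (p n : ℕ) : ℤ := (-1)^n * ∏ j ∈ (Ico 1 n).filter (fun j => ¬ p ∣ j), (j : ℤ)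

lemma g_succ (p x : ℕ) : g p (x+1) = - kap p x * g p x := by
  unfold g kap
  rw [Finset.prod_filter, Finset.prod_filter]
  rcases Nat.eq_zero_or_pos x with h0 | h0
  · subst h0; simp
  · rw [Finset.prod_Ico_succ_top h0]
    by_cases hd : p ∣ x
    · simp [hd]; ring
    · simp [hd]; ring

lemma g_run (x k : ℕ) (hk : ∀ i, i < k → ¬ p ∣ (x + i)) :
    ((g p (x+k) : ℤ) : ZMod (p^3)) = ((g p x : ℤ) : ZMod (p^3)) * ∏ i ∈ range k, (-((x + i : ℕ) : ZMod (p^3))) := by
  induction k with
  | zero => simp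
  | succ k ih =>
    rw [← add_assoc, g_succ, Finset.prod_range_succ]
    have hki := hk k (by omega)
    simp only [kap, hki, if_false]
    rw [← mul_assoc, ← ih (fun i hi => hk i (by omega))]
    push_cast; ring

lemma neg_one_even (n : ℕ) : ((-1 : ZMod (p^3)))^(2*n) = 1 := by rw [pow_mul]; norm_num

lemma prod_neg_eq (n : ℕ) (f : ℕ → ZMod (p^3)) : ∏ i ∈ range n, (- f i) = (-1)^n * ∏ i ∈ range n, f i := by
  have e2 : ((-1 : ZMod (p^3)))^n = ∏ j ∈ range n, (-1 : ZMod (p^3)) := by simp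
  rw [e2, ← Finset.prod_mul_distrib]
  apply Finset.prod_congr rfl; intro i _; ring

lemma not_dvd_add {a b : ℕ} (hb : 0 < b) (hb' : b < p) (ha : p ∣ a) : ¬ p ∣ (a + b) := by
  intro hc
  have := (Nat.dvd_add_right ha).1 hc
  have := Nat.le_of_dvd hb this
  omega

lemma g_U (hp : 5 ≤ p) (n : ℕ) (hn : 2*n+1 = p) (U : ℕ) :
    ((g p (p*U) : ℤ) : ZMod (p^3)) = (-(((2*n).factorial : ℕ) : ZMod (p^3)))^U := by
  induction U with
  | zero => simp [g]
  | succ U ih =>
    have e : p*(U+1) = (p*U+1) + 2*n := by rw [mul_add, mul_one]; omega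
    rw [e, g_run (p*U+1) (2*n)]
    · rw [g_succ]
      have : kap p (p*U) = 1 := by simp [kap]
      rw [this, prod_neg_eq, neg_one_even, pow_succ (-(((2*n).factorial : ℕ) : ZMod (p^3))) U, ← ih, ← prod_block hp n hn (U : ZMod (p^3))]
      have : ∏ i ∈ range (2*n), ((p*U+1+i : ℕ) : ZMod (p^3)) = ∏ j ∈ range (2*n), ((p : ZMod (p^3))*(U : ZMod (p^3)) + ((j+1 : ℕ) : ZMod (p^3))) := by
        apply Finset.prod_congr rfl; intro i _; push_cast; ring
      rw [this]
      push_cast; ring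
    · intro i hi
      rw [add_assoc]
      exact not_dvd_add (by omega) (by omega) (dvd_mul_right p U)

lemma g_V (hp : 5 ≤ p) (n : ℕ) (hn : 2*n+1 = p) (V : ℕ) :
    ((g p (n+1+p*V) : ℤ) : ZMod (p^3)) =
      (-1)^(n+1) * ((n.factorial : ℕ) : ZMod (p^3)) * (-((-1)^n * ((n.factorial : ℕ) : ZMod (p^3))^2))^V := by
  induction V with
  | zero =>
    have := g_run (p := p) 1 n (by
      intro i hi h
      have := Nat.le_of_dvd (by omega) h
      omega)
    rw [show 1 + n = n+1+p*0 by ring] at this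
    rw [this, prod_neg_eq, fact_prod]
    have e : ((g p 1 : ℤ) : ZMod (p^3)) = -1 := by
      have := g_succ p 0
      rw [zero_add] at this
      rw [this]; simp [kap, g]
    rw [e]
    have : ∏ i ∈ range n, ((1+i : ℕ) : ZMod (p^3)) = ∏ j ∈ range n, ((j+1 : ℕ) : ZMod (p^3)) := by
      apply Finset.prod_congr rfl; intro i _; push_cast; ring
    rw [this]; ring
  | succ V ih =>
    -- from c - n to c, c = p (V+1)
    have e1 : p*(V+1) = (n+1+p*V) + n := by rw [mul_add, mul_one]; omega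
    have r1 := g_run (p := p) (n+1+p*V) n (by
      intro i hi
      rw [show n+1+p*V+i = p*V + (n+1+i) by ring]
      exact not_dvd_add (by omega) (by omega) (dvd_mul_right p V))
    have r2 := g_run (p := p) (p*(V+1)+1) n (by
      intro i hi
      rw [add_assoc]
      exact not_dvd_add (by omega) (by omega) (dvd_mul_right p (V+1)))
    rw [← e1] at r1
    have e2 : n+1+p*(V+1) = p*(V+1)+1+n := by ring
    rw [e2, r2, g_succ]
    have e3 : kap p (p*(V+1)) = 1 := by simp [kap]
    rw [e3]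
    rw [prod_neg_eq]
    push_cast
    rw [r1, prod_neg_eq, ih]
    have p1 : ∏ i ∈ range n, ((n+1+p*V+i : ℕ) : ZMod (p^3)) =
        ∏ j ∈ range n, ((p : ZMod (p^3))*((V : ZMod (p^3))+1) - ((j+1 : ℕ) : ZMod (p^3))) := by
      rw [← Finset.prod_range_reflect]
      apply Finset.prod_congr rfl
      intro j hj
      have hj' := mem_range.1 hj
      have e : (n + 1 + p*V + (n-1-j)) + (j+1) = p*(V+1) := by rw [e1]; omega
      have := congrArg (Nat.cast : ℕ → ZMod (p^3)) e
      rw [Nat.cast_add] at this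
      push_cast at this ⊢
      linear_combination this
    have p2 : ∏ i ∈ range n, ((p : ZMod (p^3)) * ((V : ZMod (p^3))+1) + 1 + (i : ZMod (p^3))) =
        ∏ j ∈ range n, ((p : ZMod (p^3))*((V : ZMod (p^3))+1) + ((j+1 : ℕ) : ZMod (p^3))) := by
      apply Finset.prod_congr rfl; intro i _; push_cast; ring
    rw [p1, p2]
    have pm := prod_pm hp n hn ((V : ZMod (p^3))+1)
    have hsq : ((-1 : ZMod (p^3))^n)^2 = 1 := by rw [← pow_mul, mul_comm]; exact neg_one_even n
    rw [pow_succ (-((-1)^n * ((n.factorial : ℕ) : ZMod (p^3))^2)) V]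
    generalize (∏ j ∈ range n, ((p : ZMod (p^3))*((V : ZMod (p^3))+1) - ((j+1 : ℕ) : ZMod (p^3)))) = Q1 at *
    generalize (∏ j ∈ range n, ((p : ZMod (p^3))*((V : ZMod (p^3))+1) + ((j+1 : ℕ) : ZMod (p^3)))) = Q2 at *
    generalize ((-(((-1 : ZMod (p^3))^n) * ((n.factorial : ℕ) : ZMod (p^3))^2))^V) = Z at *
    have : ((-1 : ZMod (p^3)))^(n+1) = -((-1 : ZMod (p^3))^n) := by ring
    rw [this]
    generalize ((-1 : ZMod (p^3))^n) = s at *
    linear_combination (s^3 * ((n.factorial : ℕ) : ZMod (p^3)) * Z) * pm + (s^2 * ((n.factorial : ℕ) : ZMod (p^3))^3 * Z) * hsq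

end Pool.Agent.V11145.Trunc
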