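import Pool.Agent.V11145.TruncE

/-! Comparison of both sides in `ZMod (p^3)` at natural arguments. -/

namespace Pool.Agent.V11145.Trunc

set_option linter.unusedSectionVars false

open Finset

variable {p : ℕ} [hpf : Fact p.Prime]
variable {h : ZMod (p^3)} {w : ℕ → ZMod (p^3)}

lemma exists_pi_of_cast_zero (x : ZMod (p^3)) (hx : (ZMod.castHom (dvd_pow_self p (by norm_num : 3 ≠ 0)) (ZMod p)) x = 0) :
    ∃ y, x = (p : ZMod (p^3)) * y := by
  have h1 : ((x.val : ℕ) : ZMod p) = 0 := by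
    have : x = ((x.val : ℕ) : ZMod (p^3)) := (ZMod.natCast_zmod_val x).symm
    rw [this, map_natCast] at hx
    exact hx
  rw [ZMod.natCast_eq_zero_iff] at h1
  obtain ⟨c, hc⟩ := h1
  refine ⟨(c : ZMod (p^3)), ?_⟩
  have : x = ((x.val : ℕ) : ZMod (p^3)) := (ZMod.natCast_zmod_val x).symm
  rw [this, hc]
  push_cast; ring

lemma wilson_half (hp : 5 ≤ p) (n : ℕ) (hn : 2*n+1 = p) :
    ∃ q : ZMod (p^3), -((-1)^n * ((n.factorial : ℕ) : ZMod (p^3))^2) = 1 + (p : ZMod (p^3)) * q := by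
  have hM := morley hp n hn
  have hc := congrArg (ZMod.castHom (dvd_pow_self p (by norm_num : 3 ≠ 0)) (ZMod p)) hM
  rw [map_natCast, map_mul, map_pow, map_ofNat] at hc
  have hw : (((2*n).factorial : ℕ) : ZMod p) = -1 := by
    have := ZMod.wilsons_lemma p
    rwa [show p - 1 = 2*n by omega] at this
  have h4 : (4 : ZMod p)^(2*n) = 1 := by
    have h40 : (4 : ZMod p) ≠ 0 := by
      intro h0
      have : ((4:ℕ) : ZMod p) = 0 := by exact_mod_cast h0
      rw [ZMod.natCast_eq_zero_iff] at this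
      have := Nat.le_of_dvd (by norm_num) this
      omega
    have := ZMod.pow_card_sub_one_eq_one h40
    rwa [show p - 1 = 2*n by omega] at this
  rw [hw, h4, one_mul] at hc
  obtain ⟨y, hy⟩ := exists_pi_of_cast_zero ((-1)^n * ((n.factorial : ℕ) : ZMod (p^3))^2 + 1) (by
    rw [map_add, ← hc, map_one]; ring)
  refine ⟨-y, ?_⟩
  linear_combination -hy

lemma base_eq (D : Dat p h w) (hp : 5 ≤ p) (n : ℕ) (hn : 2*n+1 = p) (U V : ℕ) (hUV : p^2 ∣ 2*U+2*V+1) :
    (-1)^(n+1) * ((g p (p*U) : ℤ) : ZMod (p^3))^2 * ((g p (n+1+p*V) : ℤ) : ZMod (p^3))^2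
      = (4^(2*n))^(2*U) := by
  obtain ⟨q, hq⟩ := wilson_half hp n hn
  obtain ⟨k, hk⟩ := hUV
  have hM := morley hp n hn
  rw [g_U hp n hn, g_V hp n hn, hM]
  set b := -((-1)^n * ((n.factorial : ℕ) : ZMod (p^3))^2) with hb
  have hbe : b^(2*U+2*V+1) = 1 := by
    rw [hq, pow_nil h ((p : ZMod (p^3)) * q) D.hh (by linear_combination (q^3) * pi_cube (p := p)), hk]
    push_cast
    linear_combination ((k : ZMod (p^3)) * q + h * k * ((p : ZMod (p^3))^2 * k - 1) * (p : ZMod (p^3)) * q^2) * pi_cube (p := p)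
  have e1 : -(4^(2*n) * ((-1)^n * ((n.factorial : ℕ) : ZMod (p^3))^2)) = 4^(2*n) * b := by rw [hb]; ring
  rw [e1]
  have hs : (((-1 : ZMod (p^3)))^(n+1))^2 = 1 := by rw [← pow_mul, mul_comm]; exact neg_one_even (n+1)
  have hbb : ((-1 : ZMod (p^3)))^(n+1) * ((n.factorial : ℕ) : ZMod (p^3))^2 = b := by rw [hb]; ring
  calc (-1)^(n+1) * ((4^(2*n) * b)^U)^2 * ((-1)^(n+1) * ((n.factorial : ℕ) : ZMod (p^3)) * b^V)^2
      = (((-1 : ZMod (p^3)))^(n+1) * ((n.factorial : ℕ) : ZMod (p^3))^2) * (((-1 : ZMod (p^3)))^(n+1))^2 *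
          ((4^(2*n))^(2*U) * b^(2*U+2*V)) := by
        rw [mul_pow (4^(2*n)) b U, mul_pow, pow_mul' (4^(2*n) : ZMod (p^3)) 2 U, pow_add b (2*U) (2*V), pow_mul' b 2 U, pow_mul' b 2 V]
        ring
    _ = (4^(2*n))^(2*U) * b^(2*U+2*V+1) := by rw [hbb, hs, pow_succ b]; ring
    _ = (4^(2*n))^(2*U) := by rw [hbe, mul_one]

lemma unit_add {j : ℕ} (hj : ¬ p ∣ j) (t : ZMod (p^3)) : IsUnit ((j : ZMod (p^3)) + (p : ZMod (p^3)) * t) := by
  have hi := inv_spec hj
  set z := (j : ZMod (p^3))⁻¹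
  refine IsUnit.of_mul_eq_one (z * (1 - (p : ZMod (p^3)) * t * z + ((p : ZMod (p^3)) * t * z)^2)) ?_
  have hpc := pi_cube (p := p)
  linear_combination (1 - (p : ZMod (p^3)) * t * z + ((p : ZMod (p^3)) * t * z)^2) * hi + (t^3 * z^3) * hpc

lemma main_A (D : Dat p h w) (hp : 5 ≤ p) (n : ℕ) (hn : 2*n+1 = p)
    (hS : S h w p (p : ZMod (p^3)) * 4^(2*n) = 1) (U V : ℕ) (hU : 1 ≤ U) (hUV : p^2 ∣ 2*U+2*V+1)
    (m : ℕ) (hm : m ≤ n) :
    (-1)^(n+1) * ((g p (p*U-m) : ℤ) : ZMod (p^3))^2 * ((g p (n+1+p*V+m) : ℤ) : ZMod (p^3))^2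
      = S h w p (2*(m : ZMod (p^3)) + (p : ZMod (p^3)) * (-2*U)) := by
  have hpU : p ≤ p*U := Nat.le_mul_of_pos_right p hU
  have hb := base_eq D hp n hn U V hUV
  rw [← S_mult D n hn hp hS U] at hb
  have hc := S_chain D n hn hp (-2*(U : ZMod (p^3))) m hm
  rw [← hb] at hc
  -- run from p U - m to p U
  have r1 := g_run (p := p) (p*U-m) m (by
    intro i hi hdv
    have e : (p*U - m + i) + (m - i) = p*U := by omega
    have h2 : p ∣ m - i := by
      have : p ∣ (p*U - m + i) + (m - i) := by rw [e]; exact dvd_mul_right p U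
      exact (Nat.dvd_add_right hdv).1 this
    have := Nat.le_of_dvd (by omega) h2
    omega)
  rw [show p*U - m + m = p*U by omega] at r1
  have r2 := g_run (p := p) (n+1+p*V) m (by
    intro i hi
    rw [show n+1+p*V+i = p*V + (n+1+i) by ring]
    exact not_dvd_add (by omega) (by omega) (dvd_mul_right p V))
  have q1 : ∏ i ∈ range m, (-((p*U-m+i : ℕ) : ZMod (p^3))) =
      ∏ j ∈ range m, (((j+1 : ℕ) : ZMod (p^3)) - (p : ZMod (p^3)) * U) := by
    rw [← Finset.prod_range_reflect]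
    apply Finset.prod_congr rfl
    intro j hj
    have hj' := mem_range.1 hj
    have e : (p*U - m + (m-1-j)) + (j+1) = p*U := by omega
    have := congrArg (Nat.cast : ℕ → ZMod (p^3)) e
    rw [Nat.cast_add, Nat.cast_mul] at this
    linear_combination -this
  have q2 : (∏ i ∈ range m, (2*((i+1 : ℕ) : ZMod (p^3)) + (p : ZMod (p^3))*(-2*U))^2) =
      4^m * (∏ j ∈ range m, (((j+1 : ℕ) : ZMod (p^3)) - (p : ZMod (p^3)) * U))^2 := by
    have e2 : ((4 : ZMod (p^3)))^m = ∏ j ∈ range m, (4 : ZMod (p^3)) := by simp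
    rw [e2, ← Finset.prod_pow, ← Finset.prod_mul_distrib]
    apply Finset.prod_congr rfl; intro j _; ring
  have q3 : (∏ i ∈ range m, (2*(i : ZMod (p^3)) + 1 + (p : ZMod (p^3))*(-2*U))^2) =
      4^m * (∏ i ∈ range m, (-((n+1+p*V+i : ℕ) : ZMod (p^3))))^2 := by
    have e2 : ((4 : ZMod (p^3)))^m = ∏ j ∈ range m, (4 : ZMod (p^3)) := by simp
    rw [e2, ← Finset.prod_pow, ← Finset.prod_mul_distrib]
    apply Finset.prod_congr rfl; intro i _
    obtain ⟨k, hk⟩ := hUV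
    have hk' := congrArg (Nat.cast : ℕ → ZMod (p^3)) hk
    push_cast at hk'
    have hpi := pi_eq n hn
    have hpc := pi_cube (p := p)
    have e : 2*(i : ZMod (p^3)) + 1 + (p : ZMod (p^3))*(-2*U) = 2 * ((n : ZMod (p^3)) + 1 + p * V + i) := by
      have h1 : (p : ZMod (p^3)) * (2*U+2*V+1) = 0 := by rw [hk']; linear_combination (k : ZMod (p^3)) * hpc
      linear_combination -h1 + hpi
    rw [e]; push_cast; ring
  have hunit : IsUnit (∏ i ∈ range m, (2*((i+1 : ℕ) : ZMod (p^3)) + (p : ZMod (p^3))*(-2*U))^2) := by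
    rw [IsUnit.prod_iff]
    intro i hi
    have hi' := mem_range.1 hi
    have hnd : ¬ p ∣ 2*(i+1) := fun hd => by have := Nat.le_of_dvd (by omega) hd; omega
    have := unit_add hnd (-2*(U : ZMod (p^3)))
    have e : ((2*(i+1) : ℕ) : ZMod (p^3)) = 2*((i+1 : ℕ) : ZMod (p^3)) := by push_cast; ring
    rw [e] at this
    exact this.pow 2
  apply hunit.mul_left_cancel
  rw [hc, q2, q3, r2, r1, q1]
  ring

end Pool.Agent.V11145.Trunc
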