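import Pool.Agent.V11145.TruncF

/-! The value at `a = p` over a field of characteristic zero. -/

namespace Pool.Agent.V11145.Trunc

open Finset

set_option linter.unusedSectionVars false

section field
variable {K : Type*} [Field K] [CharZero K]

/-- inverse factorials -/
def wK (K : Type*) [Field K] (k : ℕ) : K := 1 / (k.factorial : K)

lemma wK_step (k : ℕ) : wK K (k+1) * (k+1) = wK K k := by
  unfold wK
  have h1 : (k.factorial : K) ≠ 0 := by exact_mod_cast k.factorial_ne_zero
  have h2 : ((k : K) + 1) ≠ 0 := by exact_mod_cast k.succ_ne_zero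
  rw [Nat.factorial_succ]; push_cast
  field_simp

lemma full_odd (N : ℕ) (hN : 1 ≤ N) (i : ℕ) (hi : 2*i+1 ≤ N) :
    ∑ k ∈ range (N+1), tm (1/2 : K) (wK K) ((2*i+1 : ℕ) : K) k = 0 := by
  induction i with
  | zero =>
    obtain ⟨M, rfl⟩ : ∃ M, N = M + 1 := ⟨N-1, by omega⟩
    rw [show M+1+1 = 2 + M by ring, Finset.sum_range_add]
    have h0 : ∑ x ∈ range M, tm (1/2 : K) (wK K) ((2*0+1 : ℕ) : K) (2+x) = 0 := by
      apply Finset.sum_eq_zero
      intro x _
      have : rise (-((2*0+1 : ℕ) : K)) (2+x) = 0 := by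
        have := rise_dvd (-((2*0+1 : ℕ) : K)) (2+x) 1 (by omega)
        simp at this
        simpa using this
      unfold tm
      rw [this]; ring
    rw [h0, Finset.sum_range_succ, Finset.sum_range_one]
    simp [tm, rise, wK]
    norm_num
  | succ i ih =>
    have ih := ih (by omega)
    have z := zeil (1/2 : K) (wK K) N (by norm_num) (fun k _ => wK_step k) (by simp [wK])
      ((2*i+1 : ℕ) : K) N le_rfl
    have hz : rise (-((2*i+1 : ℕ) : K)-1) N = 0 := by
      have := rise_dvd (-((2*i+1 : ℕ) : K)-1) N (2*i+2) (by omega)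
      have e : (-((2*i+1 : ℕ) : K)-1) + ((2*i+2 : ℕ) : K) = 0 := by push_cast; ring
      rw [e, zero_dvd_iff] at this
      exact this
    rw [hz, Finset.sum_sub_distrib, ← Finset.mul_sum, ← Finset.mul_sum, ih] at z
    have e : ((2*i+1 : ℕ) : K) + 2 = ((2*(i+1)+1 : ℕ) : K) := by push_cast; ring
    rw [e] at z
    have hne : (((2*(i+1)+1 : ℕ) : K))^2 ≠ 0 := by
      apply pow_ne_zero
      exact_mod_cast (Nat.succ_ne_zero (2*(i+1)))
    have z' : (((2*(i+1)+1 : ℕ) : K))^2 * ∑ k ∈ range (N+1), tm (1/2 : K) (wK K) ((2*(i+1)+1 : ℕ) : K) k = 0 := by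
      linear_combination z
    exact (mul_eq_zero.1 z').resolve_left hne

lemma rise_neg (n : ℕ) : rise (-(n : K)) n = (-1)^n * (n.factorial : K) := by
  have : ∀ m : ℕ, m ≤ n → rise (-(n : K)) m * ((n-m).factorial : K) = (-1)^m * (n.factorial : K) := by
    intro m
    induction m with
    | zero => intro _; simp
    | succ m ih =>
      intro hm
      have ih := ih (by omega)
      rw [rise_succ]
      have e : n - m = (n - (m+1)) + 1 := by omega
      rw [e, Nat.factorial_succ] at ih
      push_cast at ih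
      have e2 : (((n - (m+1) : ℕ)) : K) = n - (m+1) := by
        rw [Nat.cast_sub hm]; push_cast; ring
      rw [e2] at ih
      linear_combination (-1 : K) * ih
  have := this n le_rfl
  simpa using this

lemma rise_half (n : ℕ) : rise (1/2 : K) n * 4^n * (n.factorial : K) = ((2*n).factorial : K) := by
  rw [fact_odd]
  have h1 : rise (1/2 : K) n * 2^n = (oddP n : K) := by
    unfold rise oddP
    have e2 : ((2 : K))^n = ∏ j ∈ range n, (2 : K) := by simp
    rw [e2, ← Finset.prod_mul_distrib]
    push_cast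
    apply Finset.prod_congr rfl
    intro i _; ring
  push_cast
  rw [← h1, show (4 : K) = 2 * 2 by norm_num, mul_pow]; ring

lemma rise_top (n : ℕ) : rise ((n : K) + 1) n * (n.factorial : K) = ((2*n).factorial : K) := by
  have h := Nat.factorial_mul_ascFactorial n n
  rw [Nat.ascFactorial_eq_prod_range] at h
  rw [two_mul, ← h]
  unfold rise
  push_cast
  ring

lemma S_at_p (p : ℕ) (n : ℕ) (hn : 2*n+1 = p) :
    4^p * S (1/2 : K) (wK K) p (p : K) = (((2*p).choose p : ℕ) : K)^2 := by
  have h0 := full_odd (K := K) p (by omega) n (by omega)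
  rw [hn, Finset.sum_range_succ] at h0
  have hS : S (1/2 : K) (wK K) p (p : K) = - tm (1/2 : K) (wK K) (p : K) p := by
    unfold S; linear_combination h0
  rw [hS]
  unfold tm
  have hsgn : ((-1 : K))^p = -1 := by rw [← hn, pow_succ, pow_mul]; norm_num
  rw [rise_neg, hsgn]
  have h1 := rise_half (K := K) p
  have h2 := rise_top (K := K) p
  have h3 : (((2*p).choose p : ℕ) : K) * (p.factorial : K) * (p.factorial : K) = ((2*p).factorial : K) := by
    have := Nat.add_choose_mul_factorial_mul_factorial p p
    rw [two_mul]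
    exact_mod_cast this
  have hf : (p.factorial : K) ≠ 0 := by exact_mod_cast p.factorial_ne_zero
  unfold wK
  field_simp
  have key : (4^p * rise (1/2 : K) p * rise ((p : K)+1) p) * ((p.factorial : K))^2 = (((2*p).choose p : ℕ) : K)^2 * ((p.factorial : K))^4 := by
    calc (4^p * rise (1/2 : K) p * rise ((p : K)+1) p) * ((p.factorial : K))^2
        = (rise (1/2 : K) p * 4^p * (p.factorial : K)) * (rise ((p : K)+1) p * (p.factorial : K)) := by ring
      _ = _ := by rw [h1, h2, ← h3]; ring
  have hf2 : ((p.factorial : K))^2 ≠ 0 := pow_ne_zero _ hf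
  apply mul_right_cancel₀ hf2
  linear_combination key

end field

end Pool.Agent.V11145.Trunc
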