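import Pool.Agent.V11145.TruncG

/-! Existence and uniqueness of Morita's `p`-adic Gamma function. -/

namespace Pool.Agent.V11145.Trunc

set_option linter.unusedSectionVars false

open Finset

variable {p : ℕ} [hpf : Fact p.Prime]

lemma sq_eq_one_zmod (hp : 3 ≤ p) (k : ℕ) (x : ZMod (p^k)) (hx : x^2 = 1) : x = 1 ∨ x = -1 := by
  obtain ⟨v, rfl⟩ : ∃ v : ℤ, (v : ZMod (p^k)) = x := ZMod.intCast_surjective x
  have hpp := hpf.out
  have h1 : ((p^k : ℕ) : ℤ) ∣ (v-1)*(v+1) := by
    rw [← ZMod.intCast_zmod_eq_zero_iff_dvd]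
    push_cast
    linear_combination hx
  have hprime : Prime (p : ℤ) := Nat.prime_iff_prime_int.1 hpp
  by_cases hd : (p : ℤ) ∣ v - 1
  · left
    have hnd : ¬ (p : ℤ) ∣ v + 1 := by
      intro h
      have h2 : (p : ℤ) ∣ 2 := by
        have := dvd_sub h hd
        rwa [show v + 1 - (v - 1) = 2 by ring] at this
      have := Int.le_of_dvd (by norm_num) h2
      omega
    have hc : IsCoprime ((p^k : ℕ) : ℤ) (v+1) := by
      push_cast
      exact IsCoprime.pow_left ((Prime.coprime_iff_not_dvd hprime).2 hnd)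
    have := hc.dvd_of_dvd_mul_right h1
    rw [← ZMod.intCast_zmod_eq_zero_iff_dvd] at this
    push_cast at this
    linear_combination this
  · right
    have hc : IsCoprime ((p^k : ℕ) : ℤ) (v-1) := by
      push_cast
      exact IsCoprime.pow_left ((Prime.coprime_iff_not_dvd hprime).2 hd)
    have := hc.dvd_of_dvd_mul_left h1
    rw [← ZMod.intCast_zmod_eq_zero_iff_dvd] at this
    push_cast at this
    linear_combination this

lemma prod_units (hp : 3 ≤ p) (k : ℕ) (hk : 1 ≤ k) : ∏ u : (ZMod (p^k))ˣ, u = -1 := by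
  classical
  have hpp := hpf.out
  have hne : (1 : (ZMod (p^k))ˣ) ≠ -1 := by
    intro h
    have h1 := congrArg Units.val h
    simp only [Units.val_one, Units.val_neg] at h1
    have h2 : ((2 : ℕ) : ZMod (p^k)) = 0 := by push_cast; linear_combination h1
    rw [ZMod.natCast_eq_zero_iff] at h2
    have := Nat.le_of_dvd (by norm_num) h2
    have : p ≤ p^k := by calc p = p^1 := by ring
          _ ≤ p^k := Nat.pow_le_pow_right (by omega) hk
    omega
  have h1 : ∏ u ∈ (univ : Finset (ZMod (p^k))ˣ) \ {1, -1}, u = 1 := by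
    apply Finset.prod_involution (fun u _ => u⁻¹)
    · intro u _; simp
    · intro u hu _ he
      have hsq : (u : ZMod (p^k))^2 = 1 := by
        have : u * u = 1 := by
          calc u * u = u⁻¹ * u := by rw [he]
            _ = 1 := by simp
        have := congrArg Units.val this
        rw [Units.val_mul, Units.val_one] at this
        rw [sq]; exact this
      rcases sq_eq_one_zmod hp k _ hsq with h | h
      · have : u = 1 := Units.ext h
        simp [this] at hu
      · have : u = -1 := Units.ext (by rw [h]; simp)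
        simp [this] at hu
    · intro u _; simp
    · intro u hu
      simp only [mem_sdiff, mem_univ, true_and, mem_insert, mem_singleton, not_or] at hu ⊢
      refine ⟨fun h => hu.1 (by rw [← inv_inv u, h, inv_one]), fun h => hu.2 (by rw [← inv_inv u, h]; simp)⟩
  have h2 := Finset.prod_sdiff (f := fun u : (ZMod (p^k))ˣ => u) (Finset.subset_univ {1, -1})
  rw [← h2, h1, Finset.prod_pair hne]
  simp

/-- the product over a full block, of units modulo `p^k` -/
def blk (p k x : ℕ) : ZMod (p^k) := ∏ j ∈ range (p^k), (if p ∣ (x + j) then (1 : ZMod (p^k)) else ((x + j : ℕ) : ZMod (p^k)))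

lemma blk_succ (k : ℕ) (hk : 1 ≤ k) (x : ℕ) : blk p k (x+1) = blk p k x := by
  unfold blk
  obtain ⟨M, hM⟩ : ∃ M, p^k = M + 1 := ⟨p^k - 1, by have := Nat.pow_pos (n := k) hpf.out.pos; omega⟩
  have hr : range (p^k) = range (M+1) := by rw [hM]
  rw [hr, Finset.prod_range_succ, Finset.prod_range_succ']
  have e1 : x + 1 + M = x + p^k := by omega
  have hd : p ∣ p^k := dvd_pow_self p (by omega)
  have e2 : (p ∣ x + p^k) ↔ (p ∣ x + 0) := by
    rw [add_zero]; exact Nat.dvd_add_left hd
  have e3 : ((x + p^k : ℕ) : ZMod (p^k)) = ((x + 0 : ℕ) : ZMod (p^k)) := by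
    rw [Nat.cast_add, ZMod.natCast_self, add_zero, add_zero]
  rw [e1, e3]
  simp only [e2]
  congr 1
  apply Finset.prod_congr rfl
  intro j _
  rw [show x + 1 + j = x + (j+1) by ring]

lemma blk_eq (hp : 3 ≤ p) (k : ℕ) (hk : 1 ≤ k) (x : ℕ) : blk p k x = -1 := by
  classical
  have h0 : blk p k x = blk p k 0 := by
    induction x with
    | zero => rfl
    | succ x ih => rw [blk_succ k hk, ih]
  rw [h0]
  have hu := congrArg Units.val (prod_units (p := p) hp k hk)
  rw [Units.coe_prod] at hu
  rw [show ((-1 : (ZMod (p^k))ˣ) : ZMod (p^k)) = -1 by simp] at hu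
  rw [← hu]
  unfold blk
  have : NeZero (p^k) := ⟨(Nat.pow_pos hpf.out.pos).ne'⟩
  rw [← Finset.prod_filter_ne_one]
  have key : ∀ j : ℕ, ¬ p ∣ j → IsUnit ((j : ℕ) : ZMod (p^k)) := by
    intro j hj
    rw [ZMod.isUnit_iff_coprime]
    exact (Nat.Coprime.pow_right k ((Nat.Prime.coprime_iff_not_dvd hpf.out).2 hj).symm)
  symm
  rw [← Finset.prod_filter_ne_one]
  refine Finset.prod_bij (fun (u : (ZMod (p^k))ˣ) _ => (u : ZMod (p^k)).val) ?_ ?_ ?_ ?_
  · intro u hu'
    simp only [mem_filter, mem_univ, true_and, mem_range] at hu' ⊢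
    refine ⟨ZMod.val_lt _, ?_⟩
    have hnd : ¬ p ∣ 0 + (u : ZMod (p^k)).val := by
      rw [zero_add]
      intro hd
      have h2 : IsUnit (((u : ZMod (p^k)).val : ℕ) : ZMod (p^k)) := by
        rw [ZMod.natCast_zmod_val]; exact u.isUnit
      rw [ZMod.isUnit_iff_coprime] at h2
      have h3 : p ∣ 1 := by
        rw [← h2]
        exact Nat.dvd_gcd hd (dvd_pow_self p (by omega))
      exact hpf.out.one_lt.ne' (Nat.dvd_one.1 h3)
    simp only [hnd, if_false]
    rw [zero_add, ZMod.natCast_zmod_val]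
    exact hu'
  · intro u _ v _ huv
    apply Units.ext
    exact ZMod.val_injective _ huv
  · intro j hj
    simp only [mem_filter, mem_range] at hj
    by_cases hd : p ∣ 0 + j
    · simp at hj
      rw [zero_add] at hd
      exact absurd hd hj.2.1
    · simp only [hd, if_false] at hj
      rw [zero_add] at hj hd
      obtain ⟨u, hu2⟩ := key j hd
      refine ⟨u, ?_, ?_⟩
      · simp only [mem_filter, mem_univ, true_and]
        rw [hu2]; exact hj.2
      · rw [hu2]
        rw [ZMod.val_natCast, Nat.mod_eq_of_lt hj.1]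
  · intro u hu'
    have hnd : ¬ p ∣ 0 + (u : ZMod (p^k)).val := by
      rw [zero_add]
      intro hd
      have h2 : IsUnit (((u : ZMod (p^k)).val : ℕ) : ZMod (p^k)) := by
        rw [ZMod.natCast_zmod_val]; exact u.isUnit
      rw [ZMod.isUnit_iff_coprime] at h2
      have h3 : p ∣ 1 := by
        rw [← h2]
        exact Nat.dvd_gcd hd (dvd_pow_self p (by omega))
      exact hpf.out.one_lt.ne' (Nat.dvd_one.1 h3)
    simp only [hnd, if_false]
    rw [zero_add, ZMod.natCast_zmod_val]

lemma g_add (k x m : ℕ) :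
    ((g p (x+m) : ℤ) : ZMod (p^k)) = ((g p x : ℤ) : ZMod (p^k)) * ((-1)^m * ∏ j ∈ range m, (if p ∣ (x + j) then (1 : ZMod (p^k)) else ((x + j : ℕ) : ZMod (p^k)))) := by
  induction m with
  | zero => simp
  | succ m ih =>
    rw [← add_assoc, g_succ, Finset.prod_range_succ]
    push_cast
    rw [ih]
    unfold kap
    by_cases hd : p ∣ x + m
    · simp only [hd, if_true]; push_cast; ring
    · simp only [hd, if_false]; push_cast; ring

lemma g_period (hp : 3 ≤ p) (k x : ℕ) : ((g p (x+p^k) : ℤ) : ZMod (p^k)) = ((g p x : ℤ) : ZMod (p^k)) := by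
  rcases Nat.eq_zero_or_pos k with h0 | h0
  · subst h0
    exact Subsingleton.elim (α := ZMod 1) _ _
  · rw [g_add]
    have := blk_eq (p := p) hp k h0 x
    unfold blk at this
    rw [this]
    have hodd : Odd (p^k) := by
      apply Odd.pow
      rcases hpf.out.eq_two_or_odd' with h | h
      · omega
      · exact h
    rw [hodd.neg_one_pow]; ring

lemma g_period_mul (hp : 3 ≤ p) (k x c : ℕ) : ((g p (x+p^k*c) : ℤ) : ZMod (p^k)) = ((g p x : ℤ) : ZMod (p^k)) := by
  induction c with
  | zero => simp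
  | succ c ih => rw [show x + p^k*(c+1) = (x + p^k*c) + p^k by ring, g_period hp, ih]

lemma g_congr (hp : 3 ≤ p) (k x y : ℕ) (hxy : (x : ZMod (p^k)) = (y : ZMod (p^k))) :
    ((g p x : ℤ) : ZMod (p^k)) = ((g p y : ℤ) : ZMod (p^k)) := by
  have h1 : ∀ z : ℕ, ((g p z : ℤ) : ZMod (p^k)) = ((g p (z % p^k) : ℤ) : ZMod (p^k)) := by
    intro z
    conv_lhs => rw [← Nat.mod_add_div z (p^k)]
    rw [g_period_mul hp]
  rw [h1 x, h1 y]
  rw [ZMod.natCast_eq_natCast_iff'] at hxy
  rw [hxy]

end Pool.Agent.V11145.Trunc
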