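import Pool.Agent.V11145.TruncH

/-! Morita's `p`-adic Gamma function and the final comparison. -/

namespace Pool.Agent.V11145.Trunc

set_option linter.unusedSectionVars false

open Finset

variable {p : ℕ} [hpf : Fact p.Prime]

lemma toZModPow_appr (x : ℤ_[p]) (n : ℕ) : PadicInt.toZModPow n x = ((x.appr n : ℕ) : ZMod (p^n)) := by
  have h := PadicInt.appr_spec n x
  rw [← PadicInt.ker_toZModPow, RingHom.mem_ker, map_sub, map_natCast, sub_eq_zero] at h
  exact h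

lemma gam_dvd (hp : 3 ≤ p) (x : ℤ_[p]) (i : ℕ) : (p : ℤ)^i ∣ g p (x.appr (i+1)) - g p (x.appr i) := by
  have h1 : ((x.appr (i+1) : ℕ) : ZMod (p^i)) = ((x.appr i : ℕ) : ZMod (p^i)) := by
    have h2 := PadicInt.dvd_appr_sub_appr x i (i+1) (Nat.le_succ i)
    have h3 : x.appr i ≤ x.appr (i+1) := PadicInt.appr_mono x (Nat.le_succ i)
    obtain ⟨c, hc⟩ := h2
    have : x.appr (i+1) = x.appr i + p^i*c := by omega
    rw [this, Nat.cast_add, Nat.cast_mul, ZMod.natCast_self]; ring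
  have h4 := g_congr hp i _ _ h1
  have h5 : (((g p (x.appr (i+1)) - g p (x.appr i) : ℤ)) : ZMod (p^i)) = 0 := by
    push_cast; rw [h4]; ring
  rw [ZMod.intCast_zmod_eq_zero_iff_dvd] at h5
  exact_mod_cast h5

/-- Morita's Gamma function, constructed as a limit. -/
noncomputable def gam (hp : 3 ≤ p) (x : ℤ_[p]) : ℤ_[p] :=
  PadicInt.ofIntSeq _ (PadicInt.isCauSeq_padicNorm_of_pow_dvd_sub (fun i => g p (x.appr i)) p (gam_dvd hp x))

lemma gam_mod (hp : 3 ≤ p) (x : ℤ_[p]) (n : ℕ) :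
    PadicInt.toZModPow n (gam hp x) = ((g p (x.appr n) : ℤ) : ZMod (p^n)) :=
  PadicInt.toZModPow_ofIntSeq_of_pow_dvd_sub (fun i => g p (x.appr i)) p (gam_dvd hp x) n

lemma gam_mod' (hp : 3 ≤ p) (x : ℤ_[p]) (n k : ℕ) (h : PadicInt.toZModPow n x = (k : ZMod (p^n))) :
    PadicInt.toZModPow n (gam hp x) = ((g p k : ℤ) : ZMod (p^n)) := by
  rw [gam_mod]
  apply g_congr hp
  rw [← toZModPow_appr, h]

lemma gam_nat (hp : 3 ≤ p) (n : ℕ) : gam hp (n : ℤ_[p]) = (g p n : ℤ_[p]) := by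
  rw [← PadicInt.ext_of_toZModPow]
  intro k
  rw [gam_mod' hp _ k n (by rw [map_natCast]), map_intCast]

lemma gam_cont (hp : 3 ≤ p) : Continuous (gam (p := p) hp) := by
  rw [Metric.continuous_iff]
  intro b ε hε
  obtain ⟨n, hn⟩ := PadicInt.exists_pow_neg_lt p hε
  refine ⟨(p : ℝ)^(-(n : ℤ)), by have := hpf.out.pos; positivity, ?_⟩
  intro a ha
  rw [dist_eq_norm] at ha ⊢
  refine lt_of_le_of_lt ?_ hn
  rw [PadicInt.norm_le_pow_iff_mem_span_pow, ← PadicInt.ker_toZModPow, RingHom.mem_ker, map_sub, sub_eq_zero]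
  have h1 := (PadicInt.norm_le_pow_iff_mem_span_pow (a - b) n).1 ha.le
  rw [← PadicInt.ker_toZModPow, RingHom.mem_ker, map_sub, sub_eq_zero] at h1
  rw [gam_mod' hp a n (b.appr n) (by rw [h1, toZModPow_appr]), gam_mod]

lemma unique_of_nat (F G : ℤ_[p] → ℤ_[p]) (hF : Continuous F) (hG : Continuous G)
    (h : ∀ n : ℕ, 1 ≤ n → F n = G n) : F = G := by
  have hd : DenseRange (fun n : ℕ => (n : ℤ_[p]) + 1) := by
    have h1 : DenseRange (fun x : ℤ_[p] => x + 1) := (Homeomorph.addRight (1 : ℤ_[p])).surjective.denseRange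
    exact h1.comp PadicInt.denseRange_natCast (by fun_prop)
  apply DenseRange.equalizer hd hF hG
  funext n
  have := h (n+1) (by omega)
  push_cast at this
  simpa using this

/-! ### The truncated sum in `ℤ_[p]` -/

/-- one half in `ℤ_[p]` -/
noncomputable def hZ (p : ℕ) [Fact p.Prime] : ℤ_[p] := Ring.inverse 2

/-- inverse factorials in `ℤ_[p]` -/
noncomputable def wZ (p : ℕ) [Fact p.Prime] (k : ℕ) : ℤ_[p] := Ring.inverse (k.factorial : ℤ_[p])

lemma isUnit_nat {j : ℕ} (hj : ¬ p ∣ j) : IsUnit (j : ℤ_[p]) := by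
  rw [PadicInt.isUnit_iff]
  have h1 : ¬ ‖((j : ℤ) : ℤ_[p])‖ < 1 := by
    rw [PadicInt.norm_int_lt_one_iff_dvd]
    exact_mod_cast hj
  push_cast at h1
  exact le_antisymm (PadicInt.norm_le_one _) (not_lt.1 h1)

lemma hZ_spec (hp : 3 ≤ p) : 2 * hZ p = 1 := by
  have h2 : IsUnit ((2 : ℕ) : ℤ_[p]) := isUnit_nat (fun h => by have := Nat.le_of_dvd (by norm_num) h; omega)
  have := Ring.mul_inverse_cancel _ h2
  unfold hZ
  exact_mod_cast this

lemma wZ_spec (k : ℕ) (hk : k < p) : wZ p k * (k.factorial : ℤ_[p]) = 1 := by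
  have h2 : IsUnit ((k.factorial : ℕ) : ℤ_[p]) := isUnit_nat (fun h => by
    rw [Nat.Prime.dvd_factorial hpf.out] at h; omega)
  exact Ring.inverse_mul_cancel _ h2

lemma hZ_coe (hp : 3 ≤ p) : ((hZ p : ℤ_[p]) : ℚ_[p]) = 1/2 := by
  have := congrArg (PadicInt.Coe.ringHom : ℤ_[p] →+* ℚ_[p]) (hZ_spec (p := p) hp)
  rw [map_mul, map_one, map_ofNat] at this
  have h2 : (PadicInt.Coe.ringHom : ℤ_[p] →+* ℚ_[p]) (hZ p) = ((hZ p : ℤ_[p]) : ℚ_[p]) := rfl
  rw [h2] at this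
  linear_combination (1/2) * this

lemma wZ_coe (k : ℕ) (hk : k < p) : ((wZ p k : ℤ_[p]) : ℚ_[p]) = wK ℚ_[p] k := by
  have := congrArg (PadicInt.Coe.ringHom : ℤ_[p] →+* ℚ_[p]) (wZ_spec (p := p) k hk)
  rw [map_mul, map_one, map_natCast] at this
  have h2 : (PadicInt.Coe.ringHom : ℤ_[p] →+* ℚ_[p]) (wZ p k) = ((wZ p k : ℤ_[p]) : ℚ_[p]) := rfl
  rw [h2] at this
  unfold wK
  have hf : ((k.factorial : ℕ) : ℚ_[p]) ≠ 0 := by exact_mod_cast k.factorial_ne_zero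
  field_simp
  exact this

lemma S_coe (hp : 3 ≤ p) (a : ℤ_[p]) :
    ((S (hZ p) (wZ p) p a : ℤ_[p]) : ℚ_[p]) = S (1/2 : ℚ_[p]) (wK ℚ_[p]) p (a : ℚ_[p]) := by
  have := map_S (PadicInt.Coe.ringHom : ℤ_[p] →+* ℚ_[p]) (hZ p) (wZ p) (wK ℚ_[p]) p
    (fun k hk => wZ_coe k hk) a
  have h2 : (PadicInt.Coe.ringHom : ℤ_[p] →+* ℚ_[p]) (hZ p) = 1/2 := hZ_coe hp
  rw [h2] at this
  exact this

/-- the reduction of inverse factorials -/
noncomputable def wA (p : ℕ) [Fact p.Prime] (k : ℕ) : ZMod (p^3) := PadicInt.toZModPow 3 (wZ p k)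

/-- the reduction of one half -/
noncomputable def hA (p : ℕ) [Fact p.Prime] : ZMod (p^3) := PadicInt.toZModPow 3 (hZ p)

lemma datA (hp : 3 ≤ p) : Dat p (hA p) (wA p) where
  hh := by
    have := congrArg (PadicInt.toZModPow (p := p) 3) (hZ_spec (p := p) hp)
    rw [map_mul, map_one, map_ofNat] at this
    exact this
  hw := by
    intro k hk
    have := congrArg (PadicInt.toZModPow (p := p) 3) (wZ_spec (p := p) k hk)
    rw [map_mul, map_one, map_natCast] at this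
    exact this

lemma S_red (a : ℤ_[p]) :
    PadicInt.toZModPow 3 (S (hZ p) (wZ p) p a) = S (hA p) (wA p) p (PadicInt.toZModPow 3 a) :=
  map_S (PadicInt.toZModPow (p := p) 3) (hZ p) (wZ p) (wA p) p (fun _ _ => rfl) a

lemma S_p_val (hp : 5 ≤ p) (n : ℕ) (hn : 2*n+1 = p) :
    S (hA p) (wA p) p (p : ZMod (p^3)) * 4^(2*n) = 1 := by
  have h1 := S_at_p (K := ℚ_[p]) p n hn
  have h2 := S_coe (p := p) (by omega) (p : ℤ_[p])
  have hcp : (((p : ℕ) : ℤ_[p]) : ℚ_[p]) = ((p : ℕ) : ℚ_[p]) := by simp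
  rw [hcp] at h2
  rw [← h2] at h1
  have h3 : (4 : ℤ_[p])^p * S (hZ p) (wZ p) p (p : ℤ_[p]) = (((2*p).choose p : ℕ) : ℤ_[p])^2 := by
    apply Subtype.coe_injective
    push_cast
    exact_mod_cast h1
  have h4 := congrArg (PadicInt.toZModPow (p := p) 3) h3
  rw [map_mul, map_pow, map_pow, S_red, map_natCast, map_natCast, map_ofNat, choose_cast hp n hn] at h4
  have hu : IsUnit (4 : ZMod (p^3)) := by
    have := (isUnit_two n hn).pow 2
    rw [show (2 : ZMod (p^3))^2 = 4 by norm_num] at this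
    exact this
  apply hu.mul_left_cancel
  have h5 : ∀ q : ℕ, 2*n+1 = q → (4 : ZMod (p^3))^q = 4 * 4^(2*n) := by
    intro q hq
    rw [← hq]; ring
  rw [h5 p hn] at h4
  linear_combination h4

end Pool.Agent.V11145.Trunc
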